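import Pool.Agent.Lib.H98M.MF
import Pool.Agent.Lib.H36L.L2

/-!
# H56C, file C2: maximal plane sets are 2-connected

`no_cut`: let `F` be a maximal plane set of edges of `W` (crossing relation with `Geo`, in particular two free
rays). For every `v` and every partition `A`, `B` of `W - v` into nonempty parts some edge of `F` joins `A` and `B`
(`v` not in `W`: `F` is connected).

PROOF. Induction on `|W|`. (1) `maxP_del`: a vertex of degree two can be deleted (the rest stays maximal).
(2) All degrees at least 3: Dirac's subdivided K4 (`H98M.dirac`) is in `A + v` or in `B + v` (`cyc_side`), so it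
misses a vertex, and one of its cycles has vertices on both sides (`H98M.k4`). (3) `split_cyc`: delete the side
without a vertex `b` of `B`; a maximal extension of the rest has an edge joining `A` and `B` by induction, it has
an end off the cycle, so it misses all of `F`.
-/

set_option autoImplicit false
set_option linter.unusedSectionVars false

namespace H56C

open Finset H98P H98Z H98M H36L

variable {V : Type*} [Fintype V] [DecidableEq V]

/-- `A`, `B` is a partition of `W - v` and no edge of `F` joins `A` and `B`. -/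
structure Cut (W : Finset V) (F : Finset (Sym2 V)) (v : V) (A B : Finset V) : Prop where
  nA : A.Nonempty
  nB : B.Nonempty
  dis : Disjoint A B
  un : A ∪ B = W.erase v
  no : ∀ a ∈ A, ∀ b ∈ B, s(a, b) ∉ F

theorem Cut.symm {W : Finset V} {F : Finset (Sym2 V)} {v : V} {A B : Finset V} (h : Cut W F v A B) :
    Cut W F v B A :=
  ⟨h.nB, h.nA, h.dis.symm, by rw [union_comm]; exact h.un, fun b hb a ha => by
    rw [Sym2.eq_swap]
    exact h.no a ha b hb⟩

theorem Cut.mA {W : Finset V} {F : Finset (Sym2 V)} {v : V} {A B : Finset V} (h : Cut W F v A B) {a : V}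
    (ha : a ∈ A) : a ≠ v ∧ a ∈ W := by
  have h1 : a ∈ W.erase v := by
    rw [← h.un]
    exact mem_union_left _ ha
  exact mem_erase.1 h1

/-- A chain of `F` which misses `v` stays in its part. -/
theorem chain_in {W : Finset V} {F : Finset (Sym2 V)} {v : V} {A B : Finset V} (hF : F ⊆ LW W)
    (h : Cut W F v A B) : ∀ (l : List V) (x : V), x ∈ A → v ∉ l →
    (x :: l).IsChain (fun a b => s(a, b) ∈ F) → ∀ y ∈ l, y ∈ A
  | [], _, _, _, _ => fun y hy => absurd hy List.not_mem_nil
  | b :: l, x, hx, hv, hl => by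
    rw [List.isChain_cons_cons] at hl
    have hbv : b ≠ v := fun e => hv (by rw [← e]; exact List.mem_cons_self)
    have hb : b ∈ A := by
      have h2 := (mem_LW.1 (hF hl.1)).2.1
      have h3 : b ∈ A ∪ B := by
        rw [h.un]
        exact mem_erase.2 ⟨hbv, h2⟩
      rcases mem_union.1 h3 with h3 | h3
      · exact h3
      · exact absurd hl.1 (h.no x hx b h3)
    intro y hy
    rcases List.mem_cons.1 hy with rfl | hy
    · exact hb
    · exact chain_in hF h l b hb (fun h1 => hv (List.mem_cons_of_mem _ h1)) hl.2 y hy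

/-- A cycle of `F` without `v` is a chain. -/
theorem cyc_chain {F : Finset (Sym2 V)} (v : V) {L : List V} (hn : L.Nodup) (hL : ∀ e ∈ ce L, e ∈ F) :
    ∃ M : List V, v ∉ M ∧ (∀ y ∈ L, y ≠ v → y ∈ M) ∧ M.IsChain (fun a b => s(a, b) ∈ F) ∧
      ∀ y ∈ M, y ∈ L := by
  by_cases hv : v ∈ L
  · obtain ⟨l1, l2, hl⟩ := List.append_of_mem hv
    subst hl
    rw [List.nodup_append] at hn
    obtain ⟨_, hn2, hn3⟩ := hn
    have h2 : v ∉ l2 := (List.nodup_cons.1 hn2).1
    have h1 : v ∉ l1 := fun h => hn3 v h v List.mem_cons_self rfl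
    cases l1 with
    | nil =>
      refine ⟨l2, h2, fun y hy hyv => ?_, ?_, fun y hy => List.mem_cons_of_mem _ hy⟩
      · rcases List.mem_cons.1 hy with h | h
        · exact absurd h hyv
        · exact h
      · rw [List.nil_append, ce, we_chain] at hL
        exact (List.isChain_append.1 (List.isChain_cons.1 hL).2).1
    | cons a l1 =>
      refine ⟨l2 ++ (a :: l1), ?_, fun y hy hyv => ?_, ?_, fun y hy => ?_⟩
      · rw [List.mem_append]
        rintro (h | h)
        · exact h2 h
        · exact h1 h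
      · rw [List.mem_append, List.mem_cons (a := y) (b := v)] at hy
        rw [List.mem_append]
        rcases hy with h | h | h
        · exact Or.inr h
        · exact absurd h hyv
        · exact Or.inl h
      · rw [List.cons_append, ce, we_chain] at hL
        have e1 : a :: (l1 ++ v :: l2 ++ [a]) = (a :: l1) ++ (v :: (l2 ++ [a])) := by simp
        rw [e1, List.isChain_append] at hL
        obtain ⟨c1, c2, _⟩ := hL
        have c3 := (List.isChain_append.1 (List.isChain_cons.1 c2).2)
        refine List.isChain_append.2 ⟨c3.1, c1, fun x hx y hy => ?_⟩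
        exact c3.2.2 x hx y (by
          rw [List.head?_cons] at hy ⊢
          exact hy)
      · rw [List.mem_append] at hy ⊢
        rcases hy with h | h
        · exact Or.inr (List.mem_cons_of_mem _ h)
        · exact Or.inl h
  · refine ⟨L, hv, fun y hy _ => hy, ?_, fun y hy => hy⟩
    cases L with
    | nil => exact List.isChain_nil
    | cons a l =>
      rw [ce, we_chain, ← List.cons_append, List.isChain_append] at hL
      exact hL.1

/-- A cycle of `F` lies in `A + v` or in `B + v`. -/
theorem cyc_side {W : Finset V} {F : Finset (Sym2 V)} {v : V} {A B : Finset V} (hF : F ⊆ LW W)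
    (h : Cut W F v A B) {L : List V} (hn : L.Nodup) (hLW : ∀ y ∈ L, y ∈ W) (hL : ∀ e ∈ ce L, e ∈ F) :
    (∀ y ∈ L, y ≠ v → y ∈ A) ∨ ∀ y ∈ L, y ≠ v → y ∈ B := by
  obtain ⟨M, hvM, hLM, hM, hML⟩ := cyc_chain v hn hL
  cases M with
  | nil =>
    left
    intro y hy hyv
    exact absurd (hLM y hy hyv) List.not_mem_nil
  | cons x M =>
    have hxv : x ≠ v := fun e => hvM (by rw [← e]; exact List.mem_cons_self)
    have hvM' : v ∉ M := fun h1 => hvM (List.mem_cons_of_mem _ h1)
    have hx : x ∈ A ∪ B := by
      rw [h.un]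
      exact mem_erase.2 ⟨hxv, hLW x (hML x List.mem_cons_self)⟩
    rcases mem_union.1 hx with hx | hx
    · left
      intro y hy hyv
      rcases List.mem_cons.1 (hLM y hy hyv) with rfl | h1
      · exact hx
      · exact chain_in hF h M x hx hvM' hM y h1
    · right
      intro y hy hyv
      rcases List.mem_cons.1 (hLM y hy hyv) with rfl | h1
      · exact hx
      · exact chain_in hF h.symm M x hx hvM' hM y h1

theorem plane_ins {cross : Sym2 V → Sym2 V → Prop} (hG : Geo cross) {F : Finset (Sym2 V)}
    (hp : Plane cross F) {e : Sym2 V} (he : ∀ f ∈ F, ¬ cross e f) : Plane cross (insert e F) := by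
  have hee : ¬ cross e e := by
    clear he
    induction e with
    | _ x y => exact hG.adj x y y
  intro a ha b hb
  rcases mem_insert.1 ha with h1 | h1
  · rcases mem_insert.1 hb with h2 | h2
    · rw [h1, h2]
      exact hee
    · rw [h1]
      exact he b h2
  · rcases mem_insert.1 hb with h2 | h2
    · rw [h2]
      exact fun h => he a h1 (hG.symm _ _ h)
    · exact hp a h1 b h2

theorem filter_LW {W : Finset V} {F : Finset (Sym2 V)} (hF : F ⊆ LW W) (w : V) :
    ∀ e ∈ F.filter (fun e => w ∉ e), e ∈ LW (W.erase w) := by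
  intro e he
  obtain ⟨h3, h4⟩ := mem_filter.1 he
  have h5 := hF h3
  induction e with
  | _ a b =>
    rw [mem_LW] at h5 ⊢
    rw [Sym2.mem_iff, not_or] at h4
    exact ⟨mem_erase.2 ⟨Ne.symm h4.1, h5.1⟩, mem_erase.2 ⟨Ne.symm h4.2, h5.2.1⟩, h5.2.2⟩

/-- A vertex of degree two can be deleted. -/
theorem maxP_del {cross : Sym2 V → Sym2 V → Prop} (hG : Geo cross) {W : Finset V}
    {F : Finset (Sym2 V)} (hR : MaxP cross W F) (h4 : 4 ≤ W.card) {w x y : V} (hw : w ∈ W)
    (hd : ∀ z, s(w, z) ∈ F → z = x ∨ z = y) :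
    MaxP cross (W.erase w) (F.filter fun e => w ∉ e) := by
  have hsub := filter_LW hR.1 w
  refine ⟨hsub, plane_sub (filter_subset _ _) hR.2.1, fun e he hc => ?_⟩
  have hwe : w ∉ e := by
    induction e with
    | _ a b =>
      rw [mem_LW] at he
      rw [Sym2.mem_iff, not_or]
      exact ⟨fun h => (mem_erase.1 he.1).1 h.symm, fun h => (mem_erase.1 he.2.1).1 h.symm⟩
  obtain ⟨z, hz, z', hz', hne, h1, h2⟩ := hG.v2 W (by omega) w hw
    (insert e (F.filter fun e => w ∉ e)) (by
      intro f hf
      rcases mem_insert.1 hf with rfl | hf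
      · exact he
      · exact hsub f hf)
    (plane_ins hG (plane_sub (filter_subset _ _) hR.2.1) hc)
  have h3 := maxP_sees hG.adj hR hw hz fun f hf => h1 f (mem_insert_of_mem hf)
  have h3' := maxP_sees hG.adj hR hw hz' fun f hf => h2 f (mem_insert_of_mem hf)
  refine mem_filter.2 ⟨hR.2.2 e (LW_mono (erase_subset _ _) he) fun f hf => ?_, hwe⟩
  by_cases hwf : w ∈ f
  · obtain ⟨a, rfl⟩ := hwf
    have ha : a = z ∨ a = z' := by
      rcases hd a hf with h5 | h5 <;> rcases hd z h3 with h6 | h6 <;> rcases hd z' h3' with h7 | h7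
      · exact absurd (h6.trans h7.symm) hne
      · exact Or.inl (h5.trans h6.symm)
      · exact Or.inr (h5.trans h7.symm)
      · exact absurd (h6.trans h7.symm) hne
      · exact absurd (h6.trans h7.symm) hne
      · exact Or.inr (h5.trans h7.symm)
      · exact Or.inl (h5.trans h6.symm)
      · exact absurd (h6.trans h7.symm) hne
    rcases ha with rfl | rfl
    · exact fun h => h1 e (mem_insert_self _ _) (hG.symm _ _ h)
    · exact fun h => h2 e (mem_insert_self _ _) (hG.symm _ _ h)
  · exact hc f (mem_filter.2 ⟨hf, hwf⟩)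

/-- A cycle of `F` in `A + v` with `x`, `y` on different sides and `b` on the side of `x`. -/
theorem split_cyc {cross : Sym2 V → Sym2 V → Prop} (hG : Geo cross) {W : Finset V}
    {F : Finset (Sym2 V)} (hR : MaxP cross W F) {v : V} {A B : Finset V} (hC : Cut W F v A B)
    (ih : ∀ W' : Finset V, W' ⊂ W → ∀ F' : Finset (Sym2 V), MaxP cross W' F' →
      ∀ (v : V) (A B : Finset V), ¬ Cut W' F' v A B)
    {L : List V} (hn : L.Nodup) (hLW : ∀ y ∈ L, y ∈ W) (hLF : ∀ e ∈ ce L, e ∈ F)
    (hLA : ∀ y ∈ L, y ≠ v → y ∈ A) {x y : V} (hy : y ∈ W) (hxL : x ∉ L) (hyL : y ∉ L)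
    (hsd : cy (cr cross s(y, x)) L = 1) {b : V} (hb : b ∈ B) (hbx : cy (cr cross s(b, x)) L = 0) :
    False := by
  obtain ⟨hF, hp, hmax⟩ := hR
  have hBL : ∀ u ∈ B, u ∉ L := fun u hu h =>
    disjoint_left.1 hC.dis (hLA u h (hC.symm.mA hu).1) hu
  have hbL : b ∉ L := hBL b hb
  have hbW : b ∈ W := (hC.symm.mA hb).2
  have hnd : ∀ e ∈ ce L, ¬ e.IsDiag := by
    intro e he
    have h1 := hF (hLF e he)
    induction e with
    | _ a b =>
      rw [Sym2.mk_isDiag_iff]
      exact (mem_LW.1 h1).2.2
  obtain ⟨Out, hOut⟩ : ∃ Out : Finset V, ∀ w, w ∈ Out ↔ w ∈ W ∧ w ∉ L ∧ cy (cr cross s(w, x)) L ≠ 0 := by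
    classical
    exact ⟨W.filter fun w => w ∉ L ∧ cy (cr cross s(w, x)) L ≠ 0, fun w => mem_filter⟩
  obtain ⟨W', hW'⟩ : ∃ W' : Finset V, W' = W \ Out := ⟨_, rfl⟩
  have hmW' : ∀ w, w ∈ W' ↔ w ∈ W ∧ w ∉ Out := fun w => by rw [hW', mem_sdiff]
  have hW'W : W' ⊆ W := fun w hw => ((hmW' w).1 hw).1
  have hyO : y ∈ Out := (hOut y).2 ⟨hy, hyL, by rw [hsd]; exact one_ne_zero⟩
  have hssub : W' ⊂ W := ⟨hW'W, fun h => ((hmW' y).1 (h hy)).2 hyO⟩
  have hbW' : b ∈ W' := (hmW' b).2 ⟨hbW, fun h => ((hOut b).1 h).2.2 hbx⟩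
  have hLW' : ∀ a ∈ L, a ∈ W' := fun a ha => (hmW' a).2 ⟨hLW a ha, fun h => ((hOut a).1 h).2.1 ha⟩
  obtain ⟨F', hF'⟩ : ∃ F' : Finset (Sym2 V), ∀ e, e ∈ F' ↔ e ∈ F ∧ e ∈ LW W' :=
    ⟨F.filter fun e => e ∈ LW W', fun e => mem_filter⟩
  have hceF' : ∀ e ∈ ce L, e ∈ F' := by
    intro e he
    refine (hF' e).2 ⟨hLF e he, ?_⟩
    have h1 := hnd e he
    induction e with
    | _ a b =>
      rw [mem_LW]
      exact ⟨hLW' a (mem_ce he (Sym2.mem_mk_left a b)), hLW' b (mem_ce he (Sym2.mem_mk_right a b)),
        fun h => h1 (Sym2.mk_isDiag_iff.2 h)⟩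
  -- an edge with an end inside and an edge with an end outside do not cross
  have hsep : ∀ p q r t : V, p ∈ W' → p ∉ L → r ∈ Out → (∀ e ∈ ce L, ¬ cross s(p, q) e) →
      (∀ e ∈ ce L, ¬ cross s(r, t) e) → ¬ cross s(p, q) s(r, t) := by
    intro p q r t hpW hpL hr h1 h2 hc
    obtain ⟨_, hrL, hrx⟩ := (hOut r).1 hr
    have h3 := sep_cy hG hpL hrL hc hnd h1 h2
    have h4 : cy (cr cross s(p, x)) L = 0 := by
      by_contra h5
      exact ((hmW' p).1 hpW).2 ((hOut p).2 ⟨hW'W hpW, hpL, h5⟩)
    have h5 := sd_add hG hrL hpL hxL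
    rw [sd_symm r p, h3, h4, add_zero] at h5
    exact hrx h5.symm
  -- a maximal plane set of `W'`
  obtain ⟨R, hFR, hRm⟩ := exists_maxP (W := W') (F := F') hG.symm
    (fun e => by
      induction e with
      | _ a b => exact hG.adj a b b)
    (fun e he => ((hF' e).1 he).2) (plane_sub (fun e he => ((hF' e).1 he).1) hp)
  -- `A` and `B` meet `W'`
  have hAne : (A ∩ W').Nonempty := by
    cases L with
    | nil => exact absurd hsd (by rw [cy]; exact zero_ne_one)
    | cons a l =>
      by_cases hav : a = v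
      · cases l with
        | nil =>
          have h1 := hnd s(a, a) (by rw [ce, List.nil_append, we]; exact List.mem_cons_self)
          exact absurd (Sym2.mk_isDiag_iff.2 rfl) h1
        | cons c l =>
          have hcv : c ≠ v := by
            rintro rfl
            rw [hav] at hn
            exact (List.nodup_cons.1 hn).1 List.mem_cons_self
          have hcm : c ∈ a :: c :: l := List.mem_cons_of_mem _ List.mem_cons_self
          exact ⟨c, mem_inter.2 ⟨hLA c hcm hcv, hLW' c hcm⟩⟩
      · exact ⟨a, mem_inter.2 ⟨hLA a List.mem_cons_self hav, hLW' a List.mem_cons_self⟩⟩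
  refine ih W' hssub R hRm v (A ∩ W') (B ∩ W') ⟨hAne, ⟨b, mem_inter.2 ⟨hb, hbW'⟩⟩, ?_, ?_, ?_⟩
  · exact disjoint_of_subset_left inter_subset_left (disjoint_of_subset_right inter_subset_left hC.dis)
  · rw [← union_inter_distrib_right, hC.un]
    ext u
    rw [mem_inter, mem_erase, mem_erase]
    exact ⟨fun h => ⟨h.1.1, h.2⟩, fun h => ⟨⟨h.1, hW'W h.2⟩, h.2⟩⟩
  · intro a ha c hc haR
    obtain ⟨haA, haW'⟩ := mem_inter.1 ha
    obtain ⟨hcB, hcW'⟩ := mem_inter.1 hc
    have hcL : c ∉ L := hBL c hcB
    refine hC.no a haA c hcB (hmax _ (LW_mono hW'W (hRm.1 haR)) fun f hf => ?_)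
    by_cases hfW' : f ∈ LW W'
    · exact hRm.2.1 _ haR f (hFR ((hF' f).2 ⟨hf, hfW'⟩))
    · have h1 : ∀ e ∈ ce L, ¬ cross s(c, a) e := fun e he => by
        rw [Sym2.eq_swap]
        exact hRm.2.1 _ haR e (hFR (hceF' e he))
      have h2 : ∀ e ∈ ce L, ¬ cross f e := fun e he => hp f hf e (hLF e he)
      have h3 := hF hf
      rw [Sym2.eq_swap]
      induction f with
      | _ p q =>
        rw [mem_LW] at h3 hfW'
        by_cases hpO : p ∈ Out
        · exact hsep c a p q hcW' hcL hpO h1 h2
        · by_cases hqO : q ∈ Out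
          · rw [Sym2.eq_swap (a := p)] at h2 ⊢
            exact hsep c a q p hcW' hcL hqO h1 h2
          · exact absurd ⟨(hmW' p).2 ⟨h3.1, hpO⟩, (hmW' q).2 ⟨h3.2.1, hqO⟩, h3.2.2⟩ hfW'

/-- MAXIMAL PLANE SETS ARE 2-CONNECTED. -/
theorem no_cut_aux {cross : Sym2 V → Sym2 V → Prop} (hG : Geo cross) :
    ∀ (n : ℕ) (W : Finset V), W.card = n → ∀ F : Finset (Sym2 V), MaxP cross W F →
      ∀ (v : V) (A B : Finset V), ¬ Cut W F v A B := by
  intro n
  induction n using Nat.strong_induction_on with
  | _ n ihn =>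
    intro W hWn F hR v A B hC
    have ih : ∀ W' : Finset V, W' ⊂ W → ∀ F' : Finset (Sym2 V), MaxP cross W' F' →
        ∀ (v : V) (A B : Finset V), ¬ Cut W' F' v A B := fun W' h => by
      have h1 := card_lt_card h
      exact ihn W'.card (by omega) W' rfl
    rcases Nat.lt_or_ge W.card 4 with hW | hW
    · -- at most three vertices
      obtain ⟨a, ha⟩ := hC.nA
      obtain ⟨b, hb⟩ := hC.nB
      have haW := (hC.mA ha).2
      have hbW := (hC.symm.mA hb).2
      have hab : a ≠ b := fun h => disjoint_left.1 hC.dis ha (h ▸ hb)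
      refine hC.no a ha b hb (hR.2.2 _ (mem_LW.2 ⟨haW, hbW, hab⟩) fun f hf hc => ?_)
      have h1 := hR.1 hf
      induction f with
      | _ c d =>
        obtain ⟨hc1, hd1, hcd⟩ := mem_LW.1 h1
        have hac : a ≠ c := by
          rintro rfl
          exact hG.adj a b d hc
        have had : a ≠ d := by
          rintro rfl
          rw [Sym2.eq_swap (a := c)] at hc
          exact hG.adj a b c hc
        have hbc : b ≠ c := by
          rintro rfl
          rw [Sym2.eq_swap (a := a)] at hc
          exact hG.adj b a d hc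
        have hbd : b ≠ d := by
          rintro rfl
          rw [Sym2.eq_swap (a := a), Sym2.eq_swap (a := c)] at hc
          exact hG.adj b a c hc
        have h2 : ({a, b, c, d} : Finset V) ⊆ W := by
          intro x hx
          simp only [mem_insert, mem_singleton] at hx
          rcases hx with rfl | rfl | rfl | rfl
          · exact haW
          · exact hbW
          · exact hc1
          · exact hd1
        have h3 : ({a, b, c, d} : Finset V).card = 4 := by
          rw [card_insert_of_notMem, card_insert_of_notMem, card_pair hcd]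
          · simp [hbc, hbd]
          · simp [hab, hac, had]
        have h4 := card_le_card h2
        omega
    have hF := hR.1
    have htwo : ∀ p ∈ W, ∃ z z', z ≠ z' ∧ s(p, z) ∈ F ∧ s(p, z') ∈ F := fun p hp =>
      maxP_two hG.adj hR hp (hG.v2 W (by omega) p hp)
    by_cases hd2 : ∃ w ∈ W, ∃ x y, ∀ z, s(w, z) ∈ F → z = x ∨ z = y
    · -- a vertex of degree two
      obtain ⟨w, hw, x, y, hd⟩ := hd2
      have hM := maxP_del hG hR hW hw hd
      have hss : W.erase w ⊂ W := erase_ssubset hw
      by_cases hwv : w = v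
      · subst hwv
        refine ih _ hss _ hM w A B ⟨hC.nA, hC.nB, hC.dis, ?_, fun a ha b hb h =>
          hC.no a ha b hb (mem_filter.1 h).1⟩
        rw [hC.un, erase_idem]
      · have key : ∀ A B : Finset V, Cut W F v A B → w ∈ A → False := by
          intro A B hC hwA
          have hne : (A.erase w).Nonempty := by
            by_contra hne
            rw [not_nonempty_iff_eq_empty] at hne
            obtain ⟨z, z', hzz, h1, h2⟩ := htwo w hw
            have h3 : ∀ z, s(w, z) ∈ F → z = v := by
              intro z hz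
              by_contra hzv
              obtain ⟨_, h4, h5⟩ := mem_LW.1 (hF hz)
              have h6 : z ∈ A ∪ B := by
                rw [hC.un]
                exact mem_erase.2 ⟨hzv, h4⟩
              rcases mem_union.1 h6 with h6 | h6
              · exact absurd (mem_erase.2 ⟨Ne.symm h5, h6⟩) (by rw [hne]; exact notMem_empty z)
              · exact hC.no w hwA z h6 hz
            exact hzz ((h3 z h1).trans (h3 z' h2).symm)
          refine ih _ hss _ hM v (A.erase w) B ⟨hne, hC.nB,
            disjoint_of_subset_left (erase_subset _ _) hC.dis, ?_, fun a ha b hb h =>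
            hC.no a (mem_erase.1 ha).2 b hb (mem_filter.1 h).1⟩
          have hwB : w ∉ B := fun h => disjoint_left.1 hC.dis hwA h
          ext u
          rw [mem_union, mem_erase, mem_erase, mem_erase]
          have h7 : u ∈ A ∨ u ∈ B ↔ u ≠ v ∧ u ∈ W := by
            rw [← mem_union, hC.un, mem_erase]
          constructor
          · rintro (⟨h8, h9⟩ | h8)
            · exact ⟨(h7.1 (Or.inl h9)).1, h8, (h7.1 (Or.inl h9)).2⟩
            · exact ⟨(h7.1 (Or.inr h8)).1, fun h => hwB (h ▸ h8), (h7.1 (Or.inr h8)).2⟩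
          · rintro ⟨h8, h9, h10⟩
            rcases h7.2 ⟨h8, h10⟩ with h11 | h11
            · exact Or.inl ⟨h9, h11⟩
            · exact Or.inr h11
        have hwAB : w ∈ A ∪ B := by
          rw [hC.un]
          exact mem_erase.2 ⟨hwv, hw⟩
        rcases mem_union.1 hwAB with h | h
        · exact key A B hC h
        · exact key B A hC.symm h
    -- all degrees at least three
    push Not at hd2
    have hdeg : ∀ x ∈ W, ∃ a b c, a ≠ b ∧ b ≠ c ∧ a ≠ c ∧ s(x, a) ∈ F ∧ s(x, b) ∈ F ∧
        s(x, c) ∈ F := by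
      intro x hx
      obtain ⟨a, ha, _⟩ := hd2 x hx x x
      obtain ⟨b, hb, hba, _⟩ := hd2 x hx a a
      obtain ⟨c, hc, hca, hcb⟩ := hd2 x hx a b
      exact ⟨a, b, c, Ne.symm hba, Ne.symm hcb, Ne.symm hca, ha, hb, hc⟩
    have hWne : W.Nonempty := card_pos.1 (by omega)
    obtain ⟨a0, b0, c0, A1, B1, C1, hA, hnd, hwe, hmem, h1, h2, h3⟩ := dirac hF hWne hdeg
    obtain ⟨f1, f2, f3, f4⟩ := four hwe h1 h2 h3
    have hAl : A1.getLastD a0 ∈ A1 := by
      cases A1 with
      | nil => exact absurd rfl hA
      | cons x A1 =>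
        rw [List.getLastD_cons]
        exact List.getLastD_mem_cons
    have hnd' := hnd
    simp only [List.nodup_cons, List.nodup_append, List.mem_append, List.mem_cons] at hnd'
    -- the four cycles have no repetitions
    have n1 : (a0 :: (A1 ++ [b0])).Nodup := by
      simp only [List.nodup_cons, List.nodup_append, List.mem_append, List.mem_cons, List.not_mem_nil]
      grind
    have n2 : (a0 :: (A1 ++ (c0 :: C1).reverse)).Nodup := by
      rw [List.nodup_cons, List.nodup_append, List.nodup_reverse]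
      simp only [List.nodup_cons, List.mem_append, List.mem_reverse, List.mem_cons]
      grind
    have n3 : (a0 :: b0 :: (B1 ++ [c0])).Nodup := by
      simp only [List.nodup_cons, List.nodup_append, List.mem_append, List.mem_cons, List.not_mem_nil]
      grind
    have n4 : (A1.getLastD a0 :: b0 :: (B1 ++ (c0 :: C1))).Nodup := by
      simp only [List.nodup_cons, List.nodup_append, List.mem_append, List.mem_cons]
      grind
    -- the four cycles are in the path
    have m1 : ∀ y ∈ a0 :: (A1 ++ [b0]), y ∈ a0 :: (A1 ++ (b0 :: (B1 ++ (c0 :: C1)))) := by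
      intro y hy
      simp only [List.mem_cons, List.mem_append, List.not_mem_nil, or_false] at hy ⊢
      tauto
    have m2 : ∀ y ∈ a0 :: (A1 ++ (c0 :: C1).reverse),
        y ∈ a0 :: (A1 ++ (b0 :: (B1 ++ (c0 :: C1)))) := by
      intro y hy
      simp only [List.mem_cons, List.mem_append, List.mem_reverse] at hy ⊢
      tauto
    have m3 : ∀ y ∈ a0 :: b0 :: (B1 ++ [c0]), y ∈ a0 :: (A1 ++ (b0 :: (B1 ++ (c0 :: C1)))) := by
      intro y hy
      simp only [List.mem_cons, List.mem_append, List.not_mem_nil, or_false] at hy ⊢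
      tauto
    have m4 : ∀ y ∈ A1.getLastD a0 :: b0 :: (B1 ++ (c0 :: C1)),
        y ∈ a0 :: (A1 ++ (b0 :: (B1 ++ (c0 :: C1)))) := by
      intro y hy
      simp only [List.mem_cons, List.mem_append] at hy ⊢
      rcases hy with rfl | hy
      · exact Or.inr (Or.inl hAl)
      · tauto
    -- the main case
    have main : ∀ A B : Finset V, Cut W F v A B → (∀ y ∈ a0 :: (A1 ++ [b0]), y ≠ v → y ∈ A) →
        False := by
      intro A B hC g1
      have hd : ∀ u, u ∈ A → u ∈ B → False := fun u h h' => disjoint_left.1 hC.dis h h'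
      have comp : ∀ L : List V, L.Nodup → (∀ y ∈ L, y ∈ a0 :: (A1 ++ (b0 :: (B1 ++ (c0 :: C1))))) →
          (∀ e ∈ ce L, e ∈ F) → (∃ p q, p ≠ q ∧ p ∈ L ∧ q ∈ L ∧ p ∈ a0 :: (A1 ++ [b0]) ∧
            q ∈ a0 :: (A1 ++ [b0])) → ∀ y ∈ L, y ≠ v → y ∈ A := by
        intro L hn hm hL hpq
        obtain ⟨p, q, hpq, hp1, hq1, hp2, hq2⟩ := hpq
        rcases cyc_side hF hC hn (fun y hy => hmem y (hm y hy)) hL with h | h
        · exact h
        · exfalso
          by_cases hpv : p = v
          · have hqv : q ≠ v := fun h => hpq (hpv.trans h.symm)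
            exact hd q (g1 q hq2 hqv) (h q hq1 hqv)
          · exact hd p (g1 p hp2 hpv) (h p hp1 hpv)
      have g2 := comp _ n2 m2 f2 ⟨a0, A1.getLastD a0, fun h => hnd'.1 (Or.inl (h ▸ hAl)),
        List.mem_cons_self, List.mem_cons_of_mem _ (List.mem_append_left _ hAl), List.mem_cons_self,
        List.mem_cons_of_mem _ (List.mem_append_left _ hAl)⟩
      have g3 := comp _ n3 m3 f3 ⟨a0, b0, fun h => hnd'.1 (Or.inr (Or.inl h)), List.mem_cons_self,
        List.mem_cons_of_mem _ List.mem_cons_self, List.mem_cons_self,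
        List.mem_cons_of_mem _ (List.mem_append_right _ List.mem_cons_self)⟩
      have g4 := comp _ n4 m4 f4 ⟨A1.getLastD a0, b0, fun h => (List.nodup_cons.1 n4).1
          (h ▸ List.mem_cons_self), List.mem_cons_self, List.mem_cons_of_mem _ List.mem_cons_self,
        List.mem_cons_of_mem _ (List.mem_append_left _ hAl),
        List.mem_cons_of_mem _ (List.mem_append_right _ List.mem_cons_self)⟩
      have gP : ∀ y ∈ a0 :: (A1 ++ (b0 :: (B1 ++ (c0 :: C1)))), y ≠ v → y ∈ A := by
        intro y hy hyv
        simp only [List.mem_cons, List.mem_append] at hy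
        rcases hy with rfl | hy | rfl | hy | rfl | hy
        · exact g1 _ List.mem_cons_self hyv
        · exact g1 _ (List.mem_cons_of_mem _ (List.mem_append_left _ hy)) hyv
        · exact g3 _ (List.mem_cons_of_mem _ List.mem_cons_self) hyv
        · exact g3 _ (List.mem_cons_of_mem _ (List.mem_cons_of_mem _ (List.mem_append_left _ hy))) hyv
        · exact g3 _ (List.mem_cons_of_mem _ (List.mem_cons_of_mem _ (List.mem_append_right _
            List.mem_cons_self))) hyv
        · exact g4 _ (List.mem_cons_of_mem _ (List.mem_cons_of_mem _ (List.mem_append_right _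
            (List.mem_cons_of_mem _ hy)))) hyv
      obtain ⟨z, hz⟩ := hC.nB
      have hzW := (hC.symm.mA hz).2
      have hzv := (hC.symm.mA hz).1
      have hzP : z ∉ a0 :: (A1 ++ (b0 :: (B1 ++ (c0 :: C1)))) := fun h => hd z (gP z h hzv) hz
      have hk := k4 hG hR.2.1 hA hnd hwe h1 h2 h3 hzP
      -- one of the cycles
      have key : ∀ (q : V) (L : List V), L.Nodup → (∀ e ∈ ce L, e ∈ F) →
          q ∈ a0 :: (A1 ++ (b0 :: (B1 ++ (c0 :: C1)))) → q ∉ L →
          (∀ y ∈ L, y ∈ a0 :: (A1 ++ (b0 :: (B1 ++ (c0 :: C1))))) →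
          cy (cr cross s(q, z)) L = 0 := by
        intro q L hn hL hq hqL hsub
        rcases zmod2 (cy (cr cross s(q, z)) L) with h | h
        · exact h
        · exact (split_cyc hG hR hC ih hn (fun y hy => hmem y (hsub y hy)) hL
            (fun y hy hyv => gP y (hsub y hy) hyv) (x := z) (y := q) (hmem q hq)
            (fun h => hzP (hsub z h)) hqL h hz (by
              have h5 := sd_add hG (L := L) (fun h => hzP (hsub z h)) (fun h => hzP (hsub z h))
                (fun h => hzP (hsub z h))
              have h6 : cy (cr cross s(z, z)) L = 0 := by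
                rw [CharTwo.add_self_eq_zero] at h5
                exact h5.symm
              exact h6)).elim
      have k1 : cy (cr cross s(c0, z)) (a0 :: (A1 ++ [b0])) = 0 := by
        refine key c0 _ n1 f1 (by simp) ?_ m1
        intro hc
        simp only [List.mem_cons, List.mem_append, List.not_mem_nil, or_false] at hc
        grind
      have k2 : cy (cr cross s(b0, z)) (a0 :: (A1 ++ (c0 :: C1).reverse)) = 0 := by
        refine key b0 _ n2 f2 (by simp) ?_ m2
        intro hc
        simp only [List.mem_cons, List.mem_append, List.mem_reverse] at hc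
        grind
      have k3 : cy (cr cross s(A1.getLastD a0, z)) (a0 :: b0 :: (B1 ++ [c0])) = 0 := by
        refine key _ _ n3 f3 (List.mem_cons_of_mem _ (List.mem_append_left _ hAl)) ?_ m3
        intro hc
        simp only [List.mem_cons, List.mem_append, List.not_mem_nil, or_false] at hc
        grind
      have k5 : cy (cr cross s(a0, z)) (A1.getLastD a0 :: b0 :: (B1 ++ (c0 :: C1))) = 0 := by
        refine key a0 _ n4 f4 List.mem_cons_self ?_ m4
        intro hc
        simp only [List.mem_cons, List.mem_append] at hc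
        grind
      rw [k1, k2, k3, k5] at hk
      simp at hk
    rcases cyc_side hF hC n1 (fun y hy => hmem y (m1 y hy)) f1 with h | h
    · exact main A B hC h
    · exact main B A hC.symm h

/-- MAXIMAL PLANE SETS ARE 2-CONNECTED. -/
theorem two_conn {cross : Sym2 V → Sym2 V → Prop} (hG : Geo cross) {W : Finset V}
    {F : Finset (Sym2 V)} (hR : MaxP cross W F) (v : V) {A B : Finset V} (hA : A.Nonempty)
    (hB : B.Nonempty) (hAB : Disjoint A B) (hU : A ∪ B = W.erase v) :
    ∃ a ∈ A, ∃ b ∈ B, s(a, b) ∈ F := by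
  by_contra h
  push Not at h
  exact no_cut_aux hG _ W rfl F hR v A B ⟨hA, hB, hAB, hU, h⟩

end H56C
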