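import Pool.Agent.Lib.H56C.Defs
import Pool.Agent.Lib.H30K.P6S

/-!
# L4 (S/M): restriction to orthonormal frames

* `L4_pR`: `pull v (pR e R) i j k l = ∑ a b c d, pR e R a b c d * v i a * v j b * v k c * v l d`; if `a = e` or `b = e` then both sides have the factor `0`.
* `L4_alg`: multilinearity; (look for `ev_skew`, `ev_pair` and the Bianchi identity of `ev`; also `H30K.frR_algCurv`.)
* `L4_kb`: `ev (pull v R) c d c d = ev R (comb v c) (comb v d) (comb v c) (comb v d)` (`ev_comb`), `area2 (comb v c) (comb v d) = area2 c d` (`area2_eq`, `dot_comb`).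
* `L4_cyc`: in `pull v R i j k l * β (f k) = ∑ a b c d, R a b c d * v i a * v j b * v k c * v l d * β (f k)` one can replace `β (f k)` by `β c` (`hv`: `v k c ≠ 0 → β c = β (f k)`); reorder the three sums.
-/

set_option autoImplicit false

open Finset

namespace H56C

open Pool.Agent.H69Hopf
open H30K (KB Cyc)

theorem L4_pR {M N : ℕ} (R : Arr N) {e : Fin N} {v : Fin M → (Fin N → ℝ)} (hv : ∀ k, v k e = 0) : pull v (pR e R) = pull v R := by
  funext i j k l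
  unfold pull ev pR
  refine sum_congr rfl fun a _ => sum_congr rfl fun b _ => sum_congr rfl fun c _ => sum_congr rfl fun d _ => ?_
  by_cases h : a = e ∨ b = e
  · rw [if_pos h]
    rcases h with h | h
    · rw [h, hv]
      ring
    · rw [h, hv]
      ring
  · rw [if_neg h]

theorem L4_alg {M N : ℕ} {R : Arr N} (hR : IsAlgCurv R) (v : Fin M → (Fin N → ℝ)) : IsAlgCurv (pull v R) := by
  exact pull_algCurv v hR

theorem L4_kb {M N : ℕ} {R : Arr N} {h : ℝ} (hK : KB h R) {v : Fin M → (Fin N → ℝ)} (hv : ONF v) : KB h (pull v R) := by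
  intro c d
  have h1 := hK (comb v c) (comb v d)
  rw [ev_comb, area2_eq, dot_comb hv, dot_comb hv, dot_comb hv, ← area2_eq] at h1
  exact h1

theorem l4_cyc_aux {N : ℕ} {R : Arr N} {β : Fin N → ℝ} (hc : Cyc β R) (x y z w : Fin N → ℝ) {p q r : ℝ}
    (hx : ∀ a, x a * p = x a * β a) (hy : ∀ a, y a * q = y a * β a) (hz : ∀ a, z a * r = z a * β a) :
    ev R x y z w * r + ev R y z x w * p + ev R z x y w * q = 0 := by
  rw [ev_quad, ev_quad, ev_quad]
  let e1 : (Fin N × Fin N × Fin N × Fin N) ≃ (Fin N × Fin N × Fin N × Fin N) :=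
    { toFun := fun q => (q.2.1, q.2.2.1, q.1, q.2.2.2)
      invFun := fun q => (q.2.2.1, q.1, q.2.1, q.2.2.2)
      left_inv := fun q => rfl
      right_inv := fun q => rfl }
  have h1 : (∑ q : Fin N × Fin N × Fin N × Fin N,
      R q.1 q.2.1 q.2.2.1 q.2.2.2 * y q.1 * z q.2.1 * x q.2.2.1 * w q.2.2.2) =
      ∑ q : Fin N × Fin N × Fin N × Fin N,
      R q.2.1 q.2.2.1 q.1 q.2.2.2 * y q.2.1 * z q.2.2.1 * x q.1 * w q.2.2.2 :=
    (Equiv.sum_comp e1 _).symm
  have h2 : (∑ q : Fin N × Fin N × Fin N × Fin N,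
      R q.1 q.2.1 q.2.2.1 q.2.2.2 * z q.1 * x q.2.1 * y q.2.2.1 * w q.2.2.2) =
      ∑ q : Fin N × Fin N × Fin N × Fin N,
      R q.2.2.1 q.1 q.2.1 q.2.2.2 * z q.2.2.1 * x q.1 * y q.2.1 * w q.2.2.2 :=
    (Equiv.sum_comp e1.symm _).symm
  rw [h1, h2, Finset.sum_mul, Finset.sum_mul, Finset.sum_mul, ← Finset.sum_add_distrib, ← Finset.sum_add_distrib]
  refine Finset.sum_eq_zero fun s _ => ?_
  have h3 := hc s.1 s.2.1 s.2.2.1 s.2.2.2
  calc _ = R s.1 s.2.1 s.2.2.1 s.2.2.2 * x s.1 * y s.2.1 * (z s.2.2.1 * r) * w s.2.2.2 +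
        R s.2.1 s.2.2.1 s.1 s.2.2.2 * y s.2.1 * z s.2.2.1 * (x s.1 * p) * w s.2.2.2 +
        R s.2.2.1 s.1 s.2.1 s.2.2.2 * z s.2.2.1 * x s.1 * (y s.2.1 * q) * w s.2.2.2 := by ring
    _ = (R s.1 s.2.1 s.2.2.1 s.2.2.2 * β s.2.2.1 + R s.2.1 s.2.2.1 s.1 s.2.2.2 * β s.1 +
        R s.2.2.1 s.1 s.2.1 s.2.2.2 * β s.2.1) * (x s.1 * y s.2.1 * z s.2.2.1 * w s.2.2.2) := by
        rw [hx, hy, hz]
        ring
    _ = 0 := by rw [h3, zero_mul]

theorem L4_cyc {M N : ℕ} {R : Arr N} {β : Fin N → ℝ} (hc : Cyc β R) {v : Fin M → (Fin N → ℝ)} {f : Fin M → Fin N} (hv : ∀ k j, v k j ≠ 0 → β j = β (f k)) :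
    Cyc (fun k => β (f k)) (pull v R) := by
  have h : ∀ k a, v k a * β (f k) = v k a * β a := by
    intro k a
    by_cases h0 : v k a = 0
    · rw [h0, zero_mul, zero_mul]
    · rw [hv k a h0]
  intro i j k l
  exact l4_cyc_aux hc (v i) (v j) (v k) (v l) (h i) (h j) (h k)

end H56C
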