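import Pool.Agent.Lib.H56C.KD
import Pool.Agent.Lib.H69.Hopf.Frame

/-!
# K3 (M): block-diagonal tensors with classes of odd size; permutations

`K3_odd`: every term of `gaussBonnet n R = ∑ σ τ, sign σ sign τ ∏ R (σ (fst i)) (σ (snd i)) (τ (fst i)) (τ (snd i))` vanishes: otherwise `s (σ (fst i)) = s (σ (snd i))` for every `i`, and the number of `x : Fin (2 n)` with `s (σ x) = true` is even
(`x ↦ fst i`, `snd i` are the numbers `2 i`, `2 i + 1`; `fst`, `snd` in `Lib/H69/Hopf/Defs.lean`), while it is equal to `sz s true` (`σ` is a permutation).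
`K3_perm`: `gaussBonnet n (rs π R) = gaussBonnet n R` for a permutation `π`: reindex `σ ↦ π * σ`, `τ ↦ π * τ`, the signs cancel.
-/

set_option autoImplicit false

open Finset

namespace H56C

open Pool.Agent.H69Hopf
open H30K (KB Cyc)

theorem k3_range (g : ℕ → ℕ) (n : ℕ) : ∑ x ∈ Finset.range (2 * n), g x = ∑ i ∈ Finset.range n, (g (2 * i) + g (2 * i + 1)) := by
  induction n with
  | zero => simp
  | succ n ih =>
    rw [Finset.sum_range_succ, ← ih, show 2 * (n + 1) = 2 * n + 1 + 1 by ring, Finset.sum_range_succ, Finset.sum_range_succ, add_assoc]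

theorem k3_sum {n : ℕ} (f : Fin (2 * n) → ℕ) : ∑ x, f x = ∑ i : Fin n, (f (fst i) + f (snd i)) := by
  have h1 := k3_range (fun x => if h : x < 2 * n then f ⟨x, h⟩ else 0) n
  rw [Finset.sum_range, Finset.sum_range] at h1
  have h2 : ∑ x : Fin (2 * n), (if h : (x : ℕ) < 2 * n then f ⟨x, h⟩ else 0) = ∑ x, f x :=
    Finset.sum_congr rfl fun x _ => by rw [dif_pos x.2]
  have h3 : ∑ i : Fin n, ((if h : 2 * (i : ℕ) < 2 * n then f ⟨2 * (i : ℕ), h⟩ else 0) +
      (if h : 2 * (i : ℕ) + 1 < 2 * n then f ⟨2 * (i : ℕ) + 1, h⟩ else 0)) = ∑ i : Fin n, (f (fst i) + f (snd i)) :=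
    Finset.sum_congr rfl fun i _ => by
      have hi := i.2
      rw [dif_pos (by omega), dif_pos (by omega)]
      rfl
  rw [← h2, ← h3]
  exact h1

theorem K3_odd {n : ℕ} {s : Fin (2 * n) → Bool} {R : Arr (2 * n)} (hB : BD s R) (ho : Odd (sz s true)) : gaussBonnet n R = 0 := by
  unfold gaussBonnet
  refine Finset.sum_eq_zero fun σ _ => Finset.sum_eq_zero fun τ _ => ?_
  by_contra hne
  have hp : ∏ i : Fin n, R (σ (fst i)) (σ (snd i)) (τ (fst i)) (τ (snd i)) ≠ 0 := right_ne_zero_of_mul hne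
  have hs : ∀ i : Fin n, s (σ (fst i)) = s (σ (snd i)) := fun i =>
    (hB _ _ _ _ (Finset.prod_ne_zero_iff.1 hp i (Finset.mem_univ _))).1
  have h1 : sz s true = ∑ x : Fin (2 * n), if s (σ x) = true then 1 else 0 := by
    unfold sz
    rw [Finset.card_filter]
    exact (Equiv.sum_comp σ (fun x => if s x = true then 1 else 0)).symm
  rw [k3_sum] at h1
  have h2 : sz s true = 2 * ∑ i : Fin n, if s (σ (fst i)) = true then 1 else 0 := by
    rw [h1, Finset.mul_sum]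
    refine Finset.sum_congr rfl fun i _ => ?_
    rw [← hs i]
    exact (Nat.two_mul _).symm
  rw [h2] at ho
  exact (Nat.not_odd_iff_even.2 (even_two_mul _)) ho

theorem K3_perm {n : ℕ} (R : Arr (2 * n)) (π : Equiv.Perm (Fin (2 * n))) : gaussBonnet n (rs π R) = gaussBonnet n R := by
  unfold gaussBonnet
  rw [← Equiv.sum_comp (Equiv.mulLeft π) (fun σ : Equiv.Perm (Fin (2 * n)) => ∑ τ : Equiv.Perm (Fin (2 * n)),
    ((Equiv.Perm.sign σ : ℤ) : ℝ) * ((Equiv.Perm.sign τ : ℤ) : ℝ) *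
      ∏ i : Fin n, R (σ (fst i)) (σ (snd i)) (τ (fst i)) (τ (snd i)))]
  refine Finset.sum_congr rfl fun σ _ => ?_
  rw [← Equiv.sum_comp (Equiv.mulLeft π) (fun τ : Equiv.Perm (Fin (2 * n)) =>
    ((Equiv.Perm.sign ((Equiv.mulLeft π) σ) : ℤ) : ℝ) * ((Equiv.Perm.sign τ : ℤ) : ℝ) *
      ∏ i : Fin n, R (((Equiv.mulLeft π) σ) (fst i)) (((Equiv.mulLeft π) σ) (snd i)) (τ (fst i)) (τ (snd i)))]
  refine Finset.sum_congr rfl fun τ _ => ?_
  have e1 : ((Equiv.mulLeft π) σ : Equiv.Perm (Fin (2 * n))) = π * σ := rfl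
  have e2 : ((Equiv.mulLeft π) τ : Equiv.Perm (Fin (2 * n))) = π * τ := rfl
  rw [e1, e2, Equiv.Perm.sign_mul, Equiv.Perm.sign_mul]
  have e3 : ((Equiv.Perm.sign π : ℤ) : ℝ) * ((Equiv.Perm.sign π : ℤ) : ℝ) = 1 := by
    rcases Int.units_eq_one_or (Equiv.Perm.sign π) with h | h <;> simp [h]
  push_cast
  have e4 : ((Equiv.Perm.sign π : ℤ) : ℝ) * ((Equiv.Perm.sign σ : ℤ) : ℝ) * (((Equiv.Perm.sign π : ℤ) : ℝ) * ((Equiv.Perm.sign τ : ℤ) : ℝ)) =
      ((Equiv.Perm.sign σ : ℤ) : ℝ) * ((Equiv.Perm.sign τ : ℤ) : ℝ) := by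
    linear_combination ((Equiv.Perm.sign σ : ℤ) : ℝ) * ((Equiv.Perm.sign τ : ℤ) : ℝ) * e3
  rw [e4]
  rfl

end H56C
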