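import Pool.Agent.Lib.H56C.Defs
import Pool.Agent.Lib.H30K.P6

/-!
# B1 (S/M): the dimensions 0, 2, 4

`n = 0`: `gaussBonnet 0 R = 1` (see `pinch0` in `Lib/H69/Hopf/Rec.lean`). `n = 1`: `gb1`: `gaussBonnet 1 R = 4 R 0 1 0 1`, and `R 0 1 0 1 ≤ -h` (`hK` for `Pi.single 0 1`, `Pi.single 1 1`; `H30K.kb_apply` in `Lib/H30K/P6S.lean`).
`n = 2`: `H30K.P6_milnor`: `96 h ^ 2 ≤ gaussBonnet 2 R`, and `4 ^ 2 * 2! = 32`.
-/

set_option autoImplicit false

open Finset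

namespace H56C

open Pool.Agent.H69Hopf
open H30K (KB Cyc)

theorem B1 {n : ℕ} (hn : n ≤ 2) {R : Arr (2 * n)} (hR : IsAlgCurv R) {h : ℝ} (hh : 0 ≤ h) (hK : KB h R) :
    4 ^ n * (n.factorial : ℝ) * h ^ n ≤ (-1) ^ n * gaussBonnet n R := by
  interval_cases n
  · have h1 : gaussBonnet 0 R = 1 := by
      unfold gaussBonnet
      simp
    rw [h1]
    norm_num
  · rw [Pool.Agent.H69Hopf.gb1 R hR]
    have h1 := H30K.kb_apply hK (i := (0 : Fin (2 * 1))) (j := 1) (by decide)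
    norm_num
    linarith
  · have h1 := H30K.P6_milnor hR hh hK
    have h2 := sq_nonneg h
    norm_num [Nat.factorial]
    linarith

end H56C
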