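import Pool.Agent.Lib.H56C.Defs

/-!
# B2 (M): combinatorics of admissible multiplicities without simple values

Case (1) of `Adm`: all indices have a multiple value, so all values are equal, `cl β i = 2 n` (if `n > 0`), `2 n ≤ 5`. Case (2): all indices have a multiple value, so `2 n ≤ 9`, `n ≤ 4`. If `cl β i = 3` for some `i`, then the class of `i` has
three elements, the other indices have `cl β j = 2` (`2 ≤ cl β j ≤ 3`, and `= 3` only in the class of `i`); the complement `S` of the class of `i` is a union of classes with two elements, so `S.card` is even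
(for instance `∑ j ∈ S, 1 = 2 * (number of values on S)`, `Finset.card_eq_sum_card_fiberwise` / `card_eq_sum_card_image` for `β` on `S`: every fibre has two elements); `2 n = 3 + even`, a contradiction.
So `cl β i = 2` for all `i`.

`B2_gen`: six indices, all classes of size two: there are three distinct values: choose `p`; the class of `p` has two elements; choose `q` outside; the classes of `p` and `q` have together four elements; choose `r` outside.
-/

set_option autoImplicit false

open Finset

namespace H56C

theorem B2 {n : ℕ} {β : Fin (2 * n) → ℝ} (hA : Adm β) (h2 : ∀ i, 2 ≤ cl β i) : n ≤ 2 ∨ (n ≤ 4 ∧ ∀ i, cl β i = 2) := by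
  classical
  rcases hA with ⟨h1, h5⟩ | ⟨h3, hu, h9⟩
  · left
    rcases Nat.eq_zero_or_pos n with h0 | h0
    · omega
    · have i0 : Fin (2 * n) := ⟨0, by omega⟩
      have e1 : (univ.filter fun j => β j = β i0) = univ :=
        filter_true_of_mem fun j _ => h1 j i0 (h2 j) (h2 i0)
      have e2 := h5 i0
      unfold cl at e2
      rw [e1, card_univ, Fintype.card_fin] at e2
      omega
  · right
    have e1 : (univ.filter fun i => 2 ≤ cl β i) = univ := filter_true_of_mem fun j _ => h2 j
    rw [e1, card_univ, Fintype.card_fin] at h9
    refine ⟨by omega, fun i => ?_⟩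
    by_contra hi
    have hi3 : cl β i = 3 := by
      have a1 := h2 i
      have a2 := h3 i
      omega
    have hS : ∀ j, β j ≠ β i → cl β j = 2 := by
      intro j hj
      have a1 := h2 j
      have a2 := h3 j
      by_contra a3
      exact hj (hu j i (by omega) hi3)
    obtain ⟨S, hSdef⟩ : ∃ S, S = univ.filter fun j => ¬ β j = β i := ⟨_, rfl⟩
    have hcard : (univ.filter fun j => β j = β i).card + S.card = 2 * n := by
      rw [hSdef, card_filter_add_card_filter_not, card_univ, Fintype.card_fin]
    have hev : S.card = 2 * (S.image β).card := by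
      rw [card_eq_sum_card_image β S]
      have e2 : ∀ b ∈ S.image β, (S.filter fun a => β a = b).card = 2 := by
        intro b hb
        obtain ⟨j, hj, rfl⟩ := mem_image.1 hb
        rw [hSdef, mem_filter] at hj
        refine Eq.trans ?_ (hS j hj.2)
        unfold cl
        congr 1
        ext a
        rw [hSdef, mem_filter, mem_filter, mem_filter]
        constructor
        · rintro ⟨_, h⟩
          exact ⟨mem_univ _, h⟩
        · rintro ⟨_, h⟩
          exact ⟨⟨mem_univ _, fun h' => hj.2 (h.symm.trans h')⟩, h⟩
      rw [sum_congr rfl e2, sum_const, smul_eq_mul, mul_comm]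
    unfold cl at hi3
    omega

theorem B2_gen {β : Fin 6 → ℝ} (h2 : ∀ i, cl β i = 2) : H30K.Gen β := by
  classical
  right
  have h0 := h2 0
  obtain ⟨q, hq⟩ : ∃ q, β q ≠ β 0 := by
    by_contra hc
    push Not at hc
    have e1 : (univ.filter fun j => β j = β 0) = univ := filter_true_of_mem fun j _ => hc j
    unfold cl at h0
    rw [e1, card_univ, Fintype.card_fin] at h0
    omega
  obtain ⟨r, hr0, hrq⟩ : ∃ r, β r ≠ β 0 ∧ β r ≠ β q := by
    by_contra hc
    push Not at hc
    have h3 : (univ : Finset (Fin 6)) ⊆ (univ.filter fun j => β j = β 0) ∪ (univ.filter fun j => β j = β q) := by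
      intro r _
      rw [mem_union, mem_filter, mem_filter]
      by_cases h : β r = β 0
      · exact Or.inl ⟨mem_univ _, h⟩
      · exact Or.inr ⟨mem_univ _, hc r h⟩
    have h4 := card_le_card h3
    have h5 := card_union_le (univ.filter fun j => β j = β 0) (univ.filter fun j => β j = β q)
    have h6 := h2 q
    unfold cl at h0 h6
    rw [card_univ, Fintype.card_fin] at h4
    omega
  exact ⟨0, q, r, hq.symm, hr0.symm, hrq.symm⟩

end H56C
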