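import Pool.Agent.Lib.H56C.Defs

/-!
# B3 (M): eight indices in four pairs

Choose `p 0`, `p 1`, `p 2`, `p 3` one after the other with values different from the values of the earlier ones (the classes of `p 0 .. p (a - 1)` have together `2 a < 8` elements), and `q a ≠ p a` with `β (q a) = β (p a)` (`cl β (p a) = 2`).
The map `Fin 8 → Fin 8`, `jx a 0 ↦ p a`, `jx a 1 ↦ q a`, is injective, hence a permutation (`Finite.injective_iff_bijective`, `Equiv.ofBijective`). (`jx a s = 2 a + s`; see `P2_pairs`, `p2_inj` in `Lib/H30K/P2.lean` for six indices.)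
`B3_jx`: every index is a `jx a s`.
-/

set_option autoImplicit false

open Finset

namespace H56C

theorem B3_jx (i : Fin 8) : ∃ a s, i = jx a s := by
  refine ⟨⟨i.1 / 2, by omega⟩, ⟨i.1 % 2, by omega⟩, ?_⟩
  apply Fin.ext
  change i.1 = 2 * (i.1 / 2) + i.1 % 2
  omega

theorem B3_inj {a b : Fin 4} {s t : Fin 2} (h : jx a s = jx b t) : a = b ∧ s = t := by
  have h1 : 2 * a.1 + s.1 = 2 * b.1 + t.1 := congrArg Fin.val h
  have h2 := s.2
  have h3 := t.2
  constructor
  · apply Fin.ext
    omega
  · apply Fin.ext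
    omega

theorem B3_ex {β : Fin 8 → ℝ} (h2 : ∀ i, cl β i = 2) (S : Finset (Fin 8)) (hS : S.card ≤ 3) :
    ∃ i, ∀ s ∈ S, β i ≠ β s := by
  classical
  by_contra hcon
  push Not at hcon
  have h1 : (Finset.univ : Finset (Fin 8)) ⊆ S.biUnion fun s => Finset.univ.filter fun j => β j = β s := by
    intro i _
    obtain ⟨s, hs, he⟩ := hcon i
    rw [Finset.mem_biUnion]
    exact ⟨s, hs, Finset.mem_filter.2 ⟨Finset.mem_univ _, he⟩⟩
  have h3 := Finset.card_le_card h1
  have h4 : (S.biUnion fun s => Finset.univ.filter fun j => β j = β s).card ≤ S.card * 2 := by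
    refine Finset.card_biUnion_le_card_mul _ _ _ fun s _ => ?_
    have h5 := h2 s
    unfold cl at h5
    exact le_of_eq h5
  rw [Finset.card_univ, Fintype.card_fin] at h3
  omega

theorem B3_q {β : Fin 8 → ℝ} (h2 : ∀ i, cl β i = 2) (i : Fin 8) : ∃ q, q ≠ i ∧ β q = β i := by
  classical
  have h5 := h2 i
  unfold cl at h5
  have h6 : 1 < (Finset.univ.filter fun j => β j = β i).card := by
    rw [h5]
    norm_num
  obtain ⟨q, hq, hne⟩ := Finset.exists_mem_ne h6 i
  exact ⟨q, hne, (Finset.mem_filter.1 hq).2⟩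

theorem B3_p {β : Fin 8 → ℝ} (h2 : ∀ i, cl β i = 2) : ∃ p : Fin 4 → Fin 8, ∀ a b, a ≠ b → β (p a) ≠ β (p b) := by
  classical
  obtain ⟨p1, hp1⟩ := B3_ex h2 {0} (by simp)
  obtain ⟨p2, hp2⟩ := B3_ex h2 {0, p1} ((Finset.card_le_two).trans (by norm_num))
  obtain ⟨p3, hp3⟩ := B3_ex h2 {0, p1, p2} Finset.card_le_three
  have a1 : β p1 ≠ β 0 := hp1 0 (by simp)
  have a2 : β p2 ≠ β 0 := hp2 0 (by simp)
  have a3 : β p2 ≠ β p1 := hp2 p1 (by simp)
  have a4 : β p3 ≠ β 0 := hp3 0 (by simp)
  have a5 : β p3 ≠ β p1 := hp3 p1 (by simp)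
  have a6 : β p3 ≠ β p2 := hp3 p2 (by simp)
  refine ⟨![0, p1, p2, p3], fun a b hab => ?_⟩
  fin_cases a <;> fin_cases b
  · exact absurd rfl hab
  · exact a1.symm
  · exact a2.symm
  · exact a4.symm
  · exact a1
  · exact absurd rfl hab
  · exact a3.symm
  · exact a5.symm
  · exact a2
  · exact a3
  · exact absurd rfl hab
  · exact a6.symm
  · exact a4
  · exact a5
  · exact a6
  · exact absurd rfl hab

theorem B3 {β : Fin 8 → ℝ} (h2 : ∀ i, cl β i = 2) :
    ∃ e : Equiv.Perm (Fin 8), (∀ a s, β (e (jx a s)) = β (e (jx a 0))) ∧ ∀ a b, a ≠ b → β (e (jx a 0)) ≠ β (e (jx b 0)) := by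
  classical
  obtain ⟨p, hp⟩ := B3_p h2
  choose q hq hqb using fun i => B3_q h2 i
  let f : Fin 4 → Fin 2 → Fin 8 := fun a s => if s = 0 then p a else q (p a)
  let g : Fin 8 → Fin 8 := fun i => f ⟨i.1 / 2, by omega⟩ ⟨i.1 % 2, by omega⟩
  have hg : ∀ a s, g (jx a s) = f a s := by
    intro a s
    have e1 : (⟨(jx a s).1 / 2, by omega⟩ : Fin 4) = a := by
      apply Fin.ext
      change (2 * a.1 + s.1) / 2 = a.1
      omega
    have e2 : (⟨(jx a s).1 % 2, by omega⟩ : Fin 2) = s := by
      apply Fin.ext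
      change (2 * a.1 + s.1) % 2 = s.1
      omega
    change f _ _ = f a s
    rw [e1, e2]
  have hfb : ∀ a s, β (f a s) = β (p a) := by
    intro a s
    by_cases hs : s = 0
    · change β (if s = 0 then p a else q (p a)) = _
      rw [if_pos hs]
    · change β (if s = 0 then p a else q (p a)) = _
      rw [if_neg hs]
      exact hqb _
  have hinj : Function.Injective g := by
    intro i j hij
    obtain ⟨a, s, rfl⟩ := B3_jx i
    obtain ⟨b, t, rfl⟩ := B3_jx j
    rw [hg, hg] at hij
    have hab : a = b := by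
      by_contra hne
      have := congrArg β hij
      rw [hfb, hfb] at this
      exact hp a b hne this
    subst hab
    have hst : s = t := by
      by_contra hne
      have hne' : (s = 0 ∧ t ≠ 0) ∨ (s ≠ 0 ∧ t = 0) := by
        by_cases hs : s = 0
        · left
          exact ⟨hs, fun ht => hne (hs.trans ht.symm)⟩
        · right
          refine ⟨hs, ?_⟩
          have h3 := s.2
          have h4 := t.2
          apply Fin.ext
          by_contra ht
          apply hne
          apply Fin.ext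
          have h5 : s.1 ≠ 0 := fun h => hs (Fin.ext h)
          have h6 : t.1 ≠ 0 := ht
          omega
      rcases hne' with ⟨hs, ht⟩ | ⟨hs, ht⟩
      · have e1 : f a s = p a := if_pos hs
        have e2 : f a t = q (p a) := if_neg ht
        rw [e1, e2] at hij
        exact hq _ hij.symm
      · have e1 : f a s = q (p a) := if_neg hs
        have e2 : f a t = p a := if_pos ht
        rw [e1, e2] at hij
        exact hq _ hij
    rw [hst]
  refine ⟨Equiv.ofBijective g (Finite.injective_iff_bijective.1 hinj), fun a s => ?_, fun a b hab => ?_⟩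
  · rw [Equiv.ofBijective_apply, Equiv.ofBijective_apply, hg, hg, hfb, hfb]
  · rw [Equiv.ofBijective_apply, Equiv.ofBijective_apply, hg, hg, hfb, hfb]
    exact hp a b hab

end H56C
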