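import Pool.Agent.Lib.H56C.Defs
import Pool.Agent.Lib.H30K.P8

/-!
# Q7 (M): the lower bound for `TT4`

The proof of `P8_tt` (`Lib/H30K/P8.lean`) with four factors. `Δ = H30K.p8_D`, `a Q = Q 0 0 1 1 - Q 0 1 1 0`, `P^ = P + 2 t1 Δ`, ..: pair-symmetric, `a P^ = 2 t1` (`S4 P`: `a P = 0`), `a Δ = 1`.
1. `TT4` is linear in each argument; if one argument is `Δ` then `TT4 = a · a · a` of the three others (pair-symmetric; checked numerically for each of the four positions).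
   By the cyclic symmetry `TT4 P Q S U = TT4 Q S U P` (reindex the sums) it is enough to have this for the first position.
2. Expanding `TT4 (P^ - 2 t1 Δ) (Q^ - 2 t2 Δ) (S^ - 2 t3 Δ) (U^ - 2 t4 Δ)`: each term with at least one `Δ` is `± (2 t1)(2 t2)(2 t3)(2 t4)`, the sign is `(-1)^(number of Δ)`; the sum over the nonempty subsets of the signs is `-1`:
   `TT4 P Q S U = TT4 P^ Q^ S^ U^ - 16 t1 t2 t3 t4`.
3. `TT4 P^ Q^ S^ U^ ≥ 0` for positive semidefinite forms: `p8_gram`, multilinearity, and for rank one forms `x ⊗ x`, .. it is the square of `∑ a b c e, (-1)^(a+b+c+e) x a b * y (1-b) c * z (1-c) e * u (1-e) (1-a)`.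
-/

set_option autoImplicit false

open Finset

namespace H56C

open H30K (B4 S4 qf dt)

theorem q7_add1 (P P' Q S U : B4) : TT4 (fun a b a' b' => P a b a' b' + P' a b a' b') Q S U =
    TT4 P Q S U + TT4 P' Q S U := by
  simp only [TT4, mul_add, add_mul, Finset.sum_add_distrib]

theorem q7_smul1 (t : ℝ) (P Q S U : B4) : TT4 (fun a b a' b' => t * P a b a' b') Q S U =
    t * TT4 P Q S U := by
  unfold TT4
  simp only [Finset.mul_sum]
  refine Finset.sum_congr rfl fun a _ => Finset.sum_congr rfl fun b _ => Finset.sum_congr rfl fun c _ =>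
    Finset.sum_congr rfl fun e _ => Finset.sum_congr rfl fun a' _ => Finset.sum_congr rfl fun b' _ =>
    Finset.sum_congr rfl fun c' _ => Finset.sum_congr rfl fun e' _ => ?_
  ring

theorem q7_sum1 {ι : Type} (s : Finset ι) (f : ι → B4) (Q S U : B4) :
    TT4 (fun a b a' b' => ∑ m ∈ s, f m a b a' b') Q S U = ∑ m ∈ s, TT4 (f m) Q S U := by
  classical
  induction s using Finset.induction_on with
  | empty => simp [TT4]
  | insert i s hi ih =>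
    rw [Finset.sum_insert hi, ← ih, ← q7_add1]
    congr 1
    funext a b a' b'
    rw [Finset.sum_insert hi]

theorem q7_flip (f : Fin 2 → ℝ) : ∑ a : Fin 2, f a = ∑ a : Fin 2, f (1 - a) := by
  rw [Fin.sum_univ_two, Fin.sum_univ_two, show (1 : Fin 2) - 0 = 1 from rfl, show (1 : Fin 2) - 1 = 0 from rfl, add_comm]

theorem q7_ff (a : Fin 2) : (1 : Fin 2) - (1 - a) = a := by
  fin_cases a <;> rfl

theorem q7_sgn (a : Fin 2) : (-1 : ℝ) ^ ((1 - a : Fin 2).1) = -(-1 : ℝ) ^ a.1 := by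
  fin_cases a
  · show (-1 : ℝ) ^ 1 = - (-1 : ℝ) ^ 0
    norm_num
  · show (-1 : ℝ) ^ 0 = - (-1 : ℝ) ^ 1
    norm_num

/-- cyclic symmetry -/
theorem q7_cyc (P Q S U : B4) : TT4 P Q S U = TT4 Q S U P := by
  unfold TT4
  -- right side: variables b c e a b' c' e' a'
  have hR : (∑ b : Fin 2, ∑ c : Fin 2, ∑ e : Fin 2, ∑ a : Fin 2, ∑ b' : Fin 2, ∑ c' : Fin 2, ∑ e' : Fin 2, ∑ a' : Fin 2,
      (-1 : ℝ) ^ (b.1 + c.1 + e.1 + a.1 + b'.1 + c'.1 + e'.1 + a'.1) *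
        (Q b c b' c' * S (1 - c) e (1 - c') e' * U (1 - e) a (1 - e') a' * P (1 - a) (1 - b) (1 - a') (1 - b'))) =
      ∑ b : Fin 2, ∑ c : Fin 2, ∑ e : Fin 2, ∑ a : Fin 2, ∑ b' : Fin 2, ∑ c' : Fin 2, ∑ e' : Fin 2, ∑ a' : Fin 2,
      (-1 : ℝ) ^ (a.1 + b.1 + c.1 + e.1 + a'.1 + b'.1 + c'.1 + e'.1) *
        (P a b a' b' * Q (1 - b) c (1 - b') c' * S (1 - c) e (1 - c') e' * U (1 - e) (1 - a) (1 - e') (1 - a')) := by
    rw [q7_flip]
    refine Finset.sum_congr rfl fun b _ => Finset.sum_congr rfl fun c _ => Finset.sum_congr rfl fun e _ => ?_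
    rw [q7_flip]
    refine Finset.sum_congr rfl fun a _ => ?_
    rw [q7_flip]
    refine Finset.sum_congr rfl fun b' _ => Finset.sum_congr rfl fun c' _ => Finset.sum_congr rfl fun e' _ => ?_
    rw [q7_flip]
    refine Finset.sum_congr rfl fun a' _ => ?_
    simp only [pow_add, q7_sgn, q7_ff]
    ring
  rw [hR]
  have e1 : ∀ F : Fin 2 → Fin 2 → Fin 2 → Fin 2 → ℝ, (∑ a : Fin 2, ∑ b : Fin 2, ∑ c : Fin 2, ∑ e : Fin 2, F a b c e) =
      ∑ b : Fin 2, ∑ c : Fin 2, ∑ e : Fin 2, ∑ a : Fin 2, F a b c e := by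
    intro F
    rw [Finset.sum_comm]
    refine Finset.sum_congr rfl fun b _ => ?_
    rw [Finset.sum_comm]
    refine Finset.sum_congr rfl fun c _ => ?_
    rw [Finset.sum_comm]
  rw [e1 (fun a b c e => ∑ a' : Fin 2, ∑ b' : Fin 2, ∑ c' : Fin 2, ∑ e' : Fin 2,
    (-1 : ℝ) ^ (a.1 + b.1 + c.1 + e.1 + a'.1 + b'.1 + c'.1 + e'.1) *
    (P a b a' b' * Q (1 - b) c (1 - b') c' * S (1 - c) e (1 - c') e' * U (1 - e) (1 - a) (1 - e') (1 - a')))]
  refine Finset.sum_congr rfl fun b _ => Finset.sum_congr rfl fun c _ => Finset.sum_congr rfl fun e _ =>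
    Finset.sum_congr rfl fun a _ => ?_
  rw [e1 (fun a' b' c' e' => (-1 : ℝ) ^ (a.1 + b.1 + c.1 + e.1 + a'.1 + b'.1 + c'.1 + e'.1) *
    (P a b a' b' * Q (1 - b) c (1 - b') c' * S (1 - c) e (1 - c') e' * U (1 - e) (1 - a) (1 - e') (1 - a')))]

theorem q7_D {Q S U : B4} (hQ : ∀ a b a' b', Q a b a' b' = Q a' b' a b)
    (hS : ∀ a b a' b', S a b a' b' = S a' b' a b) (hU : ∀ a b a' b', U a b a' b' = U a' b' a b) :
    TT4 H30K.p8_D Q S U = (Q 0 0 1 1 - Q 0 1 1 0) * (S 0 0 1 1 - S 0 1 1 0) * (U 0 0 1 1 - U 0 1 1 0) := by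
  have Q1 := hQ 0 1 0 0
  have Q2 := hQ 1 0 0 0
  have Q3 := hQ 1 1 0 0
  have Q5 := hQ 1 0 0 1
  have Q6 := hQ 1 1 0 1
  have Q7 := hQ 1 1 1 0
  have S1 := hS 0 1 0 0
  have S2 := hS 1 0 0 0
  have S3 := hS 1 1 0 0
  have S5 := hS 1 0 0 1
  have S6 := hS 1 1 0 1
  have S7 := hS 1 1 1 0
  have U1 := hU 0 1 0 0
  have U2 := hU 1 0 0 0
  have U3 := hU 1 1 0 0
  have U5 := hU 1 0 0 1
  have U6 := hU 1 1 0 1
  have U7 := hU 1 1 1 0
  simp [TT4, H30K.p8_D, Fin.sum_univ_two]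
  simp only [Q2, Q3, Q5, Q6, S1, S2, S3, S5, S6, S7, U1, U3, U5, U7]
  ring

theorem q7_lin1 {P Q S U : B4} (t : ℝ) (hQ : ∀ a b a' b', Q a b a' b' = Q a' b' a b)
    (hS : ∀ a b a' b', S a b a' b' = S a' b' a b) (hU : ∀ a b a' b', U a b a' b' = U a' b' a b) :
    TT4 (fun a b a' b' => P a b a' b' + 2 * t * H30K.p8_D a b a' b') Q S U = TT4 P Q S U +
      2 * t * ((Q 0 0 1 1 - Q 0 1 1 0) * (S 0 0 1 1 - S 0 1 1 0) * (U 0 0 1 1 - U 0 1 1 0)) := by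
  rw [q7_add1 P (fun a b a' b' => 2 * t * H30K.p8_D a b a' b'), q7_smul1, q7_D hQ hS hU]

theorem q7_sq (x y z w : Fin 2 → Fin 2 → ℝ) :
    TT4 (fun a b a' b' => x a b * x a' b') (fun a b a' b' => y a b * y a' b')
      (fun a b a' b' => z a b * z a' b') (fun a b a' b' => w a b * w a' b') =
    (∑ a : Fin 2, ∑ b : Fin 2, ∑ c : Fin 2, ∑ e : Fin 2, (-1 : ℝ) ^ (a.1 + b.1 + c.1 + e.1) *
      (x a b * y (1 - b) c * z (1 - c) e * w (1 - e) (1 - a))) ^ 2 := by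
  rw [pow_two, Finset.sum_mul]
  unfold TT4
  refine Finset.sum_congr rfl fun a _ => ?_
  rw [Finset.sum_mul]
  refine Finset.sum_congr rfl fun b _ => ?_
  rw [Finset.sum_mul]
  refine Finset.sum_congr rfl fun c _ => ?_
  rw [Finset.sum_mul]
  refine Finset.sum_congr rfl fun e _ => ?_
  rw [Finset.mul_sum]
  refine Finset.sum_congr rfl fun a' _ => ?_
  rw [Finset.mul_sum]
  refine Finset.sum_congr rfl fun b' _ => ?_
  rw [Finset.mul_sum]
  refine Finset.sum_congr rfl fun c' _ => ?_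
  rw [Finset.mul_sum]
  refine Finset.sum_congr rfl fun e' _ => ?_
  rw [show a.1 + b.1 + c.1 + e.1 + a'.1 + b'.1 + c'.1 + e'.1 = (a.1 + b.1 + c.1 + e.1) + (a'.1 + b'.1 + c'.1 + e'.1) by ring,
    pow_add]
  ring

theorem q7_psd {P Q S U : B4} (hP : ∀ a b a' b', P a b a' b' = P a' b' a b)
    (hQ : ∀ a b a' b', Q a b a' b' = Q a' b' a b) (hS : ∀ a b a' b', S a b a' b' = S a' b' a b)
    (hU : ∀ a b a' b', U a b a' b' = U a' b' a b)
    (h1 : ∀ X, 0 ≤ qf P X) (h2 : ∀ X, 0 ≤ qf Q X) (h3 : ∀ X, 0 ≤ qf S X) (h4 : ∀ X, 0 ≤ qf U X) : 0 ≤ TT4 P Q S U := by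
  obtain ⟨x, hx⟩ := H30K.p8_gram hP h1
  obtain ⟨y, hy⟩ := H30K.p8_gram hQ h2
  obtain ⟨z, hz⟩ := H30K.p8_gram hS h3
  obtain ⟨w, hw⟩ := H30K.p8_gram hU h4
  rw [hx, q7_sum1 Finset.univ (fun m a b a' b' => x m a b * x m a' b')]
  refine Finset.sum_nonneg fun m _ => ?_
  rw [q7_cyc, hy, q7_sum1 Finset.univ (fun m a b a' b' => y m a b * y m a' b')]
  refine Finset.sum_nonneg fun n _ => ?_
  rw [q7_cyc, hz, q7_sum1 Finset.univ (fun m a b a' b' => z m a b * z m a' b')]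
  refine Finset.sum_nonneg fun o _ => ?_
  rw [q7_cyc, hw, q7_sum1 Finset.univ (fun m a b a' b' => w m a b * w m a' b')]
  refine Finset.sum_nonneg fun p _ => ?_
  rw [q7_sq]
  exact sq_nonneg _

theorem Q7 {P Q S U : B4} (hP : S4 P) (hQ : S4 Q) (hS : S4 S) (hU : S4 U) {t1 t2 t3 t4 : ℝ}
    (h1 : ∀ X, 0 ≤ qf P X + 2 * t1 * dt X) (h2 : ∀ X, 0 ≤ qf Q X + 2 * t2 * dt X)
    (h3 : ∀ X, 0 ≤ qf S X + 2 * t3 * dt X) (h4 : ∀ X, 0 ≤ qf U X + 2 * t4 * dt X) : -(16 * (t1 * t2 * t3 * t4)) ≤ TT4 P Q S U := by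
  have sy : ∀ {B : B4}, S4 B → ∀ t : ℝ, ∀ a b a' b' : Fin 2,
      (fun a b a' b' => B a b a' b' + 2 * t * H30K.p8_D a b a' b') a b a' b' =
      (fun a b a' b' => B a b a' b' + 2 * t * H30K.p8_D a b a' b') a' b' a b := by
    intro B hB t a b a' b'
    show B a b a' b' + 2 * t * H30K.p8_D a b a' b' = B a' b' a b + 2 * t * H30K.p8_D a' b' a b
    rw [hB.pair a b a' b', H30K.p8_D_symm a b a' b']
  have aD : ∀ {B : B4}, S4 B → ∀ t : ℝ, (B 0 0 1 1 + 2 * t * H30K.p8_D 0 0 1 1) - (B 0 1 1 0 + 2 * t * H30K.p8_D 0 1 1 0) = 2 * t := by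
    intro B hB t
    have e1 : B 0 0 1 1 = B 0 1 1 0 := hB.bi 0 0 1 1
    have e2 : H30K.p8_D 0 0 1 1 = 1 / 2 := by simp [H30K.p8_D]
    have e3 : H30K.p8_D 0 1 1 0 = -(1 / 2) := by simp [H30K.p8_D]
    rw [e1, e2, e3]
    ring
  have a0 : ∀ {B : B4}, S4 B → B 0 0 1 1 - B 0 1 1 0 = 0 := by
    intro B hB
    have e1 : B 0 0 1 1 = B 0 1 1 0 := hB.bi 0 0 1 1
    rw [e1, sub_self]
  have h := q7_psd (sy hP t1) (sy hQ t2) (sy hS t3) (sy hU t4)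
    (fun X => by rw [H30K.p8_hat]; exact h1 X) (fun X => by rw [H30K.p8_hat]; exact h2 X)
    (fun X => by rw [H30K.p8_hat]; exact h3 X) (fun X => by rw [H30K.p8_hat]; exact h4 X)
  rw [q7_lin1 t1 (sy hQ t2) (sy hS t3) (sy hU t4), q7_cyc,
    q7_lin1 t2 (sy hS t3) (sy hU t4) hP.pair, q7_cyc, q7_lin1 t3 (sy hU t4) hP.pair hQ.pair, q7_cyc,
    q7_lin1 t4 hP.pair hQ.pair hS.pair, q7_cyc] at h
  simp only [aD hQ, aD hS, aD hU, a0 hP, a0 hQ, a0 hS] at h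
  linarith

end H56C
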