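import Pool.Agent.Lib.H56C.L4
import Pool.Agent.Lib.H56C.B3
import Pool.Agent.Lib.H30K.P13

/-!
# Q8 (M): the mixed blocks: multipliers

Let `a ≠ b`, choose a third block `c` (`c ≠ a`, `c ≠ b`). `f : Fin 6 → Fin 8`, `f (ix 0 s) = jx a s`, `f (ix 1 s) = jx b s`, `f (ix 2 s) = jx c s` (`ix i 0 = i`, `ix i 1 = i + 3` in `Fin 6`; so `f = ![jx a 0, jx b 0, jx c 0, jx a 1, jx b 1, jx c 1]`).
`R' = pull (fun i => Pi.single (f i) 1) R = fun i j k l => R (f i) (f j) (f k) (f l)` (`ev_single`) is an algebraic curvature tensor with `KB 0`, `Trp R'` (from `Qud R`), `bl R' 0 1 = bq R a b`.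
`P12_sec` for `i = 0`, `j = 1`, `P9_lemma` (`c = √(..)`), `P10_min`, `P11_dd` give the claim (see the proof of `case_triple` in `Lib/H30K/P13.lean`); `R (jx a 0) (jx a 1) (jx a 0) (jx a 1) * R (jx b 0) .. = k a * k b`.
`KB 0 R` from `KB h R`, `h ≥ 0`: `area2_nonneg`.
-/

set_option autoImplicit false

open Finset

namespace H56C

open Pool.Agent.H69Hopf
open H30K (KB qf dt)

/-- index map -/
def q8_f (g : Fin 3 → Fin 4) (m : Fin 6) : Fin 8 := jx (g (H30K.p7a_ty m)) (if m.1 < 3 then 0 else 1)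

theorem q8_ix (g : Fin 3 → Fin 4) (i : Fin 3) (s : Fin 2) : q8_f g (H30K.ix i s) = jx (g i) s := by
  fin_cases i <;> fin_cases s <;> rfl

theorem q8_surj (m : Fin 6) : ∃ (i : Fin 3) (s : Fin 2), m = H30K.ix i s := by
  fin_cases m
  · exact ⟨0, 0, rfl⟩
  · exact ⟨1, 0, rfl⟩
  · exact ⟨2, 0, rfl⟩
  · exact ⟨0, 1, rfl⟩
  · exact ⟨1, 1, rfl⟩
  · exact ⟨2, 1, rfl⟩

theorem q8_third (a b : Fin 4) : ∃ c : Fin 4, c ≠ a ∧ c ≠ b := by
  revert a b; decide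

theorem q8_inj {g : Fin 3 → Fin 4} (hg : Function.Injective g) : Function.Injective (q8_f g) := by
  intro m m' h
  obtain ⟨i, s, rfl⟩ := q8_surj m
  obtain ⟨i', s', rfl⟩ := q8_surj m'
  rw [q8_ix, q8_ix] at h
  obtain ⟨h1, h2⟩ := B3_inj h
  rw [hg h1, h2]

theorem q8_onf {f : Fin 6 → Fin 8} (hf : Function.Injective f) : ONF (fun i => (Pi.single (f i) 1 : Fin 8 → ℝ)) := by
  intro i j
  unfold dot
  rw [Finset.sum_eq_single (f i)]
  · by_cases h : i = j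
    · subst h; simp
    · have h' : f i ≠ f j := fun e => h (hf e)
      simp [Pi.single_apply, h, h']
  · intro x _ hx
    simp [Pi.single_apply, hx]
  · simp

theorem Q8 {R : Arr 8} (hR : IsAlgCurv R) (hQ : Qud R) (hK : KB 0 R) {a b : Fin 4} (hab : a ≠ b) :
    ∃ t : ℝ, t ^ 2 ≤ R (jx a 0) (jx a 1) (jx a 0) (jx a 1) * R (jx b 0) (jx b 1) (jx b 0) (jx b 1) ∧ (∀ X, 0 ≤ qf (-bq R a b) X + 2 * t * dt X) ∧
      6 * t ^ 2 ≤ H30K.DD (-bq R a b) := by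
  obtain ⟨c, hca, hcb⟩ := q8_third a b
  obtain ⟨g, hg⟩ : ∃ g : Fin 3 → Fin 4, g = ![a, b, c] := ⟨_, rfl⟩
  have g0 : g 0 = a := by rw [hg]; rfl
  have g1 : g 1 = b := by rw [hg]; rfl
  have g2 : g 2 = c := by rw [hg]; rfl
  have ginj : Function.Injective g := by
    intro i j h
    fin_cases i <;> fin_cases j <;> simp only [Fin.zero_eta, Fin.mk_one, Fin.reduceFinMk, g0, g1, g2] at h ⊢
    · exact absurd h hab
    · exact absurd h hca.symm
    · exact absurd h hab.symm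
    · exact absurd h hcb.symm
    · exact absurd h hca
    · exact absurd h hcb
  obtain ⟨R', hR'⟩ : ∃ R' : Arr 6, R' = pull (fun i => (Pi.single (q8_f g i) 1 : Fin 8 → ℝ)) R := ⟨_, rfl⟩
  have e1 : ∀ i j k l, R' i j k l = R (q8_f g i) (q8_f g j) (q8_f g k) (q8_f g l) := by
    intro i j k l
    rw [hR']
    exact ev_single _ _ _ _ _
  have hA : IsAlgCurv R' := by rw [hR']; exact L4_alg hR _
  have hK' : KB 0 R' := by rw [hR']; exact L4_kb hK (q8_onf (q8_inj ginj))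
  have hT : H30K.Trp R' := by
    intro i j k l p q r s h
    rw [e1, q8_ix, q8_ix, q8_ix, q8_ix] at h
    rcases hQ _ _ _ _ _ _ _ _ h with ⟨h1, h2⟩ | ⟨h1, h2⟩
    · exact Or.inl ⟨ginj h1, ginj h2⟩
    · exact Or.inr ⟨ginj h1, ginj h2⟩
  have hbl : H30K.bl R' 0 1 = bq R a b := by
    funext s t s' t'
    show R' (H30K.ix 0 s) (H30K.ix 1 t) (H30K.ix 0 s') (H30K.ix 1 t') = R (jx a s) (jx b t) (jx a s') (jx b t')
    rw [e1, q8_ix, q8_ix, q8_ix, q8_ix, g0, g1]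
  have h01 : (0 : Fin 3) ≠ 1 := by decide
  have k0 : R' (HopfKC.lo 0) (HopfKC.hi 0) (HopfKC.lo 0) (HopfKC.hi 0) = R (jx a 0) (jx a 1) (jx a 0) (jx a 1) := by
    have := e1 (H30K.ix 0 0) (H30K.ix 0 1) (H30K.ix 0 0) (H30K.ix 0 1)
    rw [q8_ix, q8_ix, g0] at this
    exact this
  have k1 : R' (HopfKC.lo 1) (HopfKC.hi 1) (HopfKC.lo 1) (HopfKC.hi 1) = R (jx b 0) (jx b 1) (jx b 0) (jx b 1) := by
    have := e1 (H30K.ix 1 0) (H30K.ix 1 1) (H30K.ix 1 0) (H30K.ix 1 1)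
    rw [q8_ix, q8_ix, g1] at this
    exact this
  have hS := H30K.P7_S4 hA hT h01
  have b1 := H30K.P12_sec hA hT hK' h01
  obtain ⟨t, ht, h1, h2⟩ := H30K.P10_min (H30K.P9_lemma hS.pair (Real.sqrt_nonneg _) b1)
  have hne : ∀ i : Fin 3, HopfKC.lo i ≠ HopfKC.hi i := by decide
  have n1 := H30K.kb_apply hK' (hne 0)
  have n2 := H30K.kb_apply hK' (hne 1)
  have h3 := H30K.P11_dd hS h1 h2
  rw [hbl] at h1 h3
  rw [k0, k1] at ht
  rw [k0] at n1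
  rw [k1] at n2
  have n3 : 0 ≤ R (jx a 0) (jx a 1) (jx a 0) (jx a 1) * R (jx b 0) (jx b 1) (jx b 0) (jx b 1) := by
    nlinarith
  refine ⟨t, ?_, h1, h3⟩
  calc t ^ 2 = |t| ^ 2 := (sq_abs t).symm
    _ ≤ (Real.sqrt (R (jx a 0) (jx a 1) (jx a 0) (jx a 1) * R (jx b 0) (jx b 1) (jx b 0) (jx b 1))) ^ 2 := by
        gcongr
    _ = _ := Real.sq_sqrt n3

end H56C
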