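import Pool.Agent.Lib.H56C.Defs

/-!
# Q9 (M): the inequality

`k a ≥ 0`, `t_ab² ≤ k a k b`, `D_ab ≥ 6 t_ab²`. `Q9_am`: `d τ ≤ (1/3) d (a t_bc² + b t_ca² + c t_ab²)`, `τ = |t_ab t_bc t_ca|`: with `x = a t_bc²`, `y = b t_ca²`, `z = c t_ab²`: `x y z = a b c τ²` and `τ² ≤ (a b c)²`, so `a b c ≥ τ`, `x y z ≥ τ³`, and
`(x + y + z)³ ≥ 27 x y z ≥ (3 τ)³` (see `case_triple` in `Lib/H30K/P13.lean`, where this is proved).
`Q9`: lower bounds: `k c k d D_ab ≥ 6 k c k d t_ab²`, `D_ab D_cd ≥ 36 (t_ab t_cd)²`; the four terms `8 k d τ_d ≤ (8/3) k d (..)`, where each `k c k d t_ab²` is met twice: altogether `(16/3) ∑ k c k d t_ab² ≤ 6 ∑ ..`; with `x = t01 t23`,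
`y = t02 t13`, `z = t03 t12` the three products of the four-cycles are `t01 t12 t23 t30 = x z`, `t01 t13 t32 t20 = x y`, `t02 t21 t13 t30 = y z` and `16 (x z + x y + y z) ≤ 16 (x² + y² + z²) ≤ 36 (x² + y² + z²)`.
-/

set_option autoImplicit false

open Finset

namespace H56C

theorem Q9_am {a b c tbc tca tab : ℝ} (ha : 0 ≤ a) (hb : 0 ≤ b) (hc : 0 ≤ c) (h1 : tbc ^ 2 ≤ b * c) (h2 : tca ^ 2 ≤ c * a) (h3 : tab ^ 2 ≤ a * b) :
    3 * (tab * tbc * tca) ≤ a * tbc ^ 2 + b * tca ^ 2 + c * tab ^ 2 := by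
  obtain ⟨P, hP⟩ : ∃ P, P = a * b * c := ⟨_, rfl⟩
  obtain ⟨τ, hτ⟩ : ∃ τ, τ = |tbc * tca * tab| := ⟨_, rfl⟩
  have hτ0 : 0 ≤ τ := by rw [hτ]; exact abs_nonneg _
  have hP0 : 0 ≤ P := by rw [hP]; positivity
  have hτ2 : τ ^ 2 = tbc ^ 2 * tca ^ 2 * tab ^ 2 := by rw [hτ, sq_abs]; ring
  have hτP : τ ≤ P := by
    have h3 : τ ^ 2 ≤ P ^ 2 := by
      rw [hτ2, hP]
      calc tbc ^ 2 * tca ^ 2 * tab ^ 2 ≤ (b * c) * (c * a) * (a * b) := by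
            gcongr
        _ = (a * b * c) ^ 2 := by ring
    exact (sq_le_sq₀ hτ0 hP0).1 h3
  obtain ⟨x, hx⟩ : ∃ x, x = a * tbc ^ 2 := ⟨_, rfl⟩
  obtain ⟨y, hy⟩ : ∃ y, y = b * tca ^ 2 := ⟨_, rfl⟩
  obtain ⟨z, hz⟩ : ∃ z, z = c * tab ^ 2 := ⟨_, rfl⟩
  have x0 : 0 ≤ x := by rw [hx]; positivity
  have y0 : 0 ≤ y := by rw [hy]; positivity
  have z0 : 0 ≤ z := by rw [hz]; positivity
  have hxyz : x * y * z = P * τ ^ 2 := by rw [hx, hy, hz, hP, hτ2]; ring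
  have h3 : τ ^ 3 ≤ x * y * z := by
    rw [hxyz]
    calc τ ^ 3 = τ * τ ^ 2 := by ring
      _ ≤ P * τ ^ 2 := by gcongr
  have amgm : 27 * (x * y * z) ≤ (x + y + z) ^ 3 := by
    nlinarith [mul_nonneg x0 (sq_nonneg (y - z)), mul_nonneg y0 (sq_nonneg (x - z)),
      mul_nonneg z0 (sq_nonneg (x - y)), mul_nonneg (add_nonneg (add_nonneg x0 y0) z0)
        (add_nonneg (add_nonneg (sq_nonneg (x - y)) (sq_nonneg (y - z))) (sq_nonneg (x - z)))]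
  have h4 : 3 * τ ≤ x + y + z := by
    by_contra hc
    have h5 := not_le.1 hc
    have h6 : (x + y + z) ^ 3 < (3 * τ) ^ 3 := by
      gcongr
    nlinarith
  have h7 : tbc * tca * tab ≤ τ := by rw [hτ]; exact le_abs_self _
  rw [← hx, ← hy, ← hz]
  linarith

theorem Q9 {k0 k1 k2 k3 t01 t02 t03 t12 t13 t23 D01 D02 D03 D12 D13 D23 T012 T013 T023 T123 q1 q2 q3 : ℝ}
    (h0 : 0 ≤ k0) (h1 : 0 ≤ k1) (h2 : 0 ≤ k2) (h3 : 0 ≤ k3)
    (a01 : t01 ^ 2 ≤ k0 * k1) (a02 : t02 ^ 2 ≤ k0 * k2) (a03 : t03 ^ 2 ≤ k0 * k3) (a12 : t12 ^ 2 ≤ k1 * k2) (a13 : t13 ^ 2 ≤ k1 * k3) (a23 : t23 ^ 2 ≤ k2 * k3)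
    (b01 : 6 * t01 ^ 2 ≤ D01) (b02 : 6 * t02 ^ 2 ≤ D02) (b03 : 6 * t03 ^ 2 ≤ D03) (b12 : 6 * t12 ^ 2 ≤ D12) (b13 : 6 * t13 ^ 2 ≤ D13) (b23 : 6 * t23 ^ 2 ≤ D23)
    (c3 : -(8 * (t01 * t12 * t02)) ≤ T012) (c2 : -(8 * (t01 * t13 * t03)) ≤ T013) (c1 : -(8 * (t02 * t23 * t03)) ≤ T023) (c0 : -(8 * (t12 * t23 * t13)) ≤ T123)
    (e1 : -(16 * (t01 * t12 * t23 * t03)) ≤ q1) (e2 : -(16 * (t01 * t13 * t23 * t02)) ≤ q2) (e3 : -(16 * (t02 * t12 * t13 * t03)) ≤ q3) :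
    k0 * k1 * k2 * k3 ≤ k0 * k1 * k2 * k3 +
      (k2 * k3 * D01 + k1 * k3 * D02 + k1 * k2 * D03 + k0 * k3 * D12 + k0 * k2 * D13 + k0 * k1 * D23) + (D01 * D23 + D02 * D13 + D03 * D12) +
      (k3 * T012 + k2 * T013 + k1 * T023 + k0 * T123) + (q1 + q2 + q3) := by
  have A3 := Q9_am h0 h1 h2 a12 (by rw [mul_comm k2 k0]; exact a02) a01
  have A2 := Q9_am h0 h1 h3 a13 (by rw [mul_comm k3 k0]; exact a03) a01
  have A1 := Q9_am h0 h2 h3 a23 (by rw [mul_comm k3 k0]; exact a03) a02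
  have A0 := Q9_am h1 h2 h3 a23 (by rw [mul_comm k3 k1]; exact a13) a12
  have B3 := mul_le_mul_of_nonneg_left A3 h3
  have B2 := mul_le_mul_of_nonneg_left A2 h2
  have B1 := mul_le_mul_of_nonneg_left A1 h1
  have B0 := mul_le_mul_of_nonneg_left A0 h0
  have C01 := mul_le_mul_of_nonneg_left b01 (mul_nonneg h2 h3)
  have C02 := mul_le_mul_of_nonneg_left b02 (mul_nonneg h1 h3)
  have C03 := mul_le_mul_of_nonneg_left b03 (mul_nonneg h1 h2)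
  have C12 := mul_le_mul_of_nonneg_left b12 (mul_nonneg h0 h3)
  have C13 := mul_le_mul_of_nonneg_left b13 (mul_nonneg h0 h2)
  have C23 := mul_le_mul_of_nonneg_left b23 (mul_nonneg h0 h1)
  have s01 : 0 ≤ 6 * t01 ^ 2 := by positivity
  have s02 : 0 ≤ 6 * t02 ^ 2 := by positivity
  have s03 : 0 ≤ 6 * t03 ^ 2 := by positivity
  have s12 : 0 ≤ 6 * t12 ^ 2 := by positivity
  have s13 : 0 ≤ 6 * t13 ^ 2 := by positivity
  have s23 : 0 ≤ 6 * t23 ^ 2 := by positivity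
  have E1 := mul_le_mul b01 b23 s23 (s01.trans b01)
  have E2 := mul_le_mul b02 b13 s13 (s02.trans b02)
  have E3 := mul_le_mul b03 b12 s12 (s03.trans b03)
  have F3 := mul_le_mul_of_nonneg_left c3 h3
  have F2 := mul_le_mul_of_nonneg_left c2 h2
  have F1 := mul_le_mul_of_nonneg_left c1 h1
  have F0 := mul_le_mul_of_nonneg_left c0 h0
  have g01 := mul_nonneg (mul_nonneg h2 h3) s01
  have g02 := mul_nonneg (mul_nonneg h1 h3) s02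
  have g03 := mul_nonneg (mul_nonneg h1 h2) s03
  have g12 := mul_nonneg (mul_nonneg h0 h3) s12
  have g13 := mul_nonneg (mul_nonneg h0 h2) s13
  have g23 := mul_nonneg (mul_nonneg h0 h1) s23
  have q1' := sq_nonneg (t01 * t23 - t03 * t12)
  have q2' := sq_nonneg (t01 * t23 - t02 * t13)
  have q3' := sq_nonneg (t02 * t13 - t03 * t12)
  have r1 := sq_nonneg (t01 * t23)
  have r2 := sq_nonneg (t02 * t13)
  have r3 := sq_nonneg (t03 * t12)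
  have U1 : 0 ≤ (k2 * k3 * D01 + k1 * k3 * D02 + k1 * k2 * D03 + k0 * k3 * D12 + k0 * k2 * D13 + k0 * k1 * D23) +
      (k3 * T012 + k2 * T013 + k1 * T023 + k0 * T123) := by
    linarith
  have U2 : 0 ≤ (D01 * D23 + D02 * D13 + D03 * D12) + (q1 + q2 + q3) := by
    linarith
  linarith

end H56C
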