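import Pool.Agent.Lib.H56C.Q6
import Pool.Agent.Lib.H56C.Q7
import Pool.Agent.Lib.H56C.Q8
import Pool.Agent.Lib.H56C.Q9

/-!
# QM (M): four pairs

`KB 0 R` (`area2_nonneg`). `k a = -R (jx a 0) (jx a 1) (jx a 0) (jx a 1) ≥ h` (`H30K.kb_apply`), `B a b = -bq R a b`, `S4 (B a b)` for `a ≠ b` (`Q6_S4` and the negative: `pair`, `bi` componentwise). `Q6`, `Q6_neg`: `gaussBonnet 4 R = 6144 * EQ k B`.
`Q8` for the six pairs `a < b` gives `t_ab`. The blocks `B b a` for `a < b` in `EQ` are the transposes (`bq_symm`): `qf (B b a) X = qf (B a b) Xᵀ`, `dt Xᵀ = dt X`, so `B b a` has the same multiplier `t_ab`.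
`H30K.P8_tt` for the triangles, `Q7` for the four-cycles, `Q9`: `EQ k B ≥ k 0 k 1 k 2 k 3 ≥ h ^ 4`.
-/

set_option autoImplicit false

open Finset

namespace H56C

open Pool.Agent.H69Hopf
open H30K (KB)

theorem qm_S4 {B : H30K.B4} (hB : H30K.S4 B) : H30K.S4 (-B) where
  pair := fun a b a' b' => by
    simp only [Pi.neg_apply]
    rw [hB.pair a b a' b']
  bi := fun a b a' b' => by
    simp only [Pi.neg_apply]
    rw [hB.bi a b a' b']

theorem qm_tr {R : Arr 8} (hR : IsAlgCurv R) {a b : Fin 4} {t : ℝ}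
    (h : ∀ X, 0 ≤ H30K.qf (-bq R a b) X + 2 * t * H30K.dt X) (X : Fin 2 → Fin 2 → ℝ) :
    0 ≤ H30K.qf (-bq R b a) X + 2 * t * H30K.dt X := by
  have h1 := h (fun s t => X t s)
  have e1 : H30K.qf (-bq R a b) (fun s t => X t s) = H30K.qf (-bq R b a) X := by
    simp only [H30K.qf, Fin.sum_univ_two, Pi.neg_apply]
    rw [← bq_symm hR a b 0 0 0 0, ← bq_symm hR a b 0 0 0 1, ← bq_symm hR a b 0 0 1 0, ← bq_symm hR a b 0 0 1 1,
      ← bq_symm hR a b 0 1 0 0, ← bq_symm hR a b 0 1 0 1, ← bq_symm hR a b 0 1 1 0, ← bq_symm hR a b 0 1 1 1,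
      ← bq_symm hR a b 1 0 0 0, ← bq_symm hR a b 1 0 0 1, ← bq_symm hR a b 1 0 1 0, ← bq_symm hR a b 1 0 1 1,
      ← bq_symm hR a b 1 1 0 0, ← bq_symm hR a b 1 1 0 1, ← bq_symm hR a b 1 1 1 0, ← bq_symm hR a b 1 1 1 1]
    ring
  have e2 : H30K.dt (fun s t => X t s) = H30K.dt X := by
    simp only [H30K.dt]
    ring
  rw [e1, e2] at h1
  exact h1

theorem QM {R : Arr 8} (hR : IsAlgCurv R) (hQ : Qud R) {h : ℝ} (hh : 0 ≤ h) (hK : KB h R) : 6144 * h ^ 4 ≤ gaussBonnet 4 R := by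
  have hK0 : KB 0 R := by
    intro v w
    have h1 := hK v w
    have h2 := area2_nonneg v w
    have h3 : 0 ≤ h * area2 v w := mul_nonneg hh h2
    linarith
  obtain ⟨k, hk⟩ : ∃ k : Fin 4 → ℝ, k = fun a => -R (jx a 0) (jx a 1) (jx a 0) (jx a 1) := ⟨_, rfl⟩
  have hk' : ∀ a, k a = -R (jx a 0) (jx a 1) (jx a 0) (jx a 1) := fun a => by rw [hk]
  have hne : ∀ a : Fin 4, jx a 0 ≠ jx a 1 := by decide
  have hkh : ∀ a, h ≤ k a := by
    intro a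
    have h1 := H30K.kb_apply hK (hne a)
    rw [hk']
    linarith
  have key : ∀ a b : Fin 4, a ≠ b → ∃ t, t ^ 2 ≤ k a * k b ∧
      (∀ X, 0 ≤ H30K.qf (-bq R a b) X + 2 * t * H30K.dt X) ∧ 6 * t ^ 2 ≤ H30K.DD (-bq R a b) := by
    intro a b hab
    obtain ⟨t, h1, h2, h3⟩ := Q8 hR hQ hK0 hab
    refine ⟨t, ?_, h2, h3⟩
    rw [hk', hk', neg_mul_neg]
    exact h1
  obtain ⟨t01, a01, q01, d01⟩ := key 0 1 (by decide)
  obtain ⟨t02, a02, q02, d02⟩ := key 0 2 (by decide)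
  obtain ⟨t03, a03, q03, d03⟩ := key 0 3 (by decide)
  obtain ⟨t12, a12, q12, d12⟩ := key 1 2 (by decide)
  obtain ⟨t13, a13, q13, d13⟩ := key 1 3 (by decide)
  obtain ⟨t23, a23, q23, d23⟩ := key 2 3 (by decide)
  have hS : ∀ a b : Fin 4, a ≠ b → H30K.S4 (-bq R a b) := fun a b hab => qm_S4 (Q6_S4 hR hQ hab)
  have c3 := H30K.P8_tt (hS 0 1 (by decide)) (hS 1 2 (by decide)) (hS 2 0 (by decide)) q01 q12 (qm_tr hR q02)
  have c2 := H30K.P8_tt (hS 0 1 (by decide)) (hS 1 3 (by decide)) (hS 3 0 (by decide)) q01 q13 (qm_tr hR q03)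
  have c1 := H30K.P8_tt (hS 0 2 (by decide)) (hS 2 3 (by decide)) (hS 3 0 (by decide)) q02 q23 (qm_tr hR q03)
  have c0 := H30K.P8_tt (hS 1 2 (by decide)) (hS 2 3 (by decide)) (hS 3 1 (by decide)) q12 q23 (qm_tr hR q13)
  have e1 := Q7 (hS 0 1 (by decide)) (hS 1 2 (by decide)) (hS 2 3 (by decide)) (hS 3 0 (by decide)) q01 q12 q23 (qm_tr hR q03)
  have e2 := Q7 (hS 0 1 (by decide)) (hS 1 3 (by decide)) (hS 3 2 (by decide)) (hS 2 0 (by decide)) q01 q13 (qm_tr hR q23)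
    (qm_tr hR q02)
  have e3 := Q7 (hS 0 2 (by decide)) (hS 2 1 (by decide)) (hS 1 3 (by decide)) (hS 3 0 (by decide)) q02 (qm_tr hR q12) q13
    (qm_tr hR q03)
  have fin := Q9 (hh.trans (hkh 0)) (hh.trans (hkh 1)) (hh.trans (hkh 2)) (hh.trans (hkh 3)) a01 a02 a03 a12 a13 a23
    d01 d02 d03 d12 d13 d23 c3 c2 c1 c0 e1 e2 e3
  have hEQ : gaussBonnet 4 R = 6144 * EQ k (fun a b => -bq R a b) := by
    rw [Q6 hR hQ, hk, Q6_neg]
  have hEk : k 0 * k 1 * k 2 * k 3 ≤ EQ k (fun a b => -bq R a b) := fin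
  have hp : h ^ 4 ≤ k 0 * k 1 * k 2 * k 3 := by
    have h0 := hkh 0
    have h1 := hkh 1
    have h2 := hkh 2
    have h3 := hkh 3
    have p0 := hh.trans h0
    have p1 := hh.trans h1
    have p2 := hh.trans h2
    calc h ^ 4 = h * h * h * h := by ring
      _ ≤ k 0 * k 1 * k 2 * k 3 := by gcongr
  rw [hEQ]
  linarith

end H56C
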