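import Pool.Agent.Lib.H56C.L4
import Pool.Agent.Lib.H56C.B1
import Pool.Agent.Lib.H56C.B2
import Pool.Agent.Lib.H56C.B3
import Pool.Agent.Lib.H56C.QM

/-!
# B4 (M): no simple value

`B2`. `n ≤ 2`: `B1`. Otherwise `n = 3` or `n = 4` and all classes have two elements.
`n = 3`: `B2_gen` and `H30K.case_gen`: `gb R ≤ -(384 h ^ 3)`, `gaussBonnet 3 R = gb R` (`H30K.gb3`), `4 ^ 3 * 3! = 384`.
`n = 4`: `B3` gives `e`; `R' i j k l = R (e i) (e j) (e k) (e l) = pull (fun i => Pi.single (e i) 1) R` (`ev_single`); `ONF`; `mgb_pull`, `det_sq_of_ONF`: `gaussBonnet 4 R' = gaussBonnet 4 R`; `L4_alg`, `L4_kb`.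
`Qud R'`: if `R' (jx i a) (jx j b) (jx k c) (jx l e') ≠ 0` then by `H30K.P1_zero` (for `R`) the values of the four indices are equal in pairs, and the values `β (e (jx i a)) = β (e (jx i 0))` are different for different `i`.
`QM`: `4 ^ 4 * 24 * h ^ 4 ≤ gaussBonnet 4 R'`.
-/

set_option autoImplicit false

open Finset

namespace H56C

open Pool.Agent.H69Hopf
open H30K (KB Cyc)

theorem B4_three {R : Arr (2 * 3)} (hR : IsAlgCurv R) {β : Fin (2 * 3) → ℝ} (hc : Cyc β R) {h : ℝ} (hh : 0 ≤ h)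
    (hK : KB h R) (h2 : ∀ i, cl β i = 2) : 4 ^ 3 * (Nat.factorial 3 : ℝ) * h ^ 3 ≤ (-1) ^ 3 * gaussBonnet 3 R := by
  have h1 := H30K.case_gen (R := R) hR hh hK (β := β) hc (B2_gen h2)
  have e : gaussBonnet 3 R = HopfSix.gaussBonnet R := H30K.gb3 R
  have h3 : HopfSix.gaussBonnet R ≤ -(384 * h ^ 3) := h1
  have hf : (Nat.factorial 3 : ℝ) = 6 := by norm_num [Nat.factorial]
  rw [e, hf]
  linarith

theorem B4_four {R : Arr (2 * 4)} (hR : IsAlgCurv R) {β : Fin (2 * 4) → ℝ} (hc : Cyc β R) {h : ℝ} (hh : 0 ≤ h)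
    (hK : KB h R) (h2 : ∀ i, cl β i = 2) : 4 ^ 4 * (Nat.factorial 4 : ℝ) * h ^ 4 ≤ (-1) ^ 4 * gaussBonnet 4 R := by
  classical
  have hf : (Nat.factorial 4 : ℝ) = 24 := by norm_num [Nat.factorial]
  obtain ⟨e, he1, he2⟩ := B3 (β := β) h2
  let g : Fin (2 * 4) → (Fin (2 * 4) → ℝ) := fun i => Pi.single (e i) 1
  have hg : ONF g := by
    intro i j
    change dot (Pi.single (e i) 1) (Pi.single (e j) 1) = _
    unfold dot
    rw [Finset.sum_eq_single (e i)]
    · by_cases hij : i = j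
      · rw [if_pos hij, hij, Pi.single_eq_same, one_mul]
      · rw [if_neg hij, Pi.single_eq_same, one_mul, Pi.single_eq_of_ne fun h => hij (e.injective h)]
    · intro b _ hb
      rw [Pi.single_eq_of_ne hb, zero_mul]
    · intro h
      exact absurd (Finset.mem_univ _) h
  have hgb : gaussBonnet 4 (pull g R) = gaussBonnet 4 R := by
    have h1 := mgb_pull (m := 4) (fun _ => R) g
    rw [det_sq_of_ONF hg, one_mul] at h1
    exact h1
  have hpe : ∀ i j k l, pull g R i j k l = R (e i) (e j) (e k) (e l) := fun i j k l => ev_single R _ _ _ _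
  have hinj : ∀ a b : Fin 4, β (e (jx a 0)) = β (e (jx b 0)) → a = b := by
    intro a b hab
    by_contra hne
    exact he2 a b hne hab
  have hQ : Qud (pull g R) := by
    intro i j k l a b c d h0
    rw [hpe] at h0
    rcases H30K.P1_zero hR hc h0 with ⟨h3, h4⟩ | ⟨h3, h4⟩
    · left
      rw [he1 i a, he1 k c] at h3
      rw [he1 j b, he1 l d] at h4
      exact ⟨hinj _ _ h3, hinj _ _ h4⟩
    · right
      rw [he1 i a, he1 l d] at h3
      rw [he1 j b, he1 k c] at h4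
      exact ⟨hinj _ _ h3, hinj _ _ h4⟩
  have h5 := QM (R := pull g R) (L4_alg hR g) hQ hh (L4_kb hK hg)
  rw [hgb] at h5
  rw [hf]
  linarith

theorem B4 {n : ℕ} {R : Arr (2 * n)} (hR : IsAlgCurv R) {β : Fin (2 * n) → ℝ} (hc : Cyc β R) (hA : Adm β) {h : ℝ} (hh : 0 ≤ h) (hK : KB h R) (h2 : ∀ i, 2 ≤ cl β i) :
    4 ^ n * (n.factorial : ℝ) * h ^ n ≤ (-1) ^ n * gaussBonnet n R := by
  by_cases hn : n ≤ 2
  · exact B1 hn hR hh hK
  · rcases B2 hA h2 with h3 | ⟨h3, h4⟩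
    · exact absurd h3 hn
    · obtain rfl | rfl : n = 3 ∨ n = 4 := by omega
      · exact B4_three hR hc hh hK h4
      · exact B4_four hR hc hh hK h4

end H56C
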