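import Pool.Agent.Lib.H56C.C2
import Pool.Agent.Lib.H30P.Asm

/-!
# H56C, file C3: corollaries of `two_conn` for tables

`two_nonempty`: two plane cycles with only `v` in common: some edge `a i b j` misses both cycles.
`path_cross`: a maximal plane set on `w 0, .., w m` has for every `0 < t < m` an edge `w x w y` with `x < t < y`.
`path_unc`: a plane path `w 0, .., w m`, `0 < t < m`, and a plane set `F` of edges of these points: some edge
`w x w y` with `x < t < y` misses `F`.
-/

set_option autoImplicit false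
set_option linter.unusedSectionVars false

namespace H56C

open Finset H98P H98Z H98M H36L H53P H30P

variable {V : Type*} [Fintype V] [DecidableEq V] {cross : Sym2 V → Sym2 V → Prop}

/-- Every plane set `F` on `W` is missed by an edge joining the two parts of `W - v`. -/
theorem join_free (hG : Geo cross) {W : Finset V} {F : Finset (Sym2 V)} (hF : F ⊆ LW W)
    (hp : Plane cross F) (v : V) {A B : Finset V} (hA : A.Nonempty) (hB : B.Nonempty)
    (hAB : Disjoint A B) (hU : A ∪ B = W.erase v) :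
    ∃ a ∈ A, ∃ b ∈ B, ∀ f ∈ F, ¬ cross s(a, b) f := by
  obtain ⟨R, hFR, hR⟩ := exists_maxP (W := W) hG.symm
    (fun e => by
      induction e with
      | _ a b => exact hG.adj a b b) hF hp
  obtain ⟨a, ha, b, hb, h⟩ := two_conn hG hR v hA hB hAB hU
  exact ⟨a, ha, b, hb, fun f hf => hR.2.1 _ h f (hFR hf)⟩

/-- The points of a sequence: some edge across `t` misses the plane set `F`. -/
theorem seq_free (hG : Geo cross) {w : ℕ → V} {m : ℕ} (hw : ∀ i ≤ m, ∀ j ≤ m, w i = w j → i = j)
    {F : Finset (Sym2 V)} (hF : F ⊆ LW ((range (m + 1)).image w)) (hp : Plane cross F) {t : ℕ}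
    (h0 : 0 < t) (hm : t < m) : ∃ x y, x < t ∧ t < y ∧ y ≤ m ∧ ∀ f ∈ F, ¬ cross s(w x, w y) f := by
  obtain ⟨a, ha, b, hb, h⟩ := join_free hG hF hp (w t) (A := (range t).image w)
    (B := (Finset.Icc (t + 1) m).image w) ⟨w 0, mem_image_of_mem _ (mem_range.2 h0)⟩
    ⟨w m, mem_image_of_mem _ (Finset.mem_Icc.2 ⟨hm, le_rfl⟩)⟩ (by
      rw [disjoint_left]
      intro u hu hu'
      obtain ⟨i, hi, rfl⟩ := mem_image.1 hu
      obtain ⟨j, hj, h1⟩ := mem_image.1 hu'
      rw [mem_range] at hi
      rw [Finset.mem_Icc] at hj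
      have := hw j hj.2 i (by omega) h1
      omega) (by
      ext u
      rw [mem_union, mem_erase, mem_image, mem_image, mem_image]
      constructor
      · rintro (⟨i, hi, rfl⟩ | ⟨i, hi, rfl⟩)
        · rw [mem_range] at hi
          exact ⟨fun h => by have := hw i (by omega) t (by omega) h; omega,
            i, mem_range.2 (by omega), rfl⟩
        · rw [Finset.mem_Icc] at hi
          exact ⟨fun h => by have := hw i hi.2 t (by omega) h; omega, i, mem_range.2 (by omega), rfl⟩
      · rintro ⟨h1, i, hi, rfl⟩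
        rw [mem_range] at hi
        rcases Nat.lt_trichotomy i t with h2 | h2 | h2
        · exact Or.inl ⟨i, mem_range.2 h2, rfl⟩
        · rw [h2] at h1
          exact absurd rfl h1
        · exact Or.inr ⟨i, Finset.mem_Icc.2 ⟨h2, by omega⟩, rfl⟩)
  obtain ⟨x, hx, rfl⟩ := mem_image.1 ha
  obtain ⟨y, hy, rfl⟩ := mem_image.1 hb
  rw [Finset.mem_Icc] at hy
  exact ⟨x, y, mem_range.1 hx, hy.1, hy.2, h⟩

/-- A maximal plane set on `w 0, .., w m` has an edge across `t`. -/
theorem path_cross (hG : Geo cross) {w : ℕ → V} {m : ℕ} (hw : ∀ i ≤ m, ∀ j ≤ m, w i = w j → i = j)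
    {R : Finset (Sym2 V)} (hR : MaxP cross ((range (m + 1)).image w) R) {t : ℕ} (h0 : 0 < t)
    (hm : t < m) : ∃ x y, x < t ∧ t < y ∧ y ≤ m ∧ s(w x, w y) ∈ R := by
  obtain ⟨x, y, h1, h2, h3, h4⟩ := seq_free hG hw hR.1 hR.2.1 h0 hm
  refine ⟨x, y, h1, h2, h3, hR.2.2 _ (mem_LW.2 ⟨mem_image_of_mem _ (mem_range.2 (by omega)),
    mem_image_of_mem _ (mem_range.2 (by omega)), fun h => ?_⟩) h4⟩
  have := hw x (by omega) y h3 h
  omega

/-- NONEMPTY -/
theorem two_nonempty {T : Table V} {a b : ℕ → V} {p m : ℕ} (hG : Geo cross) (hS : Sees T cross)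
    (h : Two T a p b m) : ∃ i j, Br T a b p m i j := by
  have p3 := h.pa.toPer.three
  have m3 := h.pb.toPer.three
  obtain ⟨x, hx, y, hy, hf⟩ := join_free hG (W := (range (p + 1)).image a ∪ (range (m + 1)).image b)
    (F := pe a (p + 1) ∪ pe b (m + 1)) (by
      intro e he
      rcases mem_union.1 he with he | he
      · unfold pe at he
        obtain ⟨k, hk, rfl⟩ := mem_image.1 he
        rw [mem_range] at hk
        refine mem_LW.2 ⟨mem_union_left _ (mem_image_of_mem _ (mem_range.2 hk)), mem_union_left _ ?_, ?_⟩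
        · rcases Nat.lt_or_ge (k + 1) (p + 1) with h1 | h1
          · exact mem_image_of_mem _ (mem_range.2 h1)
          · rw [show k + 1 = 0 + (p + 1) by omega, h.pa.per]
            exact mem_image_of_mem _ (mem_range.2 (by omega))
        · intro h1
          rw [h.pa.toPer.eq_iff] at h1
          rcases Nat.lt_or_ge (k + 1) (p + 1) with h2 | h2
          · rw [Nat.mod_eq_of_lt hk, Nat.mod_eq_of_lt h2] at h1
            omega
          · rw [show k + 1 = p + 1 by omega, Nat.mod_self, Nat.mod_eq_of_lt hk] at h1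
            omega
      · unfold pe at he
        obtain ⟨k, hk, rfl⟩ := mem_image.1 he
        rw [mem_range] at hk
        refine mem_LW.2 ⟨mem_union_right _ (mem_image_of_mem _ (mem_range.2 hk)), mem_union_right _ ?_, ?_⟩
        · rcases Nat.lt_or_ge (k + 1) (m + 1) with h1 | h1
          · exact mem_image_of_mem _ (mem_range.2 h1)
          · rw [show k + 1 = 0 + (m + 1) by omega, h.pb.per]
            exact mem_image_of_mem _ (mem_range.2 (by omega))
        · intro h1
          rw [h.pb.toPer.eq_iff] at h1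
          rcases Nat.lt_or_ge (k + 1) (m + 1) with h2 | h2
          · rw [Nat.mod_eq_of_lt hk, Nat.mod_eq_of_lt h2] at h1
            omega
          · rw [show k + 1 = m + 1 by omega, Nat.mod_self, Nat.mod_eq_of_lt hk] at h1
            omega) (by
      intro e he f hf
      rcases mem_union.1 he with he | he <;> rcases mem_union.1 hf with hf | hf
      · obtain ⟨k, rfl⟩ := h.pa.toPer.mem_pe.1 he
        obtain ⟨l, rfl⟩ := h.pa.toPer.mem_pe.1 hf
        rw [hS.iff, h.pa.plane]
        simp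
      · obtain ⟨k, rfl⟩ := h.pa.toPer.mem_pe.1 he
        obtain ⟨l, rfl⟩ := h.pb.toPer.mem_pe.1 hf
        rw [hS.iff, h.un]
        simp
      · obtain ⟨k, rfl⟩ := h.pb.toPer.mem_pe.1 he
        obtain ⟨l, rfl⟩ := h.pa.toPer.mem_pe.1 hf
        rw [hS.iff, h.symm.un]
        simp
      · obtain ⟨k, rfl⟩ := h.pb.toPer.mem_pe.1 he
        obtain ⟨l, rfl⟩ := h.pb.toPer.mem_pe.1 hf
        rw [hS.iff, h.pb.plane]
        simp) (a 0) (A := (Finset.Icc 1 p).image a) (B := (Finset.Icc 1 m).image b)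
    ⟨a 1, mem_image_of_mem _ (Finset.mem_Icc.2 ⟨le_rfl, by omega⟩)⟩
    ⟨b 1, mem_image_of_mem _ (Finset.mem_Icc.2 ⟨le_rfl, by omega⟩)⟩ (by
      rw [disjoint_left]
      intro u hu hu'
      obtain ⟨i, hi, rfl⟩ := mem_image.1 hu
      obtain ⟨j, hj, h1⟩ := mem_image.1 hu'
      rw [Finset.mem_Icc] at hi hj
      exact h.dis i j hi.1 hi.2 h1.symm) (by
      have inj : ∀ i, 1 ≤ i → i ≤ p → a i ≠ a 0 := fun i h1 h2 h3 => by
        have := h.pa.inj i (by omega) 0 (by omega) h3
        omega
      have inj' : ∀ i, 1 ≤ i → i ≤ m → b i ≠ a 0 := fun i h1 h2 h3 => by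
        rw [← h.v0] at h3
        have := h.pb.inj i (by omega) 0 (by omega) h3
        omega
      ext u
      rw [mem_union, mem_erase, mem_union, mem_image, mem_image, mem_image, mem_image]
      constructor
      · rintro (⟨i, hi, rfl⟩ | ⟨i, hi, rfl⟩)
        · rw [Finset.mem_Icc] at hi
          exact ⟨inj i hi.1 hi.2, Or.inl ⟨i, mem_range.2 (by omega), rfl⟩⟩
        · rw [Finset.mem_Icc] at hi
          exact ⟨inj' i hi.1 hi.2, Or.inr ⟨i, mem_range.2 (by omega), rfl⟩⟩
      · rintro ⟨h1, ⟨i, hi, rfl⟩ | ⟨i, hi, rfl⟩⟩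
        · rw [mem_range] at hi
          refine Or.inl ⟨i, Finset.mem_Icc.2 ⟨?_, by omega⟩, rfl⟩
          rcases Nat.eq_zero_or_pos i with h2 | h2
          · rw [h2] at h1
            exact absurd rfl h1
          · exact h2
        · rw [mem_range] at hi
          refine Or.inr ⟨i, Finset.mem_Icc.2 ⟨?_, by omega⟩, rfl⟩
          rcases Nat.eq_zero_or_pos i with h2 | h2
          · rw [h2, h.v0] at h1
            exact absurd rfl h1
          · exact h2)
  obtain ⟨i, hi, rfl⟩ := mem_image.1 hx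
  obtain ⟨j, hj, rfl⟩ := mem_image.1 hy
  rw [Finset.mem_Icc] at hi hj
  refine ⟨i, j, hi.1, hi.2, hj.1, hj.2, fun k => ?_, fun k => ?_⟩
  · have h1 := hf _ (mem_union_left _ (h.pa.toPer.mem_pe.2 ⟨k, rfl⟩))
    rw [hS.iff] at h1
    simpa using h1
  · have h1 := hf _ (mem_union_right _ (h.pb.toPer.mem_pe.2 ⟨k, rfl⟩))
    rw [hS.iff] at h1
    simpa using h1

end H56C
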