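import Pool.Agent.Lib.H56C.Stmt
import Pool.Agent.Lib.H30K.P16
import Pool.Agent.Lib.H30K.P2
import Pool.Agent.Lib.H69.Hopf.Cof
import Pool.Agent.Lib.H69.Hopf.Sym

/-!
# H56C: definitions (see `PROOF.md`)

`Arr N` = arrays `R i j k l`; `ev R x y z w = ∑ R i j k l x_i y_j z_k w_l`; `area2 x y = |x|² |y|² - (x·y)²`;
`KB h R` (`H30K`): `ev R v w v w ≤ -(h * area2 v w)`; `Cyc β R` (`H30K`): `R i j k l β k + R j k i l β i + R k i j l β j = 0`.
`mgb T` (`H69.Hopf.Alt`) = the mixed Gauss-Bonnet form, `gaussBonnet n R = mgb fun _ => R` (by `rfl`), `consM S T` = `mgb (S, T)`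
(`mgb_cons`), `cof T` = the cofactor array (`consM_eq_cof`), `pull v R i j k l = ev R (v i) (v j) (v k) (v l)`.
-/

set_option autoImplicit false

open Finset

namespace H56C

open Pool.Agent.H69Hopf (Arr IsAlgCurv ev area2 gaussBonnet)
open H30K (KB Cyc)

/-- the part of `R` with the index `e` in the first pair -/
def pA {N : ℕ} (e : Fin N) (R : Arr N) : Arr N := fun i j k l => if i = e ∨ j = e then R i j k l else 0

/-- the part of `R` without the index `e` in the first pair -/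
def pR {N : ℕ} (e : Fin N) (R : Arr N) : Arr N := fun i j k l => if i = e ∨ j = e then 0 else R i j k l

/-- the pointwise theorem in dimension `2 n` -/
def PTn (n : ℕ) : Prop := ∀ R : Arr (2 * n), IsAlgCurv R → ∀ β : Fin (2 * n) → ℝ, Cyc β R → Adm β → ∀ h : ℝ, 0 ≤ h → KB h R →
  4 ^ n * (n.factorial : ℝ) * h ^ n ≤ (-1) ^ n * gaussBonnet n R

/-- the index number `s` of the block `a` -/
def jx (a : Fin 4) (s : Fin 2) : Fin 8 := ⟨2 * a.1 + s.1, by omega⟩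

/-- the block `R(a s, b t, a s', b t')` -/
def bq (R : Arr 8) (a b : Fin 4) : H30K.B4 := fun s t s' t' => R (jx a s) (jx b t) (jx a s') (jx b t')

/-- four pairs of indices -/
def Qud (R : Arr 8) : Prop := ∀ (i j k l : Fin 4) (a b c e : Fin 2), R (jx i a) (jx j b) (jx k c) (jx l e) ≠ 0 → (i = k ∧ j = l) ∨ (i = l ∧ j = k)

/-- the invariant of a four-cycle of blocks -/
def TT4 (P Q S U : H30K.B4) : ℝ := ∑ a : Fin 2, ∑ b : Fin 2, ∑ c : Fin 2, ∑ e : Fin 2, ∑ a' : Fin 2, ∑ b' : Fin 2, ∑ c' : Fin 2, ∑ e' : Fin 2,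
  (-1 : ℝ) ^ (a.1 + b.1 + c.1 + e.1 + a'.1 + b'.1 + c'.1 + e'.1) *
    (P a b a' b' * Q (1 - b) c (1 - b') c' * S (1 - c) e (1 - c') e' * U (1 - e) (1 - a) (1 - e') (1 - a'))

/-- the integrand for four pairs, `k` = the curvatures of the blocks, `B a b` = the mixed blocks -/
def EQ (k : Fin 4 → ℝ) (B : Fin 4 → Fin 4 → H30K.B4) : ℝ :=
  k 0 * k 1 * k 2 * k 3 +
  (k 2 * k 3 * H30K.DD (B 0 1) + k 1 * k 3 * H30K.DD (B 0 2) + k 1 * k 2 * H30K.DD (B 0 3) + k 0 * k 3 * H30K.DD (B 1 2) +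
    k 0 * k 2 * H30K.DD (B 1 3) + k 0 * k 1 * H30K.DD (B 2 3)) +
  (H30K.DD (B 0 1) * H30K.DD (B 2 3) + H30K.DD (B 0 2) * H30K.DD (B 1 3) + H30K.DD (B 0 3) * H30K.DD (B 1 2)) +
  (k 3 * H30K.TT (B 0 1) (B 1 2) (B 2 0) + k 2 * H30K.TT (B 0 1) (B 1 3) (B 3 0) + k 1 * H30K.TT (B 0 2) (B 2 3) (B 3 0) +
    k 0 * H30K.TT (B 1 2) (B 2 3) (B 3 1)) +
  (TT4 (B 0 1) (B 1 2) (B 2 3) (B 3 0) + TT4 (B 0 1) (B 1 3) (B 3 2) (B 2 0) + TT4 (B 0 2) (B 2 1) (B 1 3) (B 3 0))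

end H56C
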