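import Pool.Agent.Lib.H56C.Stmt
import Pool.Agent.Lib.H30K.Frame
import Pool.Agent.Lib.H79G.P1
import Pool.Agent.Lib.H79G.S0
import Pool.Agent.Lib.H79G.F1

/-!
# GA (S/M): the Gauss-Bonnet-Chern integrand

`GA_pf`: `gb_frame` (`Lib/H79G`), see `G12_pf` in `Lib/H30K/G12.lean` (`frR` is `frameR` by `rfl`). `GA_cont`: `G12_cont` in the same file, for every dimension.
-/

set_option autoImplicit false

open scoped ContDiff Topology Manifold
open Set

namespace H56C

open H31R H79G H60E H30K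
open Pool.Agent.H69Hopf (Arr IsAlgCurv ev area2)

/-- the integrand of Gauss-Bonnet-Chern at the point `x` -/
noncomputable def pfn {d : ℕ} (G : EE d → Mt d) (x : EE d) : ℝ := evM 0 (PC (cuv G x))

theorem GA_pf {n : ℕ} {U : Set (EE (2 * n))} {G : EE (2 * n) → Mt (2 * n)} (h : MetOn U G) {x : EE (2 * n)} (hx : x ∈ U) {E : Mt (2 * n)}
    (hE : E.transpose * G x * E = 1) : pfn G x = Pool.Agent.H69Hopf.gaussBonnet n (frR (riem G x) E) / (4 ^ n * n.factorial) :=
  gb_frame h hx hE

theorem GA_cont {d : ℕ} {U : Set (EE d)} {G : EE d → Mt d} (h : MetOn U G) : ContinuousOn (pfn G) U := by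
  have h1 : ContDiffOn ℝ ∞ (UU G (fun _ _ => (0 : ℝ)) 0) U :=
    h.smooth_UU (fun a => contDiffOn_const) 0
  refine h1.continuousOn.congr fun y _ => ?_
  unfold pfn UU
  rw [zero_smul]
  simp

end H56C
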