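import Pool.Agent.Lib.H56C.Stmt
import Pool.Agent.Lib.H30K.P3B

/-!
# GB (M): bounds for the sectional curvature near a point, every dimension `d ≥ 2`

The statements and proofs of `G13_nonpos`, `G13_neg` in `Lib/H30K/G13.lean` with `6` replaced by `d` (`kb_orth`, `frR_mul`, `frame_rel` in `P3B` are for every `d`; for the nonempty compact set of orthonormal pairs take
`(Pi.single ⟨0, _⟩ 1, Pi.single ⟨1, _⟩ 1)`).
-/

set_option autoImplicit false

open scoped ContDiff Topology Manifold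
open Set

namespace H56C

open H31R H79G H60E H30K
open Pool.Agent.H69Hopf (Arr IsAlgCurv ev area2)

variable {d : ℕ}

theorem gb_riem_cont {U : Set (EE d)} {G : EE d → Mt d} (h : MetOn U G) (a b c f : Fin d) :
    ContinuousOn (fun y => riem G y a b c f) U := by
  have hdet := met_det_ne h
  have hsm : ∀ n, SmM n U G := fun n i j => (h.sm i j).of_le (by exact_mod_cast le_top)
  have hc : ∀ m i j k, Sm m U (chr G k i j) := fun m i j k => N_chr_sm h.hU (hsm _) hdet k i j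
  have : ContDiffOn ℝ (0 : ℕ) (fun y => riem G y a b c f) U := by
    unfold riem
    refine ContDiffOn.sum fun m _ => (hsm 0 c m).mul ?_
    refine ((N_pd_sm h.hU (hc (0 + 1) _ _ _) a).sub (N_pd_sm h.hU (hc (0 + 1) _ _ _) b)).add
      (ContDiffOn.sum fun e _ => ?_)
    exact ((hc 0 _ _ _).mul (hc 0 _ _ _)).sub ((hc 0 _ _ _).mul (hc 0 _ _ _))
  exact this.continuousOn

/-- the scalar product of the metric -/
noncomputable def gb_ip (G : Mt d) (v w : Fin d → ℝ) : ℝ := ∑ i, ∑ j, G i j * v i * w j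

/-- the area form of the metric -/
noncomputable def gb_ar (G : Mt d) (v w : Fin d → ℝ) : ℝ :=
  gb_ip G v v * gb_ip G w w - gb_ip G v w * gb_ip G w v

theorem gb_ip_lin (G : Mt d) (a b c e : ℝ) (v w v' w' : Fin d → ℝ) :
    gb_ip G (a • v + b • w) (c • v' + e • w') =
      a * c * gb_ip G v v' + a * e * gb_ip G v w' + b * c * gb_ip G w v' +
        b * e * gb_ip G w w' := by
  unfold gb_ip
  simp only [Pi.add_apply, Pi.smul_apply, smul_eq_mul, Finset.mul_sum, ← Finset.sum_add_distrib]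
  refine Finset.sum_congr rfl fun i _ => Finset.sum_congr rfl fun j _ => ?_
  ring

theorem gb_ar_lin (G : Mt d) (r s t : ℝ) (v w : Fin d → ℝ) :
    gb_ar G (r • v) (s • v + t • w) = r ^ 2 * t ^ 2 * gb_ar G v w := by
  have h1 := gb_ip_lin G r 0 r 0 v w v w
  have h2 := gb_ip_lin G s t s t v w v w
  have h3 := gb_ip_lin G r 0 s t v w v w
  have h4 := gb_ip_lin G s t r 0 v w v w
  simp only [zero_smul, add_zero, zero_mul, mul_zero] at h1 h2 h3 h4
  unfold gb_ar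
  rw [h1, h2, h3, h4]
  ring

open Pool.Agent.H69Hopf in
/-- the sectional form of linear combinations -/
theorem gb_sec_lin {R : Arr d} (hR : IsAlgCurv R) (r s t : ℝ) (v w : Fin d → ℝ) :
    ev R (r • v) (s • v + t • w) (r • v) (s • v + t • w) = r ^ 2 * t ^ 2 * ev R v w v w := by
  have h0 : ∀ x z u, ev R x x z u = 0 := by
    intro x z u
    have := ev_skew hR x x z u
    linarith
  have h1 : ∀ x z u, ev R z u x x = 0 := by
    intro x z u
    rw [ev_pair hR]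
    exact h0 _ _ _
  simp only [ev_smul1, ev_smul2, ev_smul3, ev_smul4, ev_add2, ev_add4, h0, h1]
  ring

/-- orthonormal pairs -/
def gb_K {d : ℕ} : Set ((Fin d → ℝ) × (Fin d → ℝ)) :=
  {p | ∑ i, p.1 i ^ 2 = 1 ∧ ∑ i, p.2 i ^ 2 = 1 ∧ ∑ i, p.1 i * p.2 i = 0}

theorem gb_K_compact : IsCompact (gb_K (d := d)) := by
  refine Metric.isCompact_of_isClosed_isBounded ?_ ?_
  · have h1 : IsClosed {p : (Fin d → ℝ) × (Fin d → ℝ) | ∑ i, p.1 i ^ 2 = 1} :=
      isClosed_eq (by fun_prop) continuous_const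
    have h2 : IsClosed {p : (Fin d → ℝ) × (Fin d → ℝ) | ∑ i, p.2 i ^ 2 = 1} :=
      isClosed_eq (by fun_prop) continuous_const
    have h3 : IsClosed {p : (Fin d → ℝ) × (Fin d → ℝ) | ∑ i, p.1 i * p.2 i = 0} :=
      isClosed_eq (by fun_prop) continuous_const
    exact h1.inter (h2.inter h3)
  · refine Metric.isBounded_closedBall (x := (0 : (Fin d → ℝ) × (Fin d → ℝ))) (r := 1) |>.subset ?_
    have key : ∀ v : Fin d → ℝ, ∑ i, v i ^ 2 = 1 → ‖v‖ ≤ 1 := by
      intro v hv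
      refine (pi_norm_le_iff_of_nonneg zero_le_one).mpr (fun i => ?_)
      have h1 : v i ^ 2 ≤ 1 := by
        rw [← hv]
        exact Finset.single_le_sum (f := fun i => v i ^ 2) (fun _ _ => sq_nonneg _)
          (Finset.mem_univ i)
      rw [Real.norm_eq_abs]
      exact abs_le_one_iff_mul_self_le_one.mpr (by nlinarith)
    intro p hp
    rw [mem_closedBall_zero_iff, Prod.norm_def]
    exact max_le (key _ hp.1) (key _ hp.2.1)

theorem gb_K_ne {d : ℕ} (hd : 2 ≤ d) : (gb_K : Set ((Fin d → ℝ) × (Fin d → ℝ))).Nonempty := by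
  have hne : (⟨1, by omega⟩ : Fin d) ≠ ⟨0, by omega⟩ := by
    intro h
    exact one_ne_zero (congrArg Fin.val h)
  refine ⟨(Pi.single ⟨0, by omega⟩ 1, Pi.single ⟨1, by omega⟩ 1), ?_, ?_, ?_⟩
  · simp [Pi.single_apply]
  · simp [Pi.single_apply]
  · simp [Pi.single_apply, hne]

theorem gb_K_indep {p : (Fin d → ℝ) × (Fin d → ℝ)} (hp : p ∈ gb_K) :
    LinearIndependent ℝ ![p.1, p.2] := by
  rw [LinearIndependent.pair_iff]
  intro s t hst
  have h1 : ∑ i, (s * p.1 i + t * p.2 i) * p.1 i = 0 := by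
    refine Finset.sum_eq_zero fun i _ => ?_
    have := congrFun hst i
    simp only [Pi.add_apply, Pi.smul_apply, smul_eq_mul, Pi.zero_apply] at this
    rw [this, zero_mul]
  have h2 : ∑ i, (s * p.1 i + t * p.2 i) * p.2 i = 0 := by
    refine Finset.sum_eq_zero fun i _ => ?_
    have := congrFun hst i
    simp only [Pi.add_apply, Pi.smul_apply, smul_eq_mul, Pi.zero_apply] at this
    rw [this, zero_mul]
  have e1 : ∑ i, (s * p.1 i + t * p.2 i) * p.1 i =
      s * ∑ i, p.1 i ^ 2 + t * ∑ i, p.1 i * p.2 i := by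
    rw [Finset.mul_sum, Finset.mul_sum, ← Finset.sum_add_distrib]
    exact Finset.sum_congr rfl fun i _ => by ring
  have e2 : ∑ i, (s * p.1 i + t * p.2 i) * p.2 i =
      s * ∑ i, p.1 i * p.2 i + t * ∑ i, p.2 i ^ 2 := by
    rw [Finset.mul_sum, Finset.mul_sum, ← Finset.sum_add_distrib]
    exact Finset.sum_congr rfl fun i _ => by ring
  rw [e1, hp.1, hp.2.2] at h1
  rw [e2, hp.2.1, hp.2.2] at h2
  constructor <;> linarith

/-- Gram-Schmidt -/
theorem gb_gs (v w : Fin d → ℝ) : ∃ (r s t : ℝ) (p : (Fin d → ℝ) × (Fin d → ℝ)),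
    p ∈ gb_K ∧ v = r • p.1 ∧ w = s • p.1 + t • p.2 ∨
      r = 0 ∧ v = 0 ∨ v = r • p.1 ∧ w = s • p.1 := by
  by_cases hv : v = 0
  · exact ⟨0, 0, 0, (0, 0), Or.inr (Or.inl ⟨rfl, hv⟩)⟩
  have hpos : 0 < ∑ i, v i ^ 2 := by
    obtain ⟨i, hi⟩ := Function.ne_iff.mp hv
    have hi' : v i ≠ 0 := hi
    exact lt_of_lt_of_le (by positivity) (Finset.single_le_sum (f := fun i => v i ^ 2)
      (fun _ _ => sq_nonneg _) (Finset.mem_univ i))
  obtain ⟨r, hr⟩ : ∃ r, r = Real.sqrt (∑ i, v i ^ 2) := ⟨_, rfl⟩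
  have hr0 : 0 < r := by rw [hr]; exact Real.sqrt_pos.mpr hpos
  have hr2 : r ^ 2 = ∑ i, v i ^ 2 := by rw [hr]; exact Real.sq_sqrt hpos.le
  obtain ⟨v', hv'⟩ : ∃ v', v' = r⁻¹ • v := ⟨_, rfl⟩
  have hvv : v = r • v' := by rw [hv', smul_smul, mul_inv_cancel₀ hr0.ne', one_smul]
  have h1 : ∑ i, v' i ^ 2 = 1 := by
    have : ∑ i, v' i ^ 2 = (r⁻¹) ^ 2 * ∑ i, v i ^ 2 := by
      rw [hv', Finset.mul_sum]
      exact Finset.sum_congr rfl fun i _ => by simp [mul_pow]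
    rw [this, ← hr2]
    field_simp
  obtain ⟨s, hs⟩ : ∃ s, s = ∑ i, v' i * w i := ⟨_, rfl⟩
  obtain ⟨u, hu⟩ : ∃ u : Fin d → ℝ, u = w - s • v' := ⟨_, rfl⟩
  have hw : w = s • v' + u := by rw [hu]; abel
  by_cases hu0 : u = 0
  · exact ⟨r, s, 0, (v', 0), Or.inr (Or.inr ⟨hvv, by rw [hw, hu0, add_zero]⟩)⟩
  have hupos : 0 < ∑ i, u i ^ 2 := by
    obtain ⟨i, hi⟩ := Function.ne_iff.mp hu0
    have hi' : u i ≠ 0 := hi
    exact lt_of_lt_of_le (by positivity) (Finset.single_le_sum (f := fun i => u i ^ 2)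
      (fun _ _ => sq_nonneg _) (Finset.mem_univ i))
  obtain ⟨t, ht⟩ : ∃ t, t = Real.sqrt (∑ i, u i ^ 2) := ⟨_, rfl⟩
  have ht0 : 0 < t := by rw [ht]; exact Real.sqrt_pos.mpr hupos
  have ht2 : t ^ 2 = ∑ i, u i ^ 2 := by rw [ht]; exact Real.sq_sqrt hupos.le
  have horth : ∑ i, v' i * u i = 0 := by
    have : ∑ i, v' i * u i = ∑ i, v' i * w i - s * ∑ i, v' i ^ 2 := by
      rw [hu, Finset.mul_sum, ← Finset.sum_sub_distrib]
      exact Finset.sum_congr rfl fun i _ => by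
        simp only [Pi.sub_apply, Pi.smul_apply, smul_eq_mul]; ring
    rw [this, h1, ← hs]
    ring
  refine ⟨r, s, t, (v', t⁻¹ • u), Or.inl ⟨⟨h1, ?_, ?_⟩, hvv, ?_⟩⟩
  · have : ∑ i, (t⁻¹ • u) i ^ 2 = (t⁻¹) ^ 2 * ∑ i, u i ^ 2 := by
      rw [Finset.mul_sum]
      exact Finset.sum_congr rfl fun i _ => by simp [mul_pow]
    change ∑ i, (t⁻¹ • u) i ^ 2 = 1
    rw [this, ← ht2]
    field_simp
  · change ∑ i, v' i * (t⁻¹ • u) i = 0
    have : ∑ i, v' i * (t⁻¹ • u) i = t⁻¹ * ∑ i, v' i * u i := by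
      rw [Finset.mul_sum]
      exact Finset.sum_congr rfl fun i _ => by
        simp only [Pi.smul_apply, smul_eq_mul]; ring
    rw [this, horth, mul_zero]
  · rw [smul_smul, mul_inv_cancel₀ ht0.ne', one_smul]
    exact hw

/-- the metric in an orthonormal frame -/
theorem gb_ip_frame {G E : Mt d} (hE : E.transpose * G * E = 1) (v w : Fin d → ℝ) :
    gb_ip G (E.mulVec v) (E.mulVec w) = ∑ i, v i * w i := by
  have h1 : gb_ip G (E.mulVec v) (E.mulVec w) = dotProduct (E.mulVec v) (G.mulVec (E.mulVec w)) := by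
    unfold gb_ip
    obtain ⟨a, ha⟩ : ∃ a, a = E.mulVec v := ⟨_, rfl⟩
    obtain ⟨b, hb⟩ : ∃ b, b = E.mulVec w := ⟨_, rfl⟩
    rw [← ha, ← hb]
    simp only [dotProduct, Matrix.mulVec, Finset.mul_sum]
    refine Finset.sum_congr rfl fun i _ => Finset.sum_congr rfl fun j _ => ?_
    ring
  rw [h1]
  have h2 : dotProduct (E.mulVec v) (G.mulVec (E.mulVec w)) =
      dotProduct v ((E.transpose * G * E).mulVec w) := by
    rw [← Matrix.mulVec_mulVec, ← Matrix.mulVec_mulVec, Matrix.dotProduct_mulVec v,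
      Matrix.vecMul_transpose]
  rw [h2, hE, Matrix.one_mulVec]
  rfl

theorem GB_nonpos {d : ℕ} {M : Type} [TopologicalSpace M] [ChartedSpace (EE d) M] {g : Ch.Metric d M} (hK : SecNonpos g) (p : M) {y : EE d}
    (hy : y ∈ (chartAt (EE d) p).target) (E : Mt d) : KB (N := d) 0 (frR (riem (g.mat p) y) E) := by
  intro v w
  rw [ev_frR, zero_mul, neg_zero]
  exact hK p y hy (E.mulVec v) (E.mulVec w)


theorem GB_neg {d : ℕ} (hd : 2 ≤ d) {U : Set (EE d)} {G : EE d → Mt d} (h : MetOn U G) {x : EE d} (hx : x ∈ U)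
    (hneg : ∀ v w : Fin d → ℝ, LinearIndependent ℝ ![v, w] →
      ∑ i, ∑ j, ∑ k, ∑ l, riem G x i j k l * v i * w j * v k * w l < 0) :
    ∃ c > 0, ∃ W ⊆ U, IsOpen W ∧ x ∈ W ∧ ∀ y ∈ W, ∀ E : Mt d, E.transpose * G y * E = 1 → KB (N := d) c (frR (riem G y) E) := by
  have hf0 : Continuous (fun p : (Fin d → ℝ) × (Fin d → ℝ) =>
      ev (N := d) (riem G x) p.1 p.2 p.1 p.2) := by
    unfold ev
    fun_prop
  have hg0 : Continuous (fun p : (Fin d → ℝ) × (Fin d → ℝ) => gb_ar (G x) p.1 p.2) := by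
    unfold gb_ar gb_ip
    fun_prop
  obtain ⟨p0, hp0, hmax0⟩ := gb_K_compact.exists_isMaxOn (gb_K_ne hd) hf0.continuousOn
  obtain ⟨p1, hp1, hmax1⟩ := gb_K_compact.exists_isMaxOn (gb_K_ne hd) hg0.continuousOn
  obtain ⟨m, hm⟩ : ∃ m, m = - ev (N := d) (riem G x) p0.1 p0.2 p0.1 p0.2 := ⟨_, rfl⟩
  obtain ⟨M', hM'⟩ : ∃ M', M' = |gb_ar (G x) p1.1 p1.2| + 1 := ⟨_, rfl⟩
  have hmpos : 0 < m := by
    have := hneg p0.1 p0.2 (gb_K_indep hp0)
    rw [hm]
    unfold ev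
    linarith
  have hMpos : 0 < M' := by rw [hM']; positivity
  have hcpos : 0 < m / (2 * M') := by positivity
  obtain ⟨c, hc⟩ : ∃ c, c = m / (2 * M') := ⟨_, rfl⟩
  rw [← hc] at hcpos
  have hcM : c * M' = m / 2 := by rw [hc]; field_simp
  obtain ⟨f, hf⟩ : ∃ f : EE d × ((Fin d → ℝ) × (Fin d → ℝ)) → ℝ, f = fun q =>
      ev (N := d) (riem G q.1) q.2.1 q.2.2 q.2.1 q.2.2 + c * gb_ar (G q.1) q.2.1 q.2.2 := ⟨_, rfl⟩
  have hcr : ∀ a b c e : Fin d, ContinuousOn
      (fun q : EE d × ((Fin d → ℝ) × (Fin d → ℝ)) => riem G q.1 a b c e) (U ×ˢ univ) :=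
    fun a b c e => (gb_riem_cont h a b c e).comp continuousOn_fst fun q hq => hq.1
  have hcg : ∀ a b : Fin d, ContinuousOn
      (fun q : EE d × ((Fin d → ℝ) × (Fin d → ℝ)) => G q.1 a b) (U ×ˢ univ) :=
    fun a b => (h.sm a b).continuousOn.comp continuousOn_fst fun q hq => hq.1
  have hc1 : ∀ a : Fin d, ContinuousOn
      (fun q : EE d × ((Fin d → ℝ) × (Fin d → ℝ)) => q.2.1 a) (U ×ˢ univ) := fun a => by fun_prop
  have hc2 : ∀ a : Fin d, ContinuousOn
      (fun q : EE d × ((Fin d → ℝ) × (Fin d → ℝ)) => q.2.2 a) (U ×ˢ univ) := fun a => by fun_prop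
  have hip : ∀ α β : EE d × ((Fin d → ℝ) × (Fin d → ℝ)) → (Fin d → ℝ),
      (∀ a, ContinuousOn (fun q => α q a) (U ×ˢ univ)) →
      (∀ a, ContinuousOn (fun q => β q a) (U ×ˢ univ)) →
      ContinuousOn (fun q => gb_ip (G q.1) (α q) (β q)) (U ×ˢ univ) := by
    intro α β hα hβ
    unfold gb_ip
    exact continuousOn_finsetSum _ fun i _ => continuousOn_finsetSum _ fun j _ =>
      ((hcg i j).mul (hα i)).mul (hβ j)
  have hfc : ContinuousOn f (U ×ˢ univ) := by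
    rw [hf]
    refine ContinuousOn.add ?_ (ContinuousOn.mul continuousOn_const ?_)
    · unfold ev
      exact continuousOn_finsetSum _ fun i _ => continuousOn_finsetSum _ fun j _ =>
        continuousOn_finsetSum _ fun k _ => continuousOn_finsetSum _ fun l _ =>
          ((((hcr i j k l).mul (hc1 i)).mul (hc2 j)).mul (hc1 k)).mul (hc2 l)
    · unfold gb_ar
      exact ((hip _ _ hc1 hc1).mul (hip _ _ hc2 hc2)).sub
        ((hip _ _ hc1 hc2).mul (hip _ _ hc2 hc1))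
  have hopen : IsOpen ((U ×ˢ (univ : Set ((Fin d → ℝ) × (Fin d → ℝ)))) ∩ f ⁻¹' Iio 0) :=
    hfc.isOpen_inter_preimage (h.hU.prod isOpen_univ) isOpen_Iio
  have hsub : ({x} : Set (EE d)) ×ˢ gb_K ⊆
      (U ×ˢ (univ : Set ((Fin d → ℝ) × (Fin d → ℝ)))) ∩ f ⁻¹' Iio 0 := by
    rintro ⟨y, p⟩ ⟨hy, hp⟩
    have hyx : y = x := hy
    subst hyx
    refine ⟨⟨hx, mem_univ _⟩, ?_⟩
    have h1 : ev (N := d) (riem G y) p.1 p.2 p.1 p.2 ≤ -m := by
      rw [hm, neg_neg]
      exact hmax0 hp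
    have h2 : gb_ar (G y) p.1 p.2 ≤ M' := by
      have h3 : gb_ar (G y) p.1 p.2 ≤ gb_ar (G y) p1.1 p1.2 := hmax1 hp
      rw [hM']
      have := le_abs_self (gb_ar (G y) p1.1 p1.2)
      linarith
    have h4 : c * gb_ar (G y) p.1 p.2 ≤ m / 2 := by
      rw [← hcM]
      exact mul_le_mul_of_nonneg_left h2 hcpos.le
    change f (y, p) < 0
    rw [hf]
    simp only
    linarith
  obtain ⟨u, v, hu, -, hxu, hKv, huv⟩ := generalized_tube_lemma isCompact_singleton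
    gb_K_compact hopen hsub
  refine ⟨c, hcpos, u ∩ U, inter_subset_right, hu.inter h.hU, ⟨hxu rfl, hx⟩, ?_⟩
  rintro y ⟨hyu, hyU⟩ E hE
  have hR := riem_algCurv h hyU
  have key : ∀ v w : Fin d → ℝ,
      ev (N := d) (riem G y) v w v w + c * gb_ar (G y) v w ≤ 0 := by
    intro v w
    obtain ⟨r, s, t, p, hcase⟩ := gb_gs v w
    rcases hcase with ⟨hp, hv, hw⟩ | ⟨-, hv⟩ | ⟨hv, hw⟩
    · have h1 : f (y, p) < 0 := (huv (mk_mem_prod hyu (hKv hp))).2
      rw [hf] at h1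
      simp only at h1
      rw [hv, hw, gb_sec_lin hR, gb_ar_lin]
      have h2 : 0 ≤ r ^ 2 * t ^ 2 := by positivity
      nlinarith
    · have e1 := gb_sec_lin hR 0 0 1 v w
      have e2 := gb_ar_lin (G y) 0 0 1 v w
      simp only [zero_smul, one_smul, zero_add] at e1 e2
      rw [hv, e1, e2]
      simp
    · have e1 := gb_sec_lin hR r s 0 p.1 p.1
      have e2 := gb_ar_lin (G y) r s 0 p.1 p.1
      simp only [zero_smul, add_zero] at e1 e2
      rw [hv, hw, e1, e2]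
      simp
  intro v w
  have h1 := key (E.mulVec v) (E.mulVec w)
  have h2 : gb_ar (G y) (E.mulVec v) (E.mulVec w) = area2 v w := by
    unfold gb_ar area2
    rw [gb_ip_frame hE, gb_ip_frame hE, gb_ip_frame hE, gb_ip_frame hE]
    have e1 : ∑ i, v i * v i = ∑ i, v i ^ 2 := Finset.sum_congr rfl fun i _ => by ring
    have e2 : ∑ i, w i * w i = ∑ i, w i ^ 2 := Finset.sum_congr rfl fun i _ => by ring
    have e3 : ∑ i, w i * v i = ∑ i, v i * w i := Finset.sum_congr rfl fun i _ => by ring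
    rw [e1, e2, e3]
    ring
  rw [ev_frR]
  rw [h2] at h1
  linarith
end H56C
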