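import Pool.Agent.Lib.H56C.L9
import Pool.Agent.Lib.H56C.B4

/-!
# PT (S): the pointwise theorem

Induction on `n`. `n = 0`: `B4` (no index) or `B1`. `n + 1`: if some `e` has `¬ 2 ≤ cl β e`: `L8_simple`, `L9`; otherwise `B4`.
-/

set_option autoImplicit false

open Finset

namespace H56C

theorem PT (n : ℕ) : PTn n := by
  induction n with
  | zero =>
    intro R hR β hc hA h hh hK
    exact B4 hR hc hA hh hK fun i => absurd i.2 (by omega)
  | succ n ih =>
    intro R hR β hc hA h hh hK
    by_cases h2 : ∀ i, 2 ≤ cl β i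
    · exact B4 hR hc hA hh hK h2
    · push Not at h2
      obtain ⟨e, he⟩ := h2
      exact L9 ih hR hc hA hh hK (L8_simple (not_le.2 he))

end H56C
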