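import Pool.Agent.Lib.H56C.GA
import Pool.Agent.Lib.H56C.GB
import Pool.Agent.Lib.H56C.PT
import Pool.Agent.Lib.H30K.G2

/-!
# GC (M): the theorem for closed manifolds

`GC_pt`: at a point `y` with a Codazzi tensor near `y` and admissible multiplicities at `y`, `E`, `β` from `AdmAt`: `frR (riem G y) E` is an algebraic curvature tensor (`riem_algCurv`, `frR_algCurv`), satisfies `Cyc β` (`G2_cyc`) and `KB c`, so
`4 ^ n n! c ^ n ≤ (-1) ^ n gaussBonnet n (frR (riem G y) E)` (`PT n`), and `GA_pf`.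
`GC_dense`: the points `z` of `W` with `c ^ n ≤ (-1) ^ n pfn z` are dense in `W` (`DenseMult` for `O ∩ W`; `MetOn` and `IsCodazzi` restrict to smaller open sets), `GA_cont`: see `g14_dense` (`Lib/H30K/G14.lean`).
`GC_main`: `sign_principle n M g ((-1) ^ n)` (`Lib/H79G/F1.lean`), as `G14_codazzi` (`Lib/H30K/G14.lean`): `GC_dense` with `W` = the target of the chart, `c = 0` (`GB_nonpos`; `0 ^ n` is `0` for `n ≥ 1`), and with `W` of `GB_neg`, `c > 0`, at the point `m`;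
`((-1) ^ n : ℝ) * χ` versus `((-1) ^ n * χ : ℤ)`: `exact_mod_cast`.
-/

set_option autoImplicit false

open scoped ContDiff Topology Manifold
open Set

namespace H56C

open H31R H79G H60E H30K
open Pool.Agent.H69Hopf (Arr IsAlgCurv ev area2)

theorem GC_pt {n : ℕ} {U : Set (EE (2 * n))} {G b : EE (2 * n) → Mt (2 * n)} (h : MetOn U G) (hc : IsCodazzi G U b) {c : ℝ} (hc0 : 0 ≤ c)
    (hK : ∀ y ∈ U, ∀ E : Mt (2 * n), E.transpose * G y * E = 1 → KB (N := 2 * n) c (frR (riem G y) E)) {y : EE (2 * n)} (hy : y ∈ U)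
    (hA : AdmAt (G y) (b y)) : c ^ n ≤ (-1) ^ n * pfn G y := by
  obtain ⟨E, β, hE, hβ, hG⟩ := hA
  have hA1 : IsAlgCurv (N := 2 * n) (riem G y) := riem_algCurv h hy
  have hA2 : IsAlgCurv (N := 2 * n) (frR (riem G y) E) := frR_algCurv hA1 E
  have h1 := PT n (frR (riem G y) E) hA2 β (G2_cyc h hc hy hE hβ) hG c hc0 (hK y hy E hE)
  have h4 : (0 : ℝ) < 4 ^ n * n.factorial := by positivity
  rw [GA_pf h hy hE, ← mul_div_assoc, le_div_iff₀ h4, mul_comm]
  exact h1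

/-- Auxiliary: restriction to a smaller open set. -/
theorem gc_mono {d : ℕ} {U V : Set (EE d)} {G : EE d → Mt d} (h : MetOn U G) (hV : IsOpen V) (hVU : V ⊆ U) : MetOn V G where
  hU := hV
  sm i j := (h.sm i j).mono hVU
  symm y hy := h.symm y (hVU hy)
  pos y hy := h.pos y (hVU hy)

theorem GC_dense {n : ℕ} {M : Type} [TopologicalSpace M] [ChartedSpace (EE (2 * n)) M] {g : Ch.Metric (2 * n) M} (hD : DenseMult g) (p : M)
    {W : Set (EE (2 * n))} (hW : IsOpen W) (hWt : W ⊆ (chartAt (EE (2 * n)) p).target) {c : ℝ} (hc0 : 0 ≤ c)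
    (hK : ∀ y ∈ W, ∀ E : Mt (2 * n), E.transpose * g.mat p y * E = 1 → KB (N := 2 * n) c (frR (riem (g.mat p) y) E))
    {y : EE (2 * n)} (hy : y ∈ W) : c ^ n ≤ (-1) ^ n * pfn (g.mat p) y := by
  have hM : MetOn W (g.mat p) := gc_mono (metOn g p) hW hWt
  have hcl : y ∈ closure {z | z ∈ W ∧ c ^ n ≤ (-1) ^ n * pfn (g.mat p) z} := by
    rw [mem_closure_iff]
    intro O hO hyO
    obtain ⟨U, hUV, hU, b, hb, z, hz, hzA⟩ := hD p (O ∩ W) (fun z hz => hWt hz.2) (hO.inter hW) ⟨y, hyO, hy⟩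
    have hUW : U ⊆ W := fun z hz => (hUV hz).2
    exact ⟨z, (hUV hz).1, hUW hz, GC_pt (gc_mono hM hU hUW) hb hc0 (fun w hw => hK w (hUW hw)) hz hzA⟩
  have h1 : ContinuousWithinAt (fun z => (-1) ^ n * pfn (g.mat p) z) {z | z ∈ W ∧ c ^ n ≤ (-1) ^ n * pfn (g.mat p) z} y :=
    ((GA_cont hM y hy).mono fun z hz => hz.1).const_mul _
  exact continuousWithinAt_const.closure_le hcl h1 fun z hz => hz.2

theorem GC_main {n : ℕ} (hn : 1 ≤ n) (M : Closed (2 * n)) (g : Ch.Metric (2 * n) M.carrier) (hK : SecNonpos g) (hD : DenseMult g) :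
    ∃ χ : ℤ, IsEulerCharacteristic (2 * n) M.carrier χ ∧ 0 ≤ (-1) ^ n * χ ∧ ((∃ m : M.carrier, NegAt g m) → 0 < (-1) ^ n * χ) := by
  have hK4 : (0 : ℝ) < 4 ^ n * n.factorial := by positivity
  have hpt : ∀ p : M.carrier, ∀ y ∈ (chartAt (EE (2 * n)) p).target, ∀ E : Mt (2 * n),
      E.transpose * g.mat p y * E = 1 →
      0 ≤ ((-1) ^ n : ℝ) * Pool.Agent.H69Hopf.gaussBonnet n (frameR (riem (g.mat p) y) E) := by
    intro p y hy E hE
    have h1 := GC_dense hD p (chartAt (EE (2 * n)) p).open_target subset_rfl le_rfl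
      (fun z hz E _ => GB_nonpos hK p hz E) hy
    rw [GA_pf (metOn g p) hy hE, ← mul_div_assoc, le_div_iff₀ hK4, zero_pow (by omega), zero_mul] at h1
    exact h1
  obtain ⟨χ, h1, h2, h3⟩ := sign_principle n M g ((-1) ^ n) hpt
  refine ⟨χ, h1, ?_, ?_⟩
  · exact_mod_cast h2
  · rintro ⟨m, hm⟩
    have h4 : 0 < ((-1) ^ n : ℝ) * χ := by
      refine h3 ⟨m, fun E hE => ?_⟩
      obtain ⟨c, hc, W, hWt, hW, hmW, hKW⟩ :=
        GB_neg (by omega) (metOn g m) (mem_chart_target (EE (2 * n)) m) hm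
      have h5 := GC_dense hD m hW hWt hc.le hKW hmW
      rw [GA_pf (metOn g m) (mem_chart_target (EE (2 * n)) m) hE, ← mul_div_assoc, le_div_iff₀ hK4] at h5
      have h6 : 0 < c ^ n * (4 ^ n * n.factorial) := mul_pos (pow_pos hc n) hK4
      exact lt_of_lt_of_le h6 h5
    exact_mod_cast h4

end H56C
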