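import Pool.Agent.Lib.H56C.Defs

/-!
# L1 (M): exactly one pair contains the index `e`

No hypothesis on `R`. For permutations `σ`, `τ` there is exactly one `r₀ : Fin (n + 1)` with `σ (fst r₀) = e ∨ σ (snd r₀) = e` (`exists_fst_or_snd` for `σ⁻¹ e`, injectivity of `σ`, `fst_inj`, `snd_inj`, `fst_ne_snd`). So
`∏ r, R (σ (fst r)) (σ (snd r)) (τ (fst r)) (τ (snd r)) = ∑ r₁, (pA e R (..)) at r₁ * ∏ r ≠ r₁, (pR e R (..)) at r`: the term `r₁ = r₀` is the left side (`pA` at `r₀`, `pR` at the others), the other terms contain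
the factor `pR e R (..) at r₀ = 0`. Sum over `σ`, `τ`: `gaussBonnet (n + 1) R = ∑ r₁, mgb (Function.update (fun _ => pR e R) r₁ (pA e R))`, and each summand is
`mgb (Fin.cons (pA e R) fun _ => pR e R) = consM (pA e R) fun _ => pR e R` (`mgb_perm` with `Equiv.swap 0 r₁`; `mgb_cons`).
-/

set_option autoImplicit false

open Finset

namespace H56C

open Pool.Agent.H69Hopf

theorem l1_sum {m : ℕ} (R : Arr (2 * m)) (e : Fin (2 * m)) :
    gaussBonnet m R = ∑ r : Fin m, mgb (Function.update (fun _ => pR e R) r (pA e R)) := by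
  classical
  unfold gaussBonnet mgb
  symm
  rw [Finset.sum_comm]
  refine Finset.sum_congr rfl fun σ _ => ?_
  rw [Finset.sum_comm]
  refine Finset.sum_congr rfl fun τ _ => ?_
  rw [← Finset.mul_sum]
  congr 1
  -- the pair with the index e
  obtain ⟨r₀, hr₀⟩ : ∃ r₀ : Fin m, σ (fst r₀) = e ∨ σ (snd r₀) = e := by
    obtain ⟨r, hr⟩ := exists_fst_or_snd (σ.symm e)
    refine ⟨r, hr.imp (fun h => ?_) (fun h => ?_)⟩
    · rw [← h, Equiv.apply_symm_apply]
    · rw [← h, Equiv.apply_symm_apply]
  have huniq : ∀ i : Fin m, i ≠ r₀ → ¬ (σ (fst i) = e ∨ σ (snd i) = e) := by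
    intro i hi h
    apply hi
    rcases h with h | h <;> rcases hr₀ with h' | h'
    · exact fst_inj.1 (σ.injective (h.trans h'.symm))
    · exact absurd (σ.injective (h.trans h'.symm)) (fst_ne_snd i r₀)
    · exact absurd (σ.injective (h'.trans h.symm)) (fst_ne_snd r₀ i)
    · exact snd_inj.1 (σ.injective (h.trans h'.symm))
  rw [Finset.sum_eq_single r₀]
  · refine Finset.prod_congr rfl fun i _ => ?_
    by_cases hi : i = r₀
    · subst hi
      rw [Function.update_self]
      exact if_pos hr₀
    · rw [Function.update_of_ne hi]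
      exact if_neg (huniq i hi)
  · intro r _ hr
    refine Finset.prod_eq_zero (Finset.mem_univ r₀) ?_
    rw [Function.update_of_ne hr.symm]
    exact if_pos hr₀
  · intro h
    exact absurd (Finset.mem_univ _) h

theorem L1 {n : ℕ} (R : Arr (2 * n + 1 + 1)) (e : Fin (2 * n + 1 + 1)) :
    gaussBonnet (n + 1) R = ((n : ℝ) + 1) * consM (pA e R) (fun _ : Fin n => pR e R) := by
  refine (l1_sum (m := n + 1) R e).trans ?_
  have h1 : ∀ r : Fin (n + 1), mgb (m := n + 1) (Function.update (fun _ => pR e R) r (pA e R)) =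
      consM (pA e R) (fun _ : Fin n => pR e R) := by
    intro r
    rw [← mgb_cons]
    rw [← mgb_perm (m := n + 1) (Function.update (fun _ => pR e R) r (pA e R)) (Equiv.swap 0 r)]
    congr 1
    funext i
    refine Fin.cases ?_ (fun j => ?_) i
    · rw [Equiv.swap_apply_left, Function.update_self]
      rfl
    · rw [Function.update_of_ne]
      · rfl
      · intro h
        have h2 := (Equiv.swap (0 : Fin (n + 1)) r).injective (h.trans (Equiv.swap_apply_left 0 r).symm)
        exact Fin.succ_ne_zero j h2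
  rw [Finset.sum_congr rfl fun r _ => h1 r, Finset.sum_const, Finset.card_univ, Fintype.card_fin, nsmul_eq_mul]
  push_cast
  rfl

end H56C
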