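import Pool.Agent.Lib.H56C.Defs

/-!
# L2 (M): the first factor is the part with the index `e`

`consM_eq_cof`: the left side is `∑ a b c d, pA e R a b c d * cof T a b c d`. The terms with `a ≠ e`, `b ≠ e` vanish. `R e e c d = 0` (`hR.skew`). For `a = e`, `b ≠ e`: `R e b c d = 0` if `c ≠ e`, `d ≠ e` (`hs`), and if `c = d = e`
(`hR.pair`, `hR.skew`); so `c = e`, `d ≠ e` or `c ≠ e`, `d = e`; `R e b c e * cof T e b c e = R e b e c * cof T e b e c` (`cof_skew2`, skewness of `R` in the second pair). In the same way for `b = e`, `a ≠ e`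
(`cof_skew1`). Altogether `4 * ∑ b ≠ e, ∑ d ≠ e, R e b e d * cof T e b e d`, and the terms with `b = e` or `d = e` are `0`.
(A convenient form: `∑ b, ∑ d` over all indices, with `R e b e d = 0` for `b = e` or `d = e`.)
-/

set_option autoImplicit false

open Finset

namespace H56C

open Pool.Agent.H69Hopf

theorem l2_two {ι : Type*} [Fintype ι] [DecidableEq ι] (e : ι) (f : ι → ι → ℝ) (h0 : f e e = 0)
    (h1 : ∀ c d, c ≠ e → d ≠ e → f c d = 0) (h2 : ∀ c d, f c d = f d c) : ∑ c, ∑ d, f c d = 2 * ∑ d, f e d := by
  have h3 : ∀ c d, f c d = (if c = e then f e d else 0) + (if d = e then f e c else 0) := by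
    intro c d
    by_cases hc : c = e
    · subst hc
      rw [if_pos rfl]
      by_cases hd : d = c
      · subst hd
        rw [if_pos rfl, h0, add_zero]
      · rw [if_neg hd, add_zero]
    · rw [if_neg hc, zero_add]
      by_cases hd : d = e
      · subst hd
        rw [if_pos rfl, h2]
      · rw [if_neg hd, h1 c d hc hd]
  have h4 : ∀ c, ∑ d, f c d = (if c = e then ∑ d, f e d else 0) + f e c := by
    intro c
    rw [Finset.sum_congr rfl fun d _ => h3 c d, Finset.sum_add_distrib, Finset.sum_ite_eq' Finset.univ e,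
      if_pos (Finset.mem_univ e)]
    congr 1
    split_ifs
    · rfl
    · exact Finset.sum_const_zero
  rw [Finset.sum_congr rfl fun c _ => h4 c, Finset.sum_add_distrib, Finset.sum_ite_eq' Finset.univ e,
    if_pos (Finset.mem_univ e), two_mul]

theorem L2 {m : ℕ} {R : Arr (2 * m + 1 + 1)} (hR : IsAlgCurv R) {e : Fin (2 * m + 1 + 1)} (hs : ∀ i k l, k ≠ e → l ≠ e → R e i k l = 0)
    (T : Fin m → Arr (2 * m + 1 + 1)) : consM (pA e R) T = 4 * ∑ j, ∑ l, R e j e l * cof T e j e l := by
  have hsk2 : ∀ i j k l, R i j k l = - R i j l k := by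
    intro i j k l
    rw [hR.pair i j k l, hR.skew k l i j, hR.pair l k i j]
  have h0 : ∀ k l, R e e k l = 0 := by
    intro k l
    have h := hR.skew e e k l
    linarith
  have h0' : ∀ i j, R i j e e = 0 := by
    intro i j
    rw [hR.pair]
    exact h0 i j
  have hin : ∀ b, ∑ c, ∑ d, R e b c d * cof T e b c d = 2 * ∑ l, R e b e l * cof T e b e l := by
    intro b
    refine l2_two e (fun c d => R e b c d * cof T e b c d) ?_ ?_ ?_
    · show R e b e e * cof T e b e e = 0
      rw [h0', zero_mul]
    · intro c d hc hd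
      show R e b c d * cof T e b c d = 0
      rw [hs b c d hc hd, zero_mul]
    · intro c d
      show R e b c d * cof T e b c d = R e b d c * cof T e b d c
      rw [hsk2 e b c d, cof_skew2 T e b d c]
      ring
  rw [consM_eq_cof]
  have hout := l2_two e (fun a b => ∑ c, ∑ d, pA e R a b c d * cof T a b c d) (by
    refine Finset.sum_eq_zero fun c _ => Finset.sum_eq_zero fun d _ => ?_
    have h : pA e R e e c d = R e e c d := if_pos (Or.inl rfl)
    rw [h, h0, zero_mul]) (by
    intro a b ha hb
    refine Finset.sum_eq_zero fun c _ => Finset.sum_eq_zero fun d _ => ?_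
    have h : pA e R a b c d = 0 := if_neg (fun h => h.elim ha hb)
    rw [h, zero_mul]) (by
    intro a b
    refine Finset.sum_congr rfl fun c _ => Finset.sum_congr rfl fun d _ => ?_
    have h : pA e R a b c d = - pA e R b a c d := by
      unfold pA
      by_cases h : a = e ∨ b = e
      · rw [if_pos h, if_pos h.symm, hR.skew]
      · rw [if_neg h, if_neg (fun h' => h h'.symm), neg_zero]
    rw [h, cof_skew1 T b a c d]
    ring)
  refine hout.trans ?_
  have h5 : ∀ b, ∑ c, ∑ d, pA e R e b c d * cof T e b c d = 2 * ∑ l, R e b e l * cof T e b e l := by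
    intro b
    rw [← hin b]
    refine Finset.sum_congr rfl fun c _ => Finset.sum_congr rfl fun d _ => ?_
    have h : pA e R e b c d = R e b c d := if_pos (Or.inl rfl)
    rw [h]
  rw [Finset.sum_congr rfl fun b _ => h5 b, ← Finset.mul_sum]
  ring

end H56C
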