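import Pool.Agent.Lib.H56C.Defs

/-!
# L3 (S/M): the cofactor array on the first two vectors of an orthonormal frame

As the proof of `ev_cof` (`Lib/H69/Hopf/Cof.lean`), with the given frame `g` in the place of the frame of `exists_frame`: `x = g 0`, `y = g 1`, `dot x (g i) = 0` for `i ≠ 0`, `dot y (g i) = 0` for `i ≠ 1` (`hg`), so
`ev_cof_eq`, `mgb_cons`, `mgb_pull`, `det_sq_of_ONF`, `consM_reduce` with `X i = dot x (g i)`, `Y i = dot y (g i)`, `X 0 = Y 1 = 1`.
`L3_sum`: `ev (cof T) x y x y = ∑ i j k l, cof T i j k l * x i * y j * x k * y l` with `x = Pi.single e 1`; only `i = k = e`.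
-/

set_option autoImplicit false

open Finset

namespace H56C

open Pool.Agent.H69Hopf

theorem L3 {m : ℕ} (T : Fin m → Arr (2 * m + 1 + 1)) {g : Fin (2 * m + 1 + 1) → (Fin (2 * m + 1 + 1) → ℝ)} (hg : ONF g) :
    ev (cof T) (g 0) (g 1) (g 0) (g 1) = mgb (fun i => pull (fun k : Fin (2 * m) => g k.succ.succ) (T i)) := by
  have hx : ∀ i, i ≠ 0 → dot (g 0) (g i) = 0 := by
    intro i hi
    rw [hg, if_neg (Ne.symm hi)]
  have hy : ∀ i, i ≠ 0 → i ≠ 1 → dot (g 1) (g i) = 0 := by
    intro i _ hi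
    rw [hg, if_neg (Ne.symm hi)]
  rw [ev_cof_eq, ← mgb_cons]
  have hinv := mgb_pull (m := m + 1)
      (Fin.cons (α := fun _ => Arr (2 * (m + 1))) (fun i j k l => g 0 i * g 1 j * g 0 k * g 1 l) T) g
  rw [det_sq_of_ONF hg, one_mul] at hinv
  refine hinv.symm.trans ?_
  have hcons : (fun i : Fin (m + 1) => pull g
      (Fin.cons (α := fun _ => Arr (2 * (m + 1))) (fun i j k l => g 0 i * g 1 j * g 0 k * g 1 l) T i)) =
      Fin.cons (α := fun _ => Arr (2 * (m + 1)))
        (fun i j k l => dot (g 0) (g i) * dot (g 1) (g j) * dot (g 0) (g k) * dot (g 1) (g l))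
        (fun i => pull g (T i)) := by
    funext i
    refine Fin.cases ?_ (fun i => ?_) i
    · simp only [Fin.cons_zero]
      funext i j k l
      exact ev_outer (g 0) (g 1) (g 0) (g 1) (g i) (g j) (g k) (g l)
    · simp only [Fin.cons_succ]
  rw [hcons]
  refine (mgb_cons _ _).trans ?_
  refine (consM_reduce (fun i => pull g (T i)) (fun i => dot (g 0) (g i))
    (fun i => dot (g 1) (g i)) hx hy).trans ?_
  have h4 : (fun i => shift2 (pull g (T i))) = fun i => pull (fun i => g i.succ.succ) (T i) := rfl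
  rw [h4, hg, hg, if_pos rfl, if_pos rfl]
  ring

theorem L3_sum {N : ℕ} (C : Arr N) (e : Fin N) (w : Fin N → ℝ) :
    ev C (Pi.single e 1) w (Pi.single e 1) w = ∑ j, ∑ l, C e j e l * (w j * w l) := by
  unfold ev
  rw [Finset.sum_eq_single e]
  · refine Finset.sum_congr rfl fun j _ => ?_
    rw [Finset.sum_eq_single e]
    · refine Finset.sum_congr rfl fun l _ => ?_
      rw [Pi.single_eq_same]
      ring
    · intro b _ hb
      refine Finset.sum_eq_zero fun l _ => ?_
      rw [Pi.single_eq_of_ne hb]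
      ring
    · intro h
      exact absurd (Finset.mem_univ _) h
  · intro b _ hb
    refine Finset.sum_eq_zero fun j _ => Finset.sum_eq_zero fun k _ => Finset.sum_eq_zero fun l _ => ?_
    rw [Pi.single_eq_of_ne hb]
    ring
  · intro h
    exact absurd (Finset.mem_univ _) h

end H56C
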