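import Pool.Agent.Lib.H56C.KD
import Pool.Agent.Lib.H56C.L1
import Pool.Agent.Lib.H56C.L2
import Pool.Agent.Lib.H56C.L3
import Pool.Agent.Lib.H56C.L4

/-!
# K1 (M): removing the mixed components of one index

`kil s e R i j k l = 0` if `s i ≠ s j` and `e ∈ {i, j}`, otherwise `R i j k l`. Let `X = R - kil s e R`. By `D.Kr`, `X i j k l ≠ 0` implies `{i, j} = {k, l} = {e, y}` with `s y ≠ s e`, so `X e j e l ≠ 0` only for `j = l`, `s j ≠ s e`.
`K1_alg`: `kil s e R` is an algebraic curvature tensor (and so is `X`): skewness is clear; pairs: if `s i ≠ s j`, `e ∈ {i, j}` and `R i j k l ≠ 0` then `{k, l} = {i, j}`; Bianchi: the components in question are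
`R e y e y = -R y e e y = ..`, the three cyclic terms are `0, K, -K`.
`K1`: `L1` for `R` and for `kil s e R` (`pR e (kil s e R) = pR e R`, because the condition `e ∉ {i, j}`), `pA e R = pA e (kil s e R) + pA e X`, `consM` is additive in the first argument (`consM_eq_cof`); `L2` for `X`:
`consM (pA e X) T = 4 ∑ j l, X e j e l * cof T e j e l = 4 ∑_{s j ≠ s e} R e j e j * cof T e j e j`. For `s j ≠ s e` take a permutation `π` of `Fin (2 * n + 1 + 1)` with `π 0 = e`, `π 1 = j` and `g k = Pi.single (π k) 1`: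
`cof T e j e j = ev (cof T) (g 0) (g 1) (g 0) (g 1) = mgb (fun i => pull (fun k => g k.succ.succ) (T i))` (`L3`, `ev_single`), `pull v (pR e R) = pull v R` (`L4_pR`) `= rs f R`, `f k = π k.succ.succ`. So
`cof (fun _ => pR e R) e j e j = gaussBonnet n (rs f R)` with `f` injective and `f k ≠ e`, `f k ≠ j`. (`K1_cof`.)
-/

set_option autoImplicit false

open Finset

namespace H56C

open Pool.Agent.H69Hopf
open H30K (KB Cyc)

/-- the mixed components with the index `e` -/
def k1X {N : ℕ} (s : Fin N → Bool) (e : Fin N) (R : Arr N) : Arr N := fun i j k l => if s i ≠ s j ∧ (i = e ∨ j = e) then R i j k l else 0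

theorem k1_sk2 {N : ℕ} {R : Arr N} (hR : IsAlgCurv R) (i j k l : Fin N) : R i j k l = - R i j l k := by
  rw [hR.pair i j k l, hR.skew k l i j, hR.pair l k i j]

theorem k1_pq {N : ℕ} {s : Fin N → Bool} {R : Arr N} (hR : IsAlgCurv R) (hs : D.Kr s R) {i j k l : Fin N} (h : R i j k l ≠ 0) (hij : s i ≠ s j) :
    (k = i ∧ l = j) ∨ (k = j ∧ l = i) := by
  rcases hs.z i j k l h with ⟨h1, h2⟩ | ⟨h1, h2⟩
  · left
    by_contra hne
    refine h (hs.d i j k l hij h1 h2 ?_)
    by_contra hcon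
    push Not at hcon
    exact hne ⟨hcon.1.symm, hcon.2.symm⟩
  · right
    by_contra hne
    have h3 : R i j l k = 0 := by
      refine hs.d i j l k hij h1 h2 ?_
      by_contra hcon
      push Not at hcon
      exact hne ⟨hcon.2.symm, hcon.1.symm⟩
    apply h
    rw [k1_sk2 hR, h3, neg_zero]

theorem k1_skew {N : ℕ} {s : Fin N → Bool} {R : Arr N} (hR : IsAlgCurv R) (e i j k l : Fin N) : k1X s e R i j k l = - k1X s e R j i k l := by
  unfold k1X
  by_cases h : s i ≠ s j ∧ (i = e ∨ j = e)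
  · rw [if_pos h, if_pos ⟨h.1.symm, h.2.symm⟩, hR.skew]
  · rw [if_neg h, if_neg (fun h' => h ⟨h'.1.symm, h'.2.symm⟩), neg_zero]

theorem k1_eq {N : ℕ} (s : Fin N → Bool) (R : Arr N) (e i j k l : Fin N) : k1X s e R i j k l = R i j k l - kil s e R i j k l := by
  unfold k1X kil
  by_cases h : s i ≠ s j ∧ (i = e ∨ j = e)
  · rw [if_pos h, if_pos h, sub_zero]
  · rw [if_neg h, if_neg h, sub_self]

theorem k1_ne {N : ℕ} {s : Fin N → Bool} {R : Arr N} (hR : IsAlgCurv R) (hs : D.Kr s R) {e i j k l : Fin N} (h : k1X s e R i j k l ≠ 0) :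
    (s i ≠ s j ∧ (i = e ∨ j = e)) ∧ ((k = i ∧ l = j) ∨ (k = j ∧ l = i)) := by
  unfold k1X at h
  by_cases hc : s i ≠ s j ∧ (i = e ∨ j = e)
  · rw [if_pos hc] at h
    exact ⟨hc, k1_pq hR hs h hc.1⟩
  · rw [if_neg hc] at h
    exact absurd rfl h

theorem k1_pair0 {N : ℕ} {s : Fin N → Bool} {R : Arr N} (hR : IsAlgCurv R) (hs : D.Kr s R) {e i j k l : Fin N} (h : k1X s e R i j k l ≠ 0) :
    k1X s e R i j k l = k1X s e R k l i j := by
  obtain ⟨hc, h1⟩ := k1_ne hR hs h
  have hc2 : s k ≠ s l ∧ (k = e ∨ l = e) := by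
    rcases h1 with ⟨rfl, rfl⟩ | ⟨rfl, rfl⟩
    · exact hc
    · exact ⟨hc.1.symm, hc.2.symm⟩
  unfold k1X
  rw [if_pos hc, if_pos hc2, hR.pair]

theorem k1_pair {N : ℕ} {s : Fin N → Bool} {R : Arr N} (hR : IsAlgCurv R) (hs : D.Kr s R) (e i j k l : Fin N) :
    k1X s e R i j k l = k1X s e R k l i j := by
  by_cases h : k1X s e R i j k l = 0
  · by_cases h2 : k1X s e R k l i j = 0
    · rw [h, h2]
    · exact (k1_pair0 hR hs h2).symm
  · exact k1_pair0 hR hs h

theorem k1_diag {N : ℕ} (s : Fin N → Bool) (R : Arr N) (e i k l : Fin N) : k1X s e R i i k l = 0 := by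
  unfold k1X
  rw [if_neg (fun h => h.1 rfl)]

theorem k1_bia0 {N : ℕ} {s : Fin N → Bool} {R : Arr N} (hR : IsAlgCurv R) (hs : D.Kr s R) {e i j k l : Fin N} (h : k1X s e R i j k l ≠ 0) :
    k1X s e R i j k l + k1X s e R j k i l + k1X s e R k i j l = 0 := by
  obtain ⟨-, h1⟩ := k1_ne hR hs h
  rcases h1 with ⟨rfl, rfl⟩ | ⟨rfl, rfl⟩
  · rw [k1_diag, k1_skew hR e l k k l]
    ring
  · rw [k1_diag, k1_skew hR e k l k l]
    ring

theorem k1_bia {N : ℕ} {s : Fin N → Bool} {R : Arr N} (hR : IsAlgCurv R) (hs : D.Kr s R) (e i j k l : Fin N) :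
    k1X s e R i j k l + k1X s e R j k i l + k1X s e R k i j l = 0 := by
  by_cases h1 : k1X s e R i j k l = 0
  · by_cases h2 : k1X s e R j k i l = 0
    · by_cases h3 : k1X s e R k i j l = 0
      · rw [h1, h2, h3, add_zero, add_zero]
      · have h := k1_bia0 hR hs h3
        linarith
    · have h := k1_bia0 hR hs h2
      linarith
  · exact k1_bia0 hR hs h1

theorem k1_algX {N : ℕ} {s : Fin N → Bool} {R : Arr N} (hR : IsAlgCurv R) (hs : D.Kr s R) (e : Fin N) : IsAlgCurv (k1X s e R) :=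
  ⟨k1_skew hR e, k1_pair hR hs e, k1_bia hR hs e⟩

theorem K1_alg {N : ℕ} {s : Fin N → Bool} {R : Arr N} (hR : IsAlgCurv R) (hs : D.Kr s R) (e : Fin N) : IsAlgCurv (kil s e R) := by
  have hX := k1_algX hR hs e
  have h : ∀ i j k l, kil s e R i j k l = R i j k l - k1X s e R i j k l := by
    intro i j k l
    rw [k1_eq]
    ring
  refine ⟨fun i j k l => ?_, fun i j k l => ?_, fun i j k l => ?_⟩
  · rw [h, h, hR.skew i j k l, hX.skew i j k l]
    ring
  · rw [h, h, hR.pair i j k l, hX.pair i j k l]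
  · rw [h, h, h]
    have h1 := hR.bianchi i j k l
    have h2 := hX.bianchi i j k l
    linarith

theorem k1_perm {n : ℕ} {e j : Fin (2 * n + 1 + 1)} (hj : j ≠ e) : ∃ π : Equiv.Perm (Fin (2 * n + 1 + 1)), π 0 = e ∧ π 1 = j := by
  refine ⟨(Equiv.swap (0 : Fin (2 * n + 1 + 1)) e).trans (Equiv.swap (Equiv.swap (0 : Fin (2 * n + 1 + 1)) e 1) j), ?_, ?_⟩
  · rw [Equiv.trans_apply, Equiv.swap_apply_left]
    refine Equiv.swap_apply_of_ne_of_ne ?_ hj.symm
    intro h
    have h1 : Equiv.swap (0 : Fin (2 * n + 1 + 1)) e 0 = Equiv.swap (0 : Fin (2 * n + 1 + 1)) e 1 := by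
      rw [Equiv.swap_apply_left]
      exact h
    exact zero_ne_one' ((Equiv.swap (0 : Fin (2 * n + 1 + 1)) e).injective h1)
  · rw [Equiv.trans_apply, Equiv.swap_apply_left]

theorem k1_pullS {M N : ℕ} (f : Fin M → Fin N) (R : Arr N) : pull (fun k => (Pi.single (f k) (1 : ℝ) : Fin N → ℝ)) R = rs f R := by
  funext i j k l
  exact ev_single R _ _ _ _

theorem K1_cof {n : ℕ} {R : Arr (2 * n + 1 + 1)} (hR : IsAlgCurv R) {e j : Fin (2 * n + 1 + 1)} (hj : j ≠ e) :
    ∃ f : Fin (2 * n) → Fin (2 * n + 1 + 1), Function.Injective f ∧ (∀ k, f k ≠ e ∧ f k ≠ j) ∧ cof (fun _ : Fin n => pR e R) e j e j = gaussBonnet n (rs f R) := by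
  obtain ⟨π, h0, h1⟩ := k1_perm hj
  have hf : ∀ k : Fin (2 * n), π k.succ.succ ≠ e ∧ π k.succ.succ ≠ j := by
    intro k
    constructor
    · intro h
      rw [← h0] at h
      exact ss_ne_zero k (π.injective h)
    · intro h
      rw [← h1] at h
      exact ss_ne_one k (π.injective h)
  refine ⟨fun k => π k.succ.succ, fun a b h => ?_, hf, ?_⟩
  · exact Fin.succ_injective _ (Fin.succ_injective _ (π.injective h))
  · have hg : ONF (fun k : Fin (2 * n + 1 + 1) => (Pi.single (π k) (1 : ℝ) : Fin (2 * n + 1 + 1) → ℝ)) := by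
      intro a b
      unfold dot
      rw [Finset.sum_eq_single (π a)]
      · show (Pi.single (π a) (1 : ℝ) : Fin (2 * n + 1 + 1) → ℝ) (π a) * (Pi.single (π b) (1 : ℝ) : Fin (2 * n + 1 + 1) → ℝ) (π a) = _
        rw [Pi.single_eq_same, one_mul]
        by_cases h : a = b
        · subst h
          rw [Pi.single_eq_same, if_pos rfl]
        · rw [if_neg h, Pi.single_eq_of_ne]
          exact fun h' => h (π.injective h')
      · intro c _ hc
        show (Pi.single (π a) (1 : ℝ) : Fin (2 * n + 1 + 1) → ℝ) c * (Pi.single (π b) (1 : ℝ) : Fin (2 * n + 1 + 1) → ℝ) c = 0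
        rw [Pi.single_eq_of_ne hc, zero_mul]
      · intro h
        exact absurd (Finset.mem_univ _) h
    have h2 := L3 (fun _ : Fin n => pR e R) hg
    rw [h0, h1, ev_single] at h2
    rw [h2]
    have h3 : pull (fun k : Fin (2 * n) => (Pi.single (π k.succ.succ) (1 : ℝ) : Fin (2 * n + 1 + 1) → ℝ)) (pR e R) =
        rs (fun k : Fin (2 * n) => π k.succ.succ) R := by
      rw [L4_pR R (fun k => Pi.single_eq_of_ne (hf k).1.symm 1)]
      exact k1_pullS (fun k : Fin (2 * n) => π k.succ.succ) R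
    rw [h3]
    rfl

theorem k1_consM_add {m : ℕ} (A B : Arr (2 * m + 1 + 1)) (T : Fin m → Arr (2 * m + 1 + 1)) :
    consM (fun i j k l => A i j k l + B i j k l) T = consM A T + consM B T := by
  unfold consM
  rw [← Finset.sum_add_distrib]
  refine Finset.sum_congr rfl fun σ _ => ?_
  rw [← Finset.sum_add_distrib]
  refine Finset.sum_congr rfl fun τ _ => ?_
  ring

theorem K1 {n : ℕ} {s : Fin (2 * n + 1 + 1) → Bool} {R : Arr (2 * n + 1 + 1)} (hR : IsAlgCurv R) (hs : D.Kr s R) (e : Fin (2 * n + 1 + 1)) :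
    gaussBonnet (n + 1) R = gaussBonnet (n + 1) (kil s e R) +
      4 * ((n : ℝ) + 1) * ∑ j, if s j ≠ s e then R e j e j * cof (fun _ : Fin n => pR e R) e j e j else 0 := by
  have hpR : pR e (kil s e R) = pR e R := by
    funext i j k l
    unfold pR
    by_cases h : i = e ∨ j = e
    · rw [if_pos h, if_pos h]
    · rw [if_neg h, if_neg h]
      unfold kil
      rw [if_neg (fun h' => h h'.2)]
  have hpA : pA e R = fun i j k l => pA e (kil s e R) i j k l + pA e (k1X s e R) i j k l := by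
    funext i j k l
    unfold pA
    by_cases h : i = e ∨ j = e
    · rw [if_pos h, if_pos h, if_pos h, k1_eq]
      ring
    · rw [if_neg h, if_neg h, if_neg h, add_zero]
  have hL2 := L2 (k1_algX hR hs e) (e := e) (fun i k l hk hl => by
    by_contra h
    obtain ⟨-, h1 | h1⟩ := k1_ne hR hs h
    · exact hk h1.1
    · exact hl h1.2) (fun _ : Fin n => pR e R)
  have hsum : ∀ j, ∑ l, k1X s e R e j e l * cof (fun _ : Fin n => pR e R) e j e l =
      if s j ≠ s e then R e j e j * cof (fun _ : Fin n => pR e R) e j e j else 0 := by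
    intro j
    rw [Finset.sum_eq_single j]
    · unfold k1X
      by_cases h : s j ≠ s e
      · rw [if_pos h, if_pos ⟨h.symm, Or.inl rfl⟩]
      · rw [if_neg h, if_neg (fun h' => h h'.1.symm), zero_mul]
    · intro l _ hl
      have h0 : k1X s e R e j e l = 0 := by
        by_contra h
        obtain ⟨hc, h1 | h1⟩ := k1_ne hR hs h
        · exact hl h1.2
        · exact hc.1 (by rw [h1.1])
      rw [h0, zero_mul]
    · intro h
      exact absurd (Finset.mem_univ _) h
  rw [L1 R e, L1 (kil s e R) e, hpR, hpA, k1_consM_add, hL2, Finset.sum_congr rfl fun j _ => hsum j]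
  ring

end H56C
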