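import Pool.Agent.Lib.H56C.K1

/-!
# K2 (M): the hypotheses are inherited

`K2_rs`: restriction to a subset of the indices (`f` injective): `ev (rs f R) v w v w = ev R v' w' v' w'` with `v' = ∑ k, v k • Pi.single (f k) 1` (`v' i = v k` if `i = f k`, otherwise `0`); see `L4_kb`, `L4_alg` for `pull v R` with `v k = Pi.single (f k) 1`
(`pull` and `rs` agree by `ev_single`). `K2_sz`: the image of the filter under `f` (`L8_le`). `K2_kil`: `kil s e R` has the same components inside the classes: for `v`, `w` supported in one class `ev (kil s e R) v w v w = ev R v w v w` (the components with `s i ≠ s j` do not contribute).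
`K2_KB`: `KB h R` and `D.Kr s R` give `HK s R` for `0 ≤ h` (`area2 ≥ 0`; `R i j i j = ev R (single i) (single j) (single i) (single j)`).
`K2_BD`: if all `R e j e j` with `s e = true`, `s j = false` vanish then `R` is block-diagonal (`D.Kr`), and then `KB 0 R`: `ev R v w v w = ev R v₁ w₁ v₁ w₁ + ev R v₂ w₂ v₂ w₂` with `v₁`, `v₂` the parts of `v` in the two classes.
-/

set_option autoImplicit false

open Finset

namespace H56C

open Pool.Agent.H69Hopf
open H30K (KB Cyc)

theorem K2_alg {M N : ℕ} {R : Arr N} (h : IsAlgCurv R) (f : Fin M → Fin N) : IsAlgCurv (rs f R) :=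
  ⟨fun i j k l => h.skew (f i) (f j) (f k) (f l), fun i j k l => h.pair (f i) (f j) (f k) (f l),
    fun i j k l => h.bianchi (f i) (f j) (f k) (f l)⟩

theorem K2_kr {M N : ℕ} {s : Fin N → Bool} {R : Arr N} (h : D.Kr s R) {f : Fin M → Fin N} (hf : Function.Injective f) : D.Kr (fun k => s (f k)) (rs f R) :=
  ⟨fun i j k l hR => h.z (f i) (f j) (f k) (f l) hR,
    fun i j k l h1 h2 h3 h4 => h.d (f i) (f j) (f k) (f l) h1 h2 h3 (h4.imp (fun h' h'' => h' (hf h'')) (fun h' h'' => h' (hf h'')))⟩

theorem k2_ev {M N : ℕ} (R : Arr N) (f : Fin M → Fin N) (v w : Fin M → ℝ) :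
    ev (rs f R) v w v w = ev R (comb (fun k => (Pi.single (f k) (1 : ℝ) : Fin N → ℝ)) v) (comb (fun k => (Pi.single (f k) (1 : ℝ) : Fin N → ℝ)) w)
      (comb (fun k => (Pi.single (f k) (1 : ℝ) : Fin N → ℝ)) v) (comb (fun k => (Pi.single (f k) (1 : ℝ) : Fin N → ℝ)) w) := by
  rw [ev_comb, k1_pullS]

theorem k2_comb {M N : ℕ} {s : Fin N → Bool} (f : Fin M → Fin N) {v : Fin M → ℝ} {b : Bool} (h : ∀ i, s (f i) = b → v i = 0) (k : Fin N) (hk : s k = b) :
    comb (fun k => (Pi.single (f k) (1 : ℝ) : Fin N → ℝ)) v k = 0 := by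
  unfold comb
  refine Finset.sum_eq_zero fun i _ => ?_
  by_cases hi : f i = k
  · rw [h i (by rw [hi, hk]), zero_mul]
  · show v i * (Pi.single (f i) (1 : ℝ) : Fin N → ℝ) k = 0
    rw [Pi.single_eq_of_ne (Ne.symm hi), mul_zero]

theorem K2_rs {M N : ℕ} {s : Fin N → Bool} {R : Arr N} (h : HK s R) {f : Fin M → Fin N} (hf : Function.Injective f) : HK (fun k => s (f k)) (rs f R) := by
  refine ⟨K2_alg h.alg f, K2_kr h.kr hf, fun v w hv => ?_, fun v w hv => ?_, fun i j hij => h.tf (f i) (f j) hij⟩
  · rw [k2_ev]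
    exact h.tt _ _ fun k hk => ⟨k2_comb f (fun i hi => (hv i hi).1) k hk, k2_comb f (fun i hi => (hv i hi).2) k hk⟩
  · rw [k2_ev]
    exact h.ff _ _ fun k hk => ⟨k2_comb f (fun i hi => (hv i hi).1) k hk, k2_comb f (fun i hi => (hv i hi).2) k hk⟩

theorem k2_onf {M N : ℕ} {f : Fin M → Fin N} (hf : Function.Injective f) : ONF (fun k => (Pi.single (f k) (1 : ℝ) : Fin N → ℝ)) := by
  intro a b
  unfold dot
  rw [Finset.sum_eq_single (f a)]
  · show (Pi.single (f a) (1 : ℝ) : Fin N → ℝ) (f a) * (Pi.single (f b) (1 : ℝ) : Fin N → ℝ) (f a) = _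
    rw [Pi.single_eq_same, one_mul]
    by_cases h : a = b
    · subst h
      rw [Pi.single_eq_same, if_pos rfl]
    · rw [if_neg h, Pi.single_eq_of_ne]
      exact fun h' => h (hf h')
  · intro c _ hc
    show (Pi.single (f a) (1 : ℝ) : Fin N → ℝ) c * (Pi.single (f b) (1 : ℝ) : Fin N → ℝ) c = 0
    rw [Pi.single_eq_of_ne hc, zero_mul]
  · intro h
    exact absurd (Finset.mem_univ _) h

theorem K2_kb {M N : ℕ} {R : Arr N} {h : ℝ} (hK : KB h R) {f : Fin M → Fin N} (hf : Function.Injective f) : KB h (rs f R) := by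
  rw [← k1_pullS]
  exact L4_kb hK (k2_onf hf)

theorem K2_sz {M N : ℕ} (s : Fin N → Bool) {f : Fin M → Fin N} (hf : Function.Injective f) (b : Bool) : sz (fun k => s (f k)) b ≤ sz s b := by
  classical
  unfold sz
  rw [← Finset.card_image_of_injective _ hf]
  apply Finset.card_le_card
  intro x hx
  obtain ⟨j, hj, rfl⟩ := Finset.mem_image.1 hx
  exact Finset.mem_filter.2 ⟨Finset.mem_univ _, (Finset.mem_filter.1 hj).2⟩

theorem k2_kil {N : ℕ} {s : Fin N → Bool} (R : Arr N) (e : Fin N) {b : Bool} {v w : Fin N → ℝ} (h : ∀ i, s i = b → v i = 0 ∧ w i = 0) :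
    ev (kil s e R) v w v w = ev R v w v w := by
  unfold ev
  refine sum_congr rfl fun i _ => sum_congr rfl fun j _ => sum_congr rfl fun k _ => sum_congr rfl fun l _ => ?_
  unfold kil
  by_cases hc : s i ≠ s j ∧ (i = e ∨ j = e)
  · rw [if_pos hc]
    have h1 : s i = b ∨ s j = b := by
      have h2 := hc.1
      revert h2
      cases s i <;> cases s j <;> cases b <;> simp
    rcases h1 with h1 | h1
    · rw [(h i h1).1]
      ring
    · rw [(h j h1).2]
      ring
  · rw [if_neg hc]

theorem K2_kil {N : ℕ} {s : Fin N → Bool} {R : Arr N} (h : HK s R) (e : Fin N) : HK s (kil s e R) := by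
  refine ⟨K1_alg h.alg h.kr e, ⟨fun i j k l hR => ?_, fun i j k l h1 h2 h3 h4 => ?_⟩, fun v w hv => ?_, fun v w hv => ?_, fun i j hij => ?_⟩
  · refine h.kr.z i j k l fun h0 => hR ?_
    unfold kil
    rw [h0, ite_self]
  · unfold kil
    rw [h.kr.d i j k l h1 h2 h3 h4, ite_self]
  · rw [k2_kil R e hv]
    exact h.tt v w hv
  · rw [k2_kil R e hv]
    exact h.ff v w hv
  · unfold kil
    by_cases hc : s i ≠ s j ∧ (i = e ∨ j = e)
    · rw [if_pos hc]
    · rw [if_neg hc]
      exact h.tf i j hij

theorem K2_KB {N : ℕ} {s : Fin N → Bool} {R : Arr N} {h : ℝ} (hh : 0 ≤ h) (hR : IsAlgCurv R) (hs : D.Kr s R) (hK : KB h R) : HK s R := by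
  have h1 : ∀ v w : Fin N → ℝ, ev R v w v w ≤ 0 := fun v w => by
    have h2 := hK v w
    have h3 := mul_nonneg hh (area2_nonneg v w)
    linarith
  refine ⟨hR, hs, fun v w _ => h1 v w, fun v w _ => h1 v w, fun i j _ => ?_⟩
  have h2 := h1 (Pi.single i 1) (Pi.single j 1)
  rwa [ev_single] at h2

theorem K2_BD {N : ℕ} {s : Fin N → Bool} {R : Arr N} (h : HK s R) (h0 : ∀ e j, s e = true → s j = false → R e j e j = 0) : BD s R ∧ KB 0 R := by
  have hz : ∀ i j, s i ≠ s j → R i j i j = 0 := by
    intro i j hij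
    cases hi : s i
    · cases hj : s j
      · exact absurd (by rw [hi, hj]) hij
      · rw [h.alg.skew, k1_sk2 h.alg, neg_neg]
        exact h0 j i hj hi
    · cases hj : s j
      · exact h0 i j hi hj
      · exact absurd (by rw [hi, hj]) hij
  have hB : BD s R := by
    intro i j k l hR
    have hij : s i = s j := by
      by_contra hij
      rcases k1_pq h.alg h.kr hR hij with ⟨rfl, rfl⟩ | ⟨rfl, rfl⟩
      · exact hR (hz _ _ hij)
      · apply hR
        rw [k1_sk2 h.alg, hz _ _ hij, neg_zero]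
    rcases h.kr.z i j k l hR with ⟨h1, h2⟩ | ⟨h1, h2⟩
    · exact ⟨hij, hij.symm.trans h1, h1.symm.trans (hij.trans h2)⟩
    · exact ⟨hij, h2, h2.symm.trans (hij.symm.trans h1)⟩
  refine ⟨hB, fun v w => ?_⟩
  have e1 : ev R v w v w = ev R (fun i => if s i = true then v i else 0) (fun i => if s i = true then w i else 0)
      (fun i => if s i = true then v i else 0) (fun i => if s i = true then w i else 0) +
      ev R (fun i => if s i = false then v i else 0) (fun i => if s i = false then w i else 0)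
      (fun i => if s i = false then v i else 0) (fun i => if s i = false then w i else 0) := by
    unfold ev
    rw [← Finset.sum_add_distrib]
    refine sum_congr rfl fun i _ => ?_
    rw [← Finset.sum_add_distrib]
    refine sum_congr rfl fun j _ => ?_
    rw [← Finset.sum_add_distrib]
    refine sum_congr rfl fun k _ => ?_
    rw [← Finset.sum_add_distrib]
    refine sum_congr rfl fun l _ => ?_
    by_cases hR : R i j k l = 0
    · rw [hR]
      ring
    · obtain ⟨h1, h2, h3⟩ := hB i j k l hR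
      beta_reduce
      rw [h1, h2, h3]
      cases s l
      · simp
      · simp
  have h1 := h.tt (fun i => if s i = true then v i else 0) (fun i => if s i = true then w i else 0) fun i hi => by
    rw [hi]
    simp
  have h2 := h.ff (fun i => if s i = false then v i else 0) (fun i => if s i = false then w i else 0) fun i hi => by
    rw [hi]
    simp
  rw [e1, zero_mul, neg_zero]
  linarith

end H56C
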