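import Pool.Agent.Lib.H56C.K3

/-!
# K4 (M/L): the product formula

`R` block-diagonal for the two classes `i < 2 a` and `i ≥ 2 a` of `Fin (2 * (a + b))`. Then `gaussBonnet (a + b) R = (a + b).choose a * gaussBonnet a (R on the first class) * gaussBonnet b (R on the second class)`.
Proof: a pair `(σ, τ)` contributes only if for each `i` the four indices `σ (fst i)`, `σ (snd i)`, `τ (fst i)`, `τ (snd i)` lie in the same class. Let `S ⊆ Fin (a + b)` be the set of the `i` for which this is the first class; `|S| = a` (count the indices). Permute the pairs by a permutation of `Fin (a + b)` which maps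
the first `a` numbers onto `S` (the induced permutation of `Fin (2 * (a + b))` is even; `σ ↦ σ ∘ p`, `τ ↦ τ ∘ p`, the same for both: the signs cancel anyway), so each `S` contributes the same as `S₀ = {i < a}`. For `S₀`: `σ` and `τ` preserve the first class: `σ = (σ₁, σ₂)`, `sign σ = sign σ₁ sign σ₂`
(`Equiv.Perm.sumCongr`, `finSumFinEquiv`, see the proof of `Matrix.det_fromBlocks_zero₂₁`), the product splits. Only the case `a = b = 2` is needed (`K4`); prove it in the general form or directly (e.g. with `mgb`: `R = R₁ + R₂`, `mgb` multilinear and symmetric, `mgb (R₁, R₁, R₂, R₂)`, or expanding with `L1`).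
-/

set_option autoImplicit false

open Finset

namespace H56C

open Pool.Agent.H69Hopf
open H30K (KB Cyc)

/-- the class of an index. -/
def K4s (i : Fin (2 * 4)) : Bool := decide (i.1 < 4)

/-- the two inclusions. -/
def K4f (i : Fin (2 * 2)) : Fin (2 * 4) := ⟨i.1, by omega⟩

/-- the two inclusions. -/
def K4g (i : Fin (2 * 2)) : Fin (2 * 4) := ⟨i.1 + 4, by omega⟩

/-- the partition into the two classes. -/
def K4e : Fin (2 * 2) ⊕ Fin (2 * 2) ≃ Fin (2 * 4) where
  toFun := Sum.elim K4f K4g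
  invFun i := if h : i.1 < 4 then Sum.inl ⟨i.1, by omega⟩ else Sum.inr ⟨i.1 - 4, by omega⟩
  left_inv := by
    rintro (i | i)
    · have h : (K4f i).1 < 4 := by have := i.2; simp only [K4f]; omega
      simp only [Sum.elim_inl, dif_pos h]
      rfl
    · have h : ¬ (K4g i).1 < 4 := by simp only [K4g]; omega
      simp only [Sum.elim_inr, dif_neg h]
      congr 1
  right_inv := by
    intro i
    by_cases h : i.1 < 4
    · simp only [dif_pos h]
      rfl
    · simp only [dif_neg h]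
      apply Fin.ext
      simp only [Sum.elim_inr, K4g]
      omega

/-- block permutations. -/
def K4p (p : Equiv.Perm (Fin (2 * 2)) × Equiv.Perm (Fin (2 * 2))) : Equiv.Perm (Fin (2 * 4)) :=
  K4e.permCongr (Equiv.Perm.sumCongr p.1 p.2)

lemma K4p_f (p : Equiv.Perm (Fin (2 * 2)) × Equiv.Perm (Fin (2 * 2))) (i : Fin (2 * 2)) :
    K4p p (K4f i) = K4f (p.1 i) := by
  have h : K4f i = K4e (Sum.inl i) := rfl
  rw [K4p, Equiv.permCongr_apply, h, Equiv.symm_apply_apply]
  rfl

lemma K4p_g (p : Equiv.Perm (Fin (2 * 2)) × Equiv.Perm (Fin (2 * 2))) (i : Fin (2 * 2)) :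
    K4p p (K4g i) = K4g (p.2 i) := by
  have h : K4g i = K4e (Sum.inr i) := rfl
  rw [K4p, Equiv.permCongr_apply, h, Equiv.symm_apply_apply]
  rfl

lemma K4p_sign (p : Equiv.Perm (Fin (2 * 2)) × Equiv.Perm (Fin (2 * 2))) :
    Equiv.Perm.sign (K4p p) = Equiv.Perm.sign p.1 * Equiv.Perm.sign p.2 := by
  rw [K4p, Equiv.Perm.sign_permCongr, Equiv.Perm.sign_sumCongr]

lemma K4p_inj : Function.Injective K4p := by
  intro p q h
  have h1 := K4e.permCongr.injective h
  exact Equiv.Perm.sumCongrHom_injective h1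

lemma K4p_range (σ : Equiv.Perm (Fin (2 * 4))) (h : ∀ i : Fin (2 * 2), K4s (σ (K4f i)) = true) :
    ∃ p, K4p p = σ := by
  have h1 : K4e.permCongr.symm σ ∈ (Equiv.Perm.sumCongrHom (Fin (2 * 2)) (Fin (2 * 2))).range := by
    apply Equiv.Perm.mem_sumCongrHom_range_of_perm_mapsTo_inl
    rintro _ ⟨i, rfl⟩
    have h2 := h i
    simp only [K4s, decide_eq_true_eq] at h2
    refine ⟨⟨(σ (K4f i)).1, by omega⟩, ?_⟩
    apply K4e.injective
    have h3 : K4e (K4e.permCongr.symm σ (Sum.inl i)) = σ (K4f i) := by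
      change K4e (K4e.symm (σ (K4e (Sum.inl i)))) = _
      rw [Equiv.apply_symm_apply]
      rfl
    rw [h3]
    rfl
  obtain ⟨p, hp⟩ := h1
  refine ⟨p, ?_⟩
  rw [K4p]
  have h4 : (Equiv.Perm.sumCongr p.1 p.2) = K4e.permCongr.symm σ := hp
  rw [h4, Equiv.apply_symm_apply]

lemma K4_sum (g : Equiv.Perm (Fin (2 * 4)) → ℝ)
    (hg : ∀ σ, g σ ≠ 0 → ∀ i : Fin (2 * 2), K4s (σ (K4f i)) = true) :
    ∑ σ, g σ = ∑ p : Equiv.Perm (Fin (2 * 2)) × Equiv.Perm (Fin (2 * 2)), g (K4p p) := by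
  symm
  refine Finset.sum_of_injOn K4p K4p_inj.injOn (fun _ _ => Finset.mem_coe.2 (Finset.mem_univ _)) ?_ (fun _ _ => rfl)
  intro σ _ hσ
  by_contra hne
  obtain ⟨p, hp⟩ := K4p_range σ (hg σ hne)
  exact hσ ⟨p, Finset.mem_coe.2 (Finset.mem_univ _), hp⟩

/-- the two parts. -/
def K4T (R : Arr (2 * 4)) (b : Bool) : Arr (2 * 4) := fun i j k l => if K4s i = b then R i j k l else 0

lemma K4T_sum (R : Arr (2 * 4)) (i j k l : Fin (2 * 4)) : R i j k l = ∑ b, K4T R b i j k l := by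
  rw [Fintype.sum_bool]
  unfold K4T
  cases h : K4s i <;> simp

lemma K4T_ne {R : Arr (2 * 4)} (hB : BD K4s R) {b : Bool} {i j k l : Fin (2 * 4)}
    (h : K4T R b i j k l ≠ 0) : K4s i = b ∧ K4s j = b ∧ K4s k = b ∧ K4s l = b := by
  unfold K4T at h
  by_cases hi : K4s i = b
  · rw [if_pos hi] at h
    obtain ⟨h1, h2, h3⟩ := hB i j k l h
    exact ⟨hi, h1 ▸ hi, (h1.trans h2) ▸ hi, (h1.trans (h2.trans h3)) ▸ hi⟩
  · rw [if_neg hi] at h
    exact absurd rfl h

/-- expansion -/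
lemma K4_expand (R : Arr (2 * 4)) :
    gaussBonnet 4 R = ∑ b : Fin 4 → Bool, mgb (fun i => K4T R (b i)) := by
  unfold gaussBonnet mgb
  symm
  rw [Finset.sum_comm]
  refine Finset.sum_congr rfl fun σ _ => ?_
  rw [Finset.sum_comm]
  refine Finset.sum_congr rfl fun τ _ => ?_
  rw [← Finset.mul_sum]
  congr 1
  have h := Fintype.prod_sum (fun (i : Fin 4) (b : Bool) =>
    K4T R b (σ (fst i)) (σ (snd i)) (τ (fst i)) (τ (snd i)))
  refine h.symm.trans ?_
  exact Finset.prod_congr rfl fun i _ => (K4T_sum R _ _ _ _).symm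

/-- a nonzero term -/
lemma K4_term {R : Arr (2 * 4)} (hB : BD K4s R) (b : Fin 4 → Bool) (σ τ : Equiv.Perm (Fin (2 * 4)))
    (h : ((Equiv.Perm.sign σ : ℤ) : ℝ) * ((Equiv.Perm.sign τ : ℤ) : ℝ) *
      ∏ i : Fin 4, K4T R (b i) (σ (fst i)) (σ (snd i)) (τ (fst i)) (τ (snd i)) ≠ 0) (i : Fin 4) :
    K4s (σ (fst i)) = b i ∧ K4s (σ (snd i)) = b i ∧ K4s (τ (fst i)) = b i ∧ K4s (τ (snd i)) = b i := by
  have h1 := right_ne_zero_of_mul h
  rw [Finset.prod_ne_zero_iff] at h1
  exact K4T_ne hB (h1 i (Finset.mem_univ i))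

lemma K4_count (b : Fin 4 → Bool) (σ : Equiv.Perm (Fin (2 * 4)))
    (h1 : ∀ i, K4s (σ (fst i)) = b i) (h2 : ∀ i, K4s (σ (snd i)) = b i) :
    (Finset.univ.filter (fun i => b i = true)).card = 2 := by
  have h3 : ∑ x : Fin (2 * 4), (if K4s (σ x) = true then 1 else 0) = 4 := by
    rw [Equiv.sum_comp σ (fun x => if K4s x = true then 1 else 0)]
    decide
  have h4 : ∀ g : Fin (2 * 4) → ℕ, ∑ x, g x = ∑ i : Fin 4, (g (fst i) + g (snd i)) := by
    intro g
    have h5 : ∑ x, g x = ∑ x : Fin 8, g x := rfl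
    rw [h5, Fin.sum_univ_eight, Fin.sum_univ_four]
    have e0 : g (0 : Fin 8) = g (fst (0 : Fin 4)) := rfl
    have e1 : g (1 : Fin 8) = g (snd (0 : Fin 4)) := rfl
    have e2 : g (2 : Fin 8) = g (fst (1 : Fin 4)) := rfl
    have e3 : g (3 : Fin 8) = g (snd (1 : Fin 4)) := rfl
    have e4 : g (4 : Fin 8) = g (fst (2 : Fin 4)) := rfl
    have e5 : g (5 : Fin 8) = g (snd (2 : Fin 4)) := rfl
    have e6 : g (6 : Fin 8) = g (fst (3 : Fin 4)) := rfl
    have e7 : g (7 : Fin 8) = g (snd (3 : Fin 4)) := rfl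
    rw [e0, e1, e2, e3, e4, e5, e6, e7]
    ring
  rw [h4] at h3
  simp only [h1, h2] at h3
  rw [Finset.card_filter]
  have h6 : ∑ i : Fin 4, ((if b i = true then 1 else 0) + (if b i = true then 1 else 0)) =
      2 * ∑ i : Fin 4, (if b i = true then 1 else 0) := by
    rw [Finset.mul_sum]
    exact Finset.sum_congr rfl fun i _ => by ring
  rw [h6] at h3
  omega

lemma K4_zero {R : Arr (2 * 4)} (hB : BD K4s R) (b : Fin 4 → Bool)
    (hb : (Finset.univ.filter (fun i => b i = true)).card ≠ 2) :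
    mgb (fun i => K4T R (b i)) = 0 := by
  unfold mgb
  refine Finset.sum_eq_zero fun σ _ => Finset.sum_eq_zero fun τ _ => ?_
  by_contra hne
  have h := K4_term hB b σ τ hne
  exact hb (K4_count b σ (fun i => (h i).1) (fun i => (h i).2.1))

/-- the first two pairs in the first class -/
def K4b : Fin 4 → Bool := ![true, true, false, false]

lemma K4_ex : ∀ b : Fin 4 → Bool, (Finset.univ.filter (fun i => b i = true)).card = 2 →
    ∃ e : Equiv.Perm (Fin 4), ∀ i, K4b (e i) = b i := by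
  decide +kernel

lemma K4_card : (Finset.univ.filter (fun b : Fin 4 → Bool =>
    (Finset.univ.filter (fun i => b i = true)).card = 2)).card = 6 := by
  decide +kernel

lemma K4_six {R : Arr (2 * 4)} (hB : BD K4s R) :
    gaussBonnet 4 R = 6 * mgb (fun i => K4T R (K4b i)) := by
  rw [K4_expand]
  have h1 : ∀ b : Fin 4 → Bool, mgb (fun i => K4T R (b i)) =
      if (Finset.univ.filter (fun i => b i = true)).card = 2 then mgb (fun i => K4T R (K4b i)) else 0 := by
    intro b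
    split_ifs with hb
    · obtain ⟨e, he⟩ := K4_ex b hb
      rw [← mgb_perm (fun i => K4T R (K4b i)) e]
      congr 1
      funext i
      rw [he]
    · exact K4_zero hB b hb
  rw [Finset.sum_congr rfl fun b _ => h1 b, ← Finset.sum_filter, Finset.sum_const, K4_card,
    nsmul_eq_mul]
  norm_num

lemma K4_prod {R : Arr (2 * 4)} (hB : BD K4s R) :
    mgb (fun i => K4T R (K4b i)) = gaussBonnet 2 (rs K4f R) * gaussBonnet 2 (rs K4g R) := by
  have hcl : ∀ σ : Equiv.Perm (Fin (2 * 4)), (∀ i, K4s (σ (fst i)) = K4b i ∧ K4s (σ (snd i)) = K4b i) →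
      ∀ i : Fin (2 * 2), K4s (σ (K4f i)) = true := by
    intro σ h i
    obtain ⟨j, hj | hj⟩ := exists_fst_or_snd (n := 2) i
    · have e : K4f i = fst (⟨j.1, by omega⟩ : Fin 4) := by rw [hj]; rfl
      rw [e, (h _).1]
      fin_cases j <;> rfl
    · have e : K4f i = snd (⟨j.1, by omega⟩ : Fin 4) := by rw [hj]; rfl
      rw [e, (h _).2]
      fin_cases j <;> rfl
  unfold mgb
  rw [K4_sum]
  · have h1 : ∀ p : Equiv.Perm (Fin (2 * 2)) × Equiv.Perm (Fin (2 * 2)),
        ∑ τ : Equiv.Perm (Fin (2 * 4)), ((Equiv.Perm.sign (K4p p) : ℤ) : ℝ) * ((Equiv.Perm.sign τ : ℤ) : ℝ) *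
          ∏ i : Fin 4, K4T R (K4b i) (K4p p (fst i)) (K4p p (snd i)) (τ (fst i)) (τ (snd i)) =
        ∑ q : Equiv.Perm (Fin (2 * 2)) × Equiv.Perm (Fin (2 * 2)),
          (((Equiv.Perm.sign p.1 : ℤ) : ℝ) * ((Equiv.Perm.sign q.1 : ℤ) : ℝ) *
            ∏ i : Fin 2, rs K4f R (p.1 (fst i)) (p.1 (snd i)) (q.1 (fst i)) (q.1 (snd i))) *
          (((Equiv.Perm.sign p.2 : ℤ) : ℝ) * ((Equiv.Perm.sign q.2 : ℤ) : ℝ) *
            ∏ i : Fin 2, rs K4g R (p.2 (fst i)) (p.2 (snd i)) (q.2 (fst i)) (q.2 (snd i))) := by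
      intro p
      rw [K4_sum]
      · refine Finset.sum_congr rfl fun q _ => ?_
        rw [K4p_sign, K4p_sign, Fin.prod_univ_four, Fin.prod_univ_two, Fin.prod_univ_two]
        have e0 : ∀ r, K4p r (fst (0 : Fin 4)) = K4f (r.1 (fst (0 : Fin 2))) := fun r => K4p_f r (fst (0 : Fin 2))
        have e1 : ∀ r, K4p r (snd (0 : Fin 4)) = K4f (r.1 (snd (0 : Fin 2))) := fun r => K4p_f r (snd (0 : Fin 2))
        have e2 : ∀ r, K4p r (fst (1 : Fin 4)) = K4f (r.1 (fst (1 : Fin 2))) := fun r => K4p_f r (fst (1 : Fin 2))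
        have e3 : ∀ r, K4p r (snd (1 : Fin 4)) = K4f (r.1 (snd (1 : Fin 2))) := fun r => K4p_f r (snd (1 : Fin 2))
        have e4 : ∀ r, K4p r (fst (2 : Fin 4)) = K4g (r.2 (fst (0 : Fin 2))) := fun r => K4p_g r (fst (0 : Fin 2))
        have e5 : ∀ r, K4p r (snd (2 : Fin 4)) = K4g (r.2 (snd (0 : Fin 2))) := fun r => K4p_g r (snd (0 : Fin 2))
        have e6 : ∀ r, K4p r (fst (3 : Fin 4)) = K4g (r.2 (fst (1 : Fin 2))) := fun r => K4p_g r (fst (1 : Fin 2))
        have e7 : ∀ r, K4p r (snd (3 : Fin 4)) = K4g (r.2 (snd (1 : Fin 2))) := fun r => K4p_g r (snd (1 : Fin 2))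
        rw [e0, e1, e2, e3, e4, e5, e6, e7, e0, e1, e2, e3, e4, e5, e6, e7]
        have t0 : K4b 0 = true := rfl
        have t1 : K4b 1 = true := rfl
        have t2 : K4b 2 = false := rfl
        have t3 : K4b 3 = false := rfl
        have hf : ∀ i j k l, K4T R true (K4f i) j k l = R (K4f i) j k l := by
          intro i j k l
          unfold K4T
          have : K4s (K4f i) = true := by simp only [K4s, K4f, decide_eq_true_eq]; omega
          rw [if_pos this]
        have hg : ∀ i j k l, K4T R false (K4g i) j k l = R (K4g i) j k l := by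
          intro i j k l
          unfold K4T
          have : K4s (K4g i) = false := by simp only [K4s, K4g, decide_eq_false_iff_not]; omega
          rw [if_pos this]
        rw [t0, t1, t2, t3, hf, hf, hg, hg]
        simp only [rs]
        push_cast
        ring
      · intro τ hτ
        exact hcl τ fun i => ⟨(K4_term hB K4b _ τ hτ i).2.2.1, (K4_term hB K4b _ τ hτ i).2.2.2⟩
    simp only [h1]
    unfold gaussBonnet
    simp only [Fintype.sum_prod_type]
    rw [Finset.sum_mul_sum]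
    refine Finset.sum_congr rfl fun σ₁ _ => Finset.sum_congr rfl fun σ₂ _ => ?_
    rw [Finset.sum_mul_sum]
  · intro σ hσ
    obtain ⟨τ, _, hτ⟩ := Finset.exists_ne_zero_of_sum_ne_zero hσ
    exact hcl σ fun i => ⟨(K4_term hB K4b σ τ hτ i).1, (K4_term hB K4b σ τ hτ i).2.1⟩

theorem K4 {R : Arr (2 * 4)} (hB : BD (fun i : Fin (2 * 4) => decide (i.1 < 4)) R) :
    gaussBonnet 4 R = 6 * gaussBonnet 2 (rs (fun i : Fin (2 * 2) => (⟨i.1, by omega⟩ : Fin (2 * 4))) R) * gaussBonnet 2 (rs (fun i : Fin (2 * 2) => (⟨i.1 + 4, by omega⟩ : Fin (2 * 4))) R) := by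
  have hB' : BD K4s R := hB
  have h := K4_six hB'
  rw [K4_prod hB'] at h
  rw [h, mul_assoc]
  rfl

end H56C
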