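import Pool.Agent.Lib.H56C.K2
import Pool.Agent.Lib.H56C.K4
import Pool.Agent.Lib.H56C.B1
import Pool.Agent.Lib.H56C.L1
import Pool.Agent.Lib.H56C.L2

/-!
# K5 (M): block-diagonal tensors with classes of size at most five

`sz s true + sz s false = 2 n`. If `n ≤ 2`: `B1` with `h = 0` (`K2_BD` gives `KB 0 R`). If `sz s true` is odd: `K3_odd`. Otherwise both sizes are even and at most `4`, `n ≥ 3`: `(2, 4)`, `(4, 2)` or `(4, 4)`.
Size `2` (say the class of `e`, `f`; for `s = false` exchange the classes: `HK (fun i => !s i) R`): `R e i k l = 0` for `k ≠ e`, `l ≠ e` (then `k = l = f`), `n + 1 = 3`: `L1`, `L2`: `gaussBonnet 3 R = 3 * 4 * R e f e f * cof (fun _ => pR e R) e f e f` (`R e j e l ≠ 0` only if `j = l = f`), and `K1_cof`: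
`cof .. = gaussBonnet 2 (rs f R) ≥ 0` (`B1`, `K2_kb`, `K2_alg`), `R e f e f ≤ 0`.
`(4, 4)`: a permutation `π` of `Fin (2 * 4)` with `s (π i) = decide (i.1 < 4)`; `K3_perm`, `K4`, `B1` twice (`gaussBonnet 2 ≥ 0`).
-/

set_option autoImplicit false

open Finset

namespace H56C

open Pool.Agent.H69Hopf
open H30K (KB Cyc)

theorem k5_sum {N : ℕ} (s : Fin N → Bool) : sz s true + sz s false = N := by
  unfold sz
  have h1 := Finset.card_filter_add_card_filter_not (s := (Finset.univ : Finset (Fin N))) (fun i => s i = true)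
  rw [Finset.card_univ, Fintype.card_fin] at h1
  have h2 : (Finset.univ.filter fun i : Fin N => ¬ s i = true) = Finset.univ.filter fun i : Fin N => s i = false := by
    ext i
    simp
  rw [h2] at h1
  exact h1

/-- the case of a class with two indices in dimension six -/
theorem k5_two {s : Fin (2 * 3) → Bool} {R : Arr (2 * 3)} (hR : IsAlgCurv R) (hB : BD s R) (hK : KB 0 R) (b : Bool) (h2 : sz s b = 2) :
    gaussBonnet 3 R ≤ 0 := by
  obtain ⟨e, f, hef, hF⟩ := Finset.card_eq_two.1 h2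
  have hmem : ∀ i, s i = b ↔ i = e ∨ i = f := by
    intro i
    have h3 : i ∈ (Finset.univ.filter fun i => s i = b) ↔ i ∈ ({e, f} : Finset (Fin (2 * 3))) := by rw [hF]
    simpa using h3
  have hse : s e = b := (hmem e).2 (Or.inl rfl)
  have hsf : s f = b := (hmem f).2 (Or.inr rfl)
  have hsk2 : ∀ i j k l, R i j k l = -R i j l k := H30K.p1_skew2 hR
  have hcl : ∀ i k l, R e i k l ≠ 0 → (i = e ∨ i = f) ∧ (k = e ∨ k = f) ∧ (l = e ∨ l = f) := by
    intro i k l h0
    obtain ⟨h3, h4, h5⟩ := hB e i k l h0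
    refine ⟨(hmem i).1 (h3.symm.trans hse), (hmem k).1 ?_, (hmem l).1 ?_⟩
    · rw [← h4, ← h3, hse]
    · rw [← h5, ← h4, ← h3, hse]
  have hs : ∀ i k l, k ≠ e → l ≠ e → R e i k l = 0 := by
    intro i k l hk hl
    by_contra h0
    obtain ⟨-, h3, h4⟩ := hcl i k l h0
    have hk' : k = f := h3.resolve_left hk
    have hl' : l = f := h4.resolve_left hl
    rw [hk', hl'] at h0
    have h5 := hsk2 e i f f
    exact h0 (by linarith)
  have hz : ∀ j l, (j ≠ f ∨ l ≠ f) → R e j e l = 0 := by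
    intro j l hjl
    by_contra h0
    obtain ⟨h3, -, h4⟩ := hcl j e l h0
    rcases h3 with h3 | h3
    · rw [h3] at h0
      have h5 := hR.skew e e e l
      exact h0 (by linarith)
    · rcases h4 with h4 | h4
      · rw [h4] at h0
        have h5 := hsk2 e j e e
        exact h0 (by linarith)
      · rcases hjl with h6 | h6
        · exact h6 h3
        · exact h6 h4
  have e1 : gaussBonnet 3 R = ((2 : ℕ) + 1 : ℝ) * consM (pA e R) (fun _ : Fin 2 => pR e R) := L1 (n := 2) R e
  have e2 : consM (pA e R) (fun _ : Fin 2 => pR e R) = 4 * ∑ j, ∑ l, R e j e l * cof (fun _ : Fin 2 => pR e R) e j e l :=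
    L2 (m := 2) hR hs _
  have e3 : ∑ j, ∑ l, R e j e l * cof (fun _ : Fin 2 => pR e R) e j e l = R e f e f * cof (fun _ : Fin 2 => pR e R) e f e f := by
    rw [Finset.sum_eq_single f]
    · rw [Finset.sum_eq_single f]
      · intro l _ hl
        rw [hz f l (Or.inr hl), zero_mul]
      · intro h3
        exact absurd (Finset.mem_univ _) h3
    · intro j _ hj
      refine Finset.sum_eq_zero fun l _ => ?_
      rw [hz j l (Or.inl hj), zero_mul]
    · intro h3
      exact absurd (Finset.mem_univ _) h3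
  obtain ⟨g, hg, -, hc⟩ := K1_cof (n := 2) hR (e := e) (j := f) (Ne.symm hef)
  have e4 : 0 ≤ (-1 : ℝ) ^ 2 * gaussBonnet 2 (rs g R) := by
    have h3 := B1 (n := 2) le_rfl (K2_alg hR g) le_rfl (K2_kb hK hg)
    have h4 : (4 : ℝ) ^ 2 * ((2 : ℕ).factorial : ℝ) * 0 ^ 2 = 0 := by norm_num
    rw [h4] at h3
    exact h3
  have e5 : R e f e f ≤ 0 := by
    have h3 := H30K.kb_apply hK hef
    linarith
  have e6 : cof (fun _ : Fin 2 => pR e R) e f e f = gaussBonnet 2 (rs g R) := hc
  rw [e1, e2, e3, e6]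
  have e7 : 0 ≤ gaussBonnet 2 (rs g R) := by linarith
  have e8 := mul_nonneg (neg_nonneg.2 e5) e7
  push_cast
  linarith

theorem k5_four {s : Fin (2 * 4) → Bool} {R : Arr (2 * 4)} (hR : IsAlgCurv R) (hB : BD s R) (hK : KB 0 R) (h4 : sz s true = 4) :
    0 ≤ gaussBonnet 4 R := by
  have hcard : Fintype.card {x : Fin (2 * 4) // x.1 < 4} = Fintype.card {x : Fin (2 * 4) // s x = true} := by
    rw [Fintype.card_subtype, Fintype.card_subtype]
    have h5 : (Finset.univ.filter fun x => s x = true).card = 4 := h4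
    rw [h5]
    decide
  obtain ⟨π, hπ1, hπ2⟩ : ∃ π : Equiv.Perm (Fin (2 * 4)), (∀ x : Fin (2 * 4), x.1 < 4 → s (π x) = true) ∧
      ∀ x : Fin (2 * 4), ¬ x.1 < 4 → ¬ s (π x) = true :=
    ⟨(Fintype.equivOfCardEq hcard).extendSubtype, fun x hx => Equiv.extendSubtype_mem (Fintype.equivOfCardEq hcard) x hx,
      fun x hx => Equiv.extendSubtype_not_mem (Fintype.equivOfCardEq hcard) x hx⟩
  have hs : ∀ x : Fin (2 * 4), s (π x) = decide (x.1 < 4) := by
    intro x
    by_cases hx : x.1 < 4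
    · rw [hπ1 x hx, decide_eq_true hx]
    · rw [decide_eq_false hx]
      exact Bool.eq_false_iff.2 (hπ2 x hx)
  have hB' : BD (fun i : Fin (2 * 4) => decide (i.1 < 4)) (rs π R) := by
    intro i j k l h0
    have h5 := hB _ _ _ _ h0
    rw [hs, hs, hs, hs] at h5
    exact h5
  have hK' : KB 0 (rs π R) := K2_kb hK π.injective
  have hR' : IsAlgCurv (rs π R) := K2_alg hR π
  have hpos : ∀ f : Fin (2 * 2) → Fin (2 * 4), Function.Injective f → 0 ≤ gaussBonnet 2 (rs f (rs π R)) := by
    intro f hf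
    have h3 := B1 (n := 2) le_rfl (K2_alg hR' f) le_rfl (K2_kb hK' hf)
    have h4 : (4 : ℝ) ^ 2 * ((2 : ℕ).factorial : ℝ) * 0 ^ 2 = 0 := by norm_num
    rw [h4] at h3
    linarith
  rw [← K3_perm R π, K4 hB']
  refine mul_nonneg (mul_nonneg (by norm_num) (hpos _ ?_)) (hpos _ ?_)
  · intro x y hxy
    have h5 := congrArg Fin.val hxy
    exact Fin.ext h5
  · intro x y hxy
    have h5 := congrArg Fin.val hxy
    simp only at h5
    exact Fin.ext (by omega)

theorem K5 {n : ℕ} {s : Fin (2 * n) → Bool} {R : Arr (2 * n)} (h : HK s R) (hB : BD s R) (hK : KB 0 R) (h5 : ∀ b, sz s b ≤ 5) : 0 ≤ (-1) ^ n * gaussBonnet n R := by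
  have hsum := k5_sum s
  have h1 := h5 true
  have h2 := h5 false
  by_cases hn : n ≤ 2
  · have h3 := B1 hn h.alg le_rfl hK
    refine le_trans ?_ h3
    positivity
  by_cases ho : Odd (sz s true)
  · rw [K3_odd hB ho, mul_zero]
  rw [Nat.not_odd_iff_even] at ho
  obtain ⟨a, ha⟩ := ho
  have hn5 : n = 3 ∨ n = 4 := by omega
  rcases hn5 with rfl | rfl
  · have h6 : gaussBonnet 3 R ≤ 0 := by
      have h7 : sz s true = 2 ∨ sz s false = 2 := by omega
      rcases h7 with h7 | h7
      · exact k5_two h.alg hB hK true h7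
      · exact k5_two h.alg hB hK false h7
    linarith
  · have h6 := k5_four h.alg hB hK (by omega)
    linarith


end H56C
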