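import Pool.Agent.Lib.H56C.K5

/-!
# K6 (M): the case of two classes, mixed part diagonal

`K6_weak`: induction on `n`, and for fixed `n` on the number of the indices `e` with `s e = true` which have a `j` with `s j = false`, `R e j e j ≠ 0`. If there is no such `e`: `K2_BD`, `K5`. Otherwise `K1` for such an `e` (`n = m + 1`): `gaussBonnet (m + 1) (kil s e R)` has the right sign (`K2_kil`, one index less), and each term of
the sum is `R e j e j * gaussBonnet m (rs f R)` (`K1_cof`), `R e j e j ≤ 0`, `0 ≤ (-1) ^ m * gaussBonnet m (rs f R)` (`K2_rs`, `K2_sz`).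
`K6`: induction on `n`. If one of the classes is empty: `2 n ≤ 5`, `B1`. Otherwise choose `e`, `j` with `s e = true`, `s j = false`; `K1`: `gaussBonnet (m + 1) (kil s e R)` has the right sign by `K6_weak` (`K2_KB`, `K2_kil`), the terms of the sum have the right sign, and the term of this `j` is at least
`h * 4 ^ m m! h ^ m` in absolute value (`R e j e j ≤ -h`: `H30K.kb_apply`; induction hypothesis for `rs f R`: `K2_alg`, `K2_kr`, `K2_kb`, `K2_sz`), so `(-1) ^ (m + 1) * gaussBonnet (m + 1) R ≥ 4 (m + 1) h * 4 ^ m m! h ^ m = 4 ^ (m + 1) (m + 1)! h ^ (m + 1)`.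
-/

set_option autoImplicit false

open Finset

namespace H56C

open Pool.Agent.H69Hopf
open H30K (KB Cyc)

/-- the indices of the first class with a non-zero mixed curvature -/
noncomputable def k6_cnt {N : ℕ} (s : Fin N → Bool) (R : Arr N) : Finset (Fin N) := by
  classical
  exact Finset.univ.filter fun e => s e = true ∧ ∃ j, s j = false ∧ R e j e j ≠ 0

theorem k6_mem {N : ℕ} (s : Fin N → Bool) (R : Arr N) (e : Fin N) : e ∈ k6_cnt s R ↔ s e = true ∧ ∃ j, s j = false ∧ R e j e j ≠ 0 := by
  unfold k6_cnt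
  simp

theorem k6_lt {N : ℕ} {s : Fin N → Bool} {R : Arr N} {e : Fin N} (he : e ∈ k6_cnt s R) : (k6_cnt s (kil s e R)).card < (k6_cnt s R).card := by
  apply Finset.card_lt_card
  have hse := ((k6_mem s R e).1 he).1
  refine ⟨fun x hx => ?_, fun hsub => ?_⟩
  · obtain ⟨h1, j, h2, h3⟩ := (k6_mem _ _ _).1 hx
    refine (k6_mem _ _ _).2 ⟨h1, j, h2, fun h4 => h3 ?_⟩
    unfold kil
    rw [h4]
    exact ite_self 0
  · obtain ⟨h1, j, h2, h3⟩ := (k6_mem _ _ _).1 (hsub he)
    apply h3
    unfold kil
    rw [if_pos]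
    refine ⟨?_, Or.inl rfl⟩
    rw [h1, h2]
    decide

theorem k6_sum {m : ℕ} {s : Fin (2 * m + 1 + 1) → Bool} {R : Arr (2 * m + 1 + 1)} (hR : IsAlgCurv R) (hs : D.Kr s R) (e : Fin (2 * m + 1 + 1)) :
    (-1) ^ (m + 1) * gaussBonnet (m + 1) R = (-1) ^ (m + 1) * gaussBonnet (m + 1) (kil s e R) +
      4 * ((m : ℝ) + 1) * ∑ j, if s j ≠ s e then (-R e j e j) * ((-1) ^ m * cof (fun _ : Fin m => pR e R) e j e j) else 0 := by
  have h1 : ∀ j, (if s j ≠ s e then (-R e j e j) * ((-1) ^ m * cof (fun _ : Fin m => pR e R) e j e j) else 0) =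
      (-1) ^ (m + 1) * (if s j ≠ s e then R e j e j * cof (fun _ : Fin m => pR e R) e j e j else 0) := by
    intro j
    split_ifs
    · rw [pow_succ]
      ring
    · ring
  rw [Finset.sum_congr rfl fun j _ => h1 j, ← Finset.mul_sum, K1 hR hs e]
  ring

theorem K6_weak {n : ℕ} {s : Fin (2 * n) → Bool} {R : Arr (2 * n)} (h : HK s R) (h5 : ∀ b, sz s b ≤ 5) : 0 ≤ (-1) ^ n * gaussBonnet n R := by
  induction n with
  | zero =>
    have hb := K2_BD h (fun e => e.elim0)
    exact K5 h hb.1 hb.2 h5
  | succ m ihn =>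
    obtain ⟨c, hc⟩ : ∃ c, c = (k6_cnt s R).card := ⟨_, rfl⟩
    induction c using Nat.strong_induction_on generalizing R with
    | _ c ih =>
      by_cases hE : ∃ e, e ∈ k6_cnt s R
      · obtain ⟨e, he⟩ := hE
        have hlt := k6_lt he
        have h1 := ih _ (hc ▸ hlt) (K2_kil h e) rfl
        have h2 := k6_sum (m := m) (s := s) (R := R) h.alg h.kr e
        have h3 : ∀ j, 0 ≤ (if s j ≠ s e then (-R e j e j) * ((-1) ^ m * cof (m := m) (fun _ : Fin m => pR e R) e j e j) else 0) := by
          intro j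
          split_ifs with hj
          · have hje : j ≠ e := fun h => hj (by rw [h])
            obtain ⟨f, hf, -, hcof⟩ := K1_cof (n := m) (R := R) h.alg (e := e) (j := j) hje
            have h4 : 0 ≤ (-1) ^ m * gaussBonnet m (rs f R) := ihn (K2_rs h hf) fun b => le_trans (K2_sz s hf b) (h5 b)
            have h5 : R e j e j ≤ 0 := h.tf e j (Ne.symm hj)
            have h6 : cof (m := m) (fun _ : Fin m => pR e R) e j e j = gaussBonnet m (rs f R) := hcof
            rw [h6]
            exact mul_nonneg (neg_nonneg.2 h5) h4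
          · exact le_rfl
        have h7 : 0 ≤ 4 * ((m : ℝ) + 1) * ∑ j, (if s j ≠ s e then (-R e j e j) * ((-1) ^ m * cof (m := m) (fun _ : Fin m => pR e R) e j e j) else 0) :=
          mul_nonneg (by positivity) (Finset.sum_nonneg fun j _ => h3 j)
        have h8 : 0 ≤ (-1) ^ (m + 1) * gaussBonnet (m + 1) (kil s e R) := h1
        have h9 := add_nonneg h8 h7
        exact h9.trans_eq h2.symm
      · have hb := K2_BD h (fun e j hse hsj => by
          by_contra h0
          exact hE ⟨e, (k6_mem _ _ _).2 ⟨hse, j, hsj, h0⟩⟩)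
        exact K5 h hb.1 hb.2 h5


theorem K6 {n : ℕ} {s : Fin (2 * n) → Bool} {R : Arr (2 * n)} (hR : IsAlgCurv R) (hs : D.Kr s R) (h5 : ∀ b, sz s b ≤ 5) {h : ℝ} (hh : 0 ≤ h) (hK : KB h R) :
    4 ^ n * (n.factorial : ℝ) * h ^ n ≤ (-1) ^ n * gaussBonnet n R := by
  induction n with
  | zero => exact B1 (by norm_num) hR hh hK
  | succ m ihn =>
    have hsum := k5_sum s
    have h51 := h5 true
    have h52 := h5 false
    by_cases hn : m + 1 ≤ 2
    · exact B1 hn hR hh hK
    have hpos : ∀ b, 0 < sz s b := by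
      intro b
      cases b <;> omega
    obtain ⟨e, he⟩ := Finset.card_pos.1 (hpos true)
    obtain ⟨j, hj⟩ := Finset.card_pos.1 (hpos false)
    have he' : s e = true := by simpa using he
    have hj' : s j = false := by simpa using hj
    have hjs : s j ≠ s e := by rw [he', hj']; decide
    have hHK : HK s R := K2_KB hh hR hs hK
    have h8 : 0 ≤ (-1) ^ (m + 1) * gaussBonnet (m + 1) (kil s e R) := K6_weak (K2_kil hHK e) h5
    have h2 := k6_sum (m := m) (s := s) (R := R) hR hs e
    have h3 : ∀ i, s i ≠ s e → h * (4 ^ m * (m.factorial : ℝ) * h ^ m) ≤ (-R e i e i) * ((-1) ^ m * cof (m := m) (fun _ : Fin m => pR e R) e i e i) := by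
      intro i hi
      have hie : i ≠ e := fun h => hi (by rw [h])
      obtain ⟨f, hf, -, hcof⟩ := K1_cof (n := m) (R := R) hR (e := e) (j := i) hie
      have h4 : 4 ^ m * (m.factorial : ℝ) * h ^ m ≤ (-1) ^ m * gaussBonnet m (rs f R) :=
        ihn (K2_alg hR f) (K2_kr hs hf) (fun b => le_trans (K2_sz s hf b) (h5 b)) (K2_kb hK hf)
      have h6 : cof (m := m) (fun _ : Fin m => pR e R) e i e i = gaussBonnet m (rs f R) := hcof
      rw [h6]
      have h7 : h ≤ -R e i e i := by
        have h9 := H30K.kb_apply hK (Ne.symm hie)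
        linarith
      exact mul_le_mul h7 h4 (by positivity) (hh.trans h7)
    have h10 : h * (4 ^ m * (m.factorial : ℝ) * h ^ m) ≤
        ∑ i, (if s i ≠ s e then (-R e i e i) * ((-1) ^ m * cof (m := m) (fun _ : Fin m => pR e R) e i e i) else 0) := by
      refine le_trans (h3 j hjs) ?_
      have h11 : ∀ i ∈ (Finset.univ : Finset (Fin (2 * m + 1 + 1))), 0 ≤ (if s i ≠ s e then (-R e i e i) * ((-1) ^ m * cof (m := m) (fun _ : Fin m => pR e R) e i e i) else 0) := by
        intro i _
        split_ifs with hi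
        · exact le_trans (by positivity) (h3 i hi)
        · exact le_rfl
      have h12 := Finset.single_le_sum h11 (Finset.mem_univ j)
      rw [if_pos hjs] at h12
      exact h12
    have h13 : 4 ^ (m + 1) * ((m + 1).factorial : ℝ) * h ^ (m + 1) = 4 * ((m : ℝ) + 1) * (h * (4 ^ m * (m.factorial : ℝ) * h ^ m)) := by
      rw [Nat.factorial_succ]
      push_cast
      ring
    rw [h13]
    refine le_trans ?_ h2.symm.le
    have h14 := mul_le_mul_of_nonneg_left h10 (show (0 : ℝ) ≤ 4 * ((m : ℝ) + 1) by positivity)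
    exact le_trans h14 (le_add_of_nonneg_left h8)


end H56C
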