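import Pool.Agent.Lib.H56C.Defs
import Pool.Agent.Lib.H56C.D.Defs

/-!
# KD: definitions for the case of two classes of indices, mixed part diagonal

`D.Kr s R`: `R i j k l ≠ 0` implies (`s i = s k`, `s j = s l`) or (`s i = s l`, `s j = s k`), and for `s i ≠ s j` the components `R i j k l` with (`s i = s k`, `s j = s l`) vanish unless `i = k`, `j = l`.
-/

set_option autoImplicit false

open Finset

namespace H56C

open Pool.Agent.H69Hopf
open H30K (KB Cyc)

/-- curvature tensors with two classes of indices, mixed part diagonal, and the sectional curvatures of the planes inside the classes and of the mixed coordinate planes `≤ 0` -/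
structure HK {N : ℕ} (s : Fin N → Bool) (R : Arr N) : Prop where
  alg : IsAlgCurv R
  kr : D.Kr s R
  tt : ∀ v w : Fin N → ℝ, (∀ i, s i = false → v i = 0 ∧ w i = 0) → ev R v w v w ≤ 0
  ff : ∀ v w : Fin N → ℝ, (∀ i, s i = true → v i = 0 ∧ w i = 0) → ev R v w v w ≤ 0
  tf : ∀ i j, s i ≠ s j → R i j i j ≤ 0

/-- the number of the indices of class `b` -/
def sz {N : ℕ} (s : Fin N → Bool) (b : Bool) : ℕ := (Finset.univ.filter fun i => s i = b).card

/-- the mixed components with the index `e` replaced by zero -/
def kil {N : ℕ} (s : Fin N → Bool) (e : Fin N) (R : Arr N) : Arr N := fun i j k l => if s i ≠ s j ∧ (i = e ∨ j = e) then 0 else R i j k l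

/-- the array with the indices `f i` -/
def rs {M N : ℕ} (f : Fin M → Fin N) (R : Arr N) : Arr M := fun i j k l => R (f i) (f j) (f k) (f l)

/-- all mixed components vanish -/
def BD {N : ℕ} (s : Fin N → Bool) (R : Arr N) : Prop := ∀ i j k l, R i j k l ≠ 0 → s i = s j ∧ s j = s k ∧ s k = s l

end H56C
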