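import Pool.Agent.Lib.H56C.Stmt2
import Pool.Agent.Lib.H56C.D.G4

/-!
# KG1 (M): `TwoAt` does not depend on the frame

`E₀`, `β₀` from `TwoAt`. `O = E₀ᵀ G₀ E` is orthogonal, `E = E₀ O` (`E₀ E₀ᵀ G₀ = 1`: `D.g4_inv`, `mul_eq_one_comm`), so `Oᵀ diagonal β₀ O = diagonal β`: equal characteristic polynomials `∏ (X - C (β i)) = ∏ (X - C (β₀ i))` (or: `diagonal β₀ O = O diagonal β`, `O` invertible), so the multisets of the values
are equal (`Polynomial.roots`), so there is a permutation or: `β` takes the same values with the same multiplicities (`Multiset.count`). `cl β i = Multiset.count (β i) (Finset.univ.val.map β)`.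
`KG1_adm`: if two values, `cl β i ≤ 5` and a value has multiplicity one then `Adm β` (1).
-/

set_option autoImplicit false

open scoped ContDiff Manifold
open Set

namespace H56C

open H31R H79G H60E H30K

variable {d : ℕ}

/-- Auxiliary: the characteristic polynomial of `G0⁻¹ b0` in a frame of eigenvectors. -/
theorem kg1_char {G0 b0 E : Mt d} {β : Fin d → ℝ} (hE : E.transpose * G0 * E = 1) (hβ : E.transpose * b0 * E = Matrix.diagonal β) :
    (G0⁻¹ * b0).charpoly.roots = Finset.univ.val.map β := by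
  rw [D.g4_inv hE, Matrix.mul_assoc, Matrix.charpoly_mul_comm, hβ, Matrix.charpoly_diagonal]
  have h1 : (∏ i : Fin d, (Polynomial.X - Polynomial.C (β i))) =
      ((Finset.univ.val.map β).map fun a => Polynomial.X - Polynomial.C a).prod := by
    rw [Multiset.map_map]
    rfl
  rw [h1, Polynomial.roots_multiset_prod_X_sub_C]

/-- Auxiliary: the multiplicity as a count. -/
theorem kg1_cl (β : Fin d → ℝ) (i : Fin d) : cl β i = Multiset.count (β i) (Finset.univ.val.map β) := by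
  classical
  rw [Multiset.count_map, cl, Finset.card_def, Finset.filter_val]
  congr 1
  refine Multiset.filter_congr fun j _ => ?_
  exact eq_comm

theorem KG1 {G0 b0 : Mt d} (h : TwoAt G0 b0) {E : Mt d} {β : Fin d → ℝ} (hE : E.transpose * G0 * E = 1) (hβ : E.transpose * b0 * E = Matrix.diagonal β) :
    (∃ p q, β p ≠ β q ∧ ∀ i, β i = β p ∨ β i = β q) ∧ ∀ i, cl β i ≤ 5 := by
  obtain ⟨E₀, β₀, hE₀, hβ₀, ⟨p, q, hpq, hall⟩, h5⟩ := h
  have hm : (Finset.univ.val.map β) = Finset.univ.val.map β₀ := by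
    rw [← kg1_char hE hβ, ← kg1_char hE₀ hβ₀]
  have m1 : ∀ j, ∃ i, β i = β₀ j := by
    intro j
    have h1 : β₀ j ∈ Finset.univ.val.map β := by
      rw [hm]
      exact Multiset.mem_map_of_mem _ (Finset.mem_univ j)
    obtain ⟨i, -, hi⟩ := Multiset.mem_map.1 h1
    exact ⟨i, hi⟩
  have m2 : ∀ i, ∃ j, β₀ j = β i := by
    intro i
    have h1 : β i ∈ Finset.univ.val.map β₀ := by
      rw [← hm]
      exact Multiset.mem_map_of_mem _ (Finset.mem_univ i)
    obtain ⟨j, -, hj⟩ := Multiset.mem_map.1 h1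
    exact ⟨j, hj⟩
  refine ⟨?_, fun i => ?_⟩
  · obtain ⟨a, ha⟩ := m1 p
    obtain ⟨b, hb⟩ := m1 q
    refine ⟨a, b, by rw [ha, hb]; exact hpq, fun i => ?_⟩
    obtain ⟨j, hj⟩ := m2 i
    rw [ha, hb, ← hj]
    exact hall j
  · obtain ⟨j, hj⟩ := m2 i
    rw [kg1_cl, hm, ← hj, ← kg1_cl]
    exact h5 j

theorem KG1_adm {β : Fin d → ℝ} (h : ∃ p q, β p ≠ β q ∧ ∀ i, β i = β p ∨ β i = β q) (h5 : ∀ i, cl β i ≤ 5) {i : Fin d} (hi : cl β i ≤ 1) : Adm β := by
  obtain ⟨p, q, hpq, hall⟩ := h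
  refine Or.inl ⟨fun a b ha hb => ?_, h5⟩
  have key : ∀ a, 2 ≤ cl β a → β a ≠ β i := by
    intro a ha hai
    have h1 : cl β a = cl β i := by
      rw [kg1_cl, kg1_cl, hai]
    omega
  have ka := key a ha
  have kb := key b hb
  rcases hall a with h1 | h1 <;> rcases hall b with h2 | h2 <;> rcases hall i with h3 | h3
  all_goals first
    | exact h1.trans h2.symm
    | exact absurd (h1.trans h3.symm) ka
    | exact absurd (h2.trans h3.symm) kb

/-- Auxiliary: the case of ordered values. -/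
theorem kg1_two_lt {β : Fin d → ℝ} {p q : Fin d} (hpq : β q < β p) (hall : ∀ i, β i = β p ∨ β i = β q) (h2 : ∀ i, 2 ≤ cl β i) :
    ∃ ε lam mu, D.TwoV β ε lam mu := by
  classical
  refine ⟨fun i => if β i = β p then 1 else 0, β p, β q, ⟨hpq, fun i => ?_, fun i => ?_, fun i => ?_, ⟨q, ?_⟩, ⟨p, ?_⟩⟩⟩
  · by_cases h : β i = β p
    · exact Or.inr (if_pos h)
    · exact Or.inl (if_neg h)
  · by_cases h : β i = β p
    · rw [if_pos h, h]
      ring
    · rw [if_neg h, (hall i).resolve_left h]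
      ring
  · have h1 := h2 i
    rw [cl] at h1
    obtain ⟨j, hj, hji⟩ := Finset.exists_mem_ne (lt_of_lt_of_le one_lt_two h1) i
    rw [Finset.mem_filter] at hj
    refine ⟨j, hji, ?_⟩
    simp only [hj.2]
  · exact if_neg hpq.ne
  · exact if_pos rfl

/-- two values, each at least twice -/
theorem KG1_two {β : Fin d → ℝ} (h : ∃ p q, β p ≠ β q ∧ ∀ i, β i = β p ∨ β i = β q) (h2 : ∀ i, 2 ≤ cl β i) : ∃ ε lam mu, D.TwoV β ε lam mu := by
  obtain ⟨p, q, hpq, hall⟩ := h
  rcases lt_or_gt_of_ne hpq with h1 | h1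
  · exact kg1_two_lt h1 (fun i => (hall i).symm) h2
  · exact kg1_two_lt h1 hall h2

end H56C
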