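import Pool.Agent.Lib.H56C.D.G9B
import Pool.Agent.Lib.H56C.D.G10
import Pool.Agent.Lib.H56C.K6
import Pool.Agent.Lib.H56C.GA
import Pool.Agent.Lib.H30K.P3B
import Pool.Agent.Lib.H30K.P1
import Pool.Agent.Lib.H30K.G2
import Pool.Agent.Lib.H30K.G3

/-!
# KG2 (M): the region with two eigenvalues

As `G11_two` (`Lib/H30K/G11.lean`). Take a frame `E₁` of eigenvectors at `x` (`G3_exists`), `β`, `D.TwoV` (`ht`). `R₁ = frR (riem G x) E₁` is an algebraic curvature tensor (`riem_algCurv`, `frR_algCurv`), `Cyc` (`G2_cyc`), so `P1_zero` gives the types (`β i = β k` implies `ε i = ε k`), `D.G9_mixed` the mixed part,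
`D.G10_kr` an orthogonal matrix `O` with `D.Kr s (frR R₁ O)`, `frR R₁ O = frR (riem G x) (E₁ O)` (`frR_mul`) and `E₁ O` is again a frame. `sz s true = card {ε = 1} = cl β i` for an `i` with `ε i = 1`, so `≤ 5` (`h5`), same for `false`. `K6` for `frR (riem G x) (E₁ O)` (`hK` for the frame `E₁ O`), `GA_pf`.
-/

set_option autoImplicit false

open scoped ContDiff Topology Manifold
open Set

namespace H56C

open H31R H79G H60E H30K
open Pool.Agent.H69Hopf (Arr IsAlgCurv ev area2)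

theorem KG2 {n : ℕ} {V : Set (EE (2 * n))} {G b : EE (2 * n) → Mt (2 * n)} (h : MetOn V G) (hc : IsCodazzi G V b) (ht : D.TwoOn V G b) {x : EE (2 * n)} (hx : x ∈ V)
    (h5 : ∀ (E : Mt (2 * n)) (β : Fin (2 * n) → ℝ), E.transpose * G x * E = 1 → E.transpose * b x * E = Matrix.diagonal β → ∀ i, cl β i ≤ 5)
    {c : ℝ} (hc0 : 0 ≤ c) (hK : ∀ E : Mt (2 * n), E.transpose * G x * E = 1 → KB (N := 2 * n) c (frR (riem G x) E)) : c ^ n ≤ (-1) ^ n * pfn G x := by
  obtain ⟨E1, β, hE1, hβ⟩ := G3_exists (h.symm x hx) (h.pos x hx) (hc.symm x hx)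
  obtain ⟨ε, lam, mu, h2⟩ := ht x hx E1 β hE1 hβ
  have hA : IsAlgCurv (N := 2 * n) (riem G x) := riem_algCurv h hx
  have hA1 : IsAlgCurv (N := 2 * n) (frR (riem G x) E1) := frR_algCurv hA E1
  have hcyc := G2_cyc h hc hx hE1 hβ
  have hne : lam - mu ≠ 0 := sub_ne_zero.2 (ne_of_gt h2.lt)
  have hbe : ∀ i k, β i = β k → ε i = ε k := by
    intro i k hik
    rw [h2.eq i, h2.eq k] at hik
    exact mul_left_cancel₀ hne (add_left_cancel hik)
  have hty : ∀ i j k l, frR (riem G x) E1 i j k l ≠ 0 →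
      (ε i = ε k ∧ ε j = ε l) ∨ (ε i = ε l ∧ ε j = ε k) := by
    intro i j k l h0
    rcases P1_zero hA1 hcyc h0 with h3 | h3
    · exact Or.inl ⟨hbe _ _ h3.1, hbe _ _ h3.2⟩
    · exact Or.inr ⟨hbe _ _ h3.1, hbe _ _ h3.2⟩
  obtain ⟨Y, Z, hY, hZ, hm⟩ := D.G9_mixed h hc ht hx hE1 hβ h2
  obtain ⟨O, s, hO, hkr, hs1, hs2⟩ := D.G10_kr hA1 h2.ep hty hY hZ hm
  have hE2 : (E1 * O).transpose * G x * (E1 * O) = 1 := by
    rw [Matrix.transpose_mul]
    calc O.transpose * E1.transpose * G x * (E1 * O) = O.transpose * (E1.transpose * G x * E1) * O := by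
          simp only [Matrix.mul_assoc]
      _ = 1 := by rw [hE1, Matrix.mul_one, hO]
  have h5' : ∀ b, sz s b ≤ 5 := by
    intro t
    cases t with
    | true =>
      obtain ⟨i, hi⟩ := h2.one
      refine le_trans (le_of_eq hs1) (le_trans (Finset.card_le_card fun j hj => ?_) (h5 E1 β hE1 hβ i))
      rw [Finset.mem_filter] at hj ⊢
      refine ⟨Finset.mem_univ _, ?_⟩
      rw [h2.eq i, h2.eq j, hj.2, hi]
    | false =>
      obtain ⟨i, hi⟩ := h2.zero
      refine le_trans (le_of_eq hs2) (le_trans (Finset.card_le_card fun j hj => ?_) (h5 E1 β hE1 hβ i))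
      rw [Finset.mem_filter] at hj ⊢
      refine ⟨Finset.mem_univ _, ?_⟩
      rw [h2.eq i, h2.eq j, hj.2, hi]
  rw [frR_mul] at hkr
  have h6 := K6 (frR_algCurv hA (E1 * O)) hkr h5' hc0 (hK _ hE2)
  rw [GA_pf h hx hE2, ← mul_div_assoc, le_div_iff₀ (by positivity)]
  calc c ^ n * (4 ^ n * (n.factorial : ℝ)) = 4 ^ n * (n.factorial : ℝ) * c ^ n := by ring
    _ ≤ _ := h6

end H56C
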