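import Pool.Agent.Lib.H56C.KG1
import Pool.Agent.Lib.H56C.KG2
import Pool.Agent.Lib.H56C.GC

/-!
# KG3 (S/M): closed manifolds, with the second class

`KG3_loc`: if `AdmAt` at some `y ∈ U`: `GC_pt`. Otherwise (`TwoAt` on `U`): if at some `y ∈ U` there is a frame of eigenvectors with a value of multiplicity one: `KG1`, `KG1_adm`, `GC_pt`. If not, `D.TwoOn U G b` (`KG1`, `KG1_two`; `1 ≤ cl β i` always), and `KG2` at any `x ∈ U`.
`KG3_dense`, `KG3_main`: as `GC_dense`, `GC_main` (`Lib/H56C/GC.lean`).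
-/

set_option autoImplicit false

open scoped ContDiff Topology Manifold
open Set

namespace H56C

open H31R H79G H60E H30K
open Pool.Agent.H69Hopf (Arr IsAlgCurv ev area2)

theorem KG3_loc {n : ℕ} {U : Set (EE (2 * n))} {G b : EE (2 * n) → Mt (2 * n)} (h : MetOn U G) (hc : IsCodazzi G U b) {c : ℝ} (hc0 : 0 ≤ c)
    (hK : ∀ y ∈ U, ∀ E : Mt (2 * n), E.transpose * G y * E = 1 → KB (N := 2 * n) c (frR (riem G y) E)) (hU : U.Nonempty)
    (hA : (∃ y ∈ U, AdmAt (G y) (b y)) ∨ ∀ y ∈ U, TwoAt (G y) (b y)) : ∃ y ∈ U, c ^ n ≤ (-1) ^ n * pfn G y := by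
  rcases hA with ⟨y, hy, hAy⟩ | hT
  · exact ⟨y, hy, GC_pt h hc hc0 hK hy hAy⟩
  · by_cases hone : ∃ y ∈ U, ∃ (E : Mt (2 * n)) (β : Fin (2 * n) → ℝ), E.transpose * G y * E = 1 ∧
        E.transpose * b y * E = Matrix.diagonal β ∧ ∃ i, cl β i ≤ 1
    · obtain ⟨y, hy, E, β, hE, hβ, i, hi⟩ := hone
      have h1 := KG1 (hT y hy) hE hβ
      exact ⟨y, hy, GC_pt h hc hc0 hK hy ⟨E, β, hE, hβ, KG1_adm h1.1 h1.2 hi⟩⟩
    · have ht : D.TwoOn U G b := by
        intro y hy E β hE hβ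
        have h1 := KG1 (hT y hy) hE hβ
        refine KG1_two h1.1 fun i => ?_
        by_contra hlt
        exact hone ⟨y, hy, E, β, hE, hβ, i, by omega⟩
      obtain ⟨x, hx⟩ := hU
      exact ⟨x, hx, KG2 h hc ht hx (fun E β hE hβ => (KG1 (hT x hx) hE hβ).2) hc0
        (fun E hE => hK x hx E hE)⟩

theorem KG3_dense {n : ℕ} {M : Type} [TopologicalSpace M] [ChartedSpace (EE (2 * n)) M] {g : Ch.Metric (2 * n) M} (hD : DenseMult2 g) (p : M)
    {W : Set (EE (2 * n))} (hW : IsOpen W) (hWt : W ⊆ (chartAt (EE (2 * n)) p).target) {c : ℝ} (hc0 : 0 ≤ c)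
    (hK : ∀ y ∈ W, ∀ E : Mt (2 * n), E.transpose * g.mat p y * E = 1 → KB (N := 2 * n) c (frR (riem (g.mat p) y) E))
    {y : EE (2 * n)} (hy : y ∈ W) : c ^ n ≤ (-1) ^ n * pfn (g.mat p) y := by
  have hM : MetOn W (g.mat p) := gc_mono (metOn g p) hW hWt
  have hcl : y ∈ closure {z | z ∈ W ∧ c ^ n ≤ (-1) ^ n * pfn (g.mat p) z} := by
    rw [mem_closure_iff]
    intro O hO hyO
    obtain ⟨U, hUV, hU, hUne, b, hb, hA⟩ := hD p (O ∩ W) (fun z hz => hWt hz.2) (hO.inter hW) ⟨y, hyO, hy⟩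
    have hUW : U ⊆ W := fun z hz => (hUV hz).2
    obtain ⟨z, hz, hzc⟩ := KG3_loc (gc_mono hM hU hUW) hb hc0 (fun w hw => hK w (hUW hw)) hUne hA
    exact ⟨z, (hUV hz).1, hUW hz, hzc⟩
  have h1 : ContinuousWithinAt (fun z => (-1) ^ n * pfn (g.mat p) z) {z | z ∈ W ∧ c ^ n ≤ (-1) ^ n * pfn (g.mat p) z} y :=
    ((GA_cont hM y hy).mono fun z hz => hz.1).const_mul _
  exact continuousWithinAt_const.closure_le hcl h1 fun z hz => hz.2

theorem KG3_main {n : ℕ} (hn : 1 ≤ n) (M : Closed (2 * n)) (g : Ch.Metric (2 * n) M.carrier) (hK : SecNonpos g) (hD : DenseMult2 g) :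
    ∃ χ : ℤ, IsEulerCharacteristic (2 * n) M.carrier χ ∧ 0 ≤ (-1) ^ n * χ ∧ ((∃ m : M.carrier, NegAt g m) → 0 < (-1) ^ n * χ) := by
  have hK4 : (0 : ℝ) < 4 ^ n * n.factorial := by positivity
  have hpt : ∀ p : M.carrier, ∀ y ∈ (chartAt (EE (2 * n)) p).target, ∀ E : Mt (2 * n),
      E.transpose * g.mat p y * E = 1 →
      0 ≤ ((-1) ^ n : ℝ) * Pool.Agent.H69Hopf.gaussBonnet n (frameR (riem (g.mat p) y) E) := by
    intro p y hy E hE
    have h1 := KG3_dense hD p (chartAt (EE (2 * n)) p).open_target subset_rfl le_rfl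
      (fun z hz E _ => GB_nonpos hK p hz E) hy
    rw [GA_pf (metOn g p) hy hE, ← mul_div_assoc, le_div_iff₀ hK4, zero_pow (by omega), zero_mul] at h1
    exact h1
  obtain ⟨χ, h1, h2, h3⟩ := sign_principle n M g ((-1) ^ n) hpt
  refine ⟨χ, h1, ?_, ?_⟩
  · exact_mod_cast h2
  · rintro ⟨m, hm⟩
    have h4 : 0 < ((-1) ^ n : ℝ) * χ := by
      refine h3 ⟨m, fun E hE => ?_⟩
      obtain ⟨c, hc, W, hWt, hW, hmW, hKW⟩ :=
        GB_neg (by omega) (metOn g m) (mem_chart_target (EE (2 * n)) m) hm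
      have h5 := KG3_dense hD m hW hWt hc.le hKW hmW
      rw [GA_pf (metOn g m) (mem_chart_target (EE (2 * n)) m) hE, ← mul_div_assoc, le_div_iff₀ hK4] at h5
      have h6 : 0 < c ^ n * (4 ^ n * n.factorial) := mul_pos (pow_pos hc n) hK4
      exact lt_of_lt_of_le h6 h5
    exact_mod_cast h4

end H56C
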