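import Pool.Agent.Lib.H56C.Defs

/-!
# L5 (M): the frame adapted to `e` and `w`

Let `s = √(dot w w) > 0` (`w i0 ≠ 0`), `u = w / s`, `z = Pi.single i0 1 - u`. If `z = 0` take `P = 1`, otherwise the reflection `P a b = (if a = b then 1 else 0) - 2 * z a * z b / dot z z`. `P` is symmetric and orthogonal, and
`∑ b, P a b * (Pi.single i0 1) b = P a i0 = u a` (because `dot z z = 2 - 2 u i0`, `z i0 = 1 - u i0`: `δ_{a i0} - 2 z a (1 - u i0) / (2 - 2 u i0) = δ_{a i0} - z a = u a`). `z a ≠ 0` implies `β a = β i0` and `a ≠ e` (`w e = 0`, `i0 ≠ e`),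
so `P a b ≠ 0` implies `a = b` or `β a = β b = β i0`; `P e b = δ_{e b}`.
`π` = any permutation of `Fin (N + 1 + 1)` with `π 0 = e`, `π 1 = i0` (for instance `Equiv.swap 0 e` followed by a swap; or `Equiv.Perm` extension of the injection: `Equiv.swap (Equiv.swap 0 e 1) i0 * Equiv.swap 0 e`:
`0 ↦ e ↦ e` because `e ≠ i0`, `e ≠ swap 0 e 1`; `1 ↦ swap 0 e 1 ↦ i0`). `g k a = P a (π k)`.
-/

set_option autoImplicit false

open Finset

namespace H56C

open Pool.Agent.H69Hopf

theorem L5 {N : ℕ} {β : Fin (N + 1 + 1) → ℝ} {e i0 : Fin (N + 1 + 1)} (hne : i0 ≠ e) {w : Fin (N + 1 + 1) → ℝ} (hwe : w e = 0) (hw : ∀ j, w j ≠ 0 → β j = β i0)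
    (hi0 : w i0 ≠ 0) :
    ∃ (π : Equiv.Perm (Fin (N + 1 + 1))) (g : Fin (N + 1 + 1) → (Fin (N + 1 + 1) → ℝ)), π 0 = e ∧ π 1 = i0 ∧ ONF g ∧ g 0 = Pi.single e 1 ∧
      (∀ j, w j = Real.sqrt (dot w w) * g 1 j) ∧ (∀ k j, g k j ≠ 0 → β j = β (π k)) ∧ ∀ k, k ≠ 0 → g k e = 0 := by
  classical
  have hpos : 0 < dot w w := by
    unfold dot
    exact Finset.sum_pos' (fun i _ => mul_self_nonneg _) ⟨i0, Finset.mem_univ _, mul_self_pos.2 hi0⟩
  obtain ⟨s, hs⟩ : ∃ s, s = Real.sqrt (dot w w) := ⟨_, rfl⟩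
  have hs0 : 0 < s := by rw [hs]; exact Real.sqrt_pos.2 hpos
  have hs2 : s * s = dot w w := by rw [hs]; exact Real.mul_self_sqrt hpos.le
  obtain ⟨u, hu⟩ : ∃ u : Fin (N + 1 + 1) → ℝ, ∀ a, u a = w a / s := ⟨fun a => w a / s, fun a => rfl⟩
  have huu : ∑ a, u a * u a = 1 := by
    have h1 : ∀ a, u a * u a = (w a * w a) / (s * s) := fun a => by rw [hu]; field_simp
    rw [Finset.sum_congr rfl fun a _ => h1 a, ← Finset.sum_div, hs2]
    exact div_self hpos.ne'
  obtain ⟨z, hz⟩ : ∃ z : Fin (N + 1 + 1) → ℝ, ∀ a, z a = (if a = i0 then 1 else 0) - u a := ⟨fun a => (if a = i0 then 1 else 0) - u a, fun a => rfl⟩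
  have hzz : ∑ a, z a * z a = 2 * z i0 := by
    have h1 : ∀ a, z a * z a = (if a = i0 then 1 else 0) - 2 * (if a = i0 then u a else 0) + u a * u a := by
      intro a
      rw [hz]
      split_ifs <;> ring
    rw [Finset.sum_congr rfl fun a _ => h1 a, Finset.sum_add_distrib, Finset.sum_sub_distrib, ← Finset.mul_sum, huu]
    simp only [Finset.sum_ite_eq', Finset.mem_univ, if_true]
    rw [hz i0, if_pos rfl]
    ring
  obtain ⟨c, hc⟩ : ∃ c : ℝ, c = 2 / ∑ a, z a * z a := ⟨_, rfl⟩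
  have hcc : ∑ a, z a * z a ≠ 0 → c * ∑ a, z a * z a = 2 := fun h => by rw [hc]; exact div_mul_cancel₀ _ h
  have hc0 : ∑ a, z a * z a = 0 → c = 0 := fun h => by rw [hc, h, div_zero]
  have hze : z e = 0 := by
    rw [hz, if_neg (Ne.symm hne), hu, hwe, zero_div, sub_zero]
  have hz0 : ∀ a, z a ≠ 0 → β a = β i0 := by
    intro a ha
    by_cases h : a = i0
    · rw [h]
    · apply hw
      intro h1
      apply ha
      rw [hz, if_neg h, hu, h1, zero_div, sub_zero]
  obtain ⟨P, hP⟩ : ∃ P : Fin (N + 1 + 1) → Fin (N + 1 + 1) → ℝ, ∀ a b, P a b = (if a = b then 1 else 0) - c * z a * z b :=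
    ⟨fun a b => (if a = b then 1 else 0) - c * z a * z b, fun a b => rfl⟩
  have hPP : ∀ x y, ∑ a, P a x * P a y = if x = y then 1 else 0 := by
    intro x y
    have h1 : ∀ a, P a x * P a y = (if a = x then (if a = y then 1 else 0) else 0) - (if a = x then c * z a * z y else 0) -
        (if a = y then c * z a * z x else 0) + c * c * z x * z y * (z a * z a) := by
      intro a
      rw [hP, hP]
      split_ifs <;> ring
    rw [Finset.sum_congr rfl fun a _ => h1 a, Finset.sum_add_distrib, Finset.sum_sub_distrib, Finset.sum_sub_distrib, ← Finset.mul_sum]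
    simp only [Finset.sum_ite_eq', Finset.mem_univ, if_true]
    by_cases h : ∑ a, z a * z a = 0
    · rw [hc0 h]
      ring
    · have h2 := hcc h
      linear_combination (c * z x * z y) * h2
  have hPi : ∀ a, P a i0 = u a := by
    intro a
    rw [hP]
    by_cases h : ∑ a, z a * z a = 0
    · have h3 : z a = 0 := by
        have h4 := (Finset.sum_eq_zero_iff_of_nonneg (fun i _ => mul_self_nonneg (z i))).1 h a (Finset.mem_univ _)
        exact mul_self_eq_zero.1 h4
      rw [hc0 h]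
      have h5 := hz a
      rw [h3] at h5
      linarith
    · have h2 := hcc h
      rw [hzz] at h2
      have h3 : c * z i0 = 1 := by linarith
      have h4 := hz a
      linear_combination (-(z a)) * h3 - h4
  have hPe : ∀ b, P e b = if e = b then 1 else 0 := by
    intro b
    rw [hP, hze]
    ring
  have hPe' : ∀ a, P a e = if a = e then 1 else 0 := by
    intro b
    rw [hP, hze]
    ring
  have h01 : (1 : Fin (N + 1 + 1)) ≠ 0 := by
    intro h
    have := congrArg Fin.val h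
    simp at this
  obtain ⟨q, hq⟩ : ∃ q, q = Equiv.swap 0 e (1 : Fin (N + 1 + 1)) := ⟨_, rfl⟩
  have heq : e ≠ q := by
    intro h
    have h1 : Equiv.swap 0 e (0 : Fin (N + 1 + 1)) = e := Equiv.swap_apply_left _ _
    rw [hq, ← h1] at h
    rw [h1] at h
    have h2 : Equiv.swap 0 e (0 : Fin (N + 1 + 1)) = Equiv.swap 0 e 1 := h1.trans h
    exact h01 ((Equiv.swap 0 e).injective h2).symm
  obtain ⟨π, hπ⟩ : ∃ π : Equiv.Perm (Fin (N + 1 + 1)), π = Equiv.swap q i0 * Equiv.swap 0 e := ⟨_, rfl⟩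
  have hπ0 : π 0 = e := by
    rw [hπ, Equiv.Perm.mul_apply, Equiv.swap_apply_left]
    exact Equiv.swap_apply_of_ne_of_ne heq (Ne.symm hne)
  have hπ1 : π 1 = i0 := by
    rw [hπ, Equiv.Perm.mul_apply, ← hq]
    exact Equiv.swap_apply_left _ _
  refine ⟨π, fun k a => P a (π k), hπ0, hπ1, ?_, ?_, ?_, ?_, ?_⟩
  · intro i j
    show ∑ a, P a (π i) * P a (π j) = _
    rw [hPP]
    by_cases h : i = j
    · rw [if_pos h, if_pos (congrArg π h)]
    · rw [if_neg h, if_neg fun h1 => h (π.injective h1)]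
  · funext a
    show P a (π 0) = _
    rw [hπ0, hPe', Pi.single_apply]
  · intro j
    show w j = Real.sqrt (dot w w) * P j (π 1)
    rw [hπ1, hPi, ← hs, hu]
    field_simp
  · intro k j h
    have h1 : P j (π k) ≠ 0 := h
    rw [hP] at h1
    by_cases h2 : j = π k
    · rw [h2]
    · rw [if_neg h2, zero_sub] at h1
      have h3 : z j ≠ 0 := fun h4 => h1 (by rw [h4]; ring)
      have h4 : z (π k) ≠ 0 := fun h4 => h1 (by rw [h4]; ring)
      rw [hz0 _ h3, hz0 _ h4]
  · intro k hk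
    show P e (π k) = 0
    rw [hPe, if_neg]
    intro h
    rw [← hπ0] at h
    exact hk (π.injective h).symm


end H56C
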