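import Pool.Agent.Lib.H56C.Defs

/-!
# L7 (M): the decomposition of `- R e j e l` into rank one forms

Let `H j l = -R e j e l - (if j = l ∧ j ≠ e then h else 0)`.
* symmetric (`hR.pair`), `H e l = H j e = 0` (skewness).
* positive semidefinite: `∑ j l, x j * x l * H j l = -ev R (Pi.single e 1) x (Pi.single e 1) x - h * ∑ j ≠ e, x j ^ 2`, and `area2 (Pi.single e 1) x = ∑ j, x j ^ 2 - x e ^ 2`; `hK`.
* block diagonal: for `j, l ≠ e`, `H j l ≠ 0` implies `β j = β l`: `j = l` or `R e j e l ≠ 0`, `H30K.P1_zero` gives `(β e = β e ∧ β j = β l)` or `(β e = β l ∧ β j = β e)`, the second is impossible by `he`.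
`H = Bᵀ B` (`Matrix.PosSemidef`, see `H30K.p11a_fac`): `H j l = ∑ r, B r j * B r l`. `B r e = 0` (`∑ r, B r e ^ 2 = H e e = 0`).
Index set `I = {b // b ∈ univ.image β} × Fin N`, `w (b, r) j = if β j = b then B r j else 0`. Then `∑ (b, r), w (b, r) j * w (b, r) l` is `∑ r, B r j * B r l = H j l` if `β j = β l`, and `0` otherwise; in the second case
`H j l = 0` (block diagonal, or `j = e` or `l = e`).
-/

set_option autoImplicit false

open Finset

namespace H56C

open Pool.Agent.H69Hopf
open H30K (KB Cyc)

theorem L7 {N : ℕ} {R : Arr N} (hR : IsAlgCurv R) {β : Fin N → ℝ} (hc : Cyc β R) {e : Fin N} (he : ∀ j, j ≠ e → β j ≠ β e) {h : ℝ} (hK : KB h R) :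
    ∃ (I : Type) (_ : Fintype I) (w : I → Fin N → ℝ), (∀ r, w r e = 0) ∧ (∀ r i j, w r i ≠ 0 → w r j ≠ 0 → β i = β j) ∧
      ∀ j l, -R e j e l = (if j = l ∧ j ≠ e then h else 0) + ∑ r, w r j * w r l := by
  classical
  have hsk2 : ∀ i j k l, R i j k l = -R i j l k := H30K.p1_skew2 hR
  obtain ⟨H, hH⟩ : ∃ H : Matrix (Fin N) (Fin N) ℝ, ∀ j l, H j l = -R e j e l - (if j = l ∧ j ≠ e then h else 0) :=
    ⟨fun j l => -R e j e l - (if j = l ∧ j ≠ e then h else 0), fun j l => rfl⟩
  have hee : ∀ l, R e e e l = 0 := by
    intro l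
    have := hR.skew e e e l
    linarith
  have hee' : ∀ j, R e j e e = 0 := by
    intro j
    have := hsk2 e j e e
    linarith
  have hHel : ∀ l, H e l = 0 := by
    intro l
    rw [hH, hee, if_neg fun h => h.2 rfl]
    ring
  have hHje : ∀ j, H j e = 0 := by
    intro j
    rw [hH, hee', if_neg]
    · ring
    · rintro ⟨h1, h2⟩
      exact h2 h1
  have hsym : ∀ j l, H j l = H l j := by
    intro j l
    rw [hH, hH, hR.pair e j e l]
    by_cases h1 : j = l
    · rw [h1]
    · rw [if_neg fun h => h1 h.1, if_neg fun h => h1 h.1.symm]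
  have hblock : ∀ j l, β j ≠ β l → H j l = 0 := by
    intro j l hjl
    have hjl' : j ≠ l := fun h => hjl (by rw [h])
    by_cases hj : j = e
    · rw [hj, hHel]
    by_cases hl : l = e
    · rw [hl, hHje]
    rw [hH, if_neg fun h => hjl' h.1]
    have : R e j e l = 0 := by
      by_contra h0
      rcases H30K.P1_zero hR hc h0 with h1 | h1
      · exact hjl h1.2
      · exact he j hj h1.2
    rw [this]
    ring
  have hquad : ∀ x : Fin N → ℝ, ∑ j, ∑ l, H j l * x j * x l =
      -ev R (Pi.single e 1) x (Pi.single e 1) x - h * ((∑ j, x j ^ 2) - x e ^ 2) := by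
    intro x
    have h1 : ev R (Pi.single e 1) x (Pi.single e 1) x = ∑ j, ∑ l, R e j e l * x j * x l := by
      unfold ev
      rw [Finset.sum_eq_single e]
      · refine Finset.sum_congr rfl fun j _ => ?_
        rw [Finset.sum_eq_single e]
        · refine Finset.sum_congr rfl fun l _ => ?_
          rw [Pi.single_eq_same]
          ring
        · intro k _ hk
          refine Finset.sum_eq_zero fun l _ => ?_
          rw [Pi.single_eq_of_ne hk]
          ring
        · intro h1
          exact absurd (Finset.mem_univ _) h1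
      · intro i _ hi
        refine Finset.sum_eq_zero fun j _ => Finset.sum_eq_zero fun k _ => Finset.sum_eq_zero fun l _ => ?_
        rw [Pi.single_eq_of_ne hi]
        ring
      · intro h1
        exact absurd (Finset.mem_univ _) h1
    have h2 : ∀ j, ∑ l, H j l * x j * x l = -(∑ l, R e j e l * x j * x l) - (h * x j ^ 2 - if j = e then h * x e ^ 2 else 0) := by
      intro j
      have h3 : ∀ l, H j l * x j * x l = -(R e j e l * x j * x l) - (if l = j then (if j = e then 0 else h * x j ^ 2) else 0) := by
        intro l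
        rw [hH]
        by_cases hjl : j = l
        · subst hjl
          by_cases hje : j = e
          · rw [if_neg fun h => h.2 hje, if_pos rfl, if_pos hje]; ring
          · rw [if_pos ⟨rfl, hje⟩, if_pos rfl, if_neg hje]; ring
        · rw [if_neg fun h => hjl h.1, if_neg (Ne.symm hjl)]; ring
      rw [Finset.sum_congr rfl fun l _ => h3 l, Finset.sum_sub_distrib, Finset.sum_neg_distrib]
      simp only [Finset.sum_ite_eq', Finset.mem_univ, if_true]
      by_cases hje : j = e
      · rw [if_pos hje, if_pos hje, hje]; ring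
      · rw [if_neg hje, if_neg hje]; ring
    rw [Finset.sum_congr rfl fun j _ => h2 j, Finset.sum_sub_distrib, Finset.sum_sub_distrib, Finset.sum_neg_distrib, h1,
      ← Finset.mul_sum]
    simp only [Finset.sum_ite_eq', Finset.mem_univ, if_true]
    ring
  have harea : ∀ x : Fin N → ℝ, area2 (Pi.single e 1) x = (∑ j, x j ^ 2) - x e ^ 2 := by
    intro x
    unfold area2
    have h1 : ∑ i, (Pi.single e (1 : ℝ) : Fin N → ℝ) i ^ 2 = 1 := by
      rw [Finset.sum_eq_single e]
      · rw [Pi.single_eq_same]; norm_num
      · intro i _ hi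
        rw [Pi.single_eq_of_ne hi]; norm_num
      · intro h1
        exact absurd (Finset.mem_univ _) h1
    have h2 : ∑ i, (Pi.single e (1 : ℝ) : Fin N → ℝ) i * x i = x e := by
      rw [Finset.sum_eq_single e]
      · rw [Pi.single_eq_same]; ring
      · intro i _ hi
        rw [Pi.single_eq_of_ne hi]; ring
      · intro h1
        exact absurd (Finset.mem_univ _) h1
    rw [h1, h2, one_mul]
  have hpsd : H.PosSemidef := by
    refine Matrix.PosSemidef.of_dotProduct_mulVec_nonneg ?_ ?_
    · ext j l
      rw [Matrix.conjTranspose_apply, star_trivial]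
      exact hsym l j
    · intro x
      have h1 : star x ⬝ᵥ (H.mulVec x) = ∑ j, ∑ l, H j l * x j * x l := by
        unfold dotProduct Matrix.mulVec dotProduct
        refine Finset.sum_congr rfl fun j _ => ?_
        rw [Finset.mul_sum]
        refine Finset.sum_congr rfl fun l _ => ?_
        rw [Pi.star_apply, star_trivial]
        ring
      rw [h1, hquad]
      have h2 := hK (Pi.single e 1) x
      rw [harea] at h2
      linarith
  obtain ⟨B, hB⟩ := H30K.p11a_fac hpsd
  have hBe : ∀ r, B r e = 0 := by
    have h1 := hB e e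
    rw [hHel] at h1
    intro r
    have h2 := (Finset.sum_eq_zero_iff_of_nonneg (fun i _ => mul_self_nonneg (B i e))).1 h1.symm r (Finset.mem_univ _)
    exact mul_self_eq_zero.1 h2
  refine ⟨{b // b ∈ (Finset.univ : Finset (Fin N)).image β} × Fin N, inferInstance, fun p j => if β j = p.1.1 then B p.2 j else 0, ?_, ?_, ?_⟩
  · intro r
    show (if β e = r.1.1 then B r.2 e else 0) = 0
    rw [hBe]
    exact ite_self 0
  · intro r i j hi hj
    have h1 : β i = r.1.1 := by
      by_contra h1
      exact hi (if_neg h1)
    have h2 : β j = r.1.1 := by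
      by_contra h1
      exact hj (if_neg h1)
    rw [h1, h2]
  · intro j l
    have h1 : ∑ r : {b // b ∈ (Finset.univ : Finset (Fin N)).image β} × Fin N, (if β j = r.1.1 then B r.2 j else 0) * (if β l = r.1.1 then B r.2 l else 0) =
        H j l := by
      rw [Fintype.sum_prod_type]
      by_cases hjl : β j = β l
      · rw [Finset.sum_eq_single (⟨β j, Finset.mem_image_of_mem _ (Finset.mem_univ _)⟩ : {b // b ∈ (Finset.univ : Finset (Fin N)).image β})]
        · show ∑ r, (if β j = β j then B r j else 0) * (if β l = β j then B r l else 0) = _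
          rw [hB j l]
          refine Finset.sum_congr rfl fun r _ => ?_
          rw [if_pos rfl, if_pos hjl.symm]
        · intro b _ hb
          refine Finset.sum_eq_zero fun r _ => ?_
          rw [if_neg, zero_mul]
          intro h2
          exact hb (Subtype.ext h2.symm)
        · intro h2
          exact absurd (Finset.mem_univ _) h2
      · rw [hblock j l hjl]
        refine Finset.sum_eq_zero fun b _ => Finset.sum_eq_zero fun r _ => ?_
        by_cases h2 : β j = b.1
        · rw [if_neg (show ¬ β l = b.1 from fun h3 => hjl (h2.trans h3.symm)), mul_zero]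
        · rw [if_neg h2, zero_mul]
    show -R e j e l = (if j = l ∧ j ≠ e then h else 0) + ∑ r : {b // b ∈ (Finset.univ : Finset (Fin N)).image β} × Fin N,
      (if β j = r.1.1 then B r.2 j else 0) * (if β l = r.1.1 then B r.2 l else 0)
    rw [h1, hH]
    ring


end H56C
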