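import Pool.Agent.Lib.H56C.Defs

/-!
# L8 (S): admissible multiplicities are inherited by subsets of the indices

`cl (β ∘ f) i ≤ cl β (f i)`: the image under `f` of the first set is contained in the second (`Finset.card_le_card`, `card_image_of_injective`).
(1): immediate. (2): `cl (β ∘ f) i = 3` implies `3 ≤ cl β (f i) ≤ 3`. `2 ≤ cl (β ∘ f) i` implies `2 ≤ cl β (f i)`; injectivity of `f`.
`L8_pos`: `i` itself. `L8_two`: `cl β e = 1` iff no other index has the value `β e`.
-/

set_option autoImplicit false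

open Finset

namespace H56C

theorem L8_le {M N : ℕ} (β : Fin N → ℝ) {f : Fin M → Fin N} (hf : Function.Injective f) (i : Fin M) : cl (fun k => β (f k)) i ≤ cl β (f i) := by
  classical
  unfold cl
  rw [← Finset.card_image_of_injective _ hf]
  apply Finset.card_le_card
  intro x hx
  obtain ⟨j, hj, rfl⟩ := Finset.mem_image.1 hx
  exact Finset.mem_filter.2 ⟨Finset.mem_univ _, (Finset.mem_filter.1 hj).2⟩

theorem L8 {M N : ℕ} {β : Fin N → ℝ} (hA : Adm β) {f : Fin M → Fin N} (hf : Function.Injective f) : Adm (fun k => β (f k)) := by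
  classical
  rcases hA with ⟨h1, h2⟩ | ⟨h1, h2, h3⟩
  · exact Or.inl ⟨fun i j hi hj => h1 (f i) (f j) (le_trans hi (L8_le β hf i)) (le_trans hj (L8_le β hf j)),
      fun i => le_trans (L8_le β hf i) (h2 _)⟩
  · refine Or.inr ⟨fun i => le_trans (L8_le β hf i) (h1 _), fun i j hi hj => ?_, ?_⟩
    · have hi' := L8_le β hf i
      have hj' := L8_le β hf j
      rw [hi] at hi'
      rw [hj] at hj'
      exact h2 (f i) (f j) (le_antisymm (h1 _) hi') (le_antisymm (h1 _) hj')
    · refine le_trans ?_ h3
      rw [← Finset.card_image_of_injective _ hf]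
      apply Finset.card_le_card
      intro x hx
      obtain ⟨j, hj, rfl⟩ := Finset.mem_image.1 hx
      exact Finset.mem_filter.2 ⟨Finset.mem_univ _, le_trans (Finset.mem_filter.1 hj).2 (L8_le β hf j)⟩

theorem L8_simple {N : ℕ} {β : Fin N → ℝ} {e : Fin N} (h : ¬2 ≤ cl β e) : ∀ j, j ≠ e → β j ≠ β e := by
  classical
  intro j hj hb
  apply h
  unfold cl
  have h1 : ({e, j} : Finset (Fin N)).card = 2 := Finset.card_pair (Ne.symm hj)
  rw [← h1]
  apply Finset.card_le_card
  intro x hx
  rcases Finset.mem_insert.1 hx with rfl | hx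
  · exact Finset.mem_filter.2 ⟨Finset.mem_univ _, rfl⟩
  · rw [Finset.mem_singleton.1 hx]
    exact Finset.mem_filter.2 ⟨Finset.mem_univ _, hb⟩

end H56C
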