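import Pool.Agent.Lib.H56C.L1
import Pool.Agent.Lib.H56C.L2
import Pool.Agent.Lib.H56C.L3
import Pool.Agent.Lib.H56C.L4
import Pool.Agent.Lib.H56C.L5
import Pool.Agent.Lib.H56C.L7
import Pool.Agent.Lib.H56C.L8

/-!
# L9 (M/L): the induction step

`hs`: by `H30K.P1_zero`, `R e i k l ≠ 0` implies `β e = β k` or `β e = β l`, so `k = e` or `l = e` (`he`).

`L9_w`: for a vector `w` with `w e = 0`, supported in one class, `C = cof (fun _ => pR e R)`: `0 ≤ (-1) ^ n * ev C (Pi.single e 1) w (Pi.single e 1) w`, more precisely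
`4 ^ n n! h ^ n * dot w w ≤ (-1) ^ n * ev C (Pi.single e 1) w (Pi.single e 1) w`. If `w = 0`: both sides are `0` (`L3_sum`). Otherwise choose `i0` with `w i0 ≠ 0`, `L5` gives `π`, `g`; `w = s • g 1`, `s ^ 2 = dot w w`, so
`ev C (g 0) w (g 0) w = dot w w * ev C (g 0) (g 1) (g 0) (g 1) = dot w w * mgb (fun _ => pull v (pR e R))` (`L3`), `v k = g k.succ.succ`, `pull v (pR e R) = pull v R` (`L4_pR`, `g k.succ.succ e = 0`), and
`mgb (fun _ => pull v R) = gaussBonnet n (pull v R)` (`rfl`). Induction hypothesis for `pull v R`, `β' k = β (π k.succ.succ)`: `L4_alg`, `L4_cyc` (`f k = π k.succ.succ`), `L8` (`f` injective), `L4_kb` (`ONF v` from `ONF g`).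

`L9`: `gaussBonnet (n + 1) R = (n + 1) * 4 * ∑ j l, R e j e l * C e j e l` (`L1`, `L2`). With `L7`: `-∑ j l, R e j e l * C e j e l = ∑ j ≠ e, h * C e j e j + ∑ r, ∑ j l, w r j * w r l * C e j e l
 = ∑ j ≠ e, h * ev C (single e 1) (single j 1) (..) + ∑ r, ev C (single e 1) (w r) (..)` (`L3_sum`, `ev_single`). Multiply by `(-1) ^ n` and use `L9_w`: the second sum is `≥ 0`, each of the `2 n + 1` terms of the first one is
`≥ h * 4 ^ n n! h ^ n`. So `(-1) ^ (n + 1) gaussBonnet (n + 1) R ≥ 4 (n + 1) (2 n + 1) h 4 ^ n n! h ^ n ≥ 4 ^ (n + 1) (n + 1)! h ^ (n + 1)`.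
-/

set_option autoImplicit false

open Finset

namespace H56C

open Pool.Agent.H69Hopf
open H30K (KB Cyc)

theorem L9_w {n : ℕ} (IH : PTn n) {R : Arr (2 * n + 1 + 1)} (hR : IsAlgCurv R) {β : Fin (2 * n + 1 + 1) → ℝ} (hc : Cyc β R) (hA : Adm β) {h : ℝ} (hh : 0 ≤ h) (hK : KB h R)
    {e : Fin (2 * n + 1 + 1)} {w : Fin (2 * n + 1 + 1) → ℝ} (hwe : w e = 0) (hw : ∀ i j, w i ≠ 0 → w j ≠ 0 → β i = β j) :
    4 ^ n * (n.factorial : ℝ) * h ^ n * dot w w ≤
      (-1) ^ n * ev (cof (fun _ : Fin n => pR e R)) (Pi.single e 1) w (Pi.single e 1) w := by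
  by_cases hw0 : ∀ i, w i = 0
  · have h1 : dot w w = 0 := by
      unfold dot
      exact Finset.sum_eq_zero fun i _ => by rw [hw0 i, mul_zero]
    have h2 : ev (cof (fun _ : Fin n => pR e R)) (Pi.single e 1) w (Pi.single e 1) w = 0 := by
      rw [L3_sum]
      exact Finset.sum_eq_zero fun i _ => Finset.sum_eq_zero fun j _ => by
        rw [hw0 i, zero_mul, mul_zero]
    rw [h1, h2, mul_zero, mul_zero]
  · push Not at hw0
    obtain ⟨i0, hi0⟩ := hw0
    have hne : i0 ≠ e := by
      intro h1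
      rw [h1] at hi0
      exact hi0 hwe
    obtain ⟨π, g, -, -, hg, hg0, hwg, hsup, hge⟩ := L5 hne hwe (fun j hj => hw j i0 hj hi0) hi0
    have hws : w = Real.sqrt (dot w w) • g 1 := funext fun j => hwg j
    have hs2 : Real.sqrt (dot w w) * Real.sqrt (dot w w) = dot w w :=
      Real.mul_self_sqrt (dot_self_nonneg w)
    have h1 : ev (cof (fun _ : Fin n => pR e R)) (Pi.single e 1) w (Pi.single e 1) w =
        dot w w * ev (cof (fun _ : Fin n => pR e R)) (g 0) (g 1) (g 0) (g 1) := by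
      calc ev (cof (fun _ : Fin n => pR e R)) (Pi.single e 1) w (Pi.single e 1) w
          = ev (cof (fun _ : Fin n => pR e R)) (g 0) (Real.sqrt (dot w w) • g 1) (g 0)
            (Real.sqrt (dot w w) • g 1) := by rw [hg0, ← hws]
        _ = dot w w * ev (cof (fun _ : Fin n => pR e R)) (g 0) (g 1) (g 0) (g 1) := by
            rw [ev_smul2, ev_smul4, ← mul_assoc, hs2]
    have h2 := L3 (fun _ : Fin n => pR e R) hg
    have hpull : pull (fun k : Fin (2 * n) => g k.succ.succ) (pR e R) =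
        pull (fun k : Fin (2 * n) => g k.succ.succ) R :=
      L4_pR R fun k => hge _ (ss_ne_zero k)
    have h3 : ev (cof (fun _ : Fin n => pR e R)) (g 0) (g 1) (g 0) (g 1) =
        gaussBonnet n (pull (fun k : Fin (2 * n) => g k.succ.succ) R) := by
      rw [h2]
      simp only [hpull]
      rfl
    have hss : Function.Injective fun k : Fin (2 * n) => (k.succ.succ : Fin (2 * n + 1 + 1)) :=
      fun a b hab => Fin.succ_injective _ (Fin.succ_injective _ hab)
    have hv : ONF fun k : Fin (2 * n) => g k.succ.succ := by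
      intro i j
      rw [hg]
      by_cases hij : i = j
      · rw [if_pos hij, if_pos (by rw [hij])]
      · rw [if_neg hij, if_neg fun h5 => hij (hss h5)]
    have h4 := IH (pull (fun k : Fin (2 * n) => g k.succ.succ) R) (L4_alg hR _)
      (fun k => β (π k.succ.succ)) (L4_cyc hc fun k j hkj => hsup _ j hkj)
      (L8 hA (π.injective.comp hss)) h hh (L4_kb hK hv)
    rw [h1, h3]
    have h5 := mul_le_mul_of_nonneg_right h4 (dot_self_nonneg w)
    linarith

theorem L9 {n : ℕ} (IH : PTn n) {R : Arr (2 * (n + 1))} (hR : IsAlgCurv R) {β : Fin (2 * (n + 1)) → ℝ} (hc : Cyc β R) (hA : Adm β) {h : ℝ} (hh : 0 ≤ h) (hK : KB h R)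
    {e : Fin (2 * (n + 1))} (he : ∀ j, j ≠ e → β j ≠ β e) :
    4 ^ (n + 1) * ((n + 1).factorial : ℝ) * h ^ (n + 1) ≤ (-1) ^ (n + 1) * gaussBonnet (n + 1) R := by
  change Arr (2 * n + 1 + 1) at R
  change Fin (2 * n + 1 + 1) → ℝ at β
  change Fin (2 * n + 1 + 1) at e
  have hs : ∀ i k l, k ≠ e → l ≠ e → R e i k l = 0 := by
    intro i k l hk hl
    by_contra h0
    rcases H30K.P1_zero hR hc h0 with ⟨h1, -⟩ | ⟨h1, -⟩
    · exact he k hk h1.symm
    · exact he l hl h1.symm
  obtain ⟨I, _, w, hwe, hww, hdec⟩ := L7 hR hc he hK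
  obtain ⟨C, hC⟩ : ∃ C : Arr (2 * n + 1 + 1), C = cof (fun _ : Fin n => pR e R) := ⟨_, rfl⟩
  have hgb : gaussBonnet (n + 1) R =
      ((n : ℝ) + 1) * (4 * ∑ j, ∑ l, R e j e l * C e j e l) := by
    rw [hC, ← L2 hR hs]
    exact L1 R e
  have hT : (0 : ℝ) ≤ 4 ^ n * (n.factorial : ℝ) * h ^ n := by positivity
  have hneg : -∑ j, ∑ l, R e j e l * C e j e l =
      (∑ j, if j ≠ e then h * C e j e j else 0) +
        ∑ r, ∑ j, ∑ l, C e j e l * (w r j * w r l) := by
    have h1 : ∀ j l, -(R e j e l * C e j e l) = (if j = l ∧ j ≠ e then h * C e j e l else 0) +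
        ∑ r, C e j e l * (w r j * w r l) := by
      intro j l
      have h2 := hdec j l
      have h3 : -(R e j e l * C e j e l) = (-R e j e l) * C e j e l := by ring
      rw [h3, h2, add_mul, Finset.sum_mul]
      congr 1
      · split_ifs <;> simp
      · exact Finset.sum_congr rfl fun r _ => by ring
    have h2 : -∑ j, ∑ l, R e j e l * C e j e l = ∑ j, ∑ l, -(R e j e l * C e j e l) := by
      rw [← Finset.sum_neg_distrib]
      exact Finset.sum_congr rfl fun j _ => by rw [← Finset.sum_neg_distrib]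
    rw [h2, Finset.sum_congr rfl fun j _ => Finset.sum_congr rfl fun l _ => h1 j l]
    simp only [Finset.sum_add_distrib]
    congr 1
    · refine Finset.sum_congr rfl fun j _ => ?_
      by_cases hj : j ≠ e
      · rw [if_pos hj, Finset.sum_eq_single j]
        · rw [if_pos ⟨rfl, hj⟩]
        · intro l _ hl
          rw [if_neg fun h5 => hl h5.1.symm]
        · intro h5
          exact absurd (Finset.mem_univ j) h5
      · rw [if_neg hj]
        exact Finset.sum_eq_zero fun l _ => by rw [if_neg fun h5 => hj h5.2]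
    · rw [Finset.sum_congr rfl fun j _ => Finset.sum_comm]
      exact Finset.sum_comm
  have hfirst : ∀ j, j ≠ e → 4 ^ n * (n.factorial : ℝ) * h ^ n ≤ (-1) ^ n * C e j e j := by
    intro j hj
    have h1 := L9_w IH hR hc hA hh hK (e := e) (w := Pi.single j 1)
      (by simp [Ne.symm hj])
      (by
        intro a b ha hb
        have ha' : a = j := by
          by_contra h5
          exact ha (by simp [h5])
        have hb' : b = j := by
          by_contra h5
          exact hb (by simp [h5])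
        rw [ha', hb'])
    have h2 : dot (Pi.single j 1 : Fin (2 * n + 1 + 1) → ℝ) (Pi.single j 1) = 1 := by
      unfold dot
      rw [Finset.sum_eq_single j]
      · simp
      · intro b _ hb
        simp [hb]
      · intro h5
        exact absurd (Finset.mem_univ j) h5
    rw [h2, mul_one, ev_single, ← hC] at h1
    exact h1
  have hsec : ∀ r, 0 ≤ (-1) ^ n * ∑ j, ∑ l, C e j e l * (w r j * w r l) := by
    intro r
    have h1 := L9_w IH hR hc hA hh hK (hwe r) (hww r)
    rw [L3_sum, ← hC] at h1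
    exact le_trans (mul_nonneg hT (dot_self_nonneg _)) h1
  have hmain : (2 * (n : ℝ) + 1) * (h * (4 ^ n * (n.factorial : ℝ) * h ^ n)) ≤
      (-1) ^ n * -∑ j, ∑ l, R e j e l * C e j e l := by
    rw [hneg, mul_add, Finset.mul_sum, Finset.mul_sum]
    have h1 : 0 ≤ ∑ r, (-1) ^ n * ∑ j, ∑ l, C e j e l * (w r j * w r l) :=
      Finset.sum_nonneg fun r _ => hsec r
    have h2 : (2 * (n : ℝ) + 1) * (h * (4 ^ n * (n.factorial : ℝ) * h ^ n)) ≤
        ∑ j, (-1) ^ n * (if j ≠ e then h * C e j e j else 0) := by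
      have h3 : (2 * (n : ℝ) + 1) * (h * (4 ^ n * (n.factorial : ℝ) * h ^ n)) =
          ∑ j : Fin (2 * n + 1 + 1), if j ≠ e then h * (4 ^ n * (n.factorial : ℝ) * h ^ n) else 0 := by
        rw [← Finset.sum_filter, Finset.sum_const, Finset.filter_ne', Finset.card_erase_of_mem
          (Finset.mem_univ e), Finset.card_univ, Fintype.card_fin, nsmul_eq_mul]
        push_cast
        ring
      rw [h3]
      refine Finset.sum_le_sum fun j _ => ?_
      by_cases hj : j ≠ e
      · rw [if_pos hj, if_pos hj]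
        have h4 := mul_le_mul_of_nonneg_left (hfirst j hj) hh
        linarith
      · rw [if_neg hj, if_neg hj, mul_zero]
    linarith
  rw [hgb]
  have hn0 : (0 : ℝ) ≤ (n : ℝ) := Nat.cast_nonneg n
  have hX : 0 ≤ h * (4 ^ n * (n.factorial : ℝ) * h ^ n) := mul_nonneg hh hT
  have h1 : (-1 : ℝ) ^ (n + 1) * (((n : ℝ) + 1) * (4 * ∑ j, ∑ l, R e j e l * C e j e l)) =
      4 * ((n : ℝ) + 1) * ((-1) ^ n * -∑ j, ∑ l, R e j e l * C e j e l) := by
    rw [pow_succ]
    ring
  rw [h1, Nat.factorial_succ]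
  push_cast
  have h2 : (4 : ℝ) ^ (n + 1) * (((n : ℝ) + 1) * (n.factorial : ℝ)) * h ^ (n + 1) =
      4 * ((n : ℝ) + 1) * (h * (4 ^ n * (n.factorial : ℝ) * h ^ n)) := by
    rw [pow_succ, pow_succ]
    ring
  rw [h2]
  refine mul_le_mul_of_nonneg_left ?_ (by positivity)
  refine le_trans ?_ hmain
  nlinarith

end H56C
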