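import Pool.Agent.Lib.H56C.KG3
import Pool.Agent.Lib.H30K.Main
import Pool.Agent.Lib.H30K.U13

/-!
# The main theorem (assembly)
-/

set_option autoImplicit false

open scoped ContDiff Topology Manifold
open Set

namespace H56C

open H31R H79G H60E H30K

theorem main_six (M : Closed 6) (g : Ch.Metric 6 M.carrier) (hK : SecNonpos g)
    (h : DenseMult2 g ∨ (∃ lam, IsEinstein g lam) ∨ (ConnectedSpace M.carrier ∧ HarmonicCurvature g) ∨ DenseCodazzi g ∨ (HarmonicWeyl g ∧ NowhereEinstein g)) :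
    ∃ χ : ℤ, IsEulerCharacteristic 6 M.carrier χ ∧ χ ≤ 0 ∧ ((∃ m : M.carrier, NegAt g m) → χ < 0) ∧
      ∀ lam, IsEinstein g lam → χ = 0 → ∀ m : M.carrier, ∃ e : Fin 6 → Fin 6 → ℝ,
        (∀ i j, ∑ k, ∑ l, g.mat m (chartAt (EE 6) m m) k l * e k i * e l j = if i = j then 1 else 0) ∧
        ∀ i j k l, ∑ a, ∑ b, ∑ c, ∑ f, riem (g.mat m) (chartAt (EE 6) m m) a b c f * e a i * e b j * e c k * e f l =
            if (i < 3 ↔ j < 3) then (lam / 2) * ((if i = k then 1 else 0) * (if j = l then 1 else 0) - (if i = l then 1 else 0) * (if j = k then 1 else 0))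
            else 0 := by
  have h1 : ∃ χ : ℤ, IsEulerCharacteristic 6 M.carrier χ ∧ χ ≤ 0 ∧ ((∃ m : M.carrier, NegAt g m) → χ < 0) := by
    rcases h with h | ⟨lam, h⟩ | ⟨hc, hW, s, hs⟩ | h | h
    · obtain ⟨χ, h1, h2, h3⟩ := KG3_main (n := 3) (by norm_num) M g hK h
      refine ⟨χ, h1, ?_, fun hm => ?_⟩
      · have h4 : 0 ≤ (-1) ^ 3 * χ := h2
        linarith
      · have h4 : 0 < (-1) ^ 3 * χ := h3 hm
        linarith
    · exact G14_einstein M g h hK
    · haveI := hc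
      rcases U13_alt g hW hs with hE | hN
      · exact G14_einstein M g hE hK
      · exact G14_codazzi M g hK (G15_schouten g hW hN)
    · exact G14_codazzi M g hK h
    · exact G14_codazzi M g hK (G15_schouten g h.1 h.2)
  obtain ⟨χ, h2, h3, h4⟩ := h1
  refine ⟨χ, h2, h3, h4, fun lam hE h0 => ?_⟩
  obtain ⟨χ', h5, -, h6⟩ := einstein_six M g lam hE hK
  exact h6 (by rw [← G14_unique h2 h5, h0])

theorem main {n : ℕ} (hn : 1 ≤ n) (M : Closed (2 * n)) (g : Ch.Metric (2 * n) M.carrier) (hK : SecNonpos g)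
    (h : DenseMult2 g ∨ (n = 3 ∧ ((∃ lam, IsEinstein g lam) ∨ (ConnectedSpace M.carrier ∧ HarmonicCurvature g) ∨ DenseCodazzi g ∨ (HarmonicWeyl g ∧ NowhereEinstein g)))) :
    ∃ χ : ℤ, IsEulerCharacteristic (2 * n) M.carrier χ ∧ 0 ≤ (-1) ^ n * χ ∧ ((∃ m : M.carrier, NegAt g m) → 0 < (-1) ^ n * χ) ∧
      (n = 3 → ∀ lam, IsEinstein g lam → χ = 0 → ∀ m : M.carrier, ∃ e : Fin (2 * n) → Fin (2 * n) → ℝ,
        (∀ i j, ∑ k, ∑ l, g.mat m (chartAt (EE (2 * n)) m m) k l * e k i * e l j = if i = j then 1 else 0) ∧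
        ∀ i j k l, ∑ a, ∑ b, ∑ c, ∑ f, riem (g.mat m) (chartAt (EE (2 * n)) m m) a b c f * e a i * e b j * e c k * e f l =
            if (i.1 < 3 ↔ j.1 < 3) then (lam / 2) * ((if i = k then 1 else 0) * (if j = l then 1 else 0) - (if i = l then 1 else 0) * (if j = k then 1 else 0))
            else 0) := by
  by_cases hn3 : n = 3
  · subst hn3
    obtain ⟨χ, h1, h2, h3, h4⟩ := main_six M g hK (h.imp_right fun h => h.2)
    refine ⟨χ, h1, ?_, fun hm => ?_, fun _ lam hE h0 m => ?_⟩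
    · linarith
    · have := h3 hm
      linarith
    · exact h4 lam hE h0 m
  · rcases h with h | ⟨h, -⟩
    · obtain ⟨χ, h1, h2, h3⟩ := KG3_main hn M g hK h
      exact ⟨χ, h1, h2, h3, fun h => absurd h hn3⟩
    · exact absurd h hn3

end H56C
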