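import Pool.Agent.Lib.H56C.QD
import Pool.Agent.Lib.H88S.GB
import Pool.Agent.Lib.H88S.Anti

/-!
# Q1 (M/L): the algebra of the partial derivatives on alternating polynomials

`Lib/H88S`: `PP N` = polynomials affine in each row, `dd i j` = partial derivative (commuting, `dd_comm`), `Anti G`: `dd i k (dd j l G) = - dd i l (dd j k G)`; `Anti` is preserved by `dd` (`Anti.apply`, `dd_mem`), by sums and multiples;
`detP = detRow 0` is `Anti` (`anti_detRow`); `ev0_dR_pow`: `ev0 ((dR R) ^ n detP) = gaussBonnet n R`, `dR R = ∑ R i j k l • (dd i k * dd j l)`.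
`AG` = the submodule of the alternating polynomials, `rd i j` = the restriction of `dd i j` to `AG` (`LinearMap.restrict`), `A` = `Algebra.adjoin ℝ (range rd)` ⊆ `Module.End ℝ AG`, commutative (`Algebra.adjoinCommRingOfComm` is deprecated but works;
or `Algebra.isMulCommutative_adjoin`), `y i j` = the generators, `phi a = ev0 (a detP)`.
* `row`: `dd i j (dd i l G) = 0` (after the first step the row `i` is used). `anti`: `G` is alternating.
* the power: `((D ^ n) G : PP N) = (dR R) ^ n G` by induction on `n`.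
* the last claim: apply the eight operators `dd 7 7`, .., `dd 0 0` to `detP`: the value at `none0` is the value of `detP` at `c i = some i`, which is `det 1 = 1`.
WARNING: the type checks with the subalgebra of `Module.End ℝ AG` are slow. Define the type, its instances and the linear maps once, as separate `def`s / `irreducible_def`, and prove the four facts with explicit `LinearMap.ext`, `Subtype.ext`; avoid `simp` on
elements of the subalgebra. Another possibility: the commutative ring `MvPolynomial (Fin N × Fin N) ℝ` modulo the ideal `{p | p (rd) = 0}`; or any other construction of `A`, `w`, `phi`.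
-/

set_option autoImplicit false

open Finset

namespace H56C

open Pool.Agent.H69Hopf

theorem q1_rho {V : Type} [AddCommGroup V] [Module ℝ V] {ι : Type} (D : ι → Module.End ℝ V)
    (hD : ∀ i j, D i * D j = D j * D i) :
    ∃ ρ : MvPolynomial ι ℝ →ₐ[ℝ] Module.End ℝ V, ∀ i, ρ (MvPolynomial.X i) = D i := by
  let _ : CommRing (Algebra.adjoin ℝ (Set.range D)) := Algebra.adjoinCommRingOfComm ℝ (by
    rintro _ ⟨i, rfl⟩ _ ⟨j, rfl⟩
    exact hD i j)
  refine ⟨(Algebra.adjoin ℝ (Set.range D)).val.comp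
    (MvPolynomial.aeval (fun i => (⟨D i, Algebra.subset_adjoin ⟨i, rfl⟩⟩ : Algebra.adjoin ℝ (Set.range D)))), fun i => ?_⟩
  rw [AlgHom.comp_apply, MvPolynomial.aeval_X]
  rfl

/-- The ideal of the polynomials which vanish on `P`. -/
def q1_I {V : Type} [AddCommGroup V] [Module ℝ V] {ι : Type} (ρ : MvPolynomial ι ℝ →ₐ[ℝ] Module.End ℝ V)
    (P : V → Prop) : Ideal (MvPolynomial ι ℝ) where
  carrier := {p | ∀ G, P G → ρ p G = 0}
  zero_mem' := by
    intro G _
    rw [map_zero]
    rfl
  add_mem' := by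
    intro p q hp hq G hG
    rw [map_add, LinearMap.add_apply, hp G hG, hq G hG, add_zero]
  smul_mem' := by
    intro c p hp G hG
    rw [smul_eq_mul, map_mul, Module.End.mul_apply, hp G hG, map_zero]

/-- The general construction. -/
theorem q1_gen {V : Type} [AddCommGroup V] [Module ℝ V] {ι : Type} (D : ι → Module.End ℝ V)
    (hD : ∀ i j, D i * D j = D j * D i) (P : V → Prop) (v : V) (hv : P v) (f : V →ₗ[ℝ] ℝ) :
    ∃ (ρ : MvPolynomial ι ℝ →ₐ[ℝ] Module.End ℝ V) (A : Type) (_ : CommRing A) (_ : Algebra ℝ A)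
      (π : MvPolynomial ι ℝ →ₐ[ℝ] A) (phi : A →ₗ[ℝ] ℝ), (∀ i, ρ (MvPolynomial.X i) = D i) ∧
      (∀ p, (∀ G, P G → ρ p G = 0) → π p = 0) ∧ ∀ p, phi (π p) = f (ρ p v) := by
  obtain ⟨ρ, hρ⟩ := q1_rho D hD
  let I := q1_I ρ P
  let h : MvPolynomial ι ℝ →ₗ[ℝ] ℝ :=
    { toFun := fun p => f (ρ p v)
      map_add' := by
        intro p q
        rw [map_add, LinearMap.add_apply, map_add]
      map_smul' := by
        intro c p
        rw [map_smul, LinearMap.smul_apply, map_smul, RingHom.id_apply] }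
  have hI : I.restrictScalars ℝ ≤ LinearMap.ker h := by
    intro p hp
    have h1 : ρ p v = 0 := hp v hv
    rw [LinearMap.mem_ker]
    show f (ρ p v) = 0
    rw [h1, map_zero]
  refine ⟨ρ, MvPolynomial ι ℝ ⧸ I, inferInstance, inferInstance, Ideal.Quotient.mkₐ ℝ I,
    ((I.restrictScalars ℝ).liftQ h hI) ∘ₗ (Submodule.Quotient.restrictScalarsEquiv ℝ I).symm.toLinearMap, hρ, ?_, ?_⟩
  · intro p hp
    rw [Ideal.Quotient.mkₐ_eq_mk, Ideal.Quotient.eq_zero_iff_mem]
    exact hp
  · intro p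
    rfl


open Pool.Agent.H88S in
theorem q1_row {N : ℕ} (i j l : Fin N) (G : PP N) : dd i j (dd i l G) = 0 := by
  funext c
  rw [dd_apply]
  split_ifs with h
  · rw [dd_apply, if_neg (by rw [Function.update_self]; exact fun h => by cases h)]
    rfl
  · rfl

/-- The last value. -/
theorem q1_last : Pool.Agent.H88S.ev0 (Pool.Agent.H88S.gbApp 8 (fun j : Fin 8 => (Fin.rev j, Fin.rev j)) Pool.Agent.H88S.detP) = 1 := by
  classical
  rw [Pool.Agent.H88S.gb_ev0_app]
  rw [Finset.sum_eq_single (Fin.revPerm : Equiv.Perm (Fin 8)), Finset.sum_eq_single (Fin.revPerm : Equiv.Perm (Fin 8))]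
  · rw [if_pos (show (fun j : Fin 8 => (Fin.rev j, Fin.rev j)) =
      fun j => ((Fin.revPerm : Equiv.Perm (Fin 8)) j, (Fin.revPerm : Equiv.Perm (Fin 8)) j) from rfl)]
    rcases Int.units_eq_one_or (Equiv.Perm.sign (Fin.revPerm : Equiv.Perm (Fin 8))) with h1 | h1 <;> rw [h1] <;> norm_num
  · intro τ _ hne
    rw [if_neg]
    intro hw
    apply hne
    ext1 j
    have h2 := congrArg Prod.snd (congrFun hw j)
    exact h2.symm
  · intro hh
    exact absurd (Finset.mem_univ _) hh
  · intro σ _ hne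
    refine Finset.sum_eq_zero fun τ _ => ?_
    rw [if_neg]
    intro hw
    apply hne
    ext1 j
    have h2 := congrArg Prod.fst (congrFun hw j)
    exact h2.symm
  · intro hh
    exact absurd (Finset.mem_univ _) hh

theorem q1_gb {n N : ℕ} (h : N = 2 * n) (R : Arr N) : Pool.Agent.H88S.ev0 (((Pool.Agent.H88S.dR R) ^ n) Pool.Agent.H88S.detP) =
    gaussBonnet n (fun i j k l => R (Fin.cast h.symm i) (Fin.cast h.symm j) (Fin.cast h.symm k) (Fin.cast h.symm l)) := by
  subst h
  exact Pool.Agent.H88S.ev0_dR_pow n R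

open Pool.Agent.H88S in
theorem q1_app (G : PP 8) : gbApp 8 (fun j : Fin 8 => (Fin.rev j, Fin.rev j)) G =
    dd 0 0 (dd 1 1 (dd 2 2 (dd 3 3 (dd 4 4 (dd 5 5 (dd 6 6 (dd 7 7 G))))))) := rfl

theorem Q1 : ∃ (A : Type) (_ : CommRing A) (_ : Algebra ℝ A) (w : WI 8 A) (phi : A →ₗ[ℝ] ℝ),
    (∀ R : Arr 8, gaussBonnet 4 R = phi ((∑ i, ∑ j, ∑ k, ∑ l, R i j k l • (w.y i k * w.y j l)) ^ 4)) ∧
      phi (w.V 0 * w.V 1 * w.V 2 * w.V 3) = 1 := by
  have hcomm : ∀ p q : Fin 8 × Fin 8, Pool.Agent.H88S.dd p.1 p.2 * Pool.Agent.H88S.dd q.1 q.2 =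
      Pool.Agent.H88S.dd q.1 q.2 * Pool.Agent.H88S.dd p.1 p.2 := fun p q => (Pool.Agent.H88S.dd_comm _ _ _ _).eq
  obtain ⟨ρ, A, hA1, hA2, π, phi, h1, h2, h3⟩ := q1_gen (V := Pool.Agent.H88S.PP 8) (ι := Fin 8 × Fin 8)
    (fun p => Pool.Agent.H88S.dd p.1 p.2) hcomm (fun G => Pool.Agent.H88S.Anti G) (Pool.Agent.H88S.detP)
    (Pool.Agent.H88S.anti_detRow 0)
    { toFun := fun G => Pool.Agent.H88S.ev0 G
      map_add' := fun _ _ => rfl
      map_smul' := fun _ _ => rfl }
  let w : WI 8 A :=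
    { y := fun i j => π (MvPolynomial.X (i, j))
      row := by
        intro i j l
        rw [← map_mul]
        apply h2
        intro G _
        rw [map_mul, h1, h1, Module.End.mul_apply]
        exact q1_row i j l G
      anti := by
        intro i j k l
        have e : π (MvPolynomial.X (i, k) * MvPolynomial.X (j, l) + MvPolynomial.X (i, l) * MvPolynomial.X (j, k)) = 0 := by
          apply h2
          intro G hG
          rw [map_add, map_mul, map_mul, h1, h1, h1, h1, LinearMap.add_apply, Module.End.mul_apply, Module.End.mul_apply]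
          have h4 : Pool.Agent.H88S.dd i k (Pool.Agent.H88S.dd j l G) = - Pool.Agent.H88S.dd i l (Pool.Agent.H88S.dd j k G) :=
            hG i j k l
          show Pool.Agent.H88S.dd i k (Pool.Agent.H88S.dd j l G) + Pool.Agent.H88S.dd i l (Pool.Agent.H88S.dd j k G) = 0
          rw [h4, neg_add_cancel]
        rw [map_add, map_mul, map_mul] at e
        exact eq_neg_of_add_eq_zero_left e }
  have hw : ∀ i j, w.y i j = π (MvPolynomial.X (i, j)) := fun i j => rfl
  refine ⟨A, hA1, hA2, w, phi, ?_, ?_⟩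
  · intro R
    have e1 : (∑ i, ∑ j, ∑ k, ∑ l, R i j k l • (w.y i k * w.y j l)) ^ 4 =
        π ((∑ i : Fin 8, ∑ j : Fin 8, ∑ k : Fin 8, ∑ l : Fin 8,
          R i j k l • (MvPolynomial.X (i, k) * MvPolynomial.X (j, l))) ^ 4) := by
      simp only [map_pow, map_sum, map_smul, map_mul, hw]
    have e2 : ρ ((∑ i : Fin 8, ∑ j : Fin 8, ∑ k : Fin 8, ∑ l : Fin 8,
          R i j k l • (MvPolynomial.X (i, k) * MvPolynomial.X (j, l))) ^ 4) = (Pool.Agent.H88S.dR R) ^ 4 := by
      rw [map_pow]
      congr 1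
      unfold Pool.Agent.H88S.dR
      simp only [map_sum, map_smul, map_mul, h1]
    rw [e1, h3, e2]
    exact (q1_gb (n := 4) (N := 8) rfl R).symm
  · have e1 : w.V 0 * w.V 1 * w.V 2 * w.V 3 = π (
        (MvPolynomial.X (0, 0) * MvPolynomial.X (1, 1)) * (MvPolynomial.X (2, 2) * MvPolynomial.X (3, 3)) *
        (MvPolynomial.X (4, 4) * MvPolynomial.X (5, 5)) * (MvPolynomial.X (6, 6) * MvPolynomial.X (7, 7))) := by
      simp only [map_mul]
      rfl
    rw [e1, h3]
    have e2 : ρ ((MvPolynomial.X (0, 0) * MvPolynomial.X (1, 1)) * (MvPolynomial.X (2, 2) * MvPolynomial.X (3, 3)) *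
        (MvPolynomial.X (4, 4) * MvPolynomial.X (5, 5)) * (MvPolynomial.X (6, 6) * MvPolynomial.X (7, 7))) Pool.Agent.H88S.detP =
        Pool.Agent.H88S.gbApp 8 (fun j : Fin 8 => (Fin.rev j, Fin.rev j)) Pool.Agent.H88S.detP := by
      rw [q1_app]
      simp only [map_mul, h1, Module.End.mul_apply]
    rw [e2]
    exact q1_last

end H56C
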