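import Pool.Agent.Lib.H56C.QD

/-!
# Q2 (S): the relations in a block

`z a s t = y (jx a s) (jx a t)`, `V a = z a 0 0 * z a 1 1`. `col`: `anti` with `k = l` gives `x = -x`, so `2 x = 0`, `x = 0` (multiply by `(1/2 : ℝ)`). `z_mul`: 16 cases: `s' = s`: `row`; `t' = t`: `col`; otherwise `s' = 1 - s`, `t' = 1 - t`:
`z 0 0 * z 1 1 = V`, `z 1 1 * z 0 0 = V`, `z 0 1 * z 1 0 = -z 0 0 * z 1 1` (`anti`), `z 1 0 * z 0 1` the same. `V_z`: `z a s t` with `s = 0` or `s = 1` and `row`. `V_sq`: `V_z`.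
-/

set_option autoImplicit false

open Finset

namespace H56C

variable {A : Type} [CommRing A] [Algebra ℝ A]

theorem WI.col {N : ℕ} (w : WI N A) (i j k : Fin N) : w.y i k * w.y j k = 0 := by
  have h1 : w.y i k * w.y j k = -(w.y i k * w.y j k) := w.anti i j k k
  have h2 : (2 : ℝ) • (w.y i k * w.y j k) = 0 := by
    rw [two_smul]
    nth_rewrite 1 [h1]
    exact neg_add_cancel _
  exact (smul_eq_zero_iff_right (two_ne_zero)).1 h2

theorem WI.z_mul (w : WI 8 A) (a : Fin 4) (s t s' t' : Fin 2) : w.z a s t * w.z a s' t' = et s t s' t' • w.V a := by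
  by_cases hs : s' = s
  · subst hs
    have h1 : et s' t s' t' = 0 := by
      unfold et
      rw [if_neg]
      rintro ⟨h, -⟩
      revert s'
      decide
    rw [h1, zero_smul]
    exact w.row _ _ _
  by_cases ht : t' = t
  · subst ht
    have h1 : et s t' s' t' = 0 := by
      unfold et
      rw [if_neg]
      rintro ⟨-, h⟩
      revert t'
      decide
    rw [h1, zero_smul]
    exact w.col _ _ _
  have hs' : s' = 1 - s := by
    revert s s'
    decide
  have ht' : t' = 1 - t := by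
    revert t t'
    decide
  have h1 : et s t s' t' = (-1) ^ (s.1 + t.1) := by
    unfold et
    rw [if_pos ⟨hs', ht'⟩]
  rw [h1, hs', ht']
  have h01 : w.z a 0 1 * w.z a 1 0 = -(w.V a) := w.anti (jx a 0) (jx a 1) (jx a 1) (jx a 0)
  fin_cases s <;> fin_cases t
  · show w.z a 0 0 * w.z a 1 1 = ((-1 : ℝ) ^ (0 + 0)) • w.V a
    rw [add_zero, pow_zero, one_smul]
    rfl
  · show w.z a 0 1 * w.z a 1 0 = ((-1 : ℝ) ^ (0 + 1)) • w.V a
    rw [h01, zero_add, pow_one, neg_one_smul]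
  · show w.z a 1 0 * w.z a 0 1 = ((-1 : ℝ) ^ (1 + 0)) • w.V a
    rw [mul_comm, h01, add_zero, pow_one, neg_one_smul]
  · show w.z a 1 1 * w.z a 0 0 = ((-1 : ℝ) ^ (1 + 1)) • w.V a
    rw [mul_comm, one_add_one_eq_two, neg_one_sq, one_smul]
    rfl

theorem WI.V_z (w : WI 8 A) (a : Fin 4) (s t : Fin 2) : w.V a * w.z a s t = 0 := by
  have h0 : ∀ t, w.z a 0 0 * w.z a 0 t = 0 := fun t => w.row _ _ _
  have h1 : ∀ t, w.z a 1 1 * w.z a 1 t = 0 := fun t => w.row _ _ _
  unfold WI.V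
  fin_cases s
  · show w.z a 0 0 * w.z a 1 1 * w.z a 0 t = 0
    rw [mul_right_comm, h0, zero_mul]
  · show w.z a 0 0 * w.z a 1 1 * w.z a 1 t = 0
    rw [mul_assoc, h1, mul_zero]

theorem WI.V_sq (w : WI 8 A) (a : Fin 4) : w.V a * w.V a = 0 := by
  have h1 : w.V a * w.V a = w.V a * w.z a 0 0 * w.z a 1 1 := by
    rw [mul_assoc]
    rfl
  rw [h1, w.V_z, zero_mul]

end H56C
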