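import Pool.Agent.Lib.H56C.Q2

/-!
# Q3A (M): products of the mixed elements

`mm B a b = ∑ s u t v, B s u t v • (z a s t * z b u v)`.
* `V_mm`, `V_mm'`: `V_z`.
* `mm_symm`: exchange the sums.
* `mm_sq`: `mm B a b * mm B a b = ∑ ∑ B s u t v B s' u' t' v' • (z a s t * z a s' t') * (z b u v * z b u' v')`, `z_mul`: the coefficient of `V a * V b` is
  `∑ s u t v, (-1)^(s+t+u+v) B s u t v B (1-s) (1-u) (1-t) (1-v)`, 16 terms; with `S4 B` (`pair`, `bi`) this is `2 DD B`
  (`DD B = B0000 B1111 + B0011² + B0101 B1010 + B0110² - 2 B0001 B1110 - 2 B0010 B0111`; normalise the entries by `pair` and `bi`, `ring`).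
* `mm_star`: three elements of the block `a`: `z a * z a * z a = et • V a * z a = 0`.
All sums are finite; it may be convenient to use `Fin.sum_univ_two` only at the end.
-/

set_option autoImplicit false

open Finset

namespace H56C

variable {A : Type} [CommRing A] [Algebra ℝ A]

theorem q3a_mul (w : WI 8 A) (B : H30K.B4) (a b : Fin 4) (X : A) (hX : ∀ s t, w.z a s t * X = 0) :
    w.mm B a b * X = 0 := by
  unfold WI.mm
  rw [Finset.sum_mul]
  refine Finset.sum_eq_zero fun s _ => ?_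
  rw [Finset.sum_mul]
  refine Finset.sum_eq_zero fun u _ => ?_
  rw [Finset.sum_mul]
  refine Finset.sum_eq_zero fun t _ => ?_
  rw [Finset.sum_mul]
  refine Finset.sum_eq_zero fun v _ => ?_
  have e : B s u t v • (w.z a s t * w.z b u v) * X = B s u t v • (w.z b u v * (w.z a s t * X)) := by
    rw [smul_mul_assoc]
    congr 1
    ring
  rw [e, hX, mul_zero, smul_zero]

theorem WI.V_mm (w : WI 8 A) (B : H30K.B4) (a b : Fin 4) : w.V a * w.mm B a b = 0 := by
  rw [mul_comm]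
  refine q3a_mul w B a b _ fun s t => ?_
  rw [mul_comm]
  exact w.V_z a s t

theorem WI.mm_symm (w : WI 8 A) (B : H30K.B4) (a b : Fin 4) : w.mm B a b = w.mm (fun s t s' t' => B t s t' s') b a := by
  unfold WI.mm
  rw [Finset.sum_comm]
  refine Finset.sum_congr rfl fun s _ => Finset.sum_congr rfl fun u _ => ?_
  rw [Finset.sum_comm]
  refine Finset.sum_congr rfl fun t _ => Finset.sum_congr rfl fun v _ => ?_
  rw [mul_comm]

theorem WI.V_mm' (w : WI 8 A) (B : H30K.B4) (a b : Fin 4) : w.V b * w.mm B a b = 0 := by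
  rw [w.mm_symm]
  exact w.V_mm _ b a

theorem q3a_in (B : H30K.B4) (s t u v : Fin 2) :
    (∑ s', ∑ u', ∑ t', ∑ v', B s' u' t' v' * (et s t s' t' * et u v u' v')) =
      (-1) ^ (s.1 + t.1 + u.1 + v.1) * B (1 - s) (1 - u) (1 - t) (1 - v) := by
  rw [Finset.sum_eq_single (1 - s), Finset.sum_eq_single (1 - u), Finset.sum_eq_single (1 - t),
    Finset.sum_eq_single (1 - v)]
  · have e1 : et s t (1 - s) (1 - t) = (-1) ^ (s.1 + t.1) := if_pos ⟨rfl, rfl⟩
    have e2 : et u v (1 - u) (1 - v) = (-1) ^ (u.1 + v.1) := if_pos ⟨rfl, rfl⟩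
    rw [e1, e2, ← pow_add, mul_comm]
    congr 2
    ring
  · intro v' _ hv
    have e2 : et u v (1 - u) v' = 0 := if_neg fun h => hv h.2
    rw [e2, mul_zero, mul_zero]
  · intro h
    exact absurd (Finset.mem_univ _) h
  · intro t' _ ht
    have e1 : et s t (1 - s) t' = 0 := if_neg fun h => ht h.2
    refine Finset.sum_eq_zero fun v' _ => ?_
    rw [e1, zero_mul, mul_zero]
  · intro h
    exact absurd (Finset.mem_univ _) h
  · intro u' _ hu
    refine Finset.sum_eq_zero fun t' _ => Finset.sum_eq_zero fun v' _ => ?_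
    have e2 : et u v u' v' = 0 := if_neg fun h => hu h.1
    rw [e2, mul_zero, mul_zero]
  · intro h
    exact absurd (Finset.mem_univ _) h
  · intro s' _ hs
    refine Finset.sum_eq_zero fun u' _ => Finset.sum_eq_zero fun t' _ => Finset.sum_eq_zero fun v' _ => ?_
    have e1 : et s t s' t' = 0 := if_neg fun h => hs h.1
    rw [e1, zero_mul, mul_zero]
  · intro h
    exact absurd (Finset.mem_univ _) h

theorem q3a_DD {B : H30K.B4} (hB : H30K.S4 B) :
    (∑ s, ∑ u, ∑ t, ∑ v, B s u t v * ((-1) ^ (s.1 + t.1 + u.1 + v.1) * B (1 - s) (1 - u) (1 - t) (1 - v))) =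
      2 * H30K.DD B := by
  have f0 : (1 : Fin 2) - 0 = 1 := rfl
  have f1 : (1 : Fin 2) - 1 = 0 := rfl
  simp only [Fin.sum_univ_two, f0, f1]
  have v0 : ((0 : Fin 2) : ℕ) = 0 := rfl
  have v1 : ((1 : Fin 2) : ℕ) = 1 := rfl
  simp only [v0, v1]
  unfold H30K.DD
  have h1 : B 1 1 0 0 = B 0 0 1 1 := hB.pair 1 1 0 0
  have h2 : B 1 0 0 1 = B 0 1 1 0 := hB.pair 1 0 0 1
  have h3 : B 0 1 0 0 = B 0 0 0 1 := hB.pair 0 1 0 0
  have h4 : B 1 0 1 1 = B 1 1 1 0 := hB.pair 1 0 1 1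
  have h5 : B 1 0 0 0 = B 0 0 1 0 := hB.pair 1 0 0 0
  have h6 : B 1 1 0 1 = B 0 1 1 1 := hB.pair 1 1 0 1
  rw [h1, h2, h3, h4, h5, h6]
  ring

theorem q3a_term (w : WI 8 A) (B : H30K.B4) (a b : Fin 4) (s u t v : Fin 2) :
    (B s u t v • (w.z a s t * w.z b u v)) * w.mm B a b =
      (B s u t v * ((-1) ^ (s.1 + t.1 + u.1 + v.1) * B (1 - s) (1 - u) (1 - t) (1 - v))) • (w.V a * w.V b) := by
  rw [← q3a_in B s t u v]
  unfold WI.mm
  simp only [Finset.mul_sum, Finset.sum_smul]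
  refine Finset.sum_congr rfl fun s' _ => Finset.sum_congr rfl fun u' _ => Finset.sum_congr rfl fun t' _ =>
    Finset.sum_congr rfl fun v' _ => ?_
  rw [smul_mul_smul_comm, mul_mul_mul_comm, w.z_mul, w.z_mul, smul_mul_smul_comm, smul_smul, mul_assoc]

theorem WI.mm_sq (w : WI 8 A) {B : H30K.B4} (hB : H30K.S4 B) (a b : Fin 4) : w.mm B a b * w.mm B a b = (2 * H30K.DD B) • (w.V a * w.V b) := by
  rw [← q3a_DD hB]
  have h : w.mm B a b * w.mm B a b =
      ∑ s, ∑ u, ∑ t, ∑ v, (B s u t v • (w.z a s t * w.z b u v)) * w.mm B a b := by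
    nth_rewrite 1 [WI.mm]
    simp only [Finset.sum_mul]
  rw [h]
  simp only [Finset.sum_smul]
  refine Finset.sum_congr rfl fun s _ => Finset.sum_congr rfl fun u _ => Finset.sum_congr rfl fun t _ =>
    Finset.sum_congr rfl fun v _ => ?_
  exact q3a_term w B a b s u t v

theorem WI.mm_star (w : WI 8 A) (P Q S : H30K.B4) (a b c d : Fin 4) : w.mm P a b * w.mm Q a c * w.mm S a d = 0 := by
  rw [mul_assoc]
  refine q3a_mul w P a b _ fun s t => ?_
  have e : w.z a s t * (w.mm Q a c * w.mm S a d) = w.mm Q a c * (w.z a s t * w.mm S a d) := by ring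
  rw [e]
  refine q3a_mul w Q a c _ fun s' t' => ?_
  rw [← mul_assoc, w.z_mul, smul_mul_assoc, w.V_mm, smul_zero]

end H56C
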