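import Pool.Agent.Lib.H56C.Q2

/-!
# Q3B (M): cycles of mixed elements

Expand the product as one finite sum; in each of the blocks the two factors are multiplied with `z_mul`; `et s t s' t' ≠ 0` only for `s' = 1 - s`, `t' = 1 - t`.
`mm_tri`: `mm P a b = ∑ P a₁ b₁ a₂ b₂ • (z a a₁ a₂ * z b b₁ b₂)`, `mm Q b c = ∑ Q b₃ c₁ b₄ c₂ • (z b b₃ b₄ * z c c₁ c₂)`, `mm S c a = ∑ S c₃ a₃ c₄ a₄ • (z c c₃ c₄ * z a a₃ a₄)`: `b₃ = 1 - b₁`, `b₄ = 1 - b₂`, `c₃ = 1 - c₁`, ..,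
`a₃ = 1 - a₁`, `a₄ = 1 - a₂` with the sign `(-1)^(a₁+a₂+b₁+b₂+c₁+c₂)`: this is `TT P Q S`. `mm_quad`: the same with four factors, `TT4`.
Suggestion: a general lemma `∑ s', ∑ t', f s' t' • (z a s t * z a s' t') = ((-1)^(s+t) * f (1-s) (1-t)) • V a`, used block by block.
-/

set_option autoImplicit false

open Finset

namespace H56C

variable {A : Type} [CommRing A] [Algebra ℝ A]

/-- the composition of two blocks -/
def q3b_cmp (P Q : H30K.B4) : H30K.B4 := fun s c t c' =>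
  ∑ u : Fin 2, ∑ v : Fin 2, (-1 : ℝ) ^ (u.1 + v.1) * (P s u t v * Q (1 - u) c (1 - v) c')

/-- the pairing of two blocks -/
def q3b_pr (P Q : H30K.B4) : ℝ := ∑ s : Fin 2, ∑ u : Fin 2, ∑ t : Fin 2, ∑ v : Fin 2,
  (-1 : ℝ) ^ (s.1 + u.1 + t.1 + v.1) * (P s u t v * Q (1 - u) (1 - s) (1 - v) (1 - t))

theorem q3b_1 (w : WI 8 A) (b : Fin 4) (u v : Fin 2) (f : Fin 2 → Fin 2 → A) :
    w.z b u v * ∑ u' : Fin 2, ∑ v' : Fin 2, w.z b u' v' * f u' v' = (-1 : ℝ) ^ (u.1 + v.1) • (w.V b * f (1 - u) (1 - v)) := by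
  have h : ∀ u' v' : Fin 2, w.z b u v * (w.z b u' v' * f u' v') = et u v u' v' • (w.V b * f u' v') := by
    intro u' v'
    rw [← mul_assoc, w.z_mul, smul_mul_assoc]
  simp only [mul_sum, h]
  rw [sum_eq_single (1 - u), sum_eq_single (1 - v)]
  · rw [et, if_pos ⟨rfl, rfl⟩]
  · intro v' _ hv
    rw [et, if_neg fun h1 => hv h1.2, zero_smul]
  · intro h1
    exact absurd (mem_univ _) h1
  · intro u' _ hu
    exact sum_eq_zero fun v' _ => by rw [et, if_neg fun h1 => hu h1.1, zero_smul]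
  · intro h1
    exact absurd (mem_univ _) h1

theorem q3b_mm (w : WI 8 A) (Q : H30K.B4) (b c : Fin 4) :
    w.mm Q b c = ∑ u : Fin 2, ∑ v : Fin 2, w.z b u v * ∑ s : Fin 2, ∑ t : Fin 2, Q u s v t • w.z c s t := by
  unfold WI.mm
  refine sum_congr rfl fun u _ => ?_
  rw [sum_comm]
  refine sum_congr rfl fun v _ => ?_
  rw [mul_sum]
  refine sum_congr rfl fun s _ => ?_
  rw [mul_sum]
  refine sum_congr rfl fun t _ => ?_
  rw [mul_smul_comm]

theorem q3b_2 (w : WI 8 A) (Q : H30K.B4) (b c : Fin 4) (u v : Fin 2) :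
    w.z b u v * w.mm Q b c = (-1 : ℝ) ^ (u.1 + v.1) • (w.V b * ∑ s : Fin 2, ∑ t : Fin 2, Q (1 - u) s (1 - v) t • w.z c s t) := by
  rw [q3b_mm w Q b c, q3b_1 w b u v (fun u v => ∑ s : Fin 2, ∑ t : Fin 2, Q u s v t • w.z c s t)]

theorem q3b_3 (w : WI 8 A) (P Q : H30K.B4) (a b c : Fin 4) :
    w.mm P a b * w.mm Q b c = w.V b * w.mm (q3b_cmp P Q) a c := by
  have h1 : w.mm P a b * w.mm Q b c = ∑ s : Fin 2, ∑ u : Fin 2, ∑ t : Fin 2, ∑ v : Fin 2,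
      P s u t v • (w.z a s t * (w.z b u v * w.mm Q b c)) := by
    obtain ⟨X, hX⟩ : ∃ X, X = w.mm Q b c := ⟨_, rfl⟩
    rw [← hX]
    unfold WI.mm
    simp only [sum_mul, smul_mul_assoc, mul_assoc]
  rw [h1]
  simp only [q3b_2]
  unfold WI.mm q3b_cmp
  simp only [Fin.sum_univ_two, Algebra.smul_def, map_add, map_mul]
  ring

theorem q3b_4 (w : WI 8 A) (P Q : H30K.B4) (a b : Fin 4) :
    w.mm P a b * w.mm Q b a = q3b_pr P Q • (w.V a * w.V b) := by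
  have h1 : w.mm P a b * w.mm Q b a = ∑ s : Fin 2, ∑ u : Fin 2, ∑ t : Fin 2, ∑ v : Fin 2,
      P s u t v • (w.z a s t * (w.z b u v * w.mm Q b a)) := by
    obtain ⟨X, hX⟩ : ∃ X, X = w.mm Q b a := ⟨_, rfl⟩
    rw [← hX]
    unfold WI.mm
    simp only [sum_mul, smul_mul_assoc, mul_assoc]
  have h2 : ∀ s t u v : Fin 2, w.z a s t * (w.z b u v * w.mm Q b a) =
      ((-1 : ℝ) ^ (s.1 + u.1 + t.1 + v.1) * Q (1 - u) (1 - s) (1 - v) (1 - t)) • (w.V a * w.V b) := by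
    intro s t u v
    rw [q3b_2, mul_smul_comm]
    have h3 : w.z a s t * (w.V b * ∑ s' : Fin 2, ∑ t' : Fin 2, Q (1 - u) s' (1 - v) t' • w.z a s' t') =
        w.V b * (w.z a s t * ∑ s' : Fin 2, ∑ t' : Fin 2, w.z a s' t' * algebraMap ℝ A (Q (1 - u) s' (1 - v) t')) := by
      simp only [Algebra.smul_def, mul_comm (algebraMap ℝ A _) (w.z a _ _)]
      ring
    rw [h3, q3b_1 w a s t (fun s' t' => algebraMap ℝ A (Q (1 - u) s' (1 - v) t'))]
    simp only [Algebra.smul_def, map_mul]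
    have h4 : (-1 : ℝ) ^ (s.1 + u.1 + t.1 + v.1) = (-1 : ℝ) ^ (u.1 + v.1) * (-1 : ℝ) ^ (s.1 + t.1) := by
      rw [← pow_add]
      congr 1
      omega
    rw [h4, map_mul]
    ring
  rw [h1]
  simp only [h2]
  unfold q3b_pr
  simp only [smul_smul, ← sum_smul]
  congr 1
  refine sum_congr rfl fun s _ => sum_congr rfl fun u _ => sum_congr rfl fun t _ => sum_congr rfl fun v _ => ?_
  ring

theorem q3b_tt (P Q S : H30K.B4) : q3b_pr (q3b_cmp P Q) S = H30K.TT P Q S := by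
  unfold q3b_pr q3b_cmp H30K.TT
  simp only [Fin.sum_univ_two]
  ring

theorem q3b_tt4 (P Q S U : H30K.B4) : q3b_pr (q3b_cmp P Q) (q3b_cmp S U) = TT4 P Q S U := by
  unfold q3b_pr q3b_cmp TT4
  simp only [Fin.sum_univ_two]
  ring

theorem WI.mm_tri (w : WI 8 A) (P Q S : H30K.B4) (a b c : Fin 4) :
    w.mm P a b * w.mm Q b c * w.mm S c a = H30K.TT P Q S • (w.V a * w.V b * w.V c) := by
  rw [q3b_3, mul_assoc, q3b_4, q3b_tt, mul_smul_comm]
  congr 1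
  ring

theorem WI.mm_quad (w : WI 8 A) (P Q S U : H30K.B4) (a b c d : Fin 4) :
    w.mm P a b * w.mm Q b c * w.mm S c d * w.mm U d a = TT4 P Q S U • (w.V a * w.V b * w.V c * w.V d) := by
  rw [mul_assoc (w.mm P a b * w.mm Q b c), q3b_3, q3b_3, ← q3b_tt4]
  have h : w.V b * w.mm (q3b_cmp P Q) a c * (w.V d * w.mm (q3b_cmp S U) c a) =
      w.V b * w.V d * (w.mm (q3b_cmp P Q) a c * w.mm (q3b_cmp S U) c a) := by ring
  rw [h, q3b_4, mul_smul_comm]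
  congr 1
  ring

end H56C
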