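import Pool.Agent.Lib.H56C.Defs

/-!
# Q4 (M/L): the fourth power (abstract commutative algebra)

`A` a commutative `ℝ`-algebra, `X = ∑ k a • v a + ∑_{a < b} m a b`. Write `κ v = k 3 • v 3`, `n = m 0 3 + m 1 3 + m 2 3`, `Y = X - κ v - n`. `v 3 * v 3 = 0`, `v 3 * n = 0`, `n ^ 3 = 0` (`star` and `n = ∑ m 3 a`), so
`X ^ 4 = Y ^ 4 + 4 Y ^ 3 (κ v + n) + 6 Y ^ 2 n ^ 2` (the other terms are `0`).
1. `Y ^ 3 = (6 E₃) • (v 0 * v 1 * v 2)`, `E₃ = k 0 k 1 k 2 + k 0 D 1 2 + k 1 D 0 2 + k 2 D 0 1 + T 0 1 2`: `Y = Z + k 2 • v 2 + l`, `l = m 0 2 + m 1 2`, `Z = k 0 • v 0 + k 1 • v 1 + m 0 1`: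
 `Y ^ 3 = Z ^ 3 + 3 Z ^ 2 (k 2 v 2 + l) + 3 Z l ^ 2`, `Z ^ 2 = 2 (k 0 k 1 + D 0 1) v 0 v 1`, `Z ^ 3 = 0`, `v 0 v 1 l = 0`, `l ^ 2 = 2 D 0 2 v 0 v 2 + 2 D 1 2 v 1 v 2 + 2 m 0 2 m 1 2`,
 `Z l ^ 2 = 2 (k 1 D 0 2 + k 0 D 1 2 + T 0 1 2) v 0 v 1 v 2` (`v 0 m 0 2 = 0`, `m 0 1 v 0 = 0`, ..).
2. `Y ^ 4 = Y ^ 3 Y = 0`, `Y ^ 3 n = 0` (`v a * m a b = 0`, `v a * v a = 0`).
3. `n ^ 2 = 2 ∑_{a<3} D a 3 v a v 3 + 2 (m 0 3 m 1 3 + m 0 3 m 2 3 + m 1 3 m 2 3)`. `Y ^ 2 v 0 v 3 = 2 (k 1 k 2 + D 1 2) v 0 v 1 v 2 v 3`, etc.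
 `Y ^ 2 m 0 3 m 1 3 = 2 (k 2 T 0 1 3 + Q) v 0 v 1 v 2 v 3`, `Q` the four-cycle `m 0 2 m 2 1 m 1 3 m 3 0`: only `2 k 2 v 2 m 0 1` and `2 m 0 2 m 1 2` of `Y ^ 2` contribute (`v 0 m 0 3 = 0`; `m 0 1 ^ 2 = 2 D v v`; `m 0 1 m 0 2 m 0 3 = 0` by `star`;
 `m 0 2 ^ 2 = 2 D v 0 v 2`, `v 0 m 0 3 = 0`). In the same way the two other pairs.
The three four-cycles: `q1 = (0 1 2 3)`, `q2 = (0 1 3 2)`, `q3 = (0 2 1 3)`. Each step with `linear_combination` over the relations; scalars: `Algebra.smul_def` and `map_mul` may be convenient (or multiply by elements of `A`).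
-/

set_option autoImplicit false

open Finset

namespace H56C

theorem q4_ring {A : Type} [CommRing A] (a b c d p q x r y z K0 K1 K2 K3 D01 D02 D03 D12 D13 D23 T012 T013 T023 T123 q1 q2 q3 : A)
    (hvva : a ^ 2 = 0)
    (hvvb : b ^ 2 = 0)
    (hvvc : c ^ 2 = 0)
    (hvvd : d ^ 2 = 0)
    (hvmap : a * p = 0)
    (hvmaq : a * q = 0)
    (hvmax : a * x = 0)
    (hvmbp : b * p = 0)
    (hvmbr : b * r = 0)
    (hvmby : b * y = 0)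
    (hvmcq : c * q = 0)
    (hvmcr : c * r = 0)
    (hvmcz : c * z = 0)
    (hvmdx : d * x = 0)
    (hvmdy : d * y = 0)
    (hvmdz : d * z = 0)
    (hsqp : p ^ 2 = 2 * a * b * D01)
    (hsqq : q ^ 2 = 2 * a * c * D02)
    (hsqx : x ^ 2 = 2 * a * d * D03)
    (hsqr : r ^ 2 = 2 * b * c * D12)
    (hsqy : y ^ 2 = 2 * b * d * D13)
    (hsqz : z ^ 2 = 2 * c * d * D23)
    (htrT012 : p * q * r = a * b * c * T012)
    (htrT013 : p * x * y = a * b * d * T013)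
    (htrT023 : q * x * z = a * c * d * T023)
    (htrT123 : r * y * z = b * c * d * T123)
    (hcyq1 : p * x * r * z = a * b * c * d * q1)
    (hcyq2 : p * q * y * z = a * b * c * d * q2)
    (hcyq3 : q * x * r * y = a * b * c * d * q3) :
    (K0 * a + K1 * b + K2 * c + K3 * d + p + q + x + r + y + z) ^ 4 =
      24 * (K0 * K1 * K2 * K3 + (K2 * K3 * D01 + K1 * K3 * D02 + K1 * K2 * D03 + K0 * K3 * D12 + K0 * K2 * D13 + K0 * K1 * D23) +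
        (D01 * D23 + D02 * D13 + D03 * D12) + (K3 * T012 + K2 * T013 + K1 * T023 + K0 * T123) + (q1 + q2 + q3)) * (a * b * c * d) := by
  linear_combination (a ^ 2 * K0 ^ 4 + 4 * a * b * K0 ^ 3 * K1 + 4 * a * c * K0 ^ 3 * K2 + 4 * a * d * K0 ^ 3 * K3 + 4 * a * p * K0 ^ 3 + 4 * a * q * K0 ^ 3 + 4 * a * x * K0 ^ 3 + 4 * a * r * K0 ^ 3 + 4 * a * y * K0 ^ 3 + 4 * a * z * K0 ^ 3 + 6 * b ^ 2 * K0 ^ 2 * K1 ^ 2 + 12 * b * c * K0 ^ 2 * K1 * K2 + 12 * b * d * K0 ^ 2 * K1 * K3 + 12 * b * p * K0 ^ 2 * K1 + 12 * b * q * K0 ^ 2 * K1 + 12 * b * x * K0 ^ 2 * K1 + 12 * b * r * K0 ^ 2 * K1 + 12 * b * y * K0 ^ 2 * K1 + 12 * b * z * K0 ^ 2 * K1 + 6 * c ^ 2 * K0 ^ 2 * K2 ^ 2 + 12 * c * d * K0 ^ 2 * K2 * K3 + 12 * c * p * K0 ^ 2 * K2 + 12 * c * q * K0 ^ 2 * K2 + 12 * c * x * K0 ^ 2 * K2 + 12 * c * r * K0 ^ 2 * K2 + 12 * c * y * K0 ^ 2 *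 K2 + 12 * c * z * K0 ^ 2 * K2 + 6 * d ^ 2 * K0 ^ 2 * K3 ^ 2 + 12 * d * p * K0 ^ 2 * K3 + 12 * d * q * K0 ^ 2 * K3 + 12 * d * x * K0 ^ 2 * K3 + 12 * d * r * K0 ^ 2 * K3 + 12 * d * y * K0 ^ 2 * K3 + 12 * d * z * K0 ^ 2 * K3 + 6 * p ^ 2 * K0 ^ 2 + 12 * p * q * K0 ^ 2 + 12 * p * x * K0 ^ 2 + 12 * p * r * K0 ^ 2 + 12 * p * y * K0 ^ 2 + 12 * p * z * K0 ^ 2 + 6 * q ^ 2 * K0 ^ 2 + 12 * q * x * K0 ^ 2 + 12 * q * r * K0 ^ 2 + 12 * q * y * K0 ^ 2 + 12 * q * z * K0 ^ 2 + 6 * x ^ 2 * K0 ^ 2 + 12 * x * r * K0 ^ 2 + 12 * x * y * K0 ^ 2 + 12 * x * z * K0 ^ 2 + 6 * r ^ 2 * K0 ^ 2 + 12 * r * y * K0 ^ 2 + 12 * r * z * K0 ^ 2 + 6 * y ^ 2 * K0 ^ 2 + 12 * y * z * K0 ^ 2 + 6 * z ^ 2 * K0 ^ 2) * hvva +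
    (4 * a * b * K0 * K1 ^ 3 + 12 * a * c * K0 * K1 ^ 2 * K2 + 12 * a * d * K0 * K1 ^ 2 * K3 + 12 * a * p * K0 * K1 ^ 2 + 12 * a * q * K0 * K1 ^ 2 + 12 * a * x * K0 * K1 ^ 2 + 12 * a * r * K0 * K1 ^ 2 + 12 * a * y * K0 * K1 ^ 2 + 12 * a * z * K0 * K1 ^ 2 + b ^ 2 * K1 ^ 4 + 4 * b * c * K1 ^ 3 * K2 + 4 * b * d * K1 ^ 3 * K3 + 4 * b * p * K1 ^ 3 + 4 * b * q * K1 ^ 3 + 4 * b * x * K1 ^ 3 + 4 * b * r * K1 ^ 3 + 4 * b * y * K1 ^ 3 + 4 * b * z * K1 ^ 3 + 6 * c ^ 2 * K1 ^ 2 * K2 ^ 2 + 12 * c * d * K1 ^ 2 * K2 * K3 + 12 * c * p * K1 ^ 2 * K2 + 12 * c * q * K1 ^ 2 * K2 + 12 * c * x * K1 ^ 2 * K2 + 12 * c * r * K1 ^ 2 * K2 + 12 * c * y * K1 ^ 2 * K2 + 12 * c * z * K1 ^ 2 * K2 + 6 * d ^ 2 * K1 ^ 2 * K3 ^ 2 + 12 * d * p * K1 ^ 2 * K3 + 12 * d * q * K1 ^ 2 * K3 + 12 * d * x * K1 ^ 2 * K3 + 12 * d * r * K1 ^ 2 * K3 + 12 * d * y *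 K1 ^ 2 * K3 + 12 * d * z * K1 ^ 2 * K3 + 6 * p ^ 2 * K1 ^ 2 + 12 * p * q * K1 ^ 2 + 12 * p * x * K1 ^ 2 + 12 * p * r * K1 ^ 2 + 12 * p * y * K1 ^ 2 + 12 * p * z * K1 ^ 2 + 6 * q ^ 2 * K1 ^ 2 + 12 * q * x * K1 ^ 2 + 12 * q * r * K1 ^ 2 + 12 * q * y * K1 ^ 2 + 12 * q * z * K1 ^ 2 + 6 * x ^ 2 * K1 ^ 2 + 12 * x * r * K1 ^ 2 + 12 * x * y * K1 ^ 2 + 12 * x * z * K1 ^ 2 + 6 * r ^ 2 * K1 ^ 2 + 12 * r * y * K1 ^ 2 + 12 * r * z * K1 ^ 2 + 6 * y ^ 2 * K1 ^ 2 + 12 * y * z * K1 ^ 2 + 6 * z ^ 2 * K1 ^ 2) * hvvb +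
    (12 * a * b * K0 * K1 * K2 ^ 2 + 4 * a * c * K0 * K2 ^ 3 + 12 * a * d * K0 * K2 ^ 2 * K3 + 12 * a * p * K0 * K2 ^ 2 + 12 * a * q * K0 * K2 ^ 2 + 12 * a * x * K0 * K2 ^ 2 + 12 * a * r * K0 * K2 ^ 2 + 12 * a * y * K0 * K2 ^ 2 + 12 * a * z * K0 * K2 ^ 2 + 4 * b * c * K1 * K2 ^ 3 + 12 * b * d * K1 * K2 ^ 2 * K3 + 12 * b * p * K1 * K2 ^ 2 + 12 * b * q * K1 * K2 ^ 2 + 12 * b * x * K1 * K2 ^ 2 + 12 * b * r * K1 * K2 ^ 2 + 12 * b * y * K1 * K2 ^ 2 + 12 * b * z * K1 * K2 ^ 2 + c ^ 2 * K2 ^ 4 + 4 * c * d * K2 ^ 3 * K3 + 4 * c * p * K2 ^ 3 + 4 * c * q * K2 ^ 3 + 4 * c * x * K2 ^ 3 + 4 * c * r * K2 ^ 3 + 4 * c * y * K2 ^ 3 + 4 * c * z * K2 ^ 3 + 6 * d ^ 2 * K2 ^ 2 * K3 ^ 2 + 12 * d * p * K2 ^ 2 * K3 + 12 * d * q * K2 ^ 2 * K3 + 12 * d * x * K2 ^ 2 * K3 + 12 * d * r * K2 ^ 2 * K3 + 12 * d * y * K2 ^ 2 * K3 + 12 * d * z * K2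 ^ 2 * K3 + 6 * p ^ 2 * K2 ^ 2 + 12 * p * q * K2 ^ 2 + 12 * p * x * K2 ^ 2 + 12 * p * r * K2 ^ 2 + 12 * p * y * K2 ^ 2 + 12 * p * z * K2 ^ 2 + 6 * q ^ 2 * K2 ^ 2 + 12 * q * x * K2 ^ 2 + 12 * q * r * K2 ^ 2 + 12 * q * y * K2 ^ 2 + 12 * q * z * K2 ^ 2 + 6 * x ^ 2 * K2 ^ 2 + 12 * x * r * K2 ^ 2 + 12 * x * y * K2 ^ 2 + 12 * x * z * K2 ^ 2 + 6 * r ^ 2 * K2 ^ 2 + 12 * r * y * K2 ^ 2 + 12 * r * z * K2 ^ 2 + 6 * y ^ 2 * K2 ^ 2 + 12 * y * z * K2 ^ 2 + 6 * z ^ 2 * K2 ^ 2) * hvvc +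
    (12 * a * b * K0 * K1 * K3 ^ 2 + 12 * a * c * K0 * K2 * K3 ^ 2 + 4 * a * d * K0 * K3 ^ 3 + 12 * a * p * K0 * K3 ^ 2 + 12 * a * q * K0 * K3 ^ 2 + 12 * a * x * K0 * K3 ^ 2 + 12 * a * r * K0 * K3 ^ 2 + 12 * a * y * K0 * K3 ^ 2 + 12 * a * z * K0 * K3 ^ 2 + 12 * b * c * K1 * K2 * K3 ^ 2 + 4 * b * d * K1 * K3 ^ 3 + 12 * b * p * K1 * K3 ^ 2 + 12 * b * q * K1 * K3 ^ 2 + 12 * b * x * K1 * K3 ^ 2 + 12 * b * r * K1 * K3 ^ 2 + 12 * b * y * K1 * K3 ^ 2 + 12 * b * z * K1 * K3 ^ 2 + 4 * c * d * K2 * K3 ^ 3 + 12 * c * p * K2 * K3 ^ 2 + 12 * c * q * K2 * K3 ^ 2 + 12 * c * x * K2 * K3 ^ 2 + 12 * c * r * K2 * K3 ^ 2 + 12 * c * y * K2 * K3 ^ 2 + 12 * c * z * K2 * K3 ^ 2 + d ^ 2 * K3 ^ 4 + 4 * d * p * K3 ^ 3 + 4 * d * q * K3 ^ 3 + 4 * d * x * K3 ^ 3 + 4 * d * r * K3 ^ 3 + 4 * d * y * K3 ^ 3 + 4 * d * z * K3 ^ 3 + 6 * p ^ 2 * K3 ^ 2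 + 12 * p * q * K3 ^ 2 + 12 * p * x * K3 ^ 2 + 12 * p * r * K3 ^ 2 + 12 * p * y * K3 ^ 2 + 12 * p * z * K3 ^ 2 + 6 * q ^ 2 * K3 ^ 2 + 12 * q * x * K3 ^ 2 + 12 * q * r * K3 ^ 2 + 12 * q * y * K3 ^ 2 + 12 * q * z * K3 ^ 2 + 6 * x ^ 2 * K3 ^ 2 + 12 * x * r * K3 ^ 2 + 12 * x * y * K3 ^ 2 + 12 * x * z * K3 ^ 2 + 6 * r ^ 2 * K3 ^ 2 + 12 * r * y * K3 ^ 2 + 12 * r * z * K3 ^ 2 + 6 * y ^ 2 * K3 ^ 2 + 12 * y * z * K3 ^ 2 + 6 * z ^ 2 * K3 ^ 2) * hvvd +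
    (24 * b * c * K0 * K1 * K2 + 24 * b * d * K0 * K1 * K3 + 12 * b * p * K0 * K1 + 24 * b * q * K0 * K1 + 24 * b * x * K0 * K1 + 24 * b * r * K0 * K1 + 24 * b * y * K0 * K1 + 24 * b * z * K0 * K1 + 24 * c * d * K0 * K2 * K3 + 12 * c * p * K0 * K2 + 24 * c * q * K0 * K2 + 24 * c * x * K0 * K2 + 24 * c * r * K0 * K2 + 24 * c * y * K0 * K2 + 24 * c * z * K0 * K2 + 12 * d * p * K0 * K3 + 24 * d * q * K0 * K3 + 24 * d * x * K0 * K3 + 24 * d * r * K0 * K3 + 24 * d * y * K0 * K3 + 24 * d * z * K0 * K3 + 4 * p ^ 2 * K0 + 12 * p * q * K0 + 12 * p * x * K0 + 12 * p * r * K0 + 12 * p * y * K0 + 12 * p * z * K0 + 12 * q ^ 2 * K0 + 24 * q * x * K0 + 24 * q * r * K0 + 24 * q * y * K0 + 24 * q * z * K0 + 12 * x ^ 2 * K0 + 24 * x * r * K0 + 24 * x * y * K0 + 24 * x * z * K0 + 12 * r ^ 2 * K0 + 24 * r * y * K0 + 24 * r * z * K0 +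 12 * y ^ 2 * K0 + 24 * y * z * K0 + 12 * z ^ 2 * K0 + 8 * b * c * K2 * D01 + 24 * c * d * K2 * D03 + 8 * b * d * K3 * D01 + 24 * c * d * K3 * D02 + 2 * b * p * D01 + 8 * b * q * D01 + 8 * b * x * D01 + 8 * b * r * D01 + 8 * b * y * D01 + 8 * b * z * D01 + 8 * c * q * D02 + 24 * c * x * D02 + 24 * c * r * D02 + 24 * c * y * D02 + 24 * c * z * D02 + 24 * d * q * D03 + 24 * c * d * T023 + 8 * d * x * D03 + 24 * d * r * D03 + 24 * d * y * D03 + 24 * d * z * D03) * hvmap +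
    (24 * b * c * K0 * K1 * K2 + 24 * b * d * K0 * K1 * K3 + 12 * b * q * K0 * K1 + 24 * b * x * K0 * K1 + 24 * b * r * K0 * K1 + 24 * b * y * K0 * K1 + 24 * b * z * K0 * K1 + 24 * c * d * K0 * K2 * K3 + 12 * c * q * K0 * K2 + 24 * c * x * K0 * K2 + 24 * c * r * K0 * K2 + 24 * c * y * K0 * K2 + 24 * c * z * K0 * K2 + 12 * d * q * K0 * K3 + 24 * d * x * K0 * K3 + 24 * d * r * K0 * K3 + 24 * d * y * K0 * K3 + 24 * d * z * K0 * K3 + 4 * q ^ 2 * K0 + 12 * q * x * K0 + 12 * q * r * K0 + 12 * q * y * K0 + 12 * q * z * K0 + 12 * x ^ 2 * K0 + 24 * x * r * K0 + 24 * x * y * K0 + 24 * x * z * K0 + 12 * r ^ 2 * K0 + 24 * r * y * K0 + 24 * r * z * K0 + 12 * y ^ 2 * K0 + 24 * y * z * K0 + 12 * z ^ 2 * K0 + 8 * b * c * K1 * D02 + 24 * b * d * K1 * D03 + 24 * b * d * K3 * D01 + 8 * c * d * K3 * D02 + 12 * b * q * D01 + 24 * b * x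 * D01 + 24 * b * r * D01 + 24 * b * y * D01 + 24 * b * z * D01 + 24 * b * d * T013 + 2 * c * q * D02 + 8 * c * x * D02 + 8 * c * r * D02 + 8 * c * y * D02 + 8 * c * z * D02 + 8 * d * x * D03 + 24 * d * r * D03 + 24 * d * y * D03 + 24 * d * z * D03) * hvmaq +
    (24 * b * c * K0 * K1 * K2 + 24 * b * d * K0 * K1 * K3 + 12 * b * x * K0 * K1 + 24 * b * r * K0 * K1 + 24 * b * y * K0 * K1 + 24 * b * z * K0 * K1 + 24 * c * d * K0 * K2 * K3 + 12 * c * x * K0 * K2 + 24 * c * r * K0 * K2 + 24 * c * y * K0 * K2 + 24 * c * z * K0 * K2 + 12 * d * x * K0 * K3 + 24 * d * r * K0 * K3 + 24 * d * y * K0 * K3 + 24 * d * z * K0 * K3 + 4 * x ^ 2 * K0 + 12 * x * r * K0 + 12 * x * y * K0 + 12 * x * z * K0 + 12 * r ^ 2 * K0 + 24 * r * y * K0 + 24 * r * z * K0 + 12 * y ^ 2 * K0 + 24 * y * z * K0 + 12 * z ^ 2 * K0 + 24 * b * c * K1 * D02 +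 8 * b * d * K1 * D03 + 24 * b * c * K2 * D01 + 8 * c * d * K2 * D03 + 12 * b * x * D01 + 24 * b * r * D01 + 24 * b * y * D01 + 24 * b * z * D01 + 24 * b * c * T012 + 12 * c * x * D02 + 24 * c * r * D02 + 24 * c * y * D02 + 24 * c * z * D02 + 2 * d * x * D03 + 8 * d * r * D03 + 8 * d * y * D03 + 8 * d * z * D03) * hvmax +
    (24 * c * d * K1 * K2 * K3 + 12 * c * p * K1 * K2 + 24 * c * q * K1 * K2 + 24 * c * x * K1 * K2 + 24 * c * r * K1 * K2 + 24 * c * y * K1 * K2 + 24 * c * z * K1 * K2 + 12 * d * p * K1 * K3 + 24 * d * q * K1 * K3 + 24 * d * x * K1 * K3 + 24 * d * r * K1 * K3 + 24 * d * y * K1 * K3 + 24 * d * z * K1 * K3 + 4 * p ^ 2 * K1 + 12 * p * q * K1 + 12 * p * x * K1 + 12 * p * r * K1 + 12 * p * y * K1 + 12 * p * z * K1 + 12 * q ^ 2 * K1 + 24 * q * x * K1 + 24 * q * r * K1 + 24 * q * y * K1 + 24 * q * z * K1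 + 12 * x ^ 2 * K1 + 24 * x * r * K1 + 24 * x * y * K1 + 24 * x * z * K1 + 12 * r ^ 2 * K1 + 24 * r * y * K1 + 24 * r * z * K1 + 12 * y ^ 2 * K1 + 24 * y * z * K1 + 12 * z ^ 2 * K1 + 24 * c * d * K2 * D13 + 24 * c * d * K3 * D12 + 24 * c * q * D12 + 24 * d * q * D13 + 24 * c * x * D12 + 24 * d * x * D13 + 8 * c * r * D12 + 24 * c * y * D12 + 24 * c * z * D12 + 24 * d * r * D13 + 24 * c * d * T123 + 8 * d * y * D13 + 24 * d * z * D13) * hvmbp +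
    (24 * a * c * K0 * K1 * K2 + 24 * a * d * K0 * K1 * K3 + 12 * a * r * K0 * K1 + 24 * a * y * K0 * K1 + 24 * a * z * K0 * K1 + 24 * c * d * K1 * K2 * K3 + 24 * c * q * K1 * K2 + 24 * c * x * K1 * K2 + 12 * c * r * K1 * K2 + 24 * c * y * K1 * K2 + 24 * c * z * K1 * K2 + 24 * d * q * K1 * K3 + 24 * d * x * K1 * K3 + 12 * d * r * K1 * K3 + 24 * d * y * K1 * K3 + 24 * d * z * K1 * K3 + 12 * q ^ 2 * K1 + 24 * q * x * K1 + 12 * q * r * K1 + 24 * q * y * K1 + 24 * q * z * K1 + 12 * x ^ 2 * K1 + 12 * x * r * K1 + 24 * x * y * K1 + 24 * x * z * K1 + 4 * r ^ 2 * K1 + 12 * r * y * K1 + 12 * r * z * K1 + 12 * y ^ 2 * K1 + 24 * y * z * K1 + 12 * z ^ 2 * K1 + 8 * a * c * K0 * D12 + 24 * a * d * K0 * D13 + 24 * a * d * K3 * D01 + 8 * c * d * K3 * D12 + 12 * a * r * D01 + 24 * a * y * D01 + 24 * a * z * D01 + 24 * a * d * T013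 + 8 * c * q * D12 + 24 * d * q * D13 + 8 * c * x * D12 + 24 * d * x * D13 + 2 * c * r * D12 + 8 * c * y * D12 + 8 * c * z * D12 + 8 * d * y * D13 + 24 * d * z * D13) * hvmbr +
    (24 * a * c * K0 * K1 * K2 + 24 * a * d * K0 * K1 * K3 + 12 * a * y * K0 * K1 + 24 * a * z * K0 * K1 + 24 * c * d * K1 * K2 * K3 + 24 * c * q * K1 * K2 + 24 * c * x * K1 * K2 + 12 * c * y * K1 * K2 + 24 * c * z * K1 * K2 + 24 * d * q * K1 * K3 + 24 * d * x * K1 * K3 + 12 * d * y * K1 * K3 + 24 * d * z * K1 * K3 + 12 * q ^ 2 * K1 + 24 * q * x * K1 + 12 * q * y * K1 + 24 * q * z * K1 + 12 * x ^ 2 * K1 + 12 * x * y * K1 + 24 * x * z * K1 + 4 * y ^ 2 * K1 + 12 * y * z * K1 + 12 * z ^ 2 * K1 + 24 * a * c * K0 * D12 + 8 * a * d * K0 * D13 + 24 * a * c * K2 * D01 + 8 * c * d * K2 * D13 + 12 * a * y * D01 + 24 * a * z * D01 + 24 * a * c * T012 +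 24 * c * q * D12 + 8 * d * q * D13 + 24 * c * x * D12 + 8 * d * x * D13 + 12 * c * y * D12 + 24 * c * z * D12 + 2 * d * y * D13 + 8 * d * z * D13) * hvmby +
    (24 * b * d * K1 * K2 * K3 + 12 * b * q * K1 * K2 + 24 * b * x * K1 * K2 + 24 * b * z * K1 * K2 + 24 * d * p * K2 * K3 + 12 * d * q * K2 * K3 + 24 * d * x * K2 * K3 + 24 * d * r * K2 * K3 + 24 * d * y * K2 * K3 + 24 * d * z * K2 * K3 + 12 * p ^ 2 * K2 + 12 * p * q * K2 + 24 * p * x * K2 + 24 * p * r * K2 + 24 * p * y * K2 + 24 * p * z * K2 + 4 * q ^ 2 * K2 + 12 * q * x * K2 + 12 * q * r * K2 + 12 * q * y * K2 + 12 * q * z * K2 + 12 * x ^ 2 * K2 + 24 * x * r * K2 + 24 * x * y * K2 + 24 * x * z * K2 + 12 * r ^ 2 * K2 + 24 * r * y * K2 + 24 * r * z * K2 + 12 * y ^ 2 * K2 + 24 * y * z * K2 + 12 * z ^ 2 * K2 + 24 * b * d * K1 * D23 + 24 * b * d * K3 * D12 + 24 *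 d * p * D23 + 24 * b * x * D12 + 24 * d * x * D23 + 24 * b * z * D12 + 24 * b * d * T123 + 24 * d * r * D23 + 24 * d * y * D23 + 8 * d * z * D23) * hvmcq +
    (24 * a * d * K0 * K2 * K3 + 12 * a * r * K0 * K2 + 24 * a * y * K0 * K2 + 24 * a * z * K0 * K2 + 24 * d * p * K2 * K3 + 24 * d * x * K2 * K3 + 12 * d * r * K2 * K3 + 24 * d * y * K2 * K3 + 24 * d * z * K2 * K3 + 12 * p ^ 2 * K2 + 24 * p * x * K2 + 12 * p * r * K2 + 24 * p * y * K2 + 24 * p * z * K2 + 12 * x ^ 2 * K2 + 12 * x * r * K2 + 24 * x * y * K2 + 24 * x * z * K2 + 4 * r ^ 2 * K2 + 12 * r * y * K2 + 12 * r * z * K2 + 12 * y ^ 2 * K2 + 24 * y * z * K2 + 12 * z ^ 2 * K2 + 24 * a * d * K0 * D23 + 24 * a * d * K3 * D02 + 24 * d * p * D23 + 12 * a * r * D02 + 24 * a * y * D02 + 24 * a * z * D02 + 24 * a * d * T023 + 24 * d * x * D23 + 24 * d * y * D23 + 8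 * d * z * D23) * hvmcr +
    (24 * a * b * K0 * K1 * K2 + 24 * a * d * K0 * K2 * K3 + 24 * a * y * K0 * K2 + 12 * a * z * K0 * K2 + 24 * b * d * K1 * K2 * K3 + 24 * b * x * K1 * K2 + 12 * b * z * K1 * K2 + 24 * d * p * K2 * K3 + 24 * d * x * K2 * K3 + 24 * d * y * K2 * K3 + 12 * d * z * K2 * K3 + 12 * p ^ 2 * K2 + 24 * p * x * K2 + 24 * p * y * K2 + 12 * p * z * K2 + 12 * x ^ 2 * K2 + 24 * x * y * K2 + 12 * x * z * K2 + 12 * y ^ 2 * K2 + 12 * y * z * K2 + 4 * z ^ 2 * K2 + 24 * a * b * K0 * D12 + 8 * a * d * K0 * D23 + 24 * a * b * K1 * D02 + 8 * b * d * K1 * D23 + 24 * a * b * T012 + 8 * d * p * D23 + 24 * a * y * D02 + 12 * a * z * D02 + 24 * b * x * D12 + 8 * d * x * D23 + 12 * b * z * D12 + 8 * d * y * D23 + 2 * d * z * D23) * hvmcz +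
    (24 * b * c * K1 * K2 * K3 + 24 * b * q * K1 * K3 + 12 * b * x * K1 * K3 + 24 * b * z * K1 * K3 + 24 * c * p * K2 * K3 + 12 * c * x * K2 * K3 + 24 * c * y * K2 * K3 + 12 * p ^ 2 * K3 + 24 * p * q * K3 + 12 * p * x * K3 + 24 * p * r * K3 + 24 * p * y * K3 + 24 * p * z * K3 + 12 * q ^ 2 * K3 + 12 * q * x * K3 + 24 * q * r * K3 + 24 * q * y * K3 + 24 * q * z * K3 + 4 * x ^ 2 * K3 + 12 * x * r * K3 + 12 * x * y * K3 + 12 * x * z * K3 + 12 * r ^ 2 * K3 + 24 * r * y * K3 + 24 * r * z * K3 + 12 * y ^ 2 * K3 + 24 * y * z * K3 + 12 * z ^ 2 * K3 + 24 * b * c * K1 * D23 + 24 * b * c * K2 * D13 + 24 * c * p * D23 + 24 * b * q * D13 + 24 * b * c * T123 + 24 * b * z * D13 + 24 * c * y * D23) * hvmdx +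
    (24 * a * c * K0 * K2 * K3 + 24 * a * r * K0 * K3 + 12 * a * y * K0 * K3 + 24 * a * z * K0 * K3 + 24 * c * p * K2 * K3 + 12 * c * y * K2 * K3 + 12 * p ^ 2 * K3 + 24 * p * q * K3 + 24 * p * r * K3 + 12 * p * y * K3 + 24 * p * z * K3 + 12 * q ^ 2 * K3 + 24 * q * r * K3 + 12 * q * y * K3 + 24 * q * z * K3 + 12 * r ^ 2 * K3 + 12 * r * y * K3 + 24 * r * z * K3 + 4 * y ^ 2 * K3 + 12 * y * z * K3 + 12 * z ^ 2 * K3 + 24 * a * c * K0 * D23 + 24 * a * c * K2 * D03 + 24 * c * p * D23 + 24 * a * c * T023 + 24 * a * r * D03 + 12 * a * y * D03 + 24 * a * z * D03) * hvmdy +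
    (24 * a * b * K0 * K1 * K3 + 24 * a * r * K0 * K3 + 12 * a * z * K0 * K3 + 24 * b * q * K1 * K3 + 12 * b * z * K1 * K3 + 12 * p ^ 2 * K3 + 24 * p * q * K3 + 24 * p * r * K3 + 12 * p * z * K3 + 12 * q ^ 2 * K3 + 24 * q * r * K3 + 12 * q * z * K3 + 12 * r ^ 2 * K3 + 12 * r * z * K3 + 4 * z ^ 2 * K3 + 24 * a * b * K0 * D13 + 24 * a * b * K1 * D03 + 24 * a * b * T013 + 24 * b * q * D13 + 24 * a * r * D03 + 12 * a * z * D03 + 12 * b * z * D13) * hvmdz +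
    (12 * c * d * K2 * K3 + 4 * c * p * K2 + 12 * c * x * K2 + 12 * c * y * K2 + 4 * d * p * K3 + 12 * d * q * K3 + 12 * d * r * K3 + p ^ 2 + 4 * p * q + 4 * p * x + 4 * p * r + 4 * p * y + 4 * p * z + 6 * q ^ 2 + 12 * q * x + 12 * q * r + 12 * q * y + 12 * q * z + 6 * x ^ 2 + 12 * x * r + 12 * x * y + 12 * x * z + 6 * r ^ 2 + 12 * r * y + 12 * r * z + 6 * y ^ 2 + 12 * y * z + 6 * z ^ 2) * hsqp +
    (12 * b * d * K1 * K3 + 4 * b * q * K1 + 12 * b * x * K1 + 12 * b * z * K1 + 12 * d * p * K3 + 4 * d * q * K3 + 12 * d * r * K3 + 4 * p * q + 12 * p * x + 12 * p * r + 12 * p * y + 12 * p * z + q ^ 2 + 4 * q * x + 4 * q * r + 4 * q * y + 4 * q * z + 6 * x ^ 2 + 12 * x * r + 12 * x * y + 12 * x * z + 6 * r ^ 2 + 12 * r * y + 12 * r * z + 6 * y ^ 2 + 12 * y * z + 6 * z ^ 2) * hsqq +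
    (12 * b * c * K1 * K2 + 12 * b * q * K1 + 4 * b * x * K1 + 12 * b * z * K1 + 12 * c * p * K2 + 4 * c * x * K2 + 12 * c * y * K2 + 12 * p * q + 4 * p * x + 12 * p * r + 12 * p * y + 12 * p * z + 4 * q * x + 12 * q * r + 12 * q * y + 12 * q * z + x ^ 2 + 4 * x * r + 4 * x * y + 4 * x * z + 6 * r ^ 2 + 12 * r * y + 12 * r * z + 6 * y ^ 2 + 12 * y * z + 6 * z ^ 2) * hsqx +
    (12 * a * d * K0 * K3 + 4 * a * r * K0 + 12 * a * y * K0 + 12 * a * z * K0 + 12 * d * p * K3 + 12 * d * q * K3 + 4 * d * r * K3 + 12 * p * q + 12 * p * x + 4 * p * r + 12 * p * y + 12 * p * z + 12 * q * x + 4 * q * r + 12 * q * y + 12 * q * z + 4 * x * r + 12 * x * y + 12 * x * z + r ^ 2 + 4 * r * y + 4 * r * z + 6 * y ^ 2 + 12 * y * z + 6 * z ^ 2 + 12 * a * d * D03) * hsqr +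
    (12 * a * c * K0 * K2 + 12 * a * r * K0 + 4 * a * y * K0 + 12 * a * z * K0 + 12 * c * p * K2 + 12 * c * x * K2 + 4 * c * y * K2 + 12 * p * q + 12 * p * x + 12 * p * r + 4 * p * y + 12 * p * z + 12 * q * x + 12 * q * r + 4 * q * y + 12 * q * z + 12 * x * r + 4 * x * y + 12 * x * z + 4 * r * y + 12 * r * z + y ^ 2 + 4 * y * z + 6 * z ^ 2 + 12 * a * c * D02) * hsqy +
    (12 * a * b * K0 * K1 + 12 * a * r * K0 + 12 * a * y * K0 + 4 * a * z * K0 + 12 * b * q * K1 + 12 * b * x * K1 + 4 * b * z * K1 + 12 * p * q + 12 * p * x + 12 * p * r + 12 * p * y + 4 * p * z + 12 * q * x + 12 * q * r + 12 * q * y + 4 * q * z + 12 * x * r + 12 * x * y + 4 * x * z + 12 * r * y + 4 * r * z + 4 * y * z + z ^ 2 + 12 * a * b * D01) * hsqz +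
    (24 * d * K3 + 24 * x + 24 * y + 24 * z) * htrT012 +
    (24 * c * K2 + 24 * q + 24 * r + 24 * z) * htrT013 +
    (24 * b * K1 + 24 * p + 24 * r + 24 * y) * htrT023 +
    (24 * a * K0 + 24 * p + 24 * q + 24 * x) * htrT123 +
    (24) * hcyq1 +
    (24) * hcyq2 +
    (24) * hcyq3

theorem Q4 {A : Type} [CommRing A] [Algebra ℝ A] (v : Fin 4 → A) (m : Fin 4 → Fin 4 → A) (k : Fin 4 → ℝ) (D : Fin 4 → Fin 4 → ℝ) (T : Fin 4 → Fin 4 → Fin 4 → ℝ) (q1 q2 q3 : ℝ)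
    (symm : ∀ a b, m a b = m b a) (vv : ∀ a, v a * v a = 0) (vm : ∀ a b, v a * m a b = 0)
    (sq : ∀ a b, a < b → m a b * m a b = (2 * D a b) • (v a * v b))
    (tri : ∀ a b c, a < b → b < c → m a b * m b c * m c a = T a b c • (v a * v b * v c))
    (h1 : m 0 1 * m 1 2 * m 2 3 * m 3 0 = q1 • (v 0 * v 1 * v 2 * v 3)) (h2 : m 0 1 * m 1 3 * m 3 2 * m 2 0 = q2 • (v 0 * v 1 * v 2 * v 3))
    (h3 : m 0 2 * m 2 1 * m 1 3 * m 3 0 = q3 • (v 0 * v 1 * v 2 * v 3)) (star : ∀ a b c d, m a b * m a c * m a d = 0) :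
    (k 0 • v 0 + k 1 • v 1 + k 2 • v 2 + k 3 • v 3 + m 0 1 + m 0 2 + m 0 3 + m 1 2 + m 1 3 + m 2 3) ^ 4 =
      (24 * (k 0 * k 1 * k 2 * k 3 +
        (k 2 * k 3 * D 0 1 + k 1 * k 3 * D 0 2 + k 1 * k 2 * D 0 3 + k 0 * k 3 * D 1 2 + k 0 * k 2 * D 1 3 + k 0 * k 1 * D 2 3) +
        (D 0 1 * D 2 3 + D 0 2 * D 1 3 + D 0 3 * D 1 2) + (k 3 * T 0 1 2 + k 2 * T 0 1 3 + k 1 * T 0 2 3 + k 0 * T 1 2 3) + (q1 + q2 + q3))) •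
        (v 0 * v 1 * v 2 * v 3) := by
  have vm1 : ∀ a b, v a * m b a = 0 := fun a b => by rw [symm b a]; exact vm a b
  have f : ℝ →+* A := algebraMap ℝ A
  have h24 : (24 : A) = algebraMap ℝ A 24 := by rw [map_ofNat]
  have h2' : (2 : A) = algebraMap ℝ A 2 := by rw [map_ofNat]
  have sqr : ∀ a b, a < b → m a b * m a b = 2 * algebraMap ℝ A (D a b) * v a * v b := by
    intro a b hab
    rw [sq a b hab, Algebra.smul_def, map_mul, ← h2']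
    ring
  have trr : ∀ a b c, a < b → b < c → m a b * m a c * m b c = algebraMap ℝ A (T a b c) * v a * v b * v c := by
    intro a b c hab hbc
    have h := tri a b c hab hbc
    rw [symm c a, Algebra.smul_def] at h
    linear_combination h
  have key := q4_ring (v 0) (v 1) (v 2) (v 3) (m 0 1) (m 0 2) (m 0 3) (m 1 2) (m 1 3) (m 2 3)
    (algebraMap ℝ A (k 0)) (algebraMap ℝ A (k 1)) (algebraMap ℝ A (k 2)) (algebraMap ℝ A (k 3))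
    (algebraMap ℝ A (D 0 1)) (algebraMap ℝ A (D 0 2)) (algebraMap ℝ A (D 0 3)) (algebraMap ℝ A (D 1 2)) (algebraMap ℝ A (D 1 3)) (algebraMap ℝ A (D 2 3))
    (algebraMap ℝ A (T 0 1 2)) (algebraMap ℝ A (T 0 1 3)) (algebraMap ℝ A (T 0 2 3)) (algebraMap ℝ A (T 1 2 3))
    (algebraMap ℝ A q1) (algebraMap ℝ A q2) (algebraMap ℝ A q3)
    (by rw [pow_two]; exact vv 0)
    (by rw [pow_two]; exact vv 1)
    (by rw [pow_two]; exact vv 2)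
    (by rw [pow_two]; exact vv 3)
    (vm 0 1)
    (vm 0 2)
    (vm 0 3)
    (vm1 1 0)
    (vm 1 2)
    (vm 1 3)
    (vm1 2 0)
    (vm1 2 1)
    (vm 2 3)
    (vm1 3 0)
    (vm1 3 1)
    (vm1 3 2)
    (by rw [pow_two, sqr 0 1 (by decide)]; ring)
    (by rw [pow_two, sqr 0 2 (by decide)]; ring)
    (by rw [pow_two, sqr 0 3 (by decide)]; ring)
    (by rw [pow_two, sqr 1 2 (by decide)]; ring)
    (by rw [pow_two, sqr 1 3 (by decide)]; ring)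
    (by rw [pow_two, sqr 2 3 (by decide)]; ring)
    (by rw [trr 0 1 2 (by decide) (by decide)]; ring)
    (by rw [trr 0 1 3 (by decide) (by decide)]; ring)
    (by rw [trr 0 2 3 (by decide) (by decide)]; ring)
    (by rw [trr 1 2 3 (by decide) (by decide)]; ring)
    (by have h := h1; rw [symm 3 0, Algebra.smul_def] at h; linear_combination h)
    (by have h := h2; rw [symm 3 2, symm 2 0, Algebra.smul_def] at h; linear_combination h)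
    (by have h := h3; rw [symm 2 1, symm 3 0, Algebra.smul_def] at h; linear_combination h)
  simp only [Algebra.smul_def, map_mul, map_add, map_ofNat]
  exact key

end H56C
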