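import Pool.Agent.Lib.H56C.Q2
import Pool.Agent.Lib.H56C.B3

/-!
# Q5 (M/L): the operator of a curvature tensor with four pairs

Sum over `i = jx a s`, `j = jx b t`, `k = jx a' s'`, `l = jx b' t'` (`B3_jx`, `B3_inj`: reindex the sums over `Fin 8` by `Fin 4 × Fin 2`). By `hQ` only the terms with `(a', b') = (a, b)` or `(b, a)` are nonzero.
* `a = b` (then `a' = b' = a`): `R (a s) (a t) (a s') (a t') • (z a s s' * z a t t')`: nonzero only for `s ≠ t`, `s' ≠ t'`: four terms, each `R (a0) (a1) (a0) (a1) • V a` (`z_mul`, skewness).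
* `a ≠ b`, `(a', b') = (a, b)`: `R (a s) (b t) (a s') (b t') • (z a s s' * z b t t')`: the sum over `s t s' t'` is `mm (bq R a b) a b`.
* `a ≠ b`, `(a', b') = (b, a)`: `R (a s) (b t) (b t') (a s') • (y (a s) (b t') * y (b t) (a s'))` with `R (a s) (b t) (b t') (a s') = -R (a s) (b t) (a s') (b t')` (skewness in the second pair) and
  `y (a s) (b t') * y (b t) (a s') = -y (a s) (a s') * y (b t) (b t')` (`y_anti`): again `mm (bq R a b) a b`.
So the sum is `∑ a, 4 κ a • V a + 2 ∑_{a ≠ b} mm (bq R a b) a b`, and `mm (bq R a b) a b = mm (bq R b a) b a` (`hR.pair`, `hR.skew`: `R (b t) (a s) (b t') (a s') = R (a s) (b t) (a s') (b t')`).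
-/

set_option autoImplicit false

open Finset

namespace H56C

open Pool.Agent.H69Hopf

variable {A : Type} [CommRing A] [Algebra ℝ A]

theorem q5_sum1 {B : Type} [AddCommMonoid B] (f : Fin 8 → B) : ∑ i, f i = ∑ a : Fin 4, ∑ s : Fin 2, f (jx a s) := by
  simp only [Fin.sum_univ_eight, Fin.sum_univ_four, Fin.sum_univ_two]
  have h : f (jx 0 0) = f 0 ∧ f (jx 0 1) = f 1 ∧ f (jx 1 0) = f 2 ∧ f (jx 1 1) = f 3 ∧ f (jx 2 0) = f 4 ∧ f (jx 2 1) = f 5 ∧
      f (jx 3 0) = f 6 ∧ f (jx 3 1) = f 7 := ⟨rfl, rfl, rfl, rfl, rfl, rfl, rfl, rfl⟩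
  obtain ⟨h0, h1, h2, h3, h4, h5, h6, h7⟩ := h
  rw [h0, h1, h2, h3, h4, h5, h6, h7]
  simp only [add_assoc]

theorem q5_sum2 {B : Type} [AddCommMonoid B] (g : Fin 8 → Fin 8 → B) :
    ∑ k, ∑ l, g k l = ∑ a : Fin 4, ∑ b : Fin 4, ∑ s : Fin 2, ∑ t : Fin 2, g (jx a s) (jx b t) := by
  rw [q5_sum1 (fun k => ∑ l, g k l)]
  refine sum_congr rfl fun a _ => ?_
  have h : ∀ s : Fin 2, ∑ l, g (jx a s) l = ∑ b : Fin 4, ∑ t : Fin 2, g (jx a s) (jx b t) := fun s =>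
    q5_sum1 (fun l => g (jx a s) l)
  rw [sum_congr rfl fun s _ => h s, sum_comm]

theorem q5_w1 {B : Type} [AddCommMonoid B] (W : Fin 4 → Fin 4 → B) (a : Fin 4)
    (h : ∀ a' b', ¬ (a' = a ∧ b' = a) → W a' b' = 0) : ∑ a', ∑ b', W a' b' = W a a := by
  rw [sum_eq_single a]
  · rw [sum_eq_single a]
    · intro b' _ hb
      exact h a b' fun h1 => hb h1.2
    · intro h1
      exact absurd (mem_univ a) h1
  · intro a' _ ha
    exact sum_eq_zero fun b' _ => h a' b' fun h1 => ha h1.1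
  · intro h1
    exact absurd (mem_univ a) h1

theorem q5_w2 {B : Type} [AddCommMonoid B] (W : Fin 4 → Fin 4 → B) {a b : Fin 4} (hab : a ≠ b)
    (h : ∀ a' b', ¬ (a' = a ∧ b' = b) → ¬ (a' = b ∧ b' = a) → W a' b' = 0) : ∑ a', ∑ b', W a' b' = W a b + W b a := by
  have h1 : ∑ a', ∑ b', W a' b' = ∑ a' ∈ ({a, b} : Finset (Fin 4)), ∑ b', W a' b' := by
    symm
    apply sum_subset (subset_univ _)
    intro x _ hx
    rw [mem_insert, mem_singleton, not_or] at hx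
    exact sum_eq_zero fun b' _ => h x b' (fun h2 => hx.1 h2.1) (fun h2 => hx.2 h2.1)
  rw [h1, sum_pair hab]
  congr 1
  · rw [sum_eq_single b]
    · intro b' _ hb
      exact h a b' (fun h2 => hb h2.2) (fun h2 => hab h2.1)
    · intro h2
      exact absurd (mem_univ b) h2
  · rw [sum_eq_single a]
    · intro b' _ hb
      exact h b b' (fun h2 => hab h2.1.symm) (fun h2 => hb h2.2)
    · intro h2
      exact absurd (mem_univ a) h2

theorem bq_symm {R : Arr 8} (hR : IsAlgCurv R) (a b : Fin 4) (s t s' t' : Fin 2) : bq R b a t s t' s' = bq R a b s t s' t' := by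
  unfold bq
  rw [hR.skew, hR.pair, hR.skew, hR.pair]
  ring

theorem q5_mm_symm (w : WI 8 A) (B : H30K.B4) (a b : Fin 4) : w.mm B a b = w.mm (fun s t s' t' => B t s t' s') b a := by
  unfold WI.mm
  rw [sum_comm]
  refine sum_congr rfl fun u _ => sum_congr rfl fun s _ => ?_
  rw [sum_comm]
  refine sum_congr rfl fun v _ => sum_congr rfl fun t _ => ?_
  rw [mul_comm]

theorem q5_diag (w : WI 8 A) {R : Arr 8} (hR : IsAlgCurv R) (a : Fin 4) :
    ∑ s : Fin 2, ∑ t : Fin 2, ∑ s' : Fin 2, ∑ t' : Fin 2, R (jx a s) (jx a t) (jx a s') (jx a t') •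
      (w.y (jx a s) (jx a s') * w.y (jx a t) (jx a t')) = ((4 : ℝ) * R (jx a 0) (jx a 1) (jx a 0) (jx a 1)) • w.V a := by
  have h1 : ∀ s t s' t' : Fin 2, w.y (jx a s) (jx a s') * w.y (jx a t) (jx a t') = et s s' t t' • w.V a := fun s t s' t' =>
    w.z_mul a s s' t t'
  have e1 : R (jx a 0) (jx a 1) (jx a 1) (jx a 0) = - R (jx a 0) (jx a 1) (jx a 0) (jx a 1) := by
    rw [hR.pair, hR.skew, hR.pair]
  have e2 : R (jx a 1) (jx a 0) (jx a 0) (jx a 1) = - R (jx a 0) (jx a 1) (jx a 0) (jx a 1) := by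
    rw [hR.skew]
  have e3 : R (jx a 1) (jx a 0) (jx a 1) (jx a 0) = R (jx a 0) (jx a 1) (jx a 0) (jx a 1) := by
    rw [hR.skew, e1, neg_neg]
  simp only [h1, Fin.sum_univ_two, smul_smul, ← add_smul]
  congr 1
  rw [e1, e2, e3]
  simp [et]
  ring

theorem q5_off (w : WI 8 A) {R : Arr 8} (hR : IsAlgCurv R) (a b : Fin 4) :
    ∑ s : Fin 2, ∑ t : Fin 2, ∑ s' : Fin 2, ∑ t' : Fin 2, R (jx a s) (jx b t) (jx b s') (jx a t') •
      (w.y (jx a s) (jx b s') * w.y (jx b t) (jx a t')) = w.mm (bq R a b) a b := by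
  unfold WI.mm
  refine sum_congr rfl fun s _ => sum_congr rfl fun t _ => ?_
  rw [sum_comm]
  refine sum_congr rfl fun t' _ => sum_congr rfl fun s' _ => ?_
  have e1 : R (jx a s) (jx b t) (jx b s') (jx a t') = - bq R a b s t t' s' := by
    unfold bq
    rw [hR.pair, hR.skew, hR.pair]
  rw [e1, w.anti, smul_neg, neg_smul, neg_neg]
  rfl

theorem q5_U (w : WI 8 A) {R : Arr 8} (hR : IsAlgCurv R) (hQ : Qud R) (a b : Fin 4) :
    ∑ s : Fin 2, ∑ t : Fin 2, ∑ k, ∑ l, R (jx a s) (jx b t) k l • (w.y (jx a s) k * w.y (jx b t) l) =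
      if a = b then ((4 : ℝ) * R (jx a 0) (jx a 1) (jx a 0) (jx a 1)) • w.V a else (2 : ℝ) • w.mm (bq R a b) a b := by
  by_cases hab : a = b
  · subst hab
    rw [if_pos rfl, ← q5_diag w hR a]
    refine sum_congr rfl fun s _ => sum_congr rfl fun t _ => ?_
    rw [q5_sum2]
    refine q5_w1 _ a fun a' b' h => ?_
    refine sum_eq_zero fun s' _ => sum_eq_zero fun t' _ => ?_
    have h0 : R (jx a s) (jx a t) (jx a' s') (jx b' t') = 0 := by
      by_contra h1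
      rcases hQ _ _ _ _ _ _ _ _ h1 with h2 | h2
      · exact h ⟨h2.1.symm, h2.2.symm⟩
      · exact h ⟨h2.2.symm, h2.1.symm⟩
    rw [h0, zero_smul]
  · rw [if_neg hab, two_smul]
    have h3 : w.mm (bq R a b) a b = ∑ s : Fin 2, ∑ t : Fin 2, ∑ s' : Fin 2, ∑ t' : Fin 2,
        R (jx a s) (jx b t) (jx a s') (jx b t') • (w.y (jx a s) (jx a s') * w.y (jx b t) (jx b t')) := rfl
    have h4 := q5_off w hR a b
    have h5 : w.mm (bq R a b) a b + w.mm (bq R a b) a b = ∑ s : Fin 2, ∑ t : Fin 2, (∑ s' : Fin 2, ∑ t' : Fin 2,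
        R (jx a s) (jx b t) (jx a s') (jx b t') • (w.y (jx a s) (jx a s') * w.y (jx b t) (jx b t')) +
        ∑ s' : Fin 2, ∑ t' : Fin 2, R (jx a s) (jx b t) (jx b s') (jx a t') •
          (w.y (jx a s) (jx b s') * w.y (jx b t) (jx a t'))) := by
      simp only [sum_add_distrib]
      rw [h4, ← h3]
    rw [h5]
    refine sum_congr rfl fun s _ => sum_congr rfl fun t _ => ?_
    rw [q5_sum2]
    refine q5_w2 (fun a' b' => ∑ s' : Fin 2, ∑ t' : Fin 2, R (jx a s) (jx b t) (jx a' s') (jx b' t') •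
      (w.y (jx a s) (jx a' s') * w.y (jx b t) (jx b' t'))) hab fun a' b' h h' => ?_
    refine sum_eq_zero fun s' _ => sum_eq_zero fun t' _ => ?_
    have h0 : R (jx a s) (jx b t) (jx a' s') (jx b' t') = 0 := by
      by_contra h1
      rcases hQ _ _ _ _ _ _ _ _ h1 with h2 | h2
      · exact h ⟨h2.1.symm, h2.2.symm⟩
      · exact h' ⟨h2.2.symm, h2.1.symm⟩
    rw [h0, zero_smul]

theorem Q5 (w : WI 8 A) {R : Arr 8} (hR : IsAlgCurv R) (hQ : Qud R) :
    ∑ i, ∑ j, ∑ k, ∑ l, R i j k l • (w.y i k * w.y j l) =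
      (4 : ℝ) • (R (jx 0 0) (jx 0 1) (jx 0 0) (jx 0 1) • w.V 0 + R (jx 1 0) (jx 1 1) (jx 1 0) (jx 1 1) • w.V 1 +
        R (jx 2 0) (jx 2 1) (jx 2 0) (jx 2 1) • w.V 2 + R (jx 3 0) (jx 3 1) (jx 3 0) (jx 3 1) • w.V 3 +
        w.mm (bq R 0 1) 0 1 + w.mm (bq R 0 2) 0 2 + w.mm (bq R 0 3) 0 3 + w.mm (bq R 1 2) 1 2 + w.mm (bq R 1 3) 1 3 + w.mm (bq R 2 3) 2 3) := by
  have hs : ∀ a b : Fin 4, w.mm (bq R b a) b a = w.mm (bq R a b) a b := by
    intro a b
    rw [q5_mm_symm w (bq R a b) a b]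
    have h1 : (fun s t s' t' => bq R a b t s t' s') = bq R b a := by
      funext s t s' t'
      exact (bq_symm hR a b t s t' s').symm
    rw [h1]
  rw [q5_sum2]
  have h2 : ∑ a : Fin 4, ∑ b : Fin 4, ∑ s : Fin 2, ∑ t : Fin 2, ∑ k, ∑ l,
      R (jx a s) (jx b t) k l • (w.y (jx a s) k * w.y (jx b t) l) = ∑ a : Fin 4, ∑ b : Fin 4,
      if a = b then ((4 : ℝ) * R (jx a 0) (jx a 1) (jx a 0) (jx a 1)) • w.V a else (2 : ℝ) • w.mm (bq R a b) a b :=
    sum_congr rfl fun a _ => sum_congr rfl fun b _ => q5_U w hR hQ a b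
  rw [h2]
  simp only [Fin.sum_univ_four, if_true, Fin.isValue, zero_ne_one, one_ne_zero, if_false, Fin.reduceEq]
  rw [hs 0 1, hs 0 2, hs 0 3, hs 1 2, hs 1 3, hs 2 3]
  module

end H56C
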