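import Pool.Agent.Lib.H56C.Q1
import Pool.Agent.Lib.H56C.Q3A
import Pool.Agent.Lib.H56C.Q3B
import Pool.Agent.Lib.H56C.Q4
import Pool.Agent.Lib.H56C.Q5

/-!
# Q6 (M): the Gauss-Bonnet integrand for four pairs

`Q1` gives `A`, `w`, `phi`; `Q5`, `Q4` with `v = w.V`, `m a b = mm (bq R a b) a b` (for `a ≠ b`; `m a a` must satisfy the hypotheses too: take `m a b = if a = b then 0 else mm (bq R a b) a b`), `D a b = DD (bq R a b)`, `T a b c = TT (bq R a b) (bq R b c)
(bq R c a)`. `symm`: `mm_symm`, `bq_symm`. `sq`: `mm_sq` with `Q6_S4`. `(4 • X) ^ 4 = 256 • X ^ 4`.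
`Q6_S4`: as `P7_S4` (`Lib/H30K/P7B.lean`): `pair`: `hR.pair`; `bi`: Bianchi identity, `R (a s) (a s') (b t) (b t') = 0` by `Qud` (`a ≠ b`).
`Q6_neg`: `EQ` has degree four: `DD (-B) = DD B` (`P7_DD_neg`), `TT (-P) (-Q) (-S) = -TT P Q S` (`P7_TT_neg`), `TT4 (-P) .. = TT4 P ..`.
-/

set_option autoImplicit false

open Finset

namespace H56C

open Pool.Agent.H69Hopf

theorem q6_TT4_neg (P Q S U : H30K.B4) : TT4 (-P) (-Q) (-S) (-U) = TT4 P Q S U := by
  unfold TT4
  refine Finset.sum_congr rfl fun a _ => Finset.sum_congr rfl fun b _ => Finset.sum_congr rfl fun c _ =>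
    Finset.sum_congr rfl fun e _ => Finset.sum_congr rfl fun a' _ => Finset.sum_congr rfl fun b' _ =>
    Finset.sum_congr rfl fun c' _ => Finset.sum_congr rfl fun e' _ => ?_
  simp only [Pi.neg_apply]
  ring

theorem Q6_S4 {R : Arr 8} (hR : IsAlgCurv R) (hQ : Qud R) {a b : Fin 4} (hab : a ≠ b) : H30K.S4 (bq R a b) := by
  refine ⟨fun s t s' t' => ?_, fun s t s' t' => ?_⟩
  · show R (jx a s) (jx b t) (jx a s') (jx b t') = R (jx a s') (jx b t') (jx a s) (jx b t)
    rw [hR.pair]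
  · show R (jx a s) (jx b t) (jx a s') (jx b t') = R (jx a s) (jx b t') (jx a s') (jx b t)
    have h1 := hR.bianchi (jx a s) (jx b t) (jx a s') (jx b t')
    have h2 : R (jx a s') (jx a s) (jx b t) (jx b t') = 0 := by
      by_contra hne
      rcases hQ a a b b s' s t t' hne with h | h
      · exact hab h.1
      · exact hab h.1
    have h3 : R (jx b t) (jx a s') (jx a s) (jx b t') = -R (jx a s) (jx b t') (jx a s') (jx b t) := by
      rw [hR.skew (jx b t), hR.pair (jx a s') (jx b t)]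
    rw [h2, h3] at h1
    linarith

theorem q6_pow {A : Type} [CommRing A] [Algebra ℝ A] (w : WI 8 A) {R : Arr 8} (hR : IsAlgCurv R) (hQ : Qud R) :
    (∑ i, ∑ j, ∑ k, ∑ l, R i j k l • (w.y i k * w.y j l)) ^ 4 =
      (6144 * EQ (fun a => R (jx a 0) (jx a 1) (jx a 0) (jx a 1)) (bq R)) • (w.V 0 * w.V 1 * w.V 2 * w.V 3) := by
  obtain ⟨m, hm⟩ : ∃ m : Fin 4 → Fin 4 → A, ∀ a b, m a b = if a = b then 0 else w.mm (bq R a b) a b :=
    ⟨_, fun _ _ => rfl⟩
  have hne : ∀ a b, a ≠ b → m a b = w.mm (bq R a b) a b := fun a b h => by rw [hm, if_neg h]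
  have heq : ∀ a, m a a = 0 := fun a => by rw [hm, if_pos rfl]
  have symm : ∀ a b, m a b = m b a := by
    intro a b
    by_cases h : a = b
    · rw [h]
    · rw [hne a b h, hne b a (Ne.symm h), w.mm_symm]
      have e : (fun s t s' t' => bq R a b t s t' s') = bq R b a := by
        funext s t s' t'
        exact bq_symm hR b a s t s' t'
      rw [e]
  have vv : ∀ a, w.V a * w.V a = 0 := fun a => w.V_sq a
  have vm : ∀ a b, w.V a * m a b = 0 := by
    intro a b
    by_cases h : a = b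
    · rw [h, heq, mul_zero]
    · rw [hne a b h, w.V_mm]
  have sq : ∀ a b, a < b → m a b * m a b = (2 * (fun a b => H30K.DD (bq R a b)) a b) • (w.V a * w.V b) := by
    intro a b h
    rw [hne a b h.ne, w.mm_sq (Q6_S4 hR hQ h.ne)]
  have tri : ∀ a b c, a < b → b < c →
      m a b * m b c * m c a = (fun a b c => H30K.TT (bq R a b) (bq R b c) (bq R c a)) a b c • (w.V a * w.V b * w.V c) := by
    intro a b c h1 h2
    rw [hne a b h1.ne, hne b c h2.ne, hne c a (h1.trans h2).ne', w.mm_tri]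
  have star : ∀ a b c d, m a b * m a c * m a d = 0 := by
    intro a b c d
    by_cases h1 : a = b
    · rw [← h1, heq, zero_mul, zero_mul]
    by_cases h2 : a = c
    · rw [← h2, heq, mul_zero, zero_mul]
    by_cases h3 : a = d
    · rw [← h3, heq, mul_zero]
    rw [hne a b h1, hne a c h2, hne a d h3, w.mm_star]
  have h1 : m 0 1 * m 1 2 * m 2 3 * m 3 0 =
      TT4 (bq R 0 1) (bq R 1 2) (bq R 2 3) (bq R 3 0) • (w.V 0 * w.V 1 * w.V 2 * w.V 3) := by
    rw [hne 0 1 (by decide), hne 1 2 (by decide), hne 2 3 (by decide), hne 3 0 (by decide), w.mm_quad]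
  have h2 : m 0 1 * m 1 3 * m 3 2 * m 2 0 =
      TT4 (bq R 0 1) (bq R 1 3) (bq R 3 2) (bq R 2 0) • (w.V 0 * w.V 1 * w.V 2 * w.V 3) := by
    rw [hne 0 1 (by decide), hne 1 3 (by decide), hne 3 2 (by decide), hne 2 0 (by decide), w.mm_quad,
      mul_right_comm (w.V 0 * w.V 1) (w.V 3) (w.V 2)]
  have h3 : m 0 2 * m 2 1 * m 1 3 * m 3 0 =
      TT4 (bq R 0 2) (bq R 2 1) (bq R 1 3) (bq R 3 0) • (w.V 0 * w.V 1 * w.V 2 * w.V 3) := by
    rw [hne 0 2 (by decide), hne 2 1 (by decide), hne 1 3 (by decide), hne 3 0 (by decide), w.mm_quad,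
      mul_right_comm (w.V 0) (w.V 2) (w.V 1)]
  have key := Q4 w.V m (fun a => R (jx a 0) (jx a 1) (jx a 0) (jx a 1)) (fun a b => H30K.DD (bq R a b))
    (fun a b c => H30K.TT (bq R a b) (bq R b c) (bq R c a)) _ _ _ symm vv vm sq tri h1 h2 h3 star
  rw [Q5 w hR hQ, smul_pow, ← hne 0 1 (by decide), ← hne 0 2 (by decide), ← hne 0 3 (by decide),
    ← hne 1 2 (by decide), ← hne 1 3 (by decide), ← hne 2 3 (by decide)]
  refine (congrArg (fun t => (4 : ℝ) ^ 4 • t) key).trans ?_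
  rw [smul_smul]
  congr 1
  unfold EQ
  ring

theorem Q6 {R : Arr 8} (hR : IsAlgCurv R) (hQ : Qud R) :
    gaussBonnet 4 R = 6144 * EQ (fun a => R (jx a 0) (jx a 1) (jx a 0) (jx a 1)) (bq R) := by
  obtain ⟨A, iA, iB, w, phi, hgb, hV⟩ := Q1
  rw [hgb R, q6_pow w hR hQ, map_smul, hV, smul_eq_mul, mul_one]

theorem Q6_neg (k : Fin 4 → ℝ) (B : Fin 4 → Fin 4 → H30K.B4) : EQ (fun a => -k a) (fun a b => -B a b) = EQ k B := by
  unfold EQ
  have e : ∀ a b, (fun a b => -B a b) a b = -B a b := fun _ _ => rfl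
  simp only [H30K.P7_DD_neg, H30K.P7_TT_neg, q6_TT4_neg]
  ring

end H56C
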