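import Pool.Agent.Lib.H56C.Defs

/-!
# QD: commutative algebras with the relations of the partial derivatives on alternating polynomials

`WI N A`: a commutative `ℝ`-algebra `A` with elements `y i j` with `y i j * y i l = 0` and `y i k * y j l = - y i l * y j k` (the partial derivatives of the determinant satisfy these relations). `z`, `V`, `mm`: the elements of the four blocks of `Fin 8`.
-/

set_option autoImplicit false

open Finset

namespace H56C

/-- elements with the relations of the partial derivatives of the determinant -/
structure WI (N : ℕ) (A : Type) [CommRing A] [Algebra ℝ A] where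
  /-- the generators -/
  y : Fin N → Fin N → A
  row : ∀ i j l, y i j * y i l = 0
  anti : ∀ i j k l, y i k * y j l = -(y i l * y j k)

variable {A : Type} [CommRing A] [Algebra ℝ A]

/-- the elements of the block `a` -/
def WI.z (w : WI 8 A) (a : Fin 4) (s t : Fin 2) : A := w.y (jx a s) (jx a t)

/-- the top element of the block `a` -/
def WI.V (w : WI 8 A) (a : Fin 4) : A := w.z a 0 0 * w.z a 1 1

/-- the mixed element of the blocks `a`, `b` -/
noncomputable def WI.mm (w : WI 8 A) (B : H30K.B4) (a b : Fin 4) : A := ∑ s, ∑ u, ∑ t, ∑ v, B s u t v • (w.z a s t * w.z b u v)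

/-- `± 1` if the two elements are complementary -/
def et (s t s' t' : Fin 2) : ℝ := if s' = 1 - s ∧ t' = 1 - t then (-1) ^ (s.1 + t.1) else 0

end H56C
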