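import Pool.Agent.Lib.H56C.Stmt

/-!
# H56C: Codazzi tensors with few multiple eigenvalues, or with two eigenvalues, in charts
-/

set_option autoImplicit false

open scoped ContDiff Manifold
open Set

namespace H56C

open H31R H79G H30K

variable {d : ℕ}

/-- The bilinear form `b` has exactly two eigenvalues with respect to the scalar product `G`, both of multiplicity at most `5` (`β` = the eigenvalues, the columns of `E` = orthonormal eigenvectors). -/
def TwoAt (G b : Matrix (Fin d) (Fin d) ℝ) : Prop :=
  ∃ (E : Matrix (Fin d) (Fin d) ℝ) (β : Fin d → ℝ), E.transpose * G * E = 1 ∧ E.transpose * b * E = Matrix.diagonal β ∧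
    (∃ p q, β p ≠ β q ∧ ∀ i, β i = β p ∨ β i = β q) ∧ ∀ i, cl β i ≤ 5

variable {M : Type} [TopologicalSpace M] [ChartedSpace (EE d) M]

/-- Every nonempty open set of `M` contains a nonempty open set `U` on which there is a Codazzi tensor which has admissible multiplicities at some point of `U`, or exactly two eigenvalues, both of multiplicity at most `5`, at
every point of `U`. (In the charts `chartAt p`.) -/
def DenseMult2 (g : Ch.Metric d M) : Prop :=
  ∀ p : M, ∀ V : Set (EE d), V ⊆ (chartAt (EE d) p).target → IsOpen V → V.Nonempty →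
    ∃ U : Set (EE d), U ⊆ V ∧ IsOpen U ∧ U.Nonempty ∧ ∃ b : EE d → Matrix (Fin d) (Fin d) ℝ,
      IsCodazzi (g.mat p) U b ∧ ((∃ y ∈ U, AdmAt (g.mat p y) (b y)) ∨ ∀ y ∈ U, TwoAt (g.mat p y) (b y))

end H56C
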